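import Mathlib

set_option autoImplicit false

namespace Pool.Agent.P17c400

open Finset

section Mob

variable {ι : Type*} [DecidableEq ι]

/-- Moebius transform on the Boolean lattice. -/
def mob (g : Finset ι → ℝ) (D : Finset ι) : ℝ :=
  (-1) ^ D.card * ∑ D' ∈ D.powerset, (-1) ^ D'.card * g D'

theorem mob_insert (g : Finset ι → ℝ) {u : ι} {D : Finset ι} (hu : u ∉ D) :
    mob g (insert u D) = mob (fun X => g (insert u X)) D - mob g D := by
  unfold mob
  rw [Finset.sum_powerset_insert hu, Finset.card_insert_of_notMem hu]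
  have e : ∑ X ∈ D.powerset, (-1 : ℝ) ^ (insert u X).card * g (insert u X) =
      -∑ X ∈ D.powerset, (-1 : ℝ) ^ X.card * g (insert u X) := by
    rw [← Finset.sum_neg_distrib]
    apply Finset.sum_congr rfl
    intro X hX
    have : u ∉ X := fun h => hu (Finset.mem_powerset.mp hX h)
    rw [Finset.card_insert_of_notMem this]
    ring
  rw [e]
  ring

theorem sum_mob (J : Finset ι) : ∀ g : Finset ι → ℝ, ∑ D ∈ J.powerset, mob g D = g J := by
  induction J using Finset.induction_on with
  | empty => intro g; simp [mob]
  | insert u J hu ih =>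
    intro g
    rw [Finset.sum_powerset_insert hu, ← Finset.sum_add_distrib, ← ih (fun X => g (insert u X))]
    apply Finset.sum_congr rfl
    intro X hX
    have : u ∉ X := fun h => hu (Finset.mem_powerset.mp hX h)
    rw [mob_insert g this]
    ring

theorem mob_eq_zero (g : Finset ι → ℝ) {u : ι} {D : Finset ι} (hu : u ∈ D)
    (h : ∀ X ⊆ D.erase u, g (insert u X) = g X) : mob g D = 0 := by
  rw [← Finset.insert_erase hu, mob_insert g (Finset.notMem_erase u D), sub_eq_zero]
  unfold mob
  congr 1
  apply Finset.sum_congr rfl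
  intro X hX
  simp only [h X (Finset.mem_powerset.mp hX)]

omit [DecidableEq ι] in
theorem abs_mob_le (g : Finset ι → ℝ) (hg : ∀ X, |g X| ≤ 1) (D : Finset ι) :
    |mob g D| ≤ 2 ^ D.card := by
  unfold mob
  rw [abs_mul, abs_pow, abs_neg, abs_one, one_pow, one_mul]
  calc _ ≤ ∑ X ∈ D.powerset, |(-1 : ℝ) ^ X.card * g X| := Finset.abs_sum_le_sum_abs _ _
    _ ≤ ∑ X ∈ D.powerset, (1 : ℝ) := by
        apply Finset.sum_le_sum
        intro X _
        rw [abs_mul, abs_pow, abs_neg, abs_one, one_pow, one_mul]
        exact hg X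
    _ = _ := by simp

open Classical in
/-- Generating function of the link of `E` inside `S`. -/
noncomputable def zz (N : Finset ι → Prop) (z : ℝ) (E S : Finset ι) : ℝ :=
  ∑ J ∈ S.powerset, if N (J ∪ E) then z ^ J.card else 0

theorem sum_pow_pow (S : Finset ι) (f : Finset ι → Finset ι → ℝ) :
    ∑ J ∈ S.powerset, ∑ D ∈ J.powerset, f D J =
      ∑ D ∈ S.powerset, ∑ X ∈ (S \ D).powerset, f D (X ∪ D) := by
  rw [Finset.sum_sigma', Finset.sum_sigma']
  apply Finset.sum_bij' (fun p _ => (⟨p.2, p.1 \ p.2⟩ : Σ _ : Finset ι, Finset ι))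
    (fun p _ => (⟨p.2 ∪ p.1, p.1⟩ : Σ _ : Finset ι, Finset ι))
  · intro p hp
    simp only [Finset.mem_sigma, Finset.mem_powerset] at hp ⊢
    exact ⟨hp.2.trans hp.1, Finset.sdiff_subset_sdiff hp.1 (subset_refl _)⟩
  · intro p hp
    simp only [Finset.mem_sigma, Finset.mem_powerset] at hp ⊢
    exact ⟨Finset.union_subset (hp.2.trans Finset.sdiff_subset) hp.1, Finset.subset_union_right⟩
  · rintro ⟨J, D⟩ hp
    simp only [Finset.mem_sigma, Finset.mem_powerset] at hp
    simp only [Finset.sdiff_union_of_subset hp.2]
  · rintro ⟨D, X⟩ hp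
    simp only [Finset.mem_sigma, Finset.mem_powerset] at hp
    have hd : Disjoint X D := Finset.disjoint_of_subset_left hp.2 Finset.sdiff_disjoint
    simp only [Finset.union_sdiff_cancel_right hd]
  · rintro ⟨J, D⟩ hp
    simp only [Finset.mem_sigma, Finset.mem_powerset] at hp
    simp only [Finset.sdiff_union_of_subset hp.2]

open Classical in
/-- Layer recursion: a local-lemma type criterion for positivity. -/
theorem zz_pos (G : Finset ι) (N : Finset ι → Prop) (hdown : ∀ X Y, X ⊆ Y → N Y → N X)
    (hN0 : N ∅) {z L η : ℝ} (hL : 1 ≤ L) (hη : |z| * L ≤ η) (hη1 : η < 1)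
    (g : Finset ι → Finset ι → ℝ)
    (hg : ∀ E ⊆ G, N E → ∀ J ⊆ G, Disjoint J E → N J → g E J = if N (J ∪ E) then 1 else 0)
    (hsum : ∀ E ⊆ G, N E → ∑ D ∈ (G \ E).powerset,
      |mob (g E) D| * (|z| * L / (1 - η)) ^ D.card ≤ L ^ E.card) (S : Finset ι) :
    S ⊆ G → 0 < zz N z ∅ S ∧ (∀ T ⊆ S, (1 - η) ^ T.card * zz N z ∅ (S \ T) ≤ zz N z ∅ S) ∧
      ∀ E ⊆ G, N E → Disjoint S E → |zz N z E S| ≤ L ^ E.card * zz N z ∅ S := by
  have h1η : 0 < 1 - η := by linarith
  have hL0 : 0 < L := by linarith
  induction S using Finset.strongInduction with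
  | H S ih =>
    intro hS
    -- one step
    have step : ∀ v ∈ S, (1 - η) * zz N z ∅ (S.erase v) ≤ zz N z ∅ S := by
      intro v hv
      obtain ⟨p1, _, p3⟩ := ih (S.erase v) (Finset.erase_ssubset hv)
        ((Finset.erase_subset v S).trans hS)
      have e : zz N z ∅ S = zz N z ∅ (S.erase v) + z * zz N z {v} (S.erase v) := by
        conv_lhs => rw [← Finset.insert_erase hv]
        unfold zz
        rw [Finset.sum_powerset_insert (Finset.notMem_erase v S), Finset.mul_sum]
        congr 1
        apply Finset.sum_congr rfl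
        intro X hX
        have hvX : v ∉ X := fun h => Finset.notMem_erase v S (Finset.mem_powerset.mp hX h)
        have e1 : insert v X ∪ ∅ = X ∪ {v} := by ext x; simp
        rw [e1, Finset.card_insert_of_notMem hvX]
        split_ifs
        · ring
        · ring
      have hb : |zz N z {v} (S.erase v)| ≤ L * zz N z ∅ (S.erase v) := by
        by_cases hv1 : N {v}
        · have := p3 {v} (Finset.singleton_subset_iff.mpr (hS hv)) hv1 (by simp)
          simpa using this
        · have e0 : zz N z {v} (S.erase v) = 0 := by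
            unfold zz
            apply Finset.sum_eq_zero
            intro X _
            rw [if_neg (fun h => hv1 (hdown _ _ Finset.subset_union_right h))]
          rw [e0, abs_zero]
          exact mul_nonneg hL0.le p1.le
      have hc : |z * zz N z {v} (S.erase v)| ≤ η * zz N z ∅ (S.erase v) := by
        rw [abs_mul]
        calc _ ≤ |z| * (L * zz N z ∅ (S.erase v)) := mul_le_mul_of_nonneg_left hb (abs_nonneg z)
          _ = (|z| * L) * zz N z ∅ (S.erase v) := by ring
          _ ≤ _ := mul_le_mul_of_nonneg_right hη p1.le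
      have := (abs_le.mp hc).1
      rw [e]
      linarith
    have pos : 0 < zz N z ∅ S := by
      rcases S.eq_empty_or_nonempty with rfl | ⟨v, hv⟩
      · simp [zz, hN0]
      · have p1 := (ih (S.erase v) (Finset.erase_ssubset hv)
          ((Finset.erase_subset v S).trans hS)).1
        exact lt_of_lt_of_le (mul_pos h1η p1) (step v hv)
    have drop : ∀ T ⊆ S, (1 - η) ^ T.card * zz N z ∅ (S \ T) ≤ zz N z ∅ S := by
      intro T hT
      rcases T.eq_empty_or_nonempty with rfl | ⟨v, hv⟩
      · simp
      · have p2 := (ih (S.erase v) (Finset.erase_ssubset (hT hv))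
          ((Finset.erase_subset v S).trans hS)).2.1 (T.erase v) (Finset.erase_subset_erase v hT)
        have e : S.erase v \ T.erase v = S \ T := by
          ext x
          simp only [Finset.mem_sdiff, Finset.mem_erase]
          constructor
          · rintro ⟨⟨h1, h2⟩, h3⟩
            exact ⟨h2, fun h => h3 ⟨h1, h⟩⟩
          · rintro ⟨h1, h2⟩
            exact ⟨⟨fun e => h2 (e ▸ hv), h1⟩, fun h => h2 h.2⟩
        rw [e] at p2
        have e2 : T.card = (T.erase v).card + 1 := (Finset.card_erase_add_one hv).symm
        rw [e2, pow_succ]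
        calc _ = (1 - η) * ((1 - η) ^ (T.erase v).card * zz N z ∅ (S \ T)) := by ring
          _ ≤ (1 - η) * zz N z ∅ (S.erase v) := mul_le_mul_of_nonneg_left p2 h1η.le
          _ ≤ _ := step v (hT hv)
    refine ⟨pos, drop, ?_⟩
    intro E hE hNE hSE
    have expand : zz N z E S =
        ∑ D ∈ S.powerset, mob (g E) D * z ^ D.card * zz N z D (S \ D) := by
      have e1 : zz N z E S = ∑ J ∈ S.powerset, ∑ D ∈ J.powerset,
          mob (g E) D * (if N J then z ^ J.card else 0) := by
        unfold zz
        apply Finset.sum_congr rfl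
        intro J hJ
        have hJS := Finset.mem_powerset.mp hJ
        rw [← Finset.sum_mul, sum_mob]
        by_cases hNJ : N J
        · rw [hg E hE hNE J (hJS.trans hS) (Finset.disjoint_of_subset_left hJS hSE) hNJ,
            if_pos hNJ]
          split_ifs
          · ring
          · ring
        · rw [if_neg hNJ, if_neg (fun h => hNJ (hdown _ _ Finset.subset_union_left h))]
          ring
      rw [e1, sum_pow_pow S (fun D J => mob (g E) D * (if N J then z ^ J.card else 0))]
      apply Finset.sum_congr rfl
      intro D _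
      unfold zz
      rw [Finset.mul_sum]
      apply Finset.sum_congr rfl
      intro X hX
      have hd : Disjoint X D :=
        Finset.disjoint_of_subset_left (Finset.mem_powerset.mp hX) Finset.sdiff_disjoint
      rw [Finset.card_union_of_disjoint hd]
      split_ifs
      · ring
      · ring
    have term : ∀ D ∈ S.powerset, |mob (g E) D * z ^ D.card * zz N z D (S \ D)| ≤
        |mob (g E) D| * (|z| * L / (1 - η)) ^ D.card * zz N z ∅ S := by
      intro D hD
      have hDS := Finset.mem_powerset.mp hD
      have hk : |zz N z D (S \ D)| ≤ (L / (1 - η)) ^ D.card * zz N z ∅ S := by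
        rcases D.eq_empty_or_nonempty with rfl | hDne
        · simp [abs_of_pos pos]
        · by_cases hND : N D
          · have p3 := (ih (S \ D) (Finset.sdiff_ssubset hDS hDne)
              (Finset.sdiff_subset.trans hS)).2.2 D (hDS.trans hS) hND Finset.sdiff_disjoint
            have p2 := drop D hDS
            have hp : 0 < (1 - η) ^ D.card := pow_pos h1η _
            calc _ ≤ L ^ D.card * zz N z ∅ (S \ D) := p3
              _ = (L / (1 - η)) ^ D.card * ((1 - η) ^ D.card * zz N z ∅ (S \ D)) := by
                  rw [div_pow]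
                  field_simp
              _ ≤ _ := mul_le_mul_of_nonneg_left p2 (pow_nonneg (div_nonneg hL0.le h1η.le) _)
          · have e0 : zz N z D (S \ D) = 0 := by
              unfold zz
              apply Finset.sum_eq_zero
              intro X _
              rw [if_neg (fun h => hND (hdown _ _ Finset.subset_union_right h))]
            rw [e0, abs_zero]
            exact mul_nonneg (pow_nonneg (div_nonneg hL0.le h1η.le) _) pos.le
      rw [abs_mul, abs_mul, abs_pow]
      calc _ ≤ |mob (g E) D| * |z| ^ D.card * ((L / (1 - η)) ^ D.card * zz N z ∅ S) :=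
            mul_le_mul_of_nonneg_left hk (mul_nonneg (abs_nonneg _) (pow_nonneg (abs_nonneg z) _))
        _ = _ := by
            rw [mul_div_assoc, mul_pow]
            ring
    rw [expand]
    have hsub : S.powerset ⊆ (G \ E).powerset := by
      apply Finset.powerset_mono.mpr
      intro x hx
      exact Finset.mem_sdiff.mpr ⟨hS hx, Finset.disjoint_left.mp hSE hx⟩
    have hθ : 0 ≤ |z| * L / (1 - η) := div_nonneg (mul_nonneg (abs_nonneg z) hL0.le) h1η.le
    calc _ ≤ ∑ D ∈ S.powerset, |mob (g E) D * z ^ D.card * zz N z D (S \ D)| :=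
          Finset.abs_sum_le_sum_abs _ _
      _ ≤ ∑ D ∈ S.powerset, |mob (g E) D| * (|z| * L / (1 - η)) ^ D.card * zz N z ∅ S :=
          Finset.sum_le_sum term
      _ = (∑ D ∈ S.powerset, |mob (g E) D| * (|z| * L / (1 - η)) ^ D.card) * zz N z ∅ S := by
          rw [Finset.sum_mul]
      _ ≤ _ := by
          apply mul_le_mul_of_nonneg_right _ pos.le
          refine le_trans ?_ (hsum E hE hNE)
          exact Finset.sum_le_sum_of_subset_of_nonneg hsub
            (fun D _ _ => mul_nonneg (abs_nonneg _) (pow_nonneg hθ _))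

end Mob

end Pool.Agent.P17c400
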