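import Pool.Agent.P.MP_17c400_co.Lin
import Pool.Agent.P.MP_17c400_co.Mob

set_option autoImplicit false

namespace Pool.Agent.P17c400

open Finset

section Fib

variable {F : Type*} [Field F] [Fintype F] {n : ℕ}
variable {ι : Type*} [Fintype ι] [LinearOrder ι]
variable (a : ι → Fin n → F) (c : ι → F) (B : Finset ι) (x0 : Fin n → F)

open Classical in
/-- Points of the fibre through `x0` on all hyperplanes with index in `J`. -/
noncomputable def hs (J : Finset ι) : Finset (Fin n → F) :=
  Finset.univ.filter (fun x => (∀ v ∈ B, a v ⬝ᵥ x = a v ⬝ᵥ x0) ∧ ∀ u ∈ J, a u ⬝ᵥ x = c u)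

theorem mem_hs {J : Finset ι} {x : Fin n → F} :
    x ∈ hs a c B x0 J ↔ (∀ v ∈ B, a v ⬝ᵥ x = a v ⬝ᵥ x0) ∧ ∀ u ∈ J, a u ⬝ᵥ x = c u := by
  simp [hs]

theorem hs_anti {J K : Finset ι} (h : J ⊆ K) : hs a c B x0 K ⊆ hs a c B x0 J := by
  intro x hx
  rw [mem_hs] at hx ⊢
  exact ⟨hx.1, fun u hu => hx.2 u (h hu)⟩

theorem hs_const {J : Finset ι} {x y : Fin n → F} (hx : x ∈ hs a c B x0 J)
    (hy : y ∈ hs a c B x0 J) {w : Fin n → F} (hw : w ∈ sp F a (B ∪ J)) : w ⬝ᵥ x = w ⬝ᵥ y := by
  rw [mem_hs] at hx hy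
  let φ : (Fin n → F) →ₗ[F] F :=
    { toFun := fun w => w ⬝ᵥ x - w ⬝ᵥ y
      map_add' := fun w w' => by simp only [add_dotProduct]; ring
      map_smul' := fun r w => by simp only [smul_dotProduct, smul_eq_mul, RingHom.id_apply]; ring }
  have hle : sp F a (B ∪ J) ≤ LinearMap.ker φ := by
    apply sp_le
    intro u hu
    rw [LinearMap.mem_ker]
    show a u ⬝ᵥ x - a u ⬝ᵥ y = 0
    rcases Finset.mem_union.mp hu with h | h
    · rw [hx.1 u h, hy.1 u h, sub_self]
    · rw [hx.2 u h, hy.2 u h, sub_self]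
  have := LinearMap.mem_ker.mp (hle hw)
  exact sub_eq_zero.mp this

omit [Fintype F] [Fintype ι] [LinearOrder ι] in
theorem exists_dir {K : Finset ι} {w : Fin n → F} (hw : w ∉ sp F a K) :
    ∃ y : Fin n → F, (∀ v ∈ K, a v ⬝ᵥ y = 0) ∧ w ⬝ᵥ y = 1 := by
  obtain ⟨f, hf1, hf2⟩ := Submodule.exists_dual_map_eq_bot_of_notMem hw inferInstance
  have key : ∀ z : Fin n → F, z ⬝ᵥ (fun j => f (Pi.single j 1)) = f z := by
    intro z
    rw [LinearMap.pi_apply_eq_sum_univ f z]
    unfold dotProduct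
    apply Finset.sum_congr rfl
    intro j _
    have e : (Pi.single j 1 : Fin n → F) = fun i => if j = i then 1 else 0 := by
      funext i
      simp [Pi.single_apply, eq_comm]
    rw [smul_eq_mul, ← e]
  refine ⟨(f w)⁻¹ • fun j => f (Pi.single j 1), ?_, ?_⟩
  · intro v hv
    have : f (a v) ∈ (sp F a K).map f := Submodule.mem_map_of_mem (mem_sp a hv)
    rw [hf2, Submodule.mem_bot] at this
    rw [dotProduct_smul, key, this, smul_zero]
  · rw [dotProduct_smul, key, smul_eq_mul, inv_mul_cancel₀ hf1]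

theorem hs_shift {J : Finset ι} {x y : Fin n → F} (hx : x ∈ hs a c B x0 J)
    (hy : ∀ v ∈ B ∪ J, a v ⬝ᵥ y = 0) (r : F) : x + r • y ∈ hs a c B x0 J := by
  rw [mem_hs] at hx ⊢
  constructor
  · intro v hv
    rw [dotProduct_add, dotProduct_smul, hy v (Finset.mem_union_left _ hv), smul_zero, add_zero]
    exact hx.1 v hv
  · intro v hv
    rw [dotProduct_add, dotProduct_smul, hy v (Finset.mem_union_right _ hv), smul_zero, add_zero]
    exact hx.2 v hv

theorem exists_off {J : Finset ι} {x w : Fin n → F} (hx : x ∈ hs a c B x0 J)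
    (hw : w ∉ sp F a (B ∪ J)) (s : F) : ∃ x' ∈ hs a c B x0 J, w ⬝ᵥ x' ≠ s := by
  obtain ⟨y, hy1, hy2⟩ := exists_dir a hw
  by_cases h : w ⬝ᵥ x = s
  · refine ⟨x + (1 : F) • y, hs_shift a c B x0 hx hy1 1, ?_⟩
    rw [dotProduct_add, dotProduct_smul, hy2, h]
    simp
  · exact ⟨x, hx, h⟩

theorem card_step {J : Finset ι} {u : ι} (hu : a u ∉ sp F a (B ∪ J)) :
    (hs a c B x0 J).card = Fintype.card F * (hs a c B x0 (insert u J)).card := by
  classical
  obtain ⟨y, hy1, hy2⟩ := exists_dir a hu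
  rw [Finset.card_eq_sum_card_fiberwise (f := fun x => a u ⬝ᵥ x) (t := Finset.univ)
    (fun x _ => Finset.mem_coe.mpr (Finset.mem_univ _))]
  rw [← Finset.card_univ, Finset.card_eq_sum_ones Finset.univ, Finset.sum_mul]
  apply Finset.sum_congr rfl
  intro s _
  rw [one_mul]
  apply Finset.card_bij' (fun x _ => x + (c u - s) • y) (fun x _ => x + (s - c u) • y)
  · intro x hx
    obtain ⟨h1, h2⟩ := Finset.mem_filter.mp hx
    have h3 := hs_shift a c B x0 h1 hy1 (c u - s)
    rw [mem_hs] at h3 ⊢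
    refine ⟨h3.1, fun v hv => ?_⟩
    rcases Finset.mem_insert.mp hv with rfl | hv
    · rw [dotProduct_add, dotProduct_smul, hy2, h2]
      simp
    · exact h3.2 v hv
  · intro x hx
    have h1 := hs_anti a c B x0 (Finset.subset_insert u J) hx
    refine Finset.mem_filter.mpr ⟨hs_shift a c B x0 h1 hy1 _, ?_⟩
    rw [dotProduct_add, dotProduct_smul, hy2,
      ((mem_hs a c B x0).mp hx).2 u (Finset.mem_insert_self u J)]
    simp
  · intro x _
    rw [add_assoc, ← add_smul]
    simp
  · intro x _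
    rw [add_assoc, ← add_smul]
    simp

theorem card_ind {J : Finset ι} (hJ : Ind F a B J) :
    (hs a c B x0 ∅).card = Fintype.card F ^ J.card * (hs a c B x0 J).card := by
  induction J using Finset.induction_on with
  | empty => simp
  | insert u J hu ih =>
    have h1 := ih (Ind.mono a hJ (Finset.subset_insert u J))
    have h2 : a u ∉ sp F a (B ∪ J) := by
      have := hJ u (Finset.mem_insert_self u J)
      rwa [Finset.erase_insert hu] at this
    rw [h1, card_step a c B x0 h2, Finset.card_insert_of_notMem hu]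
    ring

theorem x0_mem : x0 ∈ hs a c B x0 ∅ := by
  rw [mem_hs]
  simp

omit [Fintype F] [Fintype ι] in
theorem ind_insert {J : Finset ι} {e : ι} (hJ : Ind F a B J) (he : a e ∉ sp F a (B ∪ J)) :
    Ind F a B (insert e J) := by
  have h := ind_union a (E := ∅) (I := {e}) hJ (by
    intro u hu
    rw [Finset.mem_singleton.mp hu]
    simpa using he)
  have e1 : J ∪ {e} = insert e J := by ext x; simp
  rwa [e1] at h

open Classical in
/-- Indices that are not constant on the fibre. -/
noncomputable def gr : Finset ι := Finset.univ.filter (fun u => a u ∉ sp F a B)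

/-- Forbidden sets: empty intersection, or broken. -/
def Forb (X : Finset ι) : Prop :=
  hs a c B x0 X = ∅ ∨
    ∃ e ∈ gr a B, (∀ b ∈ X, e < b) ∧ ∀ x ∈ hs a c B x0 X, a e ⬝ᵥ x = c e

/-- Sets without forbidden subset. -/
def NN (J : Finset ι) : Prop := ∀ X ⊆ J, ¬ Forb a c B x0 X

theorem NN_down (X Y : Finset ι) (h : X ⊆ Y) (hY : NN a c B x0 Y) : NN a c B x0 X :=
  fun Z hZ => hY Z (hZ.trans h)

theorem NN_empty : NN a c B x0 ∅ := by
  intro X hX
  rw [Finset.subset_empty.mp hX]
  rintro (h | ⟨e, he, _, h⟩)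
  · have := x0_mem a c B x0
    rw [h] at this
    exact Finset.notMem_empty _ this
  · have he' : a e ∉ sp F a (B ∪ ∅) := by
      simpa [gr] using he
    obtain ⟨x, hx, hne⟩ := exists_off a c B x0 (x0_mem a c B x0) he' (c e)
    exact hne (h x hx)

theorem forb_of_mem {X Y : Finset ι} {e : ι} (he : e ∈ gr a B) (hlt : ∀ b ∈ Y, e < b)
    (hYX : Y ⊆ X) {x : Fin n → F} (hx : x ∈ hs a c B x0 X) (hxe : a e ⬝ᵥ x = c e)
    (hm : a e ∈ sp F a (B ∪ Y)) : Forb a c B x0 Y := by
  refine Or.inr ⟨e, he, hlt, fun y hy => ?_⟩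
  rw [hs_const a c B x0 hy (hs_anti a c B x0 hYX hx) hm, hxe]

theorem NN_ind {J : Finset ι} (hG : J ⊆ gr a B) (hJ : NN a c B x0 J) : Ind F a B J := by
  induction J using Finset.induction_on_min with
  | empty => intro u hu; exact absurd hu (Finset.notMem_empty u)
  | insert e J hlt ih =>
    have h1 := ih ((Finset.subset_insert e J).trans hG)
      (NN_down a c B x0 _ _ (Finset.subset_insert e J) hJ)
    apply ind_insert a B h1
    intro hm
    have hne : hs a c B x0 (insert e J) ≠ ∅ := fun h => hJ _ (subset_refl _) (Or.inl h)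
    obtain ⟨x, hx⟩ := Finset.nonempty_iff_ne_empty.mpr hne
    exact hJ J (Finset.subset_insert e J) (forb_of_mem a c B x0
      (hG (Finset.mem_insert_self e J)) hlt (Finset.subset_insert e J) hx
      (((mem_hs a c B x0).mp hx).2 e (Finset.mem_insert_self e J)) hm)

/-- If the fibre is covered, the alternating sum vanishes. -/
theorem zz_eq_zero (hcov : ∀ x ∈ hs a c B x0 ∅, ∃ u ∈ gr a B, a u ⬝ᵥ x = c u) :
    zz (NN a c B x0) (-1 / (Fintype.card F : ℝ)) ∅ (gr a B) = 0 := by
  classical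
  have hq : (0 : ℝ) < Fintype.card F := by exact_mod_cast Fintype.card_pos
  have hX : (0 : ℝ) < (hs a c B x0 ∅).card := by
    exact_mod_cast Finset.card_pos.mpr ⟨x0, x0_mem a c B x0⟩
  have key : ((hs a c B x0 ∅).card : ℝ) * zz (NN a c B x0) (-1 / (Fintype.card F : ℝ)) ∅ (gr a B)
      = ∑ x ∈ hs a c B x0 ∅, ∑ J ∈ (gr a B).powerset,
          if NN a c B x0 J ∧ (∀ u ∈ J, a u ⬝ᵥ x = c u) then (-1 : ℝ) ^ J.card else 0 := by
    rw [Finset.sum_comm]
    unfold zz
    rw [Finset.mul_sum]
    apply Finset.sum_congr rfl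
    intro J hJ
    rw [Finset.union_empty]
    by_cases hN : NN a c B x0 J
    · rw [if_pos hN]
      simp only [hN, true_and]
      rw [← Finset.sum_filter, Finset.sum_const, nsmul_eq_mul]
      have e : (hs a c B x0 ∅).filter (fun x => ∀ u ∈ J, a u ⬝ᵥ x = c u) = hs a c B x0 J := by
        ext x
        simp [mem_hs]
      rw [e, card_ind a c B x0 (NN_ind a c B x0 (Finset.mem_powerset.mp hJ) hN)]
      push_cast
      rw [div_pow]
      field_simp
    · simp [hN]
  have zero : ∀ x ∈ hs a c B x0 ∅, (∑ J ∈ (gr a B).powerset,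
      if NN a c B x0 J ∧ (∀ u ∈ J, a u ⬝ᵥ x = c u) then (-1 : ℝ) ^ J.card else 0) = 0 := by
    intro x hx
    have hne : ((gr a B).filter (fun u => a u ⬝ᵥ x = c u)).Nonempty := by
      obtain ⟨u, hu1, hu2⟩ := hcov x hx
      exact ⟨u, Finset.mem_filter.mpr ⟨hu1, hu2⟩⟩
    set e := ((gr a B).filter (fun u => a u ⬝ᵥ x = c u)).min' hne with he
    have he1 := Finset.mem_filter.mp (Finset.min'_mem _ hne)
    rw [← he] at he1
    have he2 : ∀ u ∈ gr a B, a u ⬝ᵥ x = c u → e ≤ u := fun u h1 h2 =>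
      Finset.min'_le _ u (Finset.mem_filter.mpr ⟨h1, h2⟩)
    rw [← Finset.insert_erase he1.1, Finset.sum_powerset_insert (Finset.notMem_erase e _),
      ← Finset.sum_add_distrib]
    apply Finset.sum_eq_zero
    intro J hJ
    have heJ : e ∉ J := fun h => Finset.notMem_erase e _ (Finset.mem_powerset.mp hJ h)
    have hiff : (NN a c B x0 (insert e J) ∧ ∀ u ∈ insert e J, a u ⬝ᵥ x = c u) ↔
        (NN a c B x0 J ∧ ∀ u ∈ J, a u ⬝ᵥ x = c u) := by
      constructor
      · rintro ⟨h1, h2⟩
        exact ⟨NN_down a c B x0 _ _ (Finset.subset_insert e J) h1,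
          fun u hu => h2 u (Finset.mem_insert_of_mem hu)⟩
      · rintro ⟨h1, h2⟩
        have h3 : ∀ u ∈ insert e J, a u ⬝ᵥ x = c u := by
          intro u hu
          rcases Finset.mem_insert.mp hu with rfl | hu
          · exact he1.2
          · exact h2 u hu
        refine ⟨?_, h3⟩
        intro X hX hF
        have hxX : x ∈ hs a c B x0 X := by
          rw [mem_hs] at hx ⊢
          exact ⟨hx.1, fun u hu => h3 u (hX hu)⟩
        by_cases heX : e ∈ X
        · rcases hF with h | ⟨e', h4, h5, h6⟩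
          · rw [h] at hxX
            exact Finset.notMem_empty _ hxX
          · exact absurd (h5 e heX) (not_lt.mpr (he2 e' h4 (h6 x hxX)))
        · exact h1 X ((Finset.subset_insert_iff_of_notMem heX).mp hX) hF
    rw [Finset.card_insert_of_notMem heJ]
    by_cases h : NN a c B x0 J ∧ ∀ u ∈ J, a u ⬝ᵥ x = c u
    · rw [if_pos h, if_pos (hiff.mpr h)]
      ring
    · rw [if_neg h, if_neg (fun h' => h (hiff.mp h'))]
      ring
  rw [Finset.sum_eq_zero zero] at key
  rcases mul_eq_zero.mp key with h | h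
  · exact absurd h hX.ne'
  · exact h

/-- Minimal forbidden sets. -/
def MinF (X : Finset ι) : Prop := Forb a c B x0 X ∧ ∀ Y ⊂ X, ¬ Forb a c B x0 Y

theorem exists_minF {J : Finset ι} (h : ¬ NN a c B x0 J) : ∃ X ⊆ J, MinF a c B x0 X := by
  classical
  have hne : (J.powerset.filter (fun X => Forb a c B x0 X)).Nonempty := by
    by_contra h0
    apply h
    intro X hX hF
    exact h0 ⟨X, Finset.mem_filter.mpr ⟨Finset.mem_powerset.mpr hX, hF⟩⟩
  obtain ⟨X, hX, hmin⟩ := Finset.exists_min_image _ Finset.card hne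
  obtain ⟨h1, h2⟩ := Finset.mem_filter.mp hX
  have h3 := Finset.mem_powerset.mp h1
  refine ⟨X, h3, h2, fun Y hY hF => ?_⟩
  have := hmin Y (Finset.mem_filter.mpr ⟨Finset.mem_powerset.mpr (hY.subset.trans h3), hF⟩)
  have := Finset.card_lt_card hY
  omega

omit [Fintype F] [Fintype ι] in
theorem sp_exchange {K : Finset ι} {u e : ι} (h1 : a e ∈ sp F a (K ∪ {u}))
    (h2 : a e ∉ sp F a K) : a u ∈ sp F a (K ∪ {e}) := by
  rw [sp_union, sp_singleton] at h1
  obtain ⟨s, hs, j, hj, hsj⟩ := Submodule.mem_sup.mp h1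
  obtain ⟨r, rfl⟩ := Submodule.mem_span_singleton.mp hj
  have hr : r ≠ 0 := by
    rintro rfl
    apply h2
    rw [← hsj]
    simpa using hs
  have e1 : a u = r⁻¹ • (a e - s) := by
    rw [← hsj, add_sub_cancel_left, smul_smul, inv_mul_cancel₀ hr, one_smul]
  rw [e1]
  apply Submodule.smul_mem
  apply Submodule.sub_mem
  · exact mem_sp a (Finset.mem_union_right _ (Finset.mem_singleton_self e))
  · exact sp_mono a Finset.subset_union_left hs

/-- A minimal forbidden set is a circuit or a broken circuit. -/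
theorem minF_struct {X E : Finset ι} (hG : X ⊆ gr a B) (hX : MinF a c B x0 X)
    (hE : ¬ Disjoint X E) :
    ∃ P : Finset ι, X \ E ⊆ P ∧ (P \ (X \ E)).card ≤ 1 ∧ Ind F a B P ∧
      ∀ v ∈ P, a v ∈ sp F a (B ∪ E ∪ P.erase v) := by
  obtain ⟨w, hwX, hwE⟩ := Finset.not_disjoint_iff.mp hE
  have hind : ∀ u ∈ X, Ind F a B (X.erase u) := by
    intro u hu
    apply NN_ind a c B x0 ((Finset.erase_subset u X).trans hG)
    intro Y hY
    exact hX.2 Y (lt_of_le_of_lt hY (Finset.erase_ssubset hu))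
  by_cases h0 : hs a c B x0 X = ∅
  · refine ⟨X \ E, subset_refl _, by simp, Ind.mono a (hind w hwX) ?_, ?_⟩
    · intro x hx
      obtain ⟨h1, h2⟩ := Finset.mem_sdiff.mp hx
      exact Finset.mem_erase.mpr ⟨fun e => h2 (e ▸ hwE), h1⟩
    · intro v hv
      have hvX := (Finset.mem_sdiff.mp hv).1
      have hm : a v ∈ sp F a (B ∪ X.erase v) := by
        by_contra hm
        have h1 := card_step a c B x0 hm
        rw [Finset.insert_erase hvX, h0, Finset.card_empty, mul_zero] at h1
        have h2 := card_ind a c B x0 (hind v hvX)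
        rw [h1, mul_zero] at h2
        have h3 := Finset.card_pos.mpr ⟨x0, x0_mem a c B x0⟩
        omega
      refine sp_mono a ?_ hm
      intro x hx
      simp only [Finset.mem_union, Finset.mem_erase, Finset.mem_sdiff] at hx ⊢
      tauto
  · obtain ⟨x1, hx1⟩ := Finset.nonempty_iff_ne_empty.mpr h0
    rcases hX.1 with h | ⟨e, he, hlt, hc⟩
    · exact absurd h h0
    have heX : e ∉ X := fun h => lt_irrefl e (hlt e h)
    have hm : a e ∈ sp F a (B ∪ X) := by
      by_contra hm
      obtain ⟨x, hx, hne⟩ := exists_off a c B x0 hx1 hm (c e)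
      exact hne (hc x hx)
    have hnm : ∀ u ∈ X, a e ∉ sp F a (B ∪ X.erase u) := by
      intro u hu hm'
      exact hX.2 _ (Finset.erase_ssubset hu) (forb_of_mem a c B x0 he
        (fun b hb => hlt b (Finset.mem_of_mem_erase hb)) (Finset.erase_subset u X) hx1
        (hc x1 hx1) hm')
    refine ⟨insert e X \ E, Finset.sdiff_subset_sdiff (Finset.subset_insert e X) (subset_refl _),
      ?_, Ind.mono a (ind_insert a B (hind w hwX) (hnm w hwX)) ?_, ?_⟩
    · refine le_trans (Finset.card_le_card (t := {e}) ?_) (by simp)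
      intro x hx
      simp only [Finset.mem_sdiff, Finset.mem_insert, Finset.mem_singleton] at hx ⊢
      tauto
    · intro x hx
      simp only [Finset.mem_sdiff, Finset.mem_insert, Finset.mem_erase] at hx ⊢
      rcases hx.1 with h | h
      · exact Or.inl h
      · exact Or.inr ⟨fun e1 => hx.2 (e1 ▸ hwE), h⟩
    · intro v hv
      obtain ⟨hv1, hv2⟩ := Finset.mem_sdiff.mp hv
      rcases Finset.mem_insert.mp hv1 with rfl | hvX
      · refine sp_mono a ?_ hm
        intro x hx
        simp only [Finset.mem_union, Finset.mem_erase, Finset.mem_sdiff, Finset.mem_insert] at hx ⊢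
        rcases hx with h | h
        · exact Or.inl (Or.inl h)
        · by_cases hxE : x ∈ E
          · exact Or.inl (Or.inr hxE)
          · exact Or.inr ⟨fun e1 => heX (e1 ▸ h), Or.inr h, hxE⟩
      · have h1 : a e ∈ sp F a (B ∪ X.erase v ∪ {v}) := by
          refine sp_mono a ?_ hm
          intro x hx
          simp only [Finset.mem_union, Finset.mem_erase, Finset.mem_singleton] at hx ⊢
          tauto
        refine sp_mono a ?_ (sp_exchange a h1 (hnm v hvX))
        intro x hx
        simp only [Finset.mem_union, Finset.mem_erase, Finset.mem_sdiff, Finset.mem_insert,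
          Finset.mem_singleton] at hx ⊢
        by_cases hxE : x ∈ E
        · exact Or.inl (Or.inr hxE)
        · rcases hx with (h | h) | h
          · exact Or.inl (Or.inl h)
          · exact Or.inr ⟨h.1, Or.inr h.2, hxE⟩
          · exact Or.inr ⟨fun e1 => heX (h ▸ e1 ▸ hvX), Or.inl h, hxE⟩

open Classical in
/-- Indicator of the sets that contain no petal of `E`. -/
noncomputable def gg (E J : Finset ι) : ℝ :=
  if ∃ X ⊆ gr a B, MinF a c B x0 X ∧ ¬ Disjoint X E ∧ X \ E ⊆ J then 0 else 1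

open Classical in
theorem gg_spec (E : Finset ι) (hE : E ⊆ gr a B) (J : Finset ι) (hJ : J ⊆ gr a B)
    (hN : NN a c B x0 J) : gg a c B x0 E J = if NN a c B x0 (J ∪ E) then 1 else 0 := by
  unfold gg
  by_cases h : NN a c B x0 (J ∪ E)
  · rw [if_pos h, if_neg]
    rintro ⟨X, _, h2, _, h4⟩
    refine h X ?_ h2.1
    intro x hx
    by_cases hxE : x ∈ E
    · exact Finset.mem_union_right _ hxE
    · exact Finset.mem_union_left _ (h4 (Finset.mem_sdiff.mpr ⟨hx, hxE⟩))
  · rw [if_neg h, if_pos]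
    obtain ⟨X, h1, h2⟩ := exists_minF a c B x0 h
    have h4 : X \ E ⊆ J := by
      intro x hx
      obtain ⟨p1, p2⟩ := Finset.mem_sdiff.mp hx
      rcases Finset.mem_union.mp (h1 p1) with p | p
      · exact p
      · exact absurd p p2
    refine ⟨X, h1.trans (Finset.union_subset hJ hE), h2, fun hd => ?_, h4⟩
    rw [Finset.sdiff_eq_self_of_disjoint hd] at h4
    exact hN X h4 h2.1

theorem exists_att {E D : Finset ι} (h : mob (gg a c B x0 E) D ≠ 0) :
    ∃ A : Finset ι, D ⊆ A ∧ A.card ≤ 2 * D.card ∧ Att F a B E A := by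
  classical
  have h1 : ∀ u ∈ D, ∃ P : Finset ι, u ∈ P ∧ (P \ D).card ≤ 1 ∧ Ind F a B P ∧
      ∀ v ∈ P, a v ∈ sp F a (B ∪ E ∪ P.erase v) := by
    intro u hu
    by_contra hno
    apply h
    apply mob_eq_zero _ hu
    intro Y hY
    unfold gg
    congr 1
    apply propext
    constructor
    · rintro ⟨X, p1, p2, p3, p4⟩
      refine ⟨X, p1, p2, p3, ?_⟩
      have huX : u ∉ X \ E := by
        intro huX
        obtain ⟨P, q1, q2, q3, q4⟩ := minF_struct a c B x0 p1 p2 p3
        refine hno ⟨P, q1 huX, le_trans (Finset.card_le_card ?_) q2, q3, q4⟩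
        apply Finset.sdiff_subset_sdiff (subset_refl _)
        exact p4.trans (Finset.insert_subset hu (hY.trans (Finset.erase_subset u D)))
      exact (Finset.subset_insert_iff_of_notMem huX).mp p4
    · rintro ⟨X, p1, p2, p3, p4⟩
      exact ⟨X, p1, p2, p3, p4.trans (Finset.subset_insert u Y)⟩
  choose! P hP using h1
  refine ⟨D ∪ D.biUnion (fun u => P u \ D), Finset.subset_union_left, ?_, ?_⟩
  · have h2 : (D.biUnion (fun u => P u \ D)).card ≤ D.card := by
      calc _ ≤ ∑ u ∈ D, (P u \ D).card := Finset.card_biUnion_le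
        _ ≤ ∑ u ∈ D, 1 := Finset.sum_le_sum (fun u hu => (hP u hu).2.1)
        _ = _ := by simp
    have := Finset.card_union_le D (D.biUnion (fun u => P u \ D))
    omega
  · have hsub : ∀ u ∈ D, P u ⊆ D ∪ D.biUnion (fun u => P u \ D) := by
      intro u hu x hx
      by_cases hxD : x ∈ D
      · exact Finset.mem_union_left _ hxD
      · exact Finset.mem_union_right _
          (Finset.mem_biUnion.mpr ⟨u, hu, Finset.mem_sdiff.mpr ⟨hx, hxD⟩⟩)
    intro v hv
    rcases Finset.mem_union.mp hv with hv | hv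
    · exact ⟨P v, hsub v hv, (hP v hv).1, (hP v hv).2.2.1, (hP v hv).2.2.2 v (hP v hv).1⟩
    · obtain ⟨u, hu, hvu⟩ := Finset.mem_biUnion.mp hv
      have hvP := (Finset.mem_sdiff.mp hvu).1
      exact ⟨P u, hsub u hu, hvP, (hP u hu).2.2.1, (hP u hu).2.2.2 v hvP⟩

theorem sum_mob_le {t L θ ρ : ℝ} (ht : 0 ≤ t) (hL : 1 ≤ L)
    (hmin : ∀ B', L ^ rk F a B * gI F a t B ≤ L ^ rk F a B' * gI F a t B')
    (hθ : 0 ≤ θ) (hρ : 0 ≤ ρ) (hρ1 : ρ ≤ 1) (h1 : 2 * θ ≤ ρ ^ 2) (h2 : 2 * ρ ≤ t / L ^ 2)
    (E S : Finset ι) :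
    ∑ D ∈ S.powerset, |mob (gg a c B x0 E) D| * θ ^ D.card ≤ L ^ E.card := by
  classical
  set T := (Finset.univ : Finset ι).powerset.filter (fun A => Att F a B E A) with hT
  calc _ ≤ ∑ D ∈ S.powerset, ∑ A ∈ T, if D ⊆ A then ρ ^ A.card else 0 := by
        apply Finset.sum_le_sum
        intro D _
        have hnn : ∀ A ∈ T, 0 ≤ if D ⊆ A then ρ ^ A.card else 0 := by
          intro A _
          split_ifs
          · exact pow_nonneg hρ _
          · exact le_rfl
        by_cases h0 : mob (gg a c B x0 E) D = 0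
        · rw [h0, abs_zero, zero_mul]
          exact Finset.sum_nonneg hnn
        · obtain ⟨A, p1, p2, p3⟩ := exists_att a c B x0 h0
          have hA : A ∈ T := Finset.mem_filter.mpr ⟨by simp, p3⟩
          refine le_trans ?_ (Finset.single_le_sum hnn hA)
          rw [if_pos p1]
          have hg : ∀ X, |gg a c B x0 E X| ≤ 1 := by
            intro X
            unfold gg
            split_ifs <;> simp
          calc _ ≤ 2 ^ D.card * θ ^ D.card :=
                mul_le_mul_of_nonneg_right (abs_mob_le _ hg D) (pow_nonneg hθ _)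
            _ = (2 * θ) ^ D.card := by rw [mul_pow]
            _ ≤ (ρ ^ 2) ^ D.card := pow_le_pow_left₀ (by linarith) h1 _
            _ = ρ ^ (2 * D.card) := by rw [pow_mul]
            _ ≤ _ := pow_le_pow_of_le_one hρ hρ1 p2
    _ = ∑ A ∈ T, ∑ D ∈ S.powerset, if D ⊆ A then ρ ^ A.card else 0 := Finset.sum_comm
    _ ≤ ∑ A ∈ T, (t / L ^ 2) ^ A.card := by
        apply Finset.sum_le_sum
        intro A _
        rw [← Finset.sum_filter, Finset.sum_const, nsmul_eq_mul]
        have hc : ((S.powerset.filter (fun D => D ⊆ A)).card : ℝ) ≤ 2 ^ A.card := by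
          have : (S.powerset.filter (fun D => D ⊆ A)).card ≤ 2 ^ A.card := by
            rw [← Finset.card_powerset]
            apply Finset.card_le_card
            intro D hD
            exact Finset.mem_powerset.mpr (Finset.mem_filter.mp hD).2
          exact_mod_cast this
        calc _ ≤ 2 ^ A.card * ρ ^ A.card := mul_le_mul_of_nonneg_right hc (pow_nonneg hρ _)
          _ = (2 * ρ) ^ A.card := by rw [mul_pow]
          _ ≤ _ := pow_le_pow_left₀ (by linarith) h2 _
    _ ≤ _ := sum_Att_le a ht hL hmin Finset.univ E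

/-- At a minimiser of the potential no fibre is covered by the remaining hyperplanes. -/
theorem fibre_not_covered {t L ρ : ℝ} (ht : 0 ≤ t) (hL : 1 ≤ L)
    (hmin : ∀ B', L ^ rk F a B * gI F a t B ≤ L ^ rk F a B' * gI F a t B')
    (hq : L < Fintype.card F) (hρ : 0 ≤ ρ) (hρ1 : ρ ≤ 1)
    (h1 : 2 * L / (Fintype.card F - L) ≤ ρ ^ 2) (h2 : 2 * ρ ≤ t / L ^ 2) :
    ¬ ∀ x ∈ hs a c B x0 ∅, ∃ u ∈ gr a B, a u ⬝ᵥ x = c u := by
  intro hcov
  have h0 := zz_eq_zero a c B x0 hcov
  have hq0 : (0 : ℝ) < Fintype.card F := by linarith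
  have habs : |(-1 / (Fintype.card F : ℝ))| = 1 / Fintype.card F := by
    rw [abs_div, abs_neg, abs_one, abs_of_pos hq0]
  have hη1 : L / Fintype.card F < 1 := (div_lt_one hq0).mpr hq
  have hθ : |(-1 / (Fintype.card F : ℝ))| * L / (1 - L / Fintype.card F) =
      L / (Fintype.card F - L) := by
    rw [habs]
    have : (Fintype.card F : ℝ) - L ≠ 0 := by linarith
    field_simp
  have := (zz_pos (gr a B) (NN a c B x0) (NN_down a c B x0) (NN_empty a c B x0)
    (z := -1 / (Fintype.card F : ℝ)) (η := L / Fintype.card F) hL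
    (by rw [habs]; apply le_of_eq; ring) hη1 (gg a c B x0)
    (fun E hE _ J hJ _ hN => gg_spec a c B x0 E hE J hJ hN)
    (fun E _ _ => by
      rw [hθ]
      exact sum_mob_le a c B x0 ht hL hmin (div_nonneg (by linarith) (by linarith)) hρ hρ1
        (by rw [← mul_div_assoc]; exact h1) h2 E _)
    (gr a B) (subset_refl _)).1
  rw [h0] at this
  exact lt_irrefl _ this

end Fib

end Pool.Agent.P17c400
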