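import Mathlib

set_option autoImplicit false

namespace Pool.Agent.P17c400

open Finset

/-- Comparison of sums along an injection. -/
theorem sum_le_of_inj {α β : Type*} (s : Finset α) (t : Finset β) (f : α → β)
    (w : α → ℝ) (w' : β → ℝ) (hmap : ∀ x ∈ s, f x ∈ t)
    (hinj : ∀ x ∈ s, ∀ y ∈ s, f x = f y → x = y)
    (hw : ∀ x ∈ s, w x ≤ w' (f x)) (hpos : ∀ y ∈ t, 0 ≤ w' y) :
    ∑ x ∈ s, w x ≤ ∑ y ∈ t, w' y := by
  classical
  calc ∑ x ∈ s, w x ≤ ∑ x ∈ s, w' (f x) := Finset.sum_le_sum hw
    _ = ∑ y ∈ s.image f, w' y := (Finset.sum_image hinj).symm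
    _ ≤ ∑ y ∈ t, w' y := by
        apply Finset.sum_le_sum_of_subset_of_nonneg
        · intro y hy
          obtain ⟨x, hx, rfl⟩ := Finset.mem_image.mp hy
          exact hmap x hx
        · intro y hy _
          exact hpos y hy

section Lin

variable {F : Type*} [Field F] {V : Type*} [AddCommGroup V] [Module F V]
variable {ι : Type*} [DecidableEq ι] (a : ι → V)

variable (F) in
/-- Span of the vectors with index in `A`. -/
def sp (A : Finset ι) : Submodule F V := Submodule.span F (a '' (A : Set ι))

omit [DecidableEq ι] in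
theorem sp_mono {A B : Finset ι} (h : A ⊆ B) : sp F a A ≤ sp F a B :=
  Submodule.span_mono (Set.image_mono (by exact_mod_cast h))

omit [DecidableEq ι] in
theorem mem_sp {A : Finset ι} {u : ι} (h : u ∈ A) : a u ∈ sp F a A :=
  Submodule.subset_span ⟨u, by exact_mod_cast h, rfl⟩

theorem sp_union (A B : Finset ι) : sp F a (A ∪ B) = sp F a A ⊔ sp F a B := by
  unfold sp
  rw [Finset.coe_union, Set.image_union, Submodule.span_union]

omit [DecidableEq ι] in
theorem sp_le {A : Finset ι} {W : Submodule F V} (h : ∀ u ∈ A, a u ∈ W) : sp F a A ≤ W := by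
  unfold sp
  rw [Submodule.span_le]
  rintro _ ⟨u, hu, rfl⟩
  exact h u (by exact_mod_cast hu)

omit [DecidableEq ι] in
theorem sp_empty : sp F a (∅ : Finset ι) = ⊥ := by
  simp [sp]

omit [DecidableEq ι] in
theorem sp_singleton (u : ι) : sp F a {u} = Submodule.span F {a u} := by
  simp [sp]

variable (F) in
/-- `I` is independent modulo the span of `B`. -/
def Ind (B I : Finset ι) : Prop := ∀ u ∈ I, a u ∉ sp F a (B ∪ I.erase u)

theorem Ind.mono {B I J : Finset ι} (h : Ind F a B I) (hJ : J ⊆ I) : Ind F a B J := by
  intro u hu hm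
  exact h u (hJ hu) (sp_mono a (Finset.union_subset_union_right (Finset.erase_subset_erase u hJ)) hm)

theorem Ind.disjoint_sp {B J : Finset ι} (h : Ind F a B J) :
    Disjoint (sp F a B) (sp F a J) := by
  induction J using Finset.induction_on with
  | empty => rw [sp_empty]; exact disjoint_bot_right
  | insert v J hv ih =>
    have h1 := ih (Ind.mono a h (Finset.subset_insert v J))
    have h2 : a v ∉ sp F a B ⊔ sp F a J := by
      have := h v (Finset.mem_insert_self v J)
      rwa [Finset.erase_insert hv, sp_union] at this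
    have h3 : Disjoint (sp F a B ⊔ sp F a J) (Submodule.span F {a v}) :=
      (Submodule.disjoint_span_singleton' (by rintro h0; rw [h0] at h2; exact h2 (Submodule.zero_mem _))).mpr h2
    have h4 := Disjoint.disjoint_sup_right_of_disjoint_sup_left h1 h3
    have e : insert v J = J ∪ {v} := by ext x; simp
    rw [e, sp_union, sp_singleton]
    exact h4

/-- Modular law in the form used below. -/
theorem mem_of_ind {B J : Finset ι} (h : Ind F a B J) {C : Submodule F V} (hC : C ≤ sp F a B)
    {x : V} (hx : x ∈ sp F a B) (hx' : x ∈ C ⊔ sp F a J) : x ∈ C := by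
  obtain ⟨s, hs, j, hj, rfl⟩ := Submodule.mem_sup.mp hx'
  have hjB : j ∈ sp F a B := by
    have := Submodule.sub_mem _ hx (hC hs)
    simpa using this
  have h0 : j = 0 := (Submodule.disjoint_def.mp (Ind.disjoint_sp a h)) j hjB hj
  rw [h0, add_zero]
  exact hs

theorem Ind.disjoint {B J : Finset ι} (h : Ind F a B J) : Disjoint B J := by
  rw [Finset.disjoint_right]
  intro u hu huB
  exact h u hu (mem_sp a (Finset.mem_union_left _ huB))

/-- Every set has an independent spanning subset modulo `B`. -/
theorem exists_basis (B A : Finset ι) :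
    ∃ I ⊆ A, Ind F a B I ∧ ∀ u ∈ A, a u ∈ sp F a (B ∪ I) := by
  classical
  have hne : (A.powerset.filter (fun I => ∀ u ∈ A, a u ∈ sp F a (B ∪ I))).Nonempty :=
    ⟨A, Finset.mem_filter.mpr ⟨Finset.mem_powerset_self A,
      fun u hu => mem_sp a (Finset.mem_union_right _ hu)⟩⟩
  obtain ⟨I, hI, hmin⟩ := Finset.exists_min_image _ Finset.card hne
  obtain ⟨hI1, hI2⟩ := Finset.mem_filter.mp hI
  have hIA := Finset.mem_powerset.mp hI1
  refine ⟨I, hIA, ?_, hI2⟩
  intro u hu hm
  have hle : sp F a (B ∪ I) ≤ sp F a (B ∪ I.erase u) := by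
    apply sp_le
    intro v hv
    by_cases hvu : v = u
    · rw [hvu]; exact hm
    · apply mem_sp
      rcases Finset.mem_union.mp hv with h | h
      · exact Finset.mem_union_left _ h
      · exact Finset.mem_union_right _ (Finset.mem_erase.mpr ⟨hvu, h⟩)
  have := hmin (I.erase u) (Finset.mem_filter.mpr
    ⟨Finset.mem_powerset.mpr ((Finset.erase_subset u I).trans hIA), fun v hv => hle (hI2 v hv)⟩)
  have h2 := Finset.card_erase_lt_of_mem hu
  omega

variable (F) in
/-- Independent sets attached to `E`. -/
def IAtt (B E D : Finset ι) : Prop :=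
  Ind F a B D ∧ ∀ u ∈ D, a u ∈ sp F a (B ∪ E ∪ D.erase u)

variable (F) in
/-- Sets attached to `E`. -/
def Att (B E A : Finset ι) : Prop :=
  ∀ u ∈ A, ∃ P ⊆ A, u ∈ P ∧ Ind F a B P ∧ a u ∈ sp F a (B ∪ E ∪ P.erase u)

theorem Att.eq_empty {B A : Finset ι} (h : Att F a B ∅ A) : A = ∅ := by
  by_contra hne
  obtain ⟨u, hu⟩ := Finset.nonempty_iff_ne_empty.mpr hne
  obtain ⟨P, _, huP, hP, hm⟩ := h u hu
  rw [Finset.union_empty] at hm
  exact hP u huP hm

theorem ind_union {B E D I : Finset ι} (hD : Ind F a B D) (hI : Ind F a (B ∪ E ∪ D) I) :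
    Ind F a B (D ∪ I) := by
  intro u hu hm
  by_cases huI : u ∈ I
  · apply hI u huI
    refine sp_mono a ?_ hm
    intro x hx
    simp only [Finset.mem_union, Finset.mem_erase] at hx ⊢
    tauto
  · have huD : u ∈ D := by
      rcases Finset.mem_union.mp hu with h | h
      · exact h
      · exact absurd h huI
    apply hD u huD
    apply mem_of_ind a hI (C := sp F a (B ∪ D.erase u))
    · apply sp_mono
      intro x hx
      simp only [Finset.mem_union, Finset.mem_erase] at hx ⊢
      tauto
    · exact mem_sp a (Finset.mem_union_right _ huD)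
    · rw [← sp_union]
      refine sp_mono a ?_ hm
      intro x hx
      simp only [Finset.mem_union, Finset.mem_erase] at hx ⊢
      tauto

theorem recover {B E D I : Finset ι} (hD : IAtt F a B E D) (hI : Ind F a (B ∪ E ∪ D) I)
    (u : ι) : u ∈ D ↔ (u ∈ D ∪ I ∧ a u ∈ sp F a (B ∪ E ∪ (D ∪ I).erase u)) := by
  constructor
  · intro hu
    refine ⟨Finset.mem_union_left _ hu, sp_mono a ?_ (hD.2 u hu)⟩
    intro x hx
    simp only [Finset.mem_union, Finset.mem_erase] at hx ⊢
    tauto
  · rintro ⟨hu, hm⟩
    by_contra huD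
    have huI : u ∈ I := by
      rcases Finset.mem_union.mp hu with h | h
      · exact absurd h huD
      · exact h
    apply hI u huI
    refine sp_mono a ?_ hm
    intro x hx
    simp only [Finset.mem_union, Finset.mem_erase] at hx ⊢
    tauto

/-- Peeling the first layer of an attached set. -/
theorem Att.peel {B E A : Finset ι} (h : Att F a B E A) :
    ∃ D ⊆ A, IAtt F a B E D ∧ Att F a B D (A \ D) := by
  classical
  obtain ⟨I, hIA, hI, hsp⟩ := exists_basis (F := F) a B A
  set D := I.filter (fun u => a u ∈ sp F a (B ∪ E ∪ I.erase u)) with hDdef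
  have hDI : D ⊆ I := Finset.filter_subset _ _
  have hJ : Ind F a (B ∪ E ∪ D) (I \ D) := by
    intro v hv hm
    obtain ⟨hv1, hv2⟩ := Finset.mem_sdiff.mp hv
    apply hv2
    refine Finset.mem_filter.mpr ⟨hv1, sp_mono a ?_ hm⟩
    intro x hx
    simp only [Finset.mem_union, Finset.mem_erase, Finset.mem_sdiff] at hx ⊢
    rcases hx with ((hx | hx) | hx) | hx
    · tauto
    · tauto
    · right
      exact ⟨fun e => hv2 (e ▸ hx), hDI hx⟩
    · tauto
  refine ⟨D, hDI.trans hIA, ⟨Ind.mono a hI hDI, ?_⟩, ?_⟩
  · intro u hu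
    have hm := (Finset.mem_filter.mp hu).2
    apply mem_of_ind a hJ (C := sp F a (B ∪ E ∪ D.erase u))
    · exact sp_mono a (Finset.union_subset_union_right (Finset.erase_subset u D))
    · exact mem_sp a (Finset.mem_union_right _ hu)
    · rw [← sp_union]
      refine sp_mono a ?_ hm
      intro x hx
      simp only [Finset.mem_union, Finset.mem_erase, Finset.mem_sdiff] at hx ⊢
      tauto
  · intro u hu
    obtain ⟨huA, huD⟩ := Finset.mem_sdiff.mp hu
    obtain ⟨P, hPA, huP, hP, hm⟩ := h u huA
    refine ⟨P \ D, Finset.sdiff_subset_sdiff hPA (subset_refl _),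
      Finset.mem_sdiff.mpr ⟨huP, huD⟩, Ind.mono a hP Finset.sdiff_subset, ?_⟩
    rw [sp_union] at hm
    obtain ⟨s, hs, b, hb, hsb⟩ := Submodule.mem_sup.mp hm
    have hAI : sp F a A ≤ sp F a (B ∪ D) ⊔ sp F a (I \ D) := by
      apply sp_le
      intro v hv
      rw [← sp_union]
      refine sp_mono a ?_ (hsp v hv)
      intro x hx
      simp only [Finset.mem_union, Finset.mem_sdiff] at hx ⊢
      tauto
    have hs1 : s ∈ sp F a A := by
      have e : s = a u - b := by rw [← hsb]; simp
      rw [e]
      exact Submodule.sub_mem _ (mem_sp a huA)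
        (sp_mono a ((Finset.erase_subset u P).trans hPA) hb)
    have hs2 : s ∈ sp F a (B ∪ D) := by
      apply mem_of_ind a hJ (C := sp F a (B ∪ D))
      · apply sp_mono
        intro x hx
        simp only [Finset.mem_union] at hx ⊢
        tauto
      · exact sp_mono a Finset.subset_union_left hs
      · exact hAI hs1
    rw [← hsb]
    apply Submodule.add_mem
    · exact sp_mono a Finset.subset_union_left hs2
    · refine sp_mono a ?_ hb
      intro x hx
      simp only [Finset.mem_union, Finset.mem_erase, Finset.mem_sdiff] at hx ⊢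
      tauto

variable (F) in
/-- Rank of a set of indices. -/
noncomputable def rk (A : Finset ι) : ℕ := Module.finrank F (sp F a A)

omit [DecidableEq ι] in
theorem rk_le_card (A : Finset ι) : rk F a A ≤ A.card := by
  classical
  unfold rk sp
  have e : a '' (A : Set ι) = ((A.image a : Finset V) : Set V) := by simp
  rw [e]
  exact (finrank_span_finset_le_card _).trans Finset.card_image_le

omit [DecidableEq ι] in
theorem fin_sp (A : Finset ι) : Module.Finite F (sp F a A) :=
  Module.Finite.span_of_finite F ((Finset.finite_toSet A).image a)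

theorem rk_union_le (A B : Finset ι) : rk F a (A ∪ B) ≤ rk F a A + B.card := by
  have := fin_sp (F := F) a A
  have := fin_sp (F := F) a B
  have h1 := Submodule.finrank_add_le_finrank_add_finrank (sp F a A) (sp F a B)
  have h2 := rk_le_card (F := F) a B
  unfold rk at *
  rw [sp_union]
  omega

variable [Fintype ι]

open Classical in
variable (F) in
/-- Generating function of the sets independent modulo `B`. -/
noncomputable def gI (t : ℝ) (B : Finset ι) : ℝ :=
  ∑ I ∈ (Finset.univ : Finset (Finset ι)).filter (fun I => Ind F a B I), t ^ I.card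

theorem one_le_gI {t : ℝ} (ht : 0 ≤ t) (B : Finset ι) : 1 ≤ gI F a t B := by
  classical
  unfold gI
  have h := Finset.single_le_sum (f := fun I : Finset ι => t ^ I.card)
    (s := (Finset.univ : Finset (Finset ι)).filter (fun I => Ind F a B I))
    (fun I _ => pow_nonneg ht _) (a := ∅)
    (Finset.mem_filter.mpr ⟨Finset.mem_univ _, fun u hu => absurd hu (Finset.notMem_empty u)⟩)
  simpa using h

theorem gI_le {t : ℝ} (ht : 0 ≤ t) (B : Finset ι) : gI F a t B ≤ (1 + t) ^ Fintype.card ι := by
  classical
  unfold gI
  have e : (1 + t) ^ Fintype.card ι = ∑ I ∈ (Finset.univ : Finset (Finset ι)), t ^ I.card := by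
    have := Finset.prod_one_add (s := (Finset.univ : Finset ι)) (f := fun _ => t)
    simp only [Finset.prod_const, Finset.card_univ, Finset.powerset_univ] at this
    exact this
  rw [e]
  exact Finset.sum_le_sum_of_subset_of_nonneg (Finset.filter_subset _ _)
    (fun I _ _ => pow_nonneg ht _)

open Classical in
/-- Count of independent attached sets at a minimiser of the potential. -/
theorem sum_IAtt_le {t L : ℝ} (ht : 0 ≤ t) (hL : 1 ≤ L) {B : Finset ι}
    (hmin : ∀ B', L ^ rk F a B * gI F a t B ≤ L ^ rk F a B' * gI F a t B') (E : Finset ι) :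
    ∑ D ∈ (Finset.univ : Finset (Finset ι)).filter (fun D => IAtt F a B E D),
      (t / L) ^ D.card ≤ L ^ E.card := by
  have hL0 : 0 < L := by linarith
  have hg : 0 < gI F a t B := lt_of_lt_of_le one_pos (one_le_gI a ht B)
  have h1 : ∀ D : Finset ι, gI F a t B ≤ L ^ E.card * L ^ D.card * gI F a t (B ∪ E ∪ D) := by
    intro D
    have h := hmin (B ∪ E ∪ D)
    have hr : rk F a (B ∪ E ∪ D) ≤ rk F a B + (E.card + D.card) := by
      have := rk_union_le (F := F) a (B ∪ E) D
      have := rk_union_le (F := F) a B E
      omega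
    have h2 : L ^ rk F a (B ∪ E ∪ D) ≤ L ^ rk F a B * (L ^ E.card * L ^ D.card) := by
      rw [← pow_add, ← pow_add]
      exact pow_le_pow_right₀ hL hr
    have hg' : 0 ≤ gI F a t (B ∪ E ∪ D) := le_trans zero_le_one (one_le_gI a ht _)
    have h3 : L ^ rk F a B * gI F a t B ≤
        L ^ rk F a B * (L ^ E.card * L ^ D.card * gI F a t (B ∪ E ∪ D)) := by
      calc _ ≤ _ := h
        _ ≤ L ^ rk F a B * (L ^ E.card * L ^ D.card) * gI F a t (B ∪ E ∪ D) :=
            mul_le_mul_of_nonneg_right h2 hg'
        _ = _ := by ring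
    exact le_of_mul_le_mul_left h3 (pow_pos hL0 _)
  have h2 : ∑ D ∈ (Finset.univ : Finset (Finset ι)).filter (fun D => IAtt F a B E D),
      t ^ D.card * gI F a t (B ∪ E ∪ D) ≤ gI F a t B := by
    unfold gI
    simp_rw [Finset.mul_sum]
    rw [Finset.sum_sigma']
    apply sum_le_of_inj _ _ (fun p => p.1 ∪ p.2)
    · intro p hp
      simp only [Finset.mem_sigma, Finset.mem_filter, Finset.mem_univ, true_and] at hp ⊢
      exact ind_union a hp.1.1 hp.2
    · rintro ⟨D, I⟩ hp ⟨D', I'⟩ hp' he
      simp only [Finset.mem_sigma, Finset.mem_filter, Finset.mem_univ, true_and] at hp hp' he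
      have e1 : D = D' := by
        ext u
        rw [recover a hp.1 hp.2 u, recover a hp'.1 hp'.2 u, he]
      subst e1
      have d1 : Disjoint D I := (Ind.disjoint a hp.2).mono_left Finset.subset_union_right
      have d2 : Disjoint D I' := (Ind.disjoint a hp'.2).mono_left Finset.subset_union_right
      have e2 : I = I' := by
        rw [← Finset.union_sdiff_cancel_left d1, he, Finset.union_sdiff_cancel_left d2]
      subst e2
      rfl
    · intro p hp
      simp only [Finset.mem_sigma, Finset.mem_filter, Finset.mem_univ, true_and] at hp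
      have d1 : Disjoint p.1 p.2 := (Ind.disjoint a hp.2).mono_left Finset.subset_union_right
      rw [Finset.card_union_of_disjoint d1, pow_add]
    · intro I _
      exact pow_nonneg ht _
  have h3 : (∑ D ∈ (Finset.univ : Finset (Finset ι)).filter (fun D => IAtt F a B E D),
      (t / L) ^ D.card) * gI F a t B ≤ L ^ E.card * gI F a t B := by
    rw [Finset.sum_mul]
    calc _ ≤ ∑ D ∈ (Finset.univ : Finset (Finset ι)).filter (fun D => IAtt F a B E D),
          L ^ E.card * (t ^ D.card * gI F a t (B ∪ E ∪ D)) := by
          apply Finset.sum_le_sum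
          intro D _
          calc (t / L) ^ D.card * gI F a t B
              ≤ (t / L) ^ D.card * (L ^ E.card * L ^ D.card * gI F a t (B ∪ E ∪ D)) :=
                mul_le_mul_of_nonneg_left (h1 D) (pow_nonneg (div_nonneg ht hL0.le) _)
            _ = _ := by
                rw [div_pow]
                field_simp
      _ ≤ _ := by
          rw [← Finset.mul_sum]
          exact mul_le_mul_of_nonneg_left h2 (pow_nonneg hL0.le _)
  exact le_of_mul_le_mul_right h3 hg

open Classical in
/-- Count of all attached sets at a minimiser of the potential. -/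
theorem sum_Att_le {t L : ℝ} (ht : 0 ≤ t) (hL : 1 ≤ L) {B : Finset ι}
    (hmin : ∀ B', L ^ rk F a B * gI F a t B ≤ L ^ rk F a B' * gI F a t B') (S : Finset ι) :
    ∀ E : Finset ι, ∑ A ∈ S.powerset.filter (fun A => Att F a B E A),
      (t / L ^ 2) ^ A.card ≤ L ^ E.card := by
  have hL0 : 0 < L := by linarith
  have hb : 0 ≤ t / L ^ 2 := div_nonneg ht (pow_nonneg hL0.le _)
  induction S using Finset.strongInduction with
  | H S ih =>
    intro E
    have h1 : ∀ D ⊆ S, ∑ A ∈ (S \ D).powerset.filter (fun A => Att F a B D A),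
        (t / L ^ 2) ^ A.card ≤ L ^ D.card := by
      intro D hD
      by_cases hD0 : D = ∅
      · subst hD0
        have e : (S \ ∅).powerset.filter (fun A => Att F a B ∅ A) ⊆ {∅} := by
          intro A hA
          rw [Finset.mem_singleton]
          exact Att.eq_empty a (Finset.mem_filter.mp hA).2
        calc _ ≤ ∑ A ∈ ({∅} : Finset (Finset ι)), (t / L ^ 2) ^ A.card :=
              Finset.sum_le_sum_of_subset_of_nonneg e (fun A _ _ => pow_nonneg hb _)
          _ = _ := by simp
      · exact ih (S \ D) (Finset.sdiff_ssubset hD (Finset.nonempty_iff_ne_empty.mpr hD0)) D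
    choose! pl hpl using fun A (h : Att F a B E A) => Att.peel a h
    calc ∑ A ∈ S.powerset.filter (fun A => Att F a B E A), (t / L ^ 2) ^ A.card
        ≤ ∑ D ∈ S.powerset.filter (fun D => IAtt F a B E D),
            ∑ A ∈ (S \ D).powerset.filter (fun A => Att F a B D A),
              (t / L ^ 2) ^ D.card * (t / L ^ 2) ^ A.card := by
          rw [Finset.sum_sigma']
          apply sum_le_of_inj _ _ (fun A => ⟨pl A, A \ pl A⟩)
          · intro A hA
            simp only [Finset.mem_sigma, Finset.mem_filter, Finset.mem_powerset] at hA ⊢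
            obtain ⟨p1, p2, p3⟩ := hpl A hA.2
            exact ⟨⟨p1.trans hA.1, p2⟩, Finset.sdiff_subset_sdiff hA.1 (subset_refl _), p3⟩
          · intro A hA A' hA' he
            simp only [Finset.mem_filter, Finset.mem_powerset] at hA hA'
            simp only [Sigma.mk.injEq, heq_eq_eq] at he
            rw [← Finset.union_sdiff_of_subset (hpl A hA.2).1,
              ← Finset.union_sdiff_of_subset (hpl A' hA'.2).1, he.2, he.1]
          · intro A hA
            simp only [Finset.mem_filter, Finset.mem_powerset] at hA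
            simp only
            rw [← pow_add, add_comm, Finset.card_sdiff_add_card_eq_card (hpl A hA.2).1]
          · intro p _
            exact mul_nonneg (pow_nonneg hb _) (pow_nonneg hb _)
      _ ≤ ∑ D ∈ S.powerset.filter (fun D => IAtt F a B E D), (t / L) ^ D.card := by
          apply Finset.sum_le_sum
          intro D hD
          rw [← Finset.mul_sum]
          have hDS := Finset.mem_powerset.mp (Finset.mem_filter.mp hD).1
          calc _ ≤ (t / L ^ 2) ^ D.card * L ^ D.card :=
                mul_le_mul_of_nonneg_left (h1 D hDS) (pow_nonneg hb _)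
            _ = _ := by
                rw [← mul_pow]
                congr 1
                field_simp
      _ ≤ ∑ D ∈ (Finset.univ : Finset (Finset ι)).filter (fun D => IAtt F a B E D),
            (t / L) ^ D.card := by
          apply Finset.sum_le_sum_of_subset_of_nonneg
          · exact Finset.filter_subset_filter _ (Finset.subset_univ _)
          · intro D _ _
            exact pow_nonneg (div_nonneg ht hL0.le) _
      _ ≤ _ := sum_IAtt_le a ht hL hmin E

end Lin

end Pool.Agent.P17c400
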