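import Pool.Agent.P.MP_17c400_co.Lin

set_option autoImplicit false

namespace Pool.Agent.P.MP_17c400_co

open Finset Pool.Agent.P17c400

section Beta

variable {F : Type*} [Field F] {V : Type*} [AddCommGroup V] [Module F V]
variable {ι : Type*} [DecidableEq ι] (a : ι → V)

theorem sp_insert (e : ι) (X : Finset ι) :
    sp F a (insert e X) = sp F a X ⊔ Submodule.span F {a e} := by
  rw [← sp_singleton, ← sp_union]
  congr 1
  ext x
  simp

theorem mem_sp_insert {e : ι} {X : Finset ι} {x : V} :
    x ∈ sp F a (insert e X) ↔ ∃ u ∈ sp F a X, ∃ r : F, x = u + r • a e := by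
  rw [sp_insert, Submodule.mem_sup]
  constructor
  · rintro ⟨u, hu, w, hw, rfl⟩
    obtain ⟨r, rfl⟩ := Submodule.mem_span_singleton.mp hw
    exact ⟨u, hu, r, rfl⟩
  · rintro ⟨u, hu, r, rfl⟩
    exact ⟨u, hu, r • a e, Submodule.mem_span_singleton.mpr ⟨r, rfl⟩, rfl⟩

theorem sp_insert_of_mem {e : ι} {X : Finset ι} (h : a e ∈ sp F a X) :
    sp F a (insert e X) = sp F a X := by
  rw [sp_insert]
  exact sup_eq_left.mpr ((Submodule.span_singleton_le_iff_mem _ _).mpr h)

theorem sp_le_insert (e : ι) (X : Finset ι) : sp F a X ≤ sp F a (insert e X) :=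
  sp_mono a (Finset.subset_insert e X)

theorem mem_sp_insert_self (e : ι) (X : Finset ι) : a e ∈ sp F a (insert e X) :=
  mem_sp a (Finset.mem_insert_self e X)

theorem sp_union_congr {X Y : Finset ι} (h : sp F a X = sp F a Y) (A : Finset ι) :
    sp F a (X ∪ A) = sp F a (Y ∪ A) := by
  rw [sp_union, sp_union, h]

theorem sp_union_le {X Y : Finset ι} (h : sp F a X ≤ sp F a Y) (A : Finset ι) :
    sp F a (X ∪ A) ≤ sp F a (Y ∪ A) := by
  rw [sp_union, sp_union]
  exact sup_le_sup_right h _

theorem sp_insert_le {X Y : Finset ι} (h : sp F a X ≤ sp F a Y) (e : ι) :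
    sp F a (insert e X) ≤ sp F a (insert e Y) := by
  rw [sp_insert, sp_insert]
  exact sup_le_sup_right h _

/-- Exchange property. -/
theorem exch {X : Finset ι} {u : ι} {x : V} (h1 : x ∈ sp F a (insert u X))
    (h2 : x ∉ sp F a X) {T : Submodule F V} (hX : sp F a X ≤ T) (hx : x ∈ T) : a u ∈ T := by
  obtain ⟨w, hw, r, rfl⟩ := (mem_sp_insert a).mp h1
  have hr : r ≠ 0 := by
    rintro rfl
    apply h2
    simpa using hw
  have e1 : a u = r⁻¹ • (w + r • a u - w) := by
    rw [add_sub_cancel_left, smul_smul, inv_mul_cancel₀ hr, one_smul]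
  rw [e1]
  exact T.smul_mem _ (T.sub_mem hx (hX hw))

omit [DecidableEq ι] in
theorem rk_congr {X Y : Finset ι} (h : sp F a X = sp F a Y) : rk F a X = rk F a Y := by
  unfold rk
  rw [h]

omit [DecidableEq ι] in
theorem rk_mono {X Y : Finset ι} (h : sp F a X ≤ sp F a Y) : rk F a X ≤ rk F a Y := by
  have := fin_sp (F := F) a Y
  exact Submodule.finrank_mono h

theorem rk_insert {e : ι} {X : Finset ι} (h : a e ∉ sp F a X) :
    rk F a (insert e X) = rk F a X + 1 := by
  have := fin_sp (F := F) a X
  have h0 : a e ≠ 0 := by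
    intro h0
    rw [h0] at h
    exact h (Submodule.zero_mem _)
  have hd : Disjoint (sp F a X) (Submodule.span F {a e}) :=
    (Submodule.disjoint_span_singleton' h0).mpr h
  have h1 := Submodule.finrank_sup_add_finrank_inf_eq (sp F a X) (Submodule.span F {a e})
  rw [hd.eq_bot, finrank_bot, finrank_span_singleton h0] at h1
  unfold rk
  rw [sp_insert]
  omega

variable (F) in
/-- Rank of `A` modulo the span of `W`. -/
noncomputable def rr (W A : Finset ι) : ℕ := rk F a (W ∪ A) - rk F a W

theorem rk_le_union (W A : Finset ι) : rk F a W ≤ rk F a (W ∪ A) :=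
  rk_mono a (sp_mono a Finset.subset_union_left)

theorem rr_empty (W : Finset ι) : rr F a W ∅ = 0 := by
  simp [rr]

theorem rr_congr {W W' A A' : Finset ι} (h : sp F a W = sp F a W')
    (h' : sp F a (W ∪ A) = sp F a (W' ∪ A')) : rr F a W A = rr F a W' A' := by
  unfold rr
  rw [rk_congr a h, rk_congr a h']

theorem rr_insert_of_mem {W A : Finset ι} {e : ι} (h : a e ∈ sp F a (W ∪ A)) :
    rr F a W (insert e A) = rr F a W A := by
  apply rr_congr a rfl
  rw [Finset.union_insert, sp_insert_of_mem a h]

theorem rr_insert {W A : Finset ι} {e : ι} (h : a e ∉ sp F a W) :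
    rr F a W (insert e A) = rr F a (insert e W) A + 1 := by
  have h1 := rk_insert a h
  have h2 := rk_le_union (F := F) a (insert e W) A
  unfold rr
  rw [Finset.union_insert, ← Finset.insert_union]
  omega

theorem rr_swap {W A : Finset ι} {e : ι} (h : a e ∉ sp F a (W ∪ A)) :
    rr F a (insert e W) A = rr F a W A := by
  have h1 := rk_insert a h
  have h2 := rk_insert a (fun h' => h (sp_mono a (Finset.subset_union_left (s₂ := A)) h'))
  unfold rr
  rw [Finset.insert_union]
  omega

theorem rr_ind {W D : Finset ι} (h : Ind F a W D) : rr F a W D = D.card := by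
  induction D using Finset.induction_on with
  | empty => simp [rr_empty]
  | insert u D hu ih =>
    have h1 := ih (Ind.mono a h (Finset.subset_insert u D))
    have h2 : a u ∉ sp F a (W ∪ D) := by
      have := h u (Finset.mem_insert_self u D)
      rwa [Finset.erase_insert hu] at this
    have h3 := rk_insert a h2
    have h4 := rk_le_union (F := F) a W D
    unfold rr at h1 ⊢
    rw [Finset.union_insert, Finset.card_insert_of_notMem hu]
    omega

variable (F) in
/-- `A` is skew to `Y` over `W`. -/
def skew (W Y A : Finset ι) : Prop := sp F a (W ∪ A) ⊓ sp F a Y ≤ sp F a W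

theorem skew_loop {W Y A : Finset ι} {e : ι} (h : a e ∈ sp F a W) :
    skew F a W Y (insert e A) ↔ skew F a W Y A := by
  unfold skew
  rw [Finset.union_insert, sp_insert_of_mem a (sp_mono a Finset.subset_union_left h)]

theorem skew_yloop {W Y A : Finset ι} {e : ι} (h : a e ∈ sp F a Y) (h' : a e ∉ sp F a W) :
    ¬ skew F a W Y (insert e A) := by
  intro hs
  exact h' (hs ⟨mem_sp a (by simp), h⟩)

theorem skew_contract {W Y A : Finset ι} {e : ι} (hWY : sp F a W ≤ sp F a Y)
    (h : a e ∉ sp F a Y) :
    skew F a W Y (insert e A) ↔ skew F a (insert e W) (insert e Y) A := by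
  unfold skew
  rw [Finset.union_insert, ← Finset.insert_union]
  constructor
  · intro hs x hx
    obtain ⟨y, hy, r, rfl⟩ := (mem_sp_insert a).mp hx.2
    have h1 : y ∈ sp F a (insert e W ∪ A) := by
      have h2 : r • a e ∈ sp F a (insert e W ∪ A) :=
        Submodule.smul_mem _ _ (mem_sp a (by simp))
      have := Submodule.sub_mem _ hx.1 h2
      simpa using this
    exact (mem_sp_insert a).mpr ⟨y, hs ⟨h1, hy⟩, r, rfl⟩
  · intro hs x hx
    obtain ⟨w, hw, r, rfl⟩ := (mem_sp_insert a).mp (hs ⟨hx.1, sp_le_insert a e Y hx.2⟩)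
    by_contra hn
    exact h (exch a ((mem_sp_insert a).mpr ⟨w, hw, r, rfl⟩) hn hWY hx.2)

theorem skew_coloop {W Y A : Finset ι} {e : ι} (hWY : sp F a W ≤ sp F a Y)
    (h : a e ∉ sp F a (Y ∪ A)) : skew F a W Y (insert e A) ↔ skew F a W Y A := by
  unfold skew
  rw [Finset.union_insert]
  constructor
  · intro hs x hx
    exact hs ⟨sp_le_insert a e _ hx.1, hx.2⟩
  · intro hs x hx
    refine hs ⟨?_, hx.2⟩
    by_contra hn
    exact h (exch a hx.1 hn (sp_union_le a hWY A) (sp_mono a Finset.subset_union_left hx.2))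

open Classical in
variable (F) in
/-- Alternating count of skew subsets. -/
noncomputable def bb (W Y S : Finset ι) : ℝ :=
  ∑ A ∈ S.powerset, if skew F a W Y A then (-1 : ℝ) ^ A.card else 0

variable (F) in
/-- The invariant with its sign normalised. -/
noncomputable def be (W Y S : Finset ι) : ℝ := (-1) ^ rr F a Y S * bb F a W Y S

open Classical in
theorem bb_insert (W Y : Finset ι) {S : Finset ι} {e : ι} (he : e ∉ S) :
    bb F a W Y (insert e S) = bb F a W Y S -
      ∑ A ∈ S.powerset, if skew F a W Y (insert e A) then (-1 : ℝ) ^ A.card else 0 := by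
  unfold bb
  rw [Finset.sum_powerset_insert he, sub_eq_add_neg, ← Finset.sum_neg_distrib]
  congr 1
  apply Finset.sum_congr rfl
  intro A hA
  have : e ∉ A := fun h => he (Finset.mem_powerset.mp hA h)
  rw [Finset.card_insert_of_notMem this]
  split_ifs
  · ring
  · ring

theorem be_empty (W Y : Finset ι) : be F a W Y ∅ = 1 := by
  have : skew F a W Y ∅ := by
    unfold skew
    rw [Finset.union_empty]
    exact inf_le_left
  simp [be, bb, rr_empty, this]

theorem be_loop (Y : Finset ι) {W S : Finset ι} {e : ι} (he : e ∉ S) (h : a e ∈ sp F a W) :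
    be F a W Y (insert e S) = 0 := by
  classical
  unfold be
  rw [bb_insert a W Y he]
  simp only [skew_loop a h]
  unfold bb
  rw [sub_self, mul_zero]

theorem be_yloop {W Y S : Finset ι} {e : ι} (he : e ∉ S) (h : a e ∈ sp F a Y)
    (h' : a e ∉ sp F a W) : be F a W Y (insert e S) = be F a W Y S := by
  unfold be
  rw [bb_insert a W Y he, rr_insert_of_mem a (sp_mono a Finset.subset_union_left h)]
  simp [skew_yloop a h h']

theorem be_coloop {W Y S : Finset ι} {e : ι} (hWY : sp F a W ≤ sp F a Y) (he : e ∉ S)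
    (h : a e ∉ sp F a (Y ∪ S)) : be F a W Y (insert e S) = 0 := by
  classical
  unfold be
  rw [bb_insert a W Y he]
  have : (∑ A ∈ S.powerset, if skew F a W Y (insert e A) then (-1 : ℝ) ^ A.card else 0) =
      bb F a W Y S := by
    unfold bb
    apply Finset.sum_congr rfl
    intro A hA
    rw [skew_coloop a hWY (fun h' => h (sp_mono a
      (Finset.union_subset_union_right (Finset.mem_powerset.mp hA)) h'))]
  rw [this, sub_self, mul_zero]

theorem be_swap {W Y S : Finset ι} {e : ι} (hWY : sp F a W ≤ sp F a Y)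
    (h : a e ∉ sp F a (Y ∪ S)) : be F a (insert e W) (insert e Y) S = be F a W Y S := by
  classical
  have h0 : a e ∉ sp F a Y := fun h' => h (sp_mono a Finset.subset_union_left h')
  unfold be
  rw [rr_swap a h]
  congr 1
  unfold bb
  apply Finset.sum_congr rfl
  intro A hA
  rw [← skew_contract a hWY h0, skew_coloop a hWY (fun h' => h (sp_mono a
      (Finset.union_subset_union_right (Finset.mem_powerset.mp hA)) h'))]

theorem be_dc {W Y S : Finset ι} {e : ι} (hWY : sp F a W ≤ sp F a Y) (he : e ∉ S)
    (h0 : a e ∉ sp F a Y) (h : a e ∈ sp F a (Y ∪ S)) :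
    be F a W Y (insert e S) = be F a W Y S + be F a (insert e W) (insert e Y) S := by
  classical
  have e1 : rr F a Y S = rr F a (insert e Y) S + 1 := by
    rw [← rr_insert a h0, rr_insert_of_mem a h]
  unfold be
  rw [bb_insert a W Y he, rr_insert_of_mem a h]
  simp only [skew_contract a hWY h0]
  rw [e1]
  unfold bb
  ring

theorem be_nonneg (S : Finset ι) : ∀ W Y : Finset ι, sp F a W ≤ sp F a Y → 0 ≤ be F a W Y S := by
  induction S using Finset.induction_on with
  | empty => intro W Y _; rw [be_empty]; exact zero_le_one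
  | insert e S he ih =>
    intro W Y hWY
    by_cases h1 : a e ∈ sp F a W
    · rw [be_loop a Y he h1]
    by_cases h2 : a e ∈ sp F a Y
    · rw [be_yloop a he h2 h1]; exact ih W Y hWY
    by_cases h3 : a e ∈ sp F a (Y ∪ S)
    · rw [be_dc a hWY he h2 h3]
      exact add_nonneg (ih W Y hWY) (ih _ _ (sp_insert_le a hWY e))
    · rw [be_coloop a hWY he h3]

theorem be_all_yloop {W Y : Finset ι} (S : Finset ι)
    (h : ∀ e ∈ S, a e ∈ sp F a Y ∧ a e ∉ sp F a W) : be F a W Y S = 1 := by
  induction S using Finset.induction_on with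
  | empty => exact be_empty a W Y
  | insert e S he ih =>
    rw [be_yloop a he (h e (by simp)).1 (h e (by simp)).2]
    exact ih (fun f hf => h f (Finset.mem_insert_of_mem hf))

variable (F) in
/-- Broken circuit polynomial of `S` modulo `W`. -/
noncomputable def pp (y : ℝ) (W S : Finset ι) : ℝ :=
  ∑ A ∈ S.powerset, (-1 : ℝ) ^ A.card * (-y) ^ rr F a W A

theorem pp_empty (y : ℝ) (W : Finset ι) : pp F a y W ∅ = 1 := by
  simp [pp, rr_empty]

theorem pp_congr (y : ℝ) {W W' : Finset ι} (h : sp F a W = sp F a W') (S : Finset ι) :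
    pp F a y W S = pp F a y W' S := by
  unfold pp
  apply Finset.sum_congr rfl
  intro A _
  rw [rr_congr a h (sp_union_congr a h A)]

theorem pp_insert (y : ℝ) (W : Finset ι) {S : Finset ι} {e : ι} (he : e ∉ S) :
    pp F a y W (insert e S) = pp F a y W S -
      ∑ A ∈ S.powerset, (-1 : ℝ) ^ A.card * (-y) ^ rr F a W (insert e A) := by
  unfold pp
  rw [Finset.sum_powerset_insert he, sub_eq_add_neg, ← Finset.sum_neg_distrib]
  congr 1
  apply Finset.sum_congr rfl
  intro A hA
  have : e ∉ A := fun h => he (Finset.mem_powerset.mp hA h)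
  rw [Finset.card_insert_of_notMem this]
  ring

theorem pp_loop (y : ℝ) {W S : Finset ι} {e : ι} (he : e ∉ S) (h : a e ∈ sp F a W) :
    pp F a y W (insert e S) = 0 := by
  rw [pp_insert a y W he, sub_eq_zero]
  unfold pp
  apply Finset.sum_congr rfl
  intro A _
  rw [rr_insert_of_mem a (sp_mono a Finset.subset_union_left h)]

theorem pp_loop' (y : ℝ) {W S : Finset ι} {e : ι} (he : e ∈ S) (h : a e ∈ sp F a W) :
    pp F a y W S = 0 := by
  rw [← Finset.insert_erase he]
  exact pp_loop a y (Finset.notMem_erase e S) h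

theorem pp_dc (y : ℝ) {W S : Finset ι} {e : ι} (he : e ∉ S) (h : a e ∉ sp F a W) :
    pp F a y W (insert e S) = pp F a y W S + y * pp F a y (insert e W) S := by
  rw [pp_insert a y W he, sub_eq_add_neg]
  congr 1
  unfold pp
  rw [Finset.mul_sum, ← Finset.sum_neg_distrib]
  apply Finset.sum_congr rfl
  intro A _
  rw [rr_insert a h]
  ring

theorem pp_bounds {y : ℝ} (hy : 0 ≤ y) (S : Finset ι) :
    ∀ W : Finset ι, 0 ≤ pp F a y W S ∧ pp F a y W S ≤ (1 + y) ^ S.card := by
  induction S using Finset.induction_on with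
  | empty => intro W; rw [pp_empty]; simp
  | insert e S he ih =>
    intro W
    by_cases h1 : a e ∈ sp F a W
    · rw [pp_loop a y he h1]
      exact ⟨le_rfl, by positivity⟩
    · rw [pp_dc a y he h1, Finset.card_insert_of_notMem he, pow_succ]
      have p1 := ih W
      have p2 := ih (insert e W)
      constructor
      · exact add_nonneg p1.1 (mul_nonneg hy p2.1)
      · have := mul_le_mul_of_nonneg_left p2.2 hy
        linarith [p1.2]

theorem one_le_pp {y : ℝ} (hy : 0 ≤ y) {W : Finset ι} (S : Finset ι)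
    (h : ∀ e ∈ S, a e ∉ sp F a W) : 1 ≤ pp F a y W S := by
  induction S using Finset.induction_on with
  | empty => rw [pp_empty]
  | insert e S he ih =>
    rw [pp_dc a y he (h e (by simp))]
    have := ih (fun f hf => h f (Finset.mem_insert_of_mem hf))
    have := mul_nonneg hy (pp_bounds (F := F) a hy S (insert e W)).1
    linarith

/-- Expansion of the broken circuit polynomial along the flats over `Y`. -/
theorem pp_ge {y : ℝ} (hy : 0 ≤ y) (S : Finset ι) : ∀ W Y : Finset ι, sp F a W ≤ sp F a Y →
    ∑ K ∈ S.powerset, y ^ rr F a Y K * be F a W Y K * pp F a y (Y ∪ K) (S \ K) ≤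
      pp F a y W S := by
  induction S using Finset.induction_on with
  | empty => intro W Y _; simp [rr_empty, be_empty, pp_empty]
  | insert e S he ih =>
    intro W Y hWY
    rw [Finset.sum_powerset_insert he, ← Finset.sum_add_distrib]
    have hK : ∀ K ∈ S.powerset, e ∉ K := fun K hK h => he (Finset.mem_powerset.mp hK h)
    have s1 : ∀ K ∈ S.powerset, insert e S \ K = insert e (S \ K) := fun K hK' =>
      Finset.insert_sdiff_of_notMem S (hK K hK')
    have s2 : ∀ K : Finset ι, insert e S \ insert e K = S \ K := fun K => by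
      ext x
      simp only [Finset.mem_sdiff, Finset.mem_insert]
      constructor
      · rintro ⟨h1 | h1, h2⟩
        · exact absurd (Or.inl h1) h2
        · exact ⟨h1, fun h => h2 (Or.inr h)⟩
      · rintro ⟨h1, h2⟩
        refine ⟨Or.inr h1, ?_⟩
        rintro (h | h)
        · exact he (h ▸ h1)
        · exact h2 h
    have s3 : ∀ K : Finset ι, e ∉ S \ K := fun K h => he (Finset.mem_sdiff.mp h).1
    by_cases h1 : a e ∈ sp F a W
    · rw [pp_loop a y he h1]
      apply le_of_eq
      apply Finset.sum_eq_zero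
      intro K hK'
      rw [s1 K hK', pp_loop a y (s3 K) (sp_mono a Finset.subset_union_left (hWY h1)),
        be_loop a Y (hK K hK') h1]
      ring
    by_cases h2 : a e ∈ sp F a Y
    · rw [pp_dc a y he h1]
      have p1 := ih W Y hWY
      have p2 := mul_nonneg hy (pp_bounds (F := F) a hy S (insert e W)).1
      refine le_trans (le_of_eq ?_) (le_add_of_le_of_nonneg p1 p2)
      apply Finset.sum_congr rfl
      intro K hK'
      have h3 : a e ∈ sp F a (Y ∪ K) := sp_mono a Finset.subset_union_left h2
      rw [s1 K hK', pp_loop a y (s3 K) h3, be_yloop a (hK K hK') h2 h1, s2,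
        rr_insert_of_mem a h3, Finset.union_insert, pp_congr a y (sp_insert_of_mem a h3)]
      ring
    · rw [pp_dc a y he h1]
      have p1 := ih W Y hWY
      have p2 := mul_le_mul_of_nonneg_left (ih _ _ (sp_insert_le a hWY e)) hy
      refine le_trans (le_of_eq ?_) (add_le_add p1 p2)
      rw [Finset.mul_sum, ← Finset.sum_add_distrib]
      apply Finset.sum_congr rfl
      intro K hK'
      rw [s1 K hK', s2, Finset.union_insert, Finset.insert_union]
      by_cases h3 : a e ∈ sp F a (Y ∪ K)
      · have e1 : rr F a Y K = rr F a (insert e Y) K + 1 := by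
          rw [← rr_insert a h2, rr_insert_of_mem a h3]
        rw [pp_loop a y (s3 K) h3, be_dc a hWY (hK K hK') h2 h3, rr_insert_of_mem a h3,
          pp_congr a y (sp_insert_of_mem a h3), e1]
        ring
      · rw [be_coloop a hWY (hK K hK') h3, pp_dc a y (s3 K) h3, be_swap a hWY h3, rr_swap a h3]
        ring

open Classical in
theorem pp_anti {y : ℝ} (hy : 0 ≤ y) {W Y : Finset ι} (hWY : sp F a W ≤ sp F a Y)
    (S : Finset ι) (h : ∀ e ∈ S, a e ∉ sp F a W) :
    pp F a y Y (S.filter (fun e => a e ∉ sp F a Y)) ≤ pp F a y W S := by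
  refine le_trans ?_ (pp_ge a hy S W Y hWY)
  have hK : S.filter (fun e => a e ∈ sp F a Y) ∈ S.powerset :=
    Finset.mem_powerset.mpr (Finset.filter_subset _ _)
  refine le_trans (le_of_eq ?_) (Finset.single_le_sum (f := fun K =>
    y ^ rr F a Y K * be F a W Y K * pp F a y (Y ∪ K) (S \ K)) (fun K _ =>
      mul_nonneg (mul_nonneg (pow_nonneg hy _) (be_nonneg a K W Y hWY))
        (pp_bounds a hy _ _).1) hK)
  have e1 : sp F a (Y ∪ S.filter (fun e => a e ∈ sp F a Y)) = sp F a Y := by
    rw [sp_union]
    exact sup_eq_left.mpr (sp_le a (fun u hu => (Finset.mem_filter.mp hu).2))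
  have e2 : rr F a Y (S.filter (fun e => a e ∈ sp F a Y)) = 0 := by
    rw [← rr_empty (F := F) a Y]
    exact rr_congr a rfl (by rw [e1, Finset.union_empty])
  rw [e2, be_all_yloop a _ (fun e he =>
    ⟨(Finset.mem_filter.mp he).2, h e (Finset.mem_filter.mp he).1⟩), pp_congr a y e1,
    Finset.filter_not]
  simp

end Beta

end Pool.Agent.P.MP_17c400_co
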