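import Mathlib

set_option autoImplicit false

namespace Pool.Agent.P.MP_17c400_co

open Finset

section Ex

variable {ι : Type*} [Fintype ι] [DecidableEq ι]

/-- Product weight. -/
def wt (α β : ι → ℝ) (R : Finset ι) : ℝ := ∏ e, if e ∈ R then α e else β e

theorem sum_wt (α β : ι → ℝ) : ∑ R, wt α β R = ∏ e, (α e + β e) := by
  rw [Finset.prod_add, Finset.powerset_univ]
  apply Finset.sum_congr rfl
  intro R _
  unfold wt
  rw [Finset.prod_ite]
  congr 1
  · congr 1
    ext x
    simp
  · congr 1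
    ext x
    simp

theorem wt_nonneg {α β : ι → ℝ} (hα : ∀ e, 0 ≤ α e) (hβ : ∀ e, 0 ≤ β e) (R : Finset ι) :
    0 ≤ wt α β R := by
  unfold wt
  apply Finset.prod_nonneg
  intro e _
  split_ifs
  · exact hα e
  · exact hβ e

theorem wt_mul (α β g h : ι → ℝ) (R : Finset ι) :
    wt α β R * wt g h R = wt (fun e => α e * g e) (fun e => β e * h e) R := by
  unfold wt
  rw [← Finset.prod_mul_distrib]
  apply Finset.prod_congr rfl
  intro e _
  split_ifs <;> rfl

/-- Expectation over a random subset. -/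
def Ex (p : ℝ) (f : Finset ι → ℝ) : ℝ := ∑ R, wt (fun _ => p) (fun _ => 1 - p) R * f R

theorem Ex_wt (p : ℝ) (g h : ι → ℝ) : Ex p (wt g h) = ∏ e, (p * g e + (1 - p) * h e) := by
  unfold Ex
  simp only [wt_mul]
  rw [sum_wt]

theorem sum_wt_one (p : ℝ) : ∑ R : Finset ι, wt (fun _ => p) (fun _ => 1 - p) R = 1 := by
  rw [sum_wt]
  simp

theorem Ex_const (p t : ℝ) : Ex p (fun _ : Finset ι => t) = t := by
  unfold Ex
  rw [← Finset.sum_mul, sum_wt_one, one_mul]

theorem Ex_mono {p : ℝ} (h0 : 0 ≤ p) (h1 : p ≤ 1) {f g : Finset ι → ℝ} (h : ∀ R, f R ≤ g R) :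
    Ex p f ≤ Ex p g :=
  Finset.sum_le_sum (fun R _ => mul_le_mul_of_nonneg_left (h R)
    (wt_nonneg (fun _ => h0) (fun _ => by linarith) R))

theorem Ex_nonneg {p : ℝ} (h0 : 0 ≤ p) (h1 : p ≤ 1) {f : Finset ι → ℝ} (h : ∀ R, 0 ≤ f R) :
    0 ≤ Ex p f := by
  rw [← Ex_const (ι := ι) p 0]
  exact Ex_mono h0 h1 h

theorem Ex_sum {κ : Type*} (p : ℝ) (s : Finset κ) (f : κ → Finset ι → ℝ) :
    Ex p (fun R => ∑ k ∈ s, f k R) = ∑ k ∈ s, Ex p (f k) := by
  unfold Ex
  simp only [Finset.mul_sum]
  rw [Finset.sum_comm]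

theorem Ex_mul (p t : ℝ) (f : Finset ι → ℝ) : Ex p (fun R => t * f R) = t * Ex p f := by
  unfold Ex
  rw [Finset.mul_sum]
  apply Finset.sum_congr rfl
  intro R _
  ring

theorem wt_pow (t : ℝ) (N R : Finset ι) :
    wt (fun e => if e ∈ N then t else 1) (fun _ => 1) R = t ^ (R ∩ N).card := by
  unfold wt
  rw [← Finset.prod_const, ← Finset.univ_inter (R ∩ N), ← Finset.prod_ite_mem]
  apply Finset.prod_congr rfl
  intro e _
  by_cases h1 : e ∈ R <;> by_cases h2 : e ∈ N <;> simp [h1, h2]

theorem Ex_pow (p t : ℝ) (N : Finset ι) :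
    Ex p (fun R => t ^ (R ∩ N).card) = (p * t + (1 - p)) ^ N.card := by
  have e : (fun R : Finset ι => t ^ (R ∩ N).card) =
      wt (fun e => if e ∈ N then t else 1) (fun _ => 1) := by
    funext R
    rw [wt_pow]
  rw [e, Ex_wt, ← Finset.prod_const, ← Finset.univ_inter N, ← Finset.prod_ite_mem]
  apply Finset.prod_congr rfl
  intro x _
  by_cases h : x ∈ N <;> simp [h]

theorem Ex_indep (p : ℝ) (G : Finset ι) (φ ψ : Finset ι → ℝ) :
    Ex p (fun R => φ (R ∩ G) * ψ (R \ G)) =
      Ex p (fun R => φ (R ∩ G)) * Ex p (fun R => ψ (R \ G)) := by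
  let s : Finset ι × Finset ι → Finset ι × Finset ι := fun x =>
    (x.1 ∩ G ∪ x.2 \ G, x.2 ∩ G ∪ x.1 \ G)
  have hs : Function.Involutive s := by
    rintro ⟨R, R'⟩
    apply Prod.ext
    · ext x
      by_cases h : x ∈ G <;> simp [s, h]
    · ext x
      by_cases h : x ∈ G <;> simp [s, h]
  have e1 : Ex p (fun R => φ (R ∩ G) * ψ (R \ G)) =
      ∑ x : Finset ι × Finset ι, wt (fun _ => p) (fun _ => 1 - p) x.1 *
        (φ (x.1 ∩ G) * ψ (x.1 \ G)) * wt (fun _ => p) (fun _ => 1 - p) x.2 := by
    rw [Fintype.sum_prod_type]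
    unfold Ex
    apply Finset.sum_congr rfl
    intro R _
    simp only
    rw [← Finset.mul_sum, sum_wt_one, mul_one]
  rw [e1]
  unfold Ex
  rw [Finset.sum_mul_sum, ← Fintype.sum_prod_type', ← Equiv.sum_comp hs.toPerm]
  apply Finset.sum_congr rfl
  rintro ⟨R, R'⟩ _
  simp only [Function.Involutive.coe_toPerm, s]
  have a1 : (R ∩ G ∪ R' \ G) ∩ G = R ∩ G := by
    ext x
    by_cases h : x ∈ G <;> simp [h]
  have a2 : (R ∩ G ∪ R' \ G) \ G = R' \ G := by
    ext x
    by_cases h : x ∈ G <;> simp [h]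
  have a3 : wt (fun _ => p) (fun _ => 1 - p) (R ∩ G ∪ R' \ G) *
      wt (fun _ => p) (fun _ => 1 - p) (R' ∩ G ∪ R \ G) =
      wt (fun _ => p) (fun _ => 1 - p) R * wt (fun _ => p) (fun _ => 1 - p) R' := by
    unfold wt
    rw [← Finset.prod_mul_distrib, ← Finset.prod_mul_distrib]
    apply Finset.prod_congr rfl
    intro x _
    by_cases h : x ∈ G <;> by_cases h1 : x ∈ R <;> by_cases h2 : x ∈ R' <;> simp [h, h1, h2, mul_comm]
  rw [a1, a2]
  linear_combination (φ (R ∩ G) * ψ (R' \ G)) * a3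

theorem Ex_sub (p : ℝ) (D : Finset ι) :
    Ex p (fun R => if D ⊆ R then (1 : ℝ) else 0) = p ^ D.card := by
  have e : (fun R : Finset ι => if D ⊆ R then (1 : ℝ) else 0) =
      wt (fun _ => 1) (fun e => if e ∈ D then 0 else 1) := by
    funext R
    unfold wt
    split_ifs with h
    · symm
      apply Finset.prod_eq_one
      intro e _
      by_cases h1 : e ∈ R
      · simp [h1]
      · have : e ∉ D := fun h2 => h1 (h h2)
        simp [h1, this]
    · obtain ⟨e, h1, h2⟩ := Finset.not_subset.mp h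
      symm
      apply Finset.prod_eq_zero (Finset.mem_univ e)
      simp [h1, h2]
  rw [e, Ex_wt, ← Finset.prod_const, ← Finset.univ_inter D, ← Finset.prod_ite_mem]
  apply Finset.prod_congr rfl
  intro x _
  by_cases h : x ∈ D <;> simp [h]

theorem Ex_cond (p : ℝ) (D : Finset ι) (φ : Finset ι → ℝ) :
    Ex p (fun R => if D ⊆ R then φ R else 0) = p ^ D.card * Ex p (fun R => φ (D ∪ R)) := by
  have h := Ex_indep p D (fun X => if D ⊆ X then (1 : ℝ) else 0) (fun X => φ (D ∪ X))
  simp only [Finset.union_sdiff_self_eq_union, Finset.subset_inter_iff, subset_refl,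
    and_true] at h
  rw [Ex_sub] at h
  rw [← h]
  congr 1
  funext R
  split_ifs with h1
  · rw [Finset.union_eq_right.mpr h1, one_mul]
  · rw [zero_mul]

theorem pow_le_two_thirds {p : ℝ} (h0 : 0 ≤ p) (h1 : p ≤ 1) {n : ℕ} (h : 1 ≤ p * n) :
    (1 - p / 2) ^ n ≤ 2 / 3 := by
  have a1 : (1 - p / 2) ^ n * (1 + p / 2) ^ n ≤ 1 := by
    rw [← mul_pow]
    apply pow_le_one₀
    · exact mul_nonneg (by linarith) (by linarith)
    · nlinarith
  have a2 : 1 + (n : ℝ) * (p / 2) ≤ (1 + p / 2) ^ n := one_add_mul_le_pow (by linarith) n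
  have a3 : 0 ≤ (1 - p / 2) ^ n := pow_nonneg (by linarith) n
  nlinarith

/-- Hitting several large sets under a tilted product weight. -/
theorem Ex_hit {p : ℝ} (h0 : 0 ≤ p) (h1 : p ≤ 1) (N T : Finset ι) (S : ι → Finset ι)
    (hS : ∀ u ∈ T, 1 ≤ p * (S u).card) :
    (1 - p / 2) ^ N.card * (1 / 3) ^ T.card ≤
      Ex p (fun R => (1 / 2) ^ (R ∩ N).card * if ∀ u ∈ T, (R ∩ S u).Nonempty then 1 else 0) := by
  set α : ι → ℝ := fun e => p * if e ∈ N then 1 / 2 else 1 with hα
  set β : ι → ℝ := fun _ => (1 - p) * 1 with hβ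
  have hα0 : ∀ e, 0 ≤ α e := by
    intro e
    simp only [hα]
    split_ifs <;> positivity
  have hβ0 : ∀ e, 0 ≤ β e := fun e => by simp only [hβ]; linarith
  have hμ : ∀ R, wt (fun _ => p) (fun _ => 1 - p) R * (1 / 2) ^ (R ∩ N).card = wt α β R := by
    intro R
    rw [← wt_pow, wt_mul]
  have hZ : ∑ R, wt α β R = (1 - p / 2) ^ N.card := by
    have := Ex_pow p (1 / 2) N
    unfold Ex at this
    simp only [hμ] at this
    rw [this]
    congr 1
    ring
  have hZ0 : 0 < (1 - p / 2) ^ N.card := pow_pos (by linarith) _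
  have one : ∀ X : Finset ι, 1 ≤ p * X.card → (1 - p / 2) ^ N.card * (1 / 3) ≤
      ∑ R, wt α β R * if (R ∩ X).Nonempty then 1 else 0 := by
    intro X hX
    have m1 : ∀ R : Finset ι, (if (R ∩ X).Nonempty then (1 : ℝ) else 0) =
        1 - (0 : ℝ) ^ (R ∩ X).card := by
      intro R
      split_ifs with h
      · rw [zero_pow (Finset.card_pos.mpr h).ne', sub_zero]
      · rw [Finset.not_nonempty_iff_eq_empty.mp h]
        simp
    have m2 : ∑ R, wt α β R * (0 : ℝ) ^ (R ∩ X).card ≤
        (1 - p / 2) ^ N.card * (1 - p / 2) ^ X.card := by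
      simp only [← wt_pow, wt_mul]
      rw [sum_wt, ← hZ, sum_wt, ← Finset.prod_const, ← Finset.univ_inter X,
        ← Finset.prod_ite_mem, ← Finset.prod_mul_distrib]
      apply Finset.prod_le_prod
      · intro e _
        have := hα0 e
        have := hβ0 e
        split_ifs <;> positivity
      · intro e _
        simp only [hα, hβ, Finset.mem_inter, Finset.mem_univ, true_and]
        split_ifs <;> nlinarith
    have m3 := pow_le_two_thirds h0 h1 hX
    simp only [m1, mul_sub, mul_one]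
    rw [Finset.sum_sub_distrib, hZ]
    nlinarith
  have main : ∀ T : Finset ι, (∀ u ∈ T, 1 ≤ p * (S u).card) →
      (1 - p / 2) ^ N.card * (1 / 3) ^ T.card ≤
        ∑ R, wt α β R * if ∀ u ∈ T, (R ∩ S u).Nonempty then 1 else 0 := by
    intro T
    induction T using Finset.induction_on with
    | empty => intro _; simp [hZ]
    | insert v T hv ih =>
      intro hT
      have i1 := ih (fun u hu => hT u (Finset.mem_insert_of_mem hu))
      have i2 := one (S v) (hT v (Finset.mem_insert_self v T))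
      have i3 := fkg (μ := wt α β) (f := fun R => if (R ∩ S v).Nonempty then (1 : ℝ) else 0)
        (g := fun R => if ∀ u ∈ T, (R ∩ S u).Nonempty then (1 : ℝ) else 0)
        (fun R => wt_nonneg hα0 hβ0 R)
        (fun R => by simp only [Pi.zero_apply]; split_ifs <;> norm_num)
        (fun R => by simp only [Pi.zero_apply]; split_ifs <;> norm_num)
        (fun R R' h => by
          simp only
          split_ifs with p1 p2
          · exact le_rfl
          · exact absurd (p1.mono (Finset.inter_subset_inter h (subset_refl _))) p2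
          · norm_num
          · exact le_rfl)
        (fun R R' h => by
          simp only
          split_ifs with p1 p2
          · exact le_rfl
          · exact absurd (fun u hu =>
              (p1 u hu).mono (Finset.inter_subset_inter h (subset_refl _))) p2
          · norm_num
          · exact le_rfl)
        (fun R R' => by
          apply le_of_eq
          unfold wt
          rw [← Finset.prod_mul_distrib, ← Finset.prod_mul_distrib]
          apply Finset.prod_congr rfl
          intro x _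
          by_cases p1 : x ∈ R <;> by_cases p2 : x ∈ R' <;> simp [p1, p2, mul_comm])
      have e : ∀ R : Finset ι, (if ∀ u ∈ insert v T, (R ∩ S u).Nonempty then (1 : ℝ) else 0) =
          (if (R ∩ S v).Nonempty then (1 : ℝ) else 0) *
            if ∀ u ∈ T, (R ∩ S u).Nonempty then (1 : ℝ) else 0 := by
        intro R
        simp only [Finset.forall_mem_insert]
        by_cases p1 : (R ∩ S v).Nonempty <;> by_cases p2 : ∀ u ∈ T, (R ∩ S u).Nonempty
        · rw [if_pos ⟨p1, p2⟩, if_pos p1, if_pos p2, mul_one]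
        · rw [if_neg (fun h => p2 h.2), if_neg p2, mul_zero]
        · rw [if_neg (fun h => p1 h.1), if_neg p1, zero_mul]
        · rw [if_neg (fun h => p1 h.1), if_neg p1, zero_mul]
      simp only [e]
      rw [hZ] at i3
      rw [Finset.card_insert_of_notMem hv, pow_succ]
      have i4 := mul_le_mul i2 i1 (by positivity) (le_trans (by positivity) i2)
      apply le_of_mul_le_mul_left _ hZ0
      refine le_trans (le_of_eq ?_) (i4.trans i3)
      ring
  refine (main T hS).trans (le_of_eq ?_)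
  unfold Ex
  apply Finset.sum_congr rfl
  intro R _
  rw [← mul_assoc, hμ]

end Ex

end Pool.Agent.P.MP_17c400_co
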