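import Pool.Agent.P.MP_17c400_co.LogJoint
import Pool.Agent.P.MP_17c400_co.LogEx

set_option autoImplicit false

namespace Pool.Agent.P.MP_17c400_co

open Finset Pool.Agent.P17c400

theorem sum_cons {α : Type*} [Fintype α] {n : ℕ} (f : (Fin (n + 1) → α) → ℝ) :
    ∑ K, f K = ∑ k : α, ∑ K : Fin n → α, f (Fin.cons k K) := by
  rw [← Fintype.sum_prod_type', ← (Fin.consEquiv (fun _ => α)).sum_comp]
  rfl

section Chain

variable {F : Type*} [Field F] {V : Type*} [AddCommGroup V] [Module F V]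
variable {ι : Type*} [DecidableEq ι] [Fintype ι] (a : ι → V)

open Classical in
variable (F) in
/-- Indices outside the span of `Z`. -/
noncomputable def nl (Z : Finset ι) : Finset ι := Finset.univ.filter (fun e => a e ∉ sp F a Z)

omit [DecidableEq ι] in
theorem mem_nl {Z : Finset ι} {e : ι} : e ∈ nl F a Z ↔ a e ∉ sp F a Z := by
  simp [nl]

variable (F) in
/-- Indices in the span of `Z` and outside the span of `B`. -/
noncomputable def gs (B Z : Finset ι) : Finset ι := nl F a B \ nl F a Z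

theorem mem_gs {B Z : Finset ι} {e : ι} :
    e ∈ gs F a B Z ↔ a e ∉ sp F a B ∧ a e ∈ sp F a Z := by
  simp [gs, mem_nl]

theorem gs_congr (B : Finset ι) {Z Z' : Finset ι} (h : sp F a Z = sp F a Z') :
    gs F a B Z = gs F a B Z' := by
  ext e
  rw [mem_gs, mem_gs, h]

variable (F) in
/-- Sampled broken circuit polynomial. -/
noncomputable def T1 (p x : ℝ) (Z : Finset ι) : ℝ :=
  Ex p (fun R => pp F a (x / p) Z (R ∩ nl F a Z))

theorem one_le_T1 {p x : ℝ} (h0 : 0 < p) (h1 : p ≤ 1) (hx : 0 ≤ x) (Z : Finset ι) :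
    1 ≤ T1 F a p x Z := by
  rw [← Ex_const (ι := ι) p 1]
  exact Ex_mono h0.le h1 (fun R => one_le_pp a (div_nonneg hx h0.le) _
    (fun e he => (mem_nl a).mp (Finset.mem_inter.mp he).2))

theorem T1_le {p x : ℝ} (h0 : 0 < p) (h1 : p ≤ 1) (hx : 0 ≤ x) (Z : Finset ι) :
    T1 F a p x Z ≤ (1 + x) ^ Fintype.card ι := by
  have hy : 0 ≤ x / p := div_nonneg hx h0.le
  have e : (1 + x) ^ Fintype.card ι =
      Ex p (fun R : Finset ι => (1 + x / p) ^ (R ∩ Finset.univ).card) := by
    rw [Ex_pow, Finset.card_univ]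
    congr 1
    field_simp
    ring
  rw [e]
  exact Ex_mono h0.le h1 (fun R => (pp_bounds a hy _ Z).2.trans (pow_le_pow_right₀ (by linarith)
    (Finset.card_le_card (Finset.inter_subset_inter (subset_refl _) (Finset.subset_univ _)))))

theorem T1_anti {p x : ℝ} (h0 : 0 < p) (h1 : p ≤ 1) (hx : 0 ≤ x) {W Y : Finset ι}
    (h : sp F a W ≤ sp F a Y) : T1 F a p x Y ≤ T1 F a p x W := by
  classical
  apply Ex_mono h0.le h1
  intro R
  refine le_trans (le_of_eq ?_) (pp_anti a (div_nonneg hx h0.le) h (R ∩ nl F a W)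
    (fun e he => (mem_nl a).mp (Finset.mem_inter.mp he).2))
  congr 1
  ext e
  simp only [Finset.mem_inter, Finset.mem_filter, mem_nl]
  exact ⟨fun h1 => ⟨⟨h1.1, fun h2 => h1.2 (h h2)⟩, h1.2⟩, fun h1 => ⟨h1.1.1, h1.2⟩⟩

variable (F) in
/-- Weight of the trace `K` of the sample on the flat spanned by `Y` and `K`. -/
noncomputable def AA (p x : ℝ) (B Y K : Finset ι) : ℝ :=
  (x / p) ^ rr F a Y K * Ex p (fun R => if R ∩ gs F a B (Y ∪ K) = K then 1 else 0)

theorem AA_nonneg {p x : ℝ} (h0 : 0 < p) (h1 : p ≤ 1) (hx : 0 ≤ x) (B Y K : Finset ι) :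
    0 ≤ AA F a p x B Y K :=
  mul_nonneg (pow_nonneg (div_nonneg hx h0.le) _)
    (Ex_nonneg h0.le h1 (fun R => by split_ifs <;> norm_num))

theorem AA_sub {p x : ℝ} {B Y K : Finset ι} (h : AA F a p x B Y K ≠ 0) : K ⊆ nl F a B := by
  by_contra hn
  apply h
  unfold AA
  have e : (fun R : Finset ι => if R ∩ gs F a B (Y ∪ K) = K then (1 : ℝ) else 0) =
      fun _ => 0 := by
    funext R
    rw [if_neg]
    intro h1
    apply hn
    rw [← h1]
    exact Finset.inter_subset_right.trans Finset.sdiff_subset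
  rw [e, Ex_const, mul_zero]

theorem T1_ge {p x : ℝ} (h0 : 0 < p) (h1 : p ≤ 1) (hx : 0 ≤ x) {B Y : Finset ι}
    (h : sp F a B ≤ sp F a Y) :
    ∑ K, AA F a p x B Y K * be F a B Y K * T1 F a p x (Y ∪ K) ≤ T1 F a p x B := by
  have hy : 0 ≤ x / p := div_nonneg hx h0.le
  have e1 : ∀ K : Finset ι, AA F a p x B Y K * be F a B Y K * T1 F a p x (Y ∪ K) =
      Ex p (fun R => (x / p) ^ rr F a Y K * be F a B Y K *
        ((if R ∩ gs F a B (Y ∪ K) = K then 1 else 0) *
          pp F a (x / p) (Y ∪ K) (R ∩ nl F a (Y ∪ K)))) := by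
    intro K
    have i := Ex_indep p (gs F a B (Y ∪ K)) (fun X => if X = K then (1 : ℝ) else 0)
      (fun X => pp F a (x / p) (Y ∪ K) (X ∩ nl F a (Y ∪ K)))
    have e2 : ∀ R : Finset ι, (R \ gs F a B (Y ∪ K)) ∩ nl F a (Y ∪ K) = R ∩ nl F a (Y ∪ K) := by
      intro R
      ext e
      simp only [Finset.mem_inter, Finset.mem_sdiff, mem_gs, mem_nl]
      tauto
    simp only [e2] at i
    rw [Ex_mul, i]
    unfold AA T1
    ring
  simp only [e1]
  rw [← Ex_sum]
  apply Ex_mono h0.le h1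
  intro R
  refine le_trans ?_ (pp_ge a hy (R ∩ nl F a B) B Y h)
  have hnn : ∀ K : Finset ι, 0 ≤ (x / p) ^ rr F a Y K * be F a B Y K *
      pp F a (x / p) (Y ∪ K) ((R ∩ nl F a B) \ K) := fun K =>
    mul_nonneg (mul_nonneg (pow_nonneg hy _) (be_nonneg a K B Y h)) (pp_bounds a hy _ _).1
  rw [← Finset.univ_inter (R ∩ nl F a B).powerset, ← Finset.sum_ite_mem]
  apply Finset.sum_le_sum
  intro K _
  by_cases hK : R ∩ gs F a B (Y ∪ K) = K
  · have m : ∀ e, e ∈ K ↔ e ∈ R ∧ a e ∉ sp F a B ∧ a e ∈ sp F a (Y ∪ K) := by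
      intro e
      rw [← mem_gs, ← Finset.mem_inter, hK]
    have hsub : K ∈ (R ∩ nl F a B).powerset := by
      rw [Finset.mem_powerset]
      intro e he
      exact Finset.mem_inter.mpr ⟨((m e).mp he).1, (mem_nl a).mpr ((m e).mp he).2.1⟩
    have e3 : (R ∩ nl F a B) \ K = R ∩ nl F a (Y ∪ K) := by
      ext e
      rw [Finset.mem_sdiff, m e]
      simp only [Finset.mem_inter, mem_nl]
      have : a e ∈ sp F a B → a e ∈ sp F a (Y ∪ K) := fun h2 =>
        sp_mono a Finset.subset_union_left (h h2)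
      tauto
    rw [if_pos hK, if_pos hsub, e3, one_mul]
  · rw [if_neg hK, zero_mul, mul_zero]
    split_ifs
    · exact hnn K
    · exact le_rfl

variable (F) in
/-- Product over the scales. -/
noncomputable def TT (n : ℕ) (x : ℝ) (Z : Finset ι) : ℝ :=
  ∏ i ∈ Finset.range n, T1 F a (1 / 2 ^ i) x Z

theorem rate_pos (i : ℕ) : (0 : ℝ) < 1 / 2 ^ i := by positivity

theorem rate_le (i : ℕ) : (1 : ℝ) / 2 ^ i ≤ 1 := by
  rw [div_le_one (by positivity)]
  exact one_le_pow₀ (by norm_num)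

theorem one_le_TT (n : ℕ) {x : ℝ} (hx : 0 ≤ x) (Z : Finset ι) : 1 ≤ TT F a n x Z := by
  have := Finset.prod_le_prod (s := Finset.range n) (f := fun _ => (1 : ℝ))
    (fun _ _ => zero_le_one) (fun i _ => one_le_T1 (F := F) a (rate_pos i) (rate_le i) hx Z)
  rw [Finset.prod_const_one] at this
  exact this

theorem TT_le (n : ℕ) {x : ℝ} (hx : 0 ≤ x) (Z : Finset ι) :
    TT F a n x Z ≤ ((1 + x) ^ Fintype.card ι) ^ n := by
  unfold TT
  refine le_trans (Finset.prod_le_prod
    (fun i _ => zero_le_one.trans (one_le_T1 a (rate_pos i) (rate_le i) hx Z))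
    (fun i _ => T1_le a (rate_pos i) (rate_le i) hx Z)) (le_of_eq ?_)
  rw [Finset.prod_const, Finset.card_range]

theorem TT_anti (n : ℕ) {x : ℝ} (hx : 0 ≤ x) {W Y : Finset ι} (h : sp F a W ≤ sp F a Y) :
    TT F a n x Y ≤ TT F a n x W :=
  Finset.prod_le_prod (fun i _ => zero_le_one.trans (one_le_T1 a (rate_pos i) (rate_le i) hx Y))
    (fun i _ => T1_anti a (rate_pos i) (rate_le i) hx h)

end Chain

section Cum

variable {ι : Type*} [DecidableEq ι]

/-- Union of `Y` and the earlier layers. -/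
def Ycum : (n : ℕ) → Finset ι → (Fin n → Finset ι) → Fin n → Finset ι
  | 0, Y, _ => fun _ => Y
  | n + 1, Y, K => Fin.cons Y (Ycum n (Y ∪ K 0) (Fin.tail K))

/-- Union of `Y` and all layers. -/
def Yend : (n : ℕ) → Finset ι → (Fin n → Finset ι) → Finset ι
  | 0, Y, _ => Y
  | n + 1, Y, K => Yend n (Y ∪ K 0) (Fin.tail K)

theorem sub_Ycum (n : ℕ) : ∀ (Y : Finset ι) (K : Fin n → Finset ι) (s : Fin n),
    Y ⊆ Ycum n Y K s := by
  induction n with
  | zero => intro Y K s; exact s.elim0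
  | succ n ih =>
    intro Y K s
    refine Fin.cases ?_ (fun t => ?_) s
    · simp [Ycum]
    · simp only [Ycum, Fin.cons_succ]
      exact Finset.subset_union_left.trans (ih _ _ t)

theorem sub_Yend (n : ℕ) : ∀ (Y : Finset ι) (K : Fin n → Finset ι), Y ⊆ Yend n Y K := by
  induction n with
  | zero => intro Y K; exact subset_refl _
  | succ n ih => intro Y K; exact Finset.subset_union_left.trans (ih _ _)

/-- The layers split `D` minus `P`. -/
def okD (D : Finset ι) : (n : ℕ) → Finset ι → (Fin n → Finset ι) → Prop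
  | 0, P, _ => P = D
  | n + 1, P, X => X 0 ⊆ D \ P ∧ okD D n (P ∪ X 0) (Fin.tail X)

theorem okD_spec (D : Finset ι) (n : ℕ) : ∀ (P : Finset ι) (X : Fin n → Finset ι),
    okD D n P X → P ∪ Finset.univ.biUnion X = D ∧ (∀ s, Disjoint P (X s)) ∧
      ∀ s t, s ≠ t → Disjoint (X s) (X t) := by
  induction n with
  | zero =>
    intro P X h
    exact ⟨by simpa [okD] using h, fun s => s.elim0, fun s => s.elim0⟩
  | succ n ih =>
    intro P X h
    obtain ⟨h1, h2, h3⟩ := ih _ _ h.2
    have h4 : ∀ t : Fin n, Disjoint (X 0) (X t.succ) := fun t =>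
      (h2 t).mono_left Finset.subset_union_right
    refine ⟨?_, fun s => ?_, fun s t => ?_⟩
    · rw [← h1]
      ext x
      simp only [Finset.mem_union, Finset.mem_biUnion, Finset.mem_univ, true_and,
        Fin.exists_fin_succ, Fin.tail]
      tauto
    · refine Fin.cases ?_ (fun t => ?_) s
      · exact (Finset.subset_sdiff.mp h.1).2.symm
      · exact (h2 t).mono_left Finset.subset_union_left
    · refine Fin.cases ?_ (fun s' => ?_) s
      · refine Fin.cases ?_ (fun t' => ?_) t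
        · intro h5; exact absurd rfl h5
        · intro _; exact h4 t'
      · refine Fin.cases ?_ (fun t' => ?_) t
        · intro _; exact (h4 s').symm
        · intro h5; exact h3 s' t' (fun e => h5 (e ▸ rfl))

end Cum

section Chain2

variable {F : Type*} [Field F] {V : Type*} [AddCommGroup V] [Module F V]
variable {ι : Type*} [DecidableEq ι] [Fintype ι] (a : ι → V)

variable (F) in
/-- Product of the sampling weights of a chain of layers. -/
noncomputable def AP (x : ℝ) (B : Finset ι) : (n : ℕ) → Finset ι → (Fin n → Finset ι) → ℝ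
  | 0, _, _ => 1
  | n + 1, Y, K => AA F a (1 / 2 ^ n) x B Y (K 0) * AP x B n (Y ∪ K 0) (Fin.tail K)

theorem AP_nonneg {x : ℝ} (hx : 0 ≤ x) (B : Finset ι) (n : ℕ) :
    ∀ (Y : Finset ι) (K : Fin n → Finset ι), 0 ≤ AP F a x B n Y K := by
  induction n with
  | zero => intro Y K; exact zero_le_one
  | succ n ih =>
    intro Y K
    exact mul_nonneg (AA_nonneg a (rate_pos n) (rate_le n) hx _ _ _) (ih _ _)

theorem AP_sub {x : ℝ} {B : Finset ι} (n : ℕ) : ∀ (Y : Finset ι) (K : Fin n → Finset ι),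
    AP F a x B n Y K ≠ 0 → ∀ s, K s ⊆ nl F a B := by
  induction n with
  | zero => intro Y K _ s; exact s.elim0
  | succ n ih =>
    intro Y K h s
    refine Fin.cases ?_ (fun t => ?_) s
    · exact AA_sub a (left_ne_zero_of_mul h)
    · exact ih _ _ (right_ne_zero_of_mul h) t

theorem chain_le {x : ℝ} (hx : 0 ≤ x) (B : Finset ι) (n : ℕ) : ∀ Y : Finset ι,
    sp F a B ≤ sp F a Y →
    ∑ K : Fin n → Finset ι, AP F a x B n Y K * (∏ s, be F a B (Ycum n Y K s) (K s)) *
      TT F a n x (Yend n Y K) ≤ TT F a n x B := by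
  induction n with
  | zero => intro Y _; simp [AP, TT]
  | succ n ih =>
    intro Y h
    rw [sum_cons]
    have hT : ∀ Z, 0 ≤ TT F a n x Z := fun Z => zero_le_one.trans (one_le_TT a n hx Z)
    have e : ∀ Z, TT F a (n + 1) x Z = TT F a n x Z * T1 F a (1 / 2 ^ n) x Z := fun Z =>
      Finset.prod_range_succ _ n
    rw [e B]
    refine le_trans ?_ (mul_le_mul_of_nonneg_left (T1_ge a (rate_pos n) (rate_le n) hx h) (hT B))
    rw [Finset.mul_sum]
    apply Finset.sum_le_sum
    intro k _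
    have h' : sp F a B ≤ sp F a (Y ∪ k) := h.trans (sp_mono a Finset.subset_union_left)
    have hc : 0 ≤ AA F a (1 / 2 ^ n) x B Y k * be F a B Y k :=
      mul_nonneg (AA_nonneg a (rate_pos n) (rate_le n) hx _ _ _) (be_nonneg a k B Y h)
    have hc' : 0 ≤ AA F a (1 / 2 ^ n) x B Y k * be F a B Y k * T1 F a (1 / 2 ^ n) x (Y ∪ k) :=
      mul_nonneg hc (zero_le_one.trans (one_le_T1 a (rate_pos n) (rate_le n) hx _))
    refine le_trans ?_ (mul_le_mul_of_nonneg_right (ih _ h') hc')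
    rw [Finset.sum_mul]
    apply Finset.sum_le_sum
    intro K _
    simp only [AP, Ycum, Yend, Fin.prod_univ_succ, Fin.cons_zero, Fin.cons_succ, Fin.tail_cons, e]
    have h2 := T1_anti a (rate_pos n) (rate_le n) hx (sp_mono (F := F) a (sub_Yend n (Y ∪ k) K))
    have h3 : 0 ≤ AP F a x B n (Y ∪ k) K * (∏ s, be F a B (Ycum n (Y ∪ k) K s) (K s)) *
        TT F a n x (Yend n (Y ∪ k) K) :=
      mul_nonneg (mul_nonneg (AP_nonneg a hx B n _ _) (Finset.prod_nonneg (fun s _ =>
        be_nonneg a _ _ _ (h'.trans (sp_mono a (sub_Ycum n _ K s)))))) (hT _)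
    have h4 := mul_le_mul_of_nonneg_left h2 (mul_nonneg h3 hc)
    refine le_trans (le_of_eq ?_) (h4.trans (le_of_eq ?_))
    · ring
    · ring

/-- The chain inequality after the joint evaluation. -/
theorem chain_jw_le {x : ℝ} (hx : 0 ≤ x) (B : Finset ι) (n : ℕ) (Y : Finset ι)
    (h : sp F a B ≤ sp F a Y) :
    ∑ K : Fin n → Finset ι, ∑ X : Fin n → Finset ι, AP F a x B n Y K *
      jw F a B (nl F a B) (Ycum n Y K) K (fun s => sp F a (Ycum n Y K s ∪ K s)) X *
      TT F a n x (Yend n Y K) ≤ TT F a n x B := by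
  refine le_trans ?_ (chain_le a hx B n Y h)
  apply Finset.sum_le_sum
  intro K _
  rw [← Finset.sum_mul, ← Finset.mul_sum]
  apply mul_le_mul_of_nonneg_right _ (zero_le_one.trans (one_le_TT a n hx _))
  by_cases h0 : AP F a x B n Y K = 0
  · rw [h0, zero_mul, zero_mul]
  apply mul_le_mul_of_nonneg_left _ (AP_nonneg a hx B n _ _)
  refine (sum_jw_le a _ (nl F a B) B (fun _ => B) (Ycum n Y K) K (fun e he => (mem_nl a).mp he)
    (fun _ => le_rfl) (fun s => h.trans (sp_mono a (sub_Ycum n Y K s))) (AP_sub a n Y K h0)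
    (fun s e he => mem_sp a (Finset.mem_union_right _ he))).trans (le_of_eq ?_)
  apply Finset.prod_congr rfl
  intro s _
  unfold bf
  rw [if_pos rfl]

end Chain2

end Pool.Agent.P.MP_17c400_co
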