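import Pool.Agent.P.MP_17c400_co.LogTr

set_option autoImplicit false

namespace Pool.Agent.P.MP_17c400_co

open Finset Pool.Agent.P17c400

section Count

variable {F : Type*} [Field F] {V : Type*} [AddCommGroup V] [Module F V]
variable {ι : Type*}

section Basic

variable [DecidableEq ι] (a : ι → V)

theorem ind_erase {Y D : Finset ι} {u : ι} (hu : u ∈ D) (h : Ind F a Y D) :
    Ind F a (insert u Y) (D.erase u) := by
  intro v hv hm
  refine h v (Finset.mem_of_mem_erase hv) (sp_mono a ?_ hm)
  intro x hx
  simp only [Finset.mem_union, Finset.mem_insert, Finset.mem_erase] at hx hv ⊢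
  rcases hx with (rfl | h1) | h1
  · exact Or.inr ⟨fun e => hv.1 e.symm, hu⟩
  · exact Or.inl h1
  · exact Or.inr ⟨h1.1, h1.2.2⟩

theorem union_erase_eq {Y D : Finset ι} {u : ι} (hu : u ∈ D) :
    insert u Y ∪ D.erase u = Y ∪ D := by
  rw [Finset.insert_union, ← Finset.union_insert, Finset.insert_erase hu]

theorem union_erase_erase {Y D : Finset ι} {u v : ι} (hu : u ∈ D) (huv : v ≠ u) :
    insert u Y ∪ (D.erase u).erase v = Y ∪ D.erase v := by
  rw [Finset.erase_right_comm, union_erase_eq (Finset.mem_erase.mpr ⟨huv.symm, hu⟩)]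

theorem ind_insert' {Y D : Finset ι} {u : ι} (hu : a u ∉ sp F a Y)
    (h : Ind F a (insert u Y) D) : Ind F a Y (insert u D) := by
  have h1 : Ind F a Y {u} := by
    intro v hv
    rw [Finset.mem_singleton.mp hv]
    simpa using hu
  have e : Y ∪ ∅ ∪ {u} = insert u Y := by ext x; simp
  have h2 := ind_union a (E := ∅) (I := D) h1 (by rw [e]; exact h)
  have e2 : ({u} : Finset ι) ∪ D = insert u D := by ext x; simp
  rwa [e2] at h2

theorem not_mem_of_ind {Y D : Finset ι} {u : ι} (hu : u ∈ D) (h : Ind F a Y D) :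
    a u ∉ sp F a Y := fun hm => h u hu (sp_mono a Finset.subset_union_left hm)

/-- A covered element of a basis is not a coloop. -/
theorem cover_mem {Y D : Finset ι} {u e : ι} (hu : u ∈ D) (h1 : a e ∈ sp F a (Y ∪ D))
    (h2 : a e ∉ sp F a (Y ∪ D.erase u)) {X : Finset ι} (hX : D.erase u ⊆ X) (he : e ∈ X) :
    a u ∈ sp F a (Y ∪ X) := by
  rw [← union_erase_eq hu, Finset.insert_union] at h1
  exact exch a h1 h2 (sp_mono a (Finset.union_subset_union_right hX))
    (mem_sp a (Finset.mem_union_right _ he))

end Basic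

section Static

variable [LinearOrder ι] (a : ι → V)

variable (F) in
/-- Bases without active outside element in which every member is covered from below. -/
def SB (W Y K D : Finset ι) : Prop :=
  D ⊆ K ∧ Ind F a Y D ∧ (∀ e ∈ K, a e ∈ sp F a (Y ∪ D)) ∧
    (∀ e ∈ K, e ∉ D → a e ∉ sp F a (W ∪ D.filter (fun d => e < d))) ∧
    ∀ u ∈ D, ∃ e ∈ K, e < u ∧ a e ∉ sp F a (Y ∪ D.erase u)

theorem SB_del {W Y K D : Finset ι} {e : ι} (hlt : ∀ x ∈ K, x < e) (heD : e ∉ D)
    (h : SB F a W Y (insert e K) D) : SB F a W Y K D := by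
  obtain ⟨h1, h2, h3, h4, h5⟩ := h
  have hDK : D ⊆ K := (Finset.subset_insert_iff_of_notMem heD).mp h1
  refine ⟨hDK, h2, fun f hf => h3 f (Finset.mem_insert_of_mem hf),
    fun f hf => h4 f (Finset.mem_insert_of_mem hf), fun u hu => ?_⟩
  obtain ⟨f, hf, p1, p2⟩ := h5 u hu
  rcases Finset.mem_insert.mp hf with rfl | hf
  · exact absurd (p1.trans (hlt u (hDK hu))) (lt_irrefl _)
  · exact ⟨f, hf, p1, p2⟩

theorem SB_con {W Y K D : Finset ι} {e : ι} (hlt : ∀ x ∈ K, x < e) (heD : e ∈ D)
    (h : SB F a W Y (insert e K) D) :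
    SB F a (insert e W) (insert e Y) K (D.erase e) ∧ a e ∈ sp F a (Y ∪ K) := by
  obtain ⟨h1, h2, h3, h4, h5⟩ := h
  have hDK : D.erase e ⊆ K := by
    intro x hx
    obtain ⟨p1, p2⟩ := Finset.mem_erase.mp hx
    rcases Finset.mem_insert.mp (h1 p2) with p | p
    · exact absurd p p1
    · exact p
  have hcov : ∀ u ∈ D, ∃ f ∈ K, f < u ∧ a f ∉ sp F a (Y ∪ D.erase u) := by
    intro u hu
    obtain ⟨f, hf, p1, p2⟩ := h5 u hu
    rcases Finset.mem_insert.mp hf with rfl | hf
    · rcases Finset.mem_insert.mp (h1 hu) with p | p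
      · exact absurd p1 (by rw [p]; exact lt_irrefl _)
      · exact absurd (p1.trans (hlt u p)) (lt_irrefl _)
    · exact ⟨f, hf, p1, p2⟩
  refine ⟨⟨hDK, ind_erase a heD h2, ?_, ?_, ?_⟩, ?_⟩
  · intro f hf
    rw [union_erase_eq heD]
    exact h3 f (Finset.mem_insert_of_mem hf)
  · intro f hf hfD hm
    have hfe : f ≠ e := (hlt f hf).ne
    refine h4 f (Finset.mem_insert_of_mem hf) (fun h => hfD (Finset.mem_erase.mpr ⟨hfe, h⟩))
      (sp_mono a ?_ hm)
    intro x hx
    simp only [Finset.mem_union, Finset.mem_insert, Finset.mem_filter, Finset.mem_erase] at hx ⊢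
    rcases hx with (rfl | p) | p
    · exact Or.inr ⟨heD, hlt f hf⟩
    · exact Or.inl p
    · exact Or.inr ⟨p.1.2, p.2⟩
  · intro u hu
    obtain ⟨p1, p2⟩ := Finset.mem_erase.mp hu
    obtain ⟨f, hf, q1, q2⟩ := hcov u p2
    exact ⟨f, hf, q1, by rw [union_erase_erase heD p1]; exact q2⟩
  · obtain ⟨f, hf, _, q2⟩ := hcov e heD
    exact cover_mem a heD (h3 f (Finset.mem_insert_of_mem hf)) q2 hDK hf

variable [Fintype ι]

open Classical in
theorem card_SB_le (K : Finset ι) : ∀ W Y : Finset ι, sp F a W ≤ sp F a Y →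
    (((Finset.univ : Finset (Finset ι)).filter (fun D => SB F a W Y K D)).card : ℝ) ≤
      be F a W Y K := by
  induction K using Finset.induction_on_max with
  | empty =>
    intro W Y _
    rw [be_empty]
    have : ((Finset.univ : Finset (Finset ι)).filter (fun D => SB F a W Y ∅ D)).card ≤ 1 := by
      apply Finset.card_le_one.mpr
      intro D hD D' hD'
      rw [Finset.subset_empty.mp (Finset.mem_filter.mp hD).2.1,
        Finset.subset_empty.mp (Finset.mem_filter.mp hD').2.1]
    exact_mod_cast this
  | insert e K hlt ih =>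
    intro W Y hWY
    have he : e ∉ K := fun h => lt_irrefl e (hlt e h)
    set T := (Finset.univ : Finset (Finset ι)).filter (fun D => SB F a W Y (insert e K) D) with hT
    have hsplit := Finset.card_filter_add_card_filter_not (s := T) (fun D => e ∈ D)
    have mem : ∀ D, D ∈ T → SB F a W Y (insert e K) D := fun D hD => (Finset.mem_filter.mp hD).2
    have b0 : ((T.filter (fun D => ¬ e ∈ D)).card : ℝ) ≤ be F a W Y K := by
      refine le_trans ?_ (ih W Y hWY)
      exact_mod_cast Finset.card_le_card (fun D hD => Finset.mem_filter.mpr ⟨Finset.mem_univ _,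
        SB_del a hlt (Finset.mem_filter.mp hD).2 (mem D (Finset.mem_filter.mp hD).1)⟩)
    have b1 : ((T.filter (fun D => e ∈ D)).card : ℝ) ≤ be F a (insert e W) (insert e Y) K := by
      refine le_trans ?_ (ih _ _ (sp_insert_le a hWY e))
      have := Finset.card_le_card_of_injOn (s := T.filter (fun D => e ∈ D))
        (t := (Finset.univ : Finset (Finset ι)).filter
          (fun D => SB F a (insert e W) (insert e Y) K D)) (fun D => D.erase e)
        (fun D hD => by
          have hD' := Finset.mem_filter.mp (Finset.mem_coe.mp hD)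
          exact Finset.mem_coe.mpr (Finset.mem_filter.mpr ⟨Finset.mem_univ _,
            (SB_con a hlt hD'.2 (mem D hD'.1)).1⟩))
        (fun D hD D' hD' hE => by
          have h1 := (Finset.mem_filter.mp (Finset.mem_coe.mp hD)).2
          have h2 := (Finset.mem_filter.mp (Finset.mem_coe.mp hD')).2
          rw [← Finset.insert_erase h1, ← Finset.insert_erase h2]
          exact congrArg (insert e) hE)
      exact_mod_cast this
    have z1 : a e ∈ sp F a Y ∨ a e ∉ sp F a (Y ∪ K) → (T.filter (fun D => e ∈ D)).card = 0 := by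
      intro h
      rw [Finset.card_eq_zero, Finset.filter_eq_empty_iff]
      intro D hD heD
      rcases h with h | h
      · exact not_mem_of_ind a heD (mem D hD).2.1 h
      · exact h (SB_con a hlt heD (mem D hD)).2
    have z0 : a e ∈ sp F a W ∨ a e ∉ sp F a (Y ∪ K) →
        (T.filter (fun D => ¬ e ∈ D)).card = 0 := by
      intro h
      rw [Finset.card_eq_zero, Finset.filter_eq_empty_iff]
      intro D hD heD
      rcases h with h | h
      · exact (mem D hD).2.2.2.1 e (Finset.mem_insert_self e K) heD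
          (sp_mono a Finset.subset_union_left h)
      · exact h (sp_mono a (Finset.union_subset_union_right (SB_del a hlt heD (mem D hD)).1)
          ((mem D hD).2.2.1 e (Finset.mem_insert_self e K)))
    rw [← hsplit]
    push_cast
    by_cases h1 : a e ∈ sp F a W
    · rw [be_loop a Y he h1, z1 (Or.inl (hWY h1)), z0 (Or.inl h1)]
      simp
    by_cases h2 : a e ∈ sp F a Y
    · rw [be_yloop a he h2 h1, z1 (Or.inl h2)]
      simpa using b0
    by_cases h3 : a e ∈ sp F a (Y ∪ K)
    · rw [be_dc a hWY he h2 h3]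
      linarith
    · rw [be_coloop a hWY he h3, z1 (Or.inr h3), z0 (Or.inr h3)]
      simp

end Static

section Tree

variable [DecidableEq ι] (a : ι → V)

variable (F) in
/-- Bases in which every member is covered by an element treated later. -/
def TB (W Un Y K D : Finset ι) : Prop :=
  D ⊆ K ∧ Ind F a Y D ∧ (∀ e ∈ K, a e ∈ sp F a (Y ∪ D)) ∧
    ∀ u ∈ D, ∃ e ∈ K, e ∈ (tr F a D W Un u).2.1 ∧ a e ∉ sp F a (Y ∪ D.erase u)

theorem be_union_yloop {W Y : Finset ι} (S X : Finset ι)
    (h : ∀ e ∈ X, a e ∈ sp F a Y ∧ a e ∉ sp F a W) : be F a W Y (S ∪ X) = be F a W Y S := by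
  induction X using Finset.induction_on with
  | empty => rw [Finset.union_empty]
  | insert e X _ ih =>
    have ih' := ih (fun f hf => h f (Finset.mem_insert_of_mem hf))
    rw [Finset.union_insert]
    by_cases hm : e ∈ S ∪ X
    · rw [Finset.insert_eq_of_mem hm, ih']
    · rw [be_yloop a hm (h e (by simp)).1 (h e (by simp)).2, ih']

theorem be_union_par {W Y : Finset ι} (hWY : sp F a W ≤ sp F a Y) {u : ι} (hu : a u ∉ sp F a Y)
    {S : Finset ι} (huS : u ∈ S) (X : Finset ι)
    (h : ∀ e ∈ X, a e ∈ sp F a (insert u W) ∧ a e ∉ sp F a W) :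
    be F a W Y (S ∪ X) = be F a W Y S := by
  induction X using Finset.induction_on with
  | empty => rw [Finset.union_empty]
  | insert e X _ ih =>
    have ih' := ih (fun f hf => h f (Finset.mem_insert_of_mem hf))
    rw [Finset.union_insert]
    by_cases hm : e ∈ S ∪ X
    · rw [Finset.insert_eq_of_mem hm, ih']
    · obtain ⟨h1, h2⟩ := h e (by simp)
      have huX : u ∈ S ∪ X := Finset.mem_union_left _ huS
      have h3 : a e ∉ sp F a Y := fun h3 => hu (exch a h1 h2 hWY h3)
      have h4 : a e ∈ sp F a (Y ∪ (S ∪ X)) := by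
        refine (?_ : sp F a (insert u W) ≤ _) h1
        rw [sp_insert]
        exact sup_le (hWY.trans (sp_mono a Finset.subset_union_left))
          ((Submodule.span_singleton_le_iff_mem _ _).mpr
            (mem_sp a (Finset.mem_union_right _ huX)))
      have h5 : be F a (insert e W) (insert e Y) (S ∪ X) = 0 := by
        rw [← Finset.insert_erase huX]
        apply be_loop a _ (Finset.notMem_erase u _)
        rw [sp_cl a h1 h2]
        exact mem_sp_insert_self a u W
      rw [be_dc a hWY hm h3 h4, h5, add_zero, ih']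

theorem TB_del {W Un Y K D : Finset ι} (h : Un.Nonempty)
    (hK : ∀ e ∈ K, a e ∈ sp F a (Y ∪ (K \ c0 F a W Un)))
    (hD : TB F a W (Un \ c0 F a W Un) Y (K \ c0 F a W Un) D) :
    TB F a W Un Y K D ∧ Disjoint D (c0 F a W Un) := by
  obtain ⟨h1, h2, h3, h4⟩ := hD
  have hd : Disjoint D (c0 F a W Un) :=
    Finset.disjoint_left.mpr (fun x hx => (Finset.mem_sdiff.mp (h1 hx)).2)
  refine ⟨⟨h1.trans Finset.sdiff_subset, h2, fun e he => ?_, fun u hu => ?_⟩, hd⟩
  · refine (?_ : sp F a (Y ∪ (K \ c0 F a W Un)) ≤ _) (hK e he)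
    apply sp_le
    intro v hv
    rcases Finset.mem_union.mp hv with p | p
    · exact mem_sp a (Finset.mem_union_left _ p)
    · exact h3 v p
  · obtain ⟨e, he, p1, p2⟩ := h4 u hu
    refine ⟨e, (Finset.mem_sdiff.mp he).1, ?_, p2⟩
    rw [tr_shift0 a h hd (Finset.mem_sdiff.mp (h1 hu)).2]
    exact p1

theorem TB_con {W Un Y K D : Finset ι} (hW : ∀ e ∈ Un, a e ∉ sp F a W)
    (hWY : sp F a W ≤ sp F a Y) (hKU : K ⊆ Un) {u : ι} (huK : u ∈ K) (huc : u ∈ c0 F a W Un)
    (h0 : a u ∉ sp F a Y) (h1 : a u ∈ sp F a (Y ∪ (K \ c0 F a W Un)))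
    (hD : TB F a (insert u W) (Un \ c0 F a W Un) (insert u Y) (K \ c0 F a W Un) D) :
    TB F a W Un Y K (insert u D) ∧ u ∉ D := by
  obtain ⟨p1, p2, p3, p4⟩ := hD
  have h : Un.Nonempty := ⟨u, hKU huK⟩
  have huD : u ∉ D := fun hx => (Finset.mem_sdiff.mp (p1 hx)).2 huc
  have hI := ind_insert' a h0 p2
  have hu' : u ∈ insert u D := Finset.mem_insert_self u D
  have e1 : insert u Y ∪ D = Y ∪ insert u D := by
    rw [Finset.insert_union, Finset.union_insert]
  have hd : insert u D ∩ c0 F a W Un = {u} := by
    ext x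
    simp only [Finset.mem_inter, Finset.mem_insert, Finset.mem_singleton]
    constructor
    · rintro ⟨q | q, q2⟩
      · exact q
      · exact absurd q2 (Finset.mem_sdiff.mp (p1 q)).2
    · rintro rfl
      exact ⟨Or.inl rfl, huc⟩
  refine ⟨⟨Finset.insert_subset huK (p1.trans Finset.sdiff_subset), hI, fun e he => ?_,
    fun v hv => ?_⟩, huD⟩
  · rw [← e1]
    by_cases hec : e ∈ c0 F a W Un
    · rw [c0_eq a hW huc] at hec
      exact sp_mono a Finset.subset_union_left (sp_insert_le a hWY u ((mem_cl a).mp hec).2)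
    · exact p3 e (Finset.mem_sdiff.mpr ⟨he, hec⟩)
  · rcases Finset.mem_insert.mp hv with rfl | hv
    · rw [tr_pos a _ W h huc, Finset.erase_insert huD]
      by_contra hno
      push Not at hno
      have h2 := hI v hu'
      rw [Finset.erase_insert huD] at h2
      refine h2 ((?_ : sp F a (Y ∪ (K \ c0 F a W Un)) ≤ _) h1)
      apply sp_le
      intro x hx
      rcases Finset.mem_union.mp hx with q | q
      · exact mem_sp a (Finset.mem_union_left _ q)
      · obtain ⟨q1, q2⟩ := Finset.mem_sdiff.mp q
        exact hno x q1 (Finset.mem_sdiff.mpr ⟨hKU q1, q2⟩)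
    · obtain ⟨e, he, q1, q2⟩ := p4 v hv
      have hvu : v ≠ u := fun e1 => huD (e1 ▸ hv)
      refine ⟨e, (Finset.mem_sdiff.mp he).1, ?_, ?_⟩
      · rw [tr_shift1 a h hd (Finset.mem_sdiff.mp (p1 hv)).2, Finset.erase_insert huD]
        exact q1
      · rw [← union_erase_erase hu' hvu, Finset.erase_insert huD]
        exact q2

variable [Fintype ι]

open Classical in
theorem be_le_card_TB (Un : Finset ι) : ∀ W Y K : Finset ι, (∀ e ∈ Un, a e ∉ sp F a W) →
    sp F a W ≤ sp F a Y → K ⊆ Un → be F a W Y K ≤
      (((Finset.univ : Finset (Finset ι)).filter (fun D => TB F a W Un Y K D)).card : ℝ) := by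
  induction Un using Finset.strongInduction with
  | H Un ih =>
    intro W Y K hW hWY hKU
    rcases Un.eq_empty_or_nonempty with rfl | h
    · rw [Finset.subset_empty.mp hKU, be_empty]
      have : 1 ≤ ((Finset.univ : Finset (Finset ι)).filter
          (fun D => TB F a W ∅ Y ∅ D)).card := by
        apply Finset.card_pos.mpr
        refine ⟨∅, Finset.mem_filter.mpr ⟨Finset.mem_univ _, subset_refl _, ?_, ?_, ?_⟩⟩
        all_goals intro u hu; exact absurd hu (Finset.notMem_empty u)
      exact_mod_cast this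
    set c := c0 F a W Un with hc
    have hW' : ∀ e ∈ Un \ c, a e ∉ sp F a W := fun e he => hW e (Finset.mem_sdiff.mp he).1
    have hKU' : K \ c ⊆ Un \ c := Finset.sdiff_subset_sdiff hKU (subset_refl _)
    have i0 := ih _ (c0_ssub (F := F) a W h) W Y (K \ c) hW' hWY hKU'
    set T := (Finset.univ : Finset (Finset ι)).filter (fun D => TB F a W Un Y K D) with hT
    by_cases hall : ∀ e ∈ K ∩ c, a e ∈ sp F a Y
    · have e1 : be F a W Y K = be F a W Y (K \ c) := by
        conv_lhs => rw [← Finset.sdiff_union_inter K c]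
        exact be_union_yloop a _ _ (fun e he =>
          ⟨hall e he, hW e (hKU (Finset.mem_inter.mp he).1)⟩)
      rw [e1]
      refine i0.trans ?_
      have hK : ∀ e ∈ K, a e ∈ sp F a (Y ∪ (K \ c)) := by
        intro e he
        by_cases hec : e ∈ c
        · exact sp_mono a Finset.subset_union_left (hall e (Finset.mem_inter.mpr ⟨he, hec⟩))
        · exact mem_sp a (Finset.mem_union_right _ (Finset.mem_sdiff.mpr ⟨he, hec⟩))
      exact_mod_cast Finset.card_le_card (fun D hD => Finset.mem_filter.mpr ⟨Finset.mem_univ _,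
        (TB_del a h hK (Finset.mem_filter.mp hD).2).1⟩)
    · push Not at hall
      obtain ⟨u, hu, h0⟩ := hall
      obtain ⟨huK, huc⟩ := Finset.mem_inter.mp hu
      have hcl : ∀ e ∈ c, a e ∈ sp F a (insert u W) := by
        intro e he
        rw [hc, c0_eq a hW huc] at he
        exact ((mem_cl a).mp he).2
      have hun : u ∉ K \ c := fun hx => (Finset.mem_sdiff.mp hx).2 huc
      have e1 : be F a W Y K = be F a W Y (insert u (K \ c)) := by
        have e2 : K = insert u (K \ c) ∪ (K ∩ c) := by
          rw [Finset.insert_union, Finset.sdiff_union_inter, Finset.insert_eq_of_mem huK]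
        conv_lhs => rw [e2]
        exact be_union_par a hWY h0 (Finset.mem_insert_self u _) _ (fun e he =>
          ⟨hcl e (Finset.mem_inter.mp he).2, hW e (hKU (Finset.mem_inter.mp he).1)⟩)
      rw [e1]
      by_cases h1 : a u ∈ sp F a (Y ∪ (K \ c))
      · rw [be_dc a hWY hun h0 h1]
        have hW1 : ∀ e ∈ Un \ c, a e ∉ sp F a (insert u W) := by
          intro e he hm
          obtain ⟨q1, q2⟩ := Finset.mem_sdiff.mp he
          apply q2
          rw [hc, c0_eq a hW huc]
          exact (mem_cl a).mpr ⟨q1, hm⟩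
        have i1 := ih _ (c0_ssub (F := F) a W h) (insert u W) (insert u Y) (K \ c) hW1
          (sp_insert_le a hWY u) hKU'
        have hK : ∀ e ∈ K, a e ∈ sp F a (Y ∪ (K \ c)) := by
          intro e he
          by_cases hec : e ∈ c
          · refine (?_ : sp F a (insert u W) ≤ _) (hcl e hec)
            rw [sp_insert]
            exact sup_le (hWY.trans (sp_mono a Finset.subset_union_left))
              ((Submodule.span_singleton_le_iff_mem _ _).mpr h1)
          · exact mem_sp a (Finset.mem_union_right _ (Finset.mem_sdiff.mpr ⟨he, hec⟩))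
        have hsplit := Finset.card_filter_add_card_filter_not (s := T) (fun D => u ∈ D)
        have b0 : ((Finset.univ : Finset (Finset ι)).filter
            (fun D => TB F a W (Un \ c) Y (K \ c) D)).card ≤
            (T.filter (fun D => ¬ u ∈ D)).card := by
          apply Finset.card_le_card
          intro D hD
          obtain ⟨q1, q2⟩ := TB_del a h hK (Finset.mem_filter.mp hD).2
          exact Finset.mem_filter.mpr ⟨Finset.mem_filter.mpr ⟨Finset.mem_univ _, q1⟩,
            fun hx => Finset.disjoint_left.mp q2 hx huc⟩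
        have b1 : ((Finset.univ : Finset (Finset ι)).filter
            (fun D => TB F a (insert u W) (Un \ c) (insert u Y) (K \ c) D)).card ≤
            (T.filter (fun D => u ∈ D)).card := by
          apply Finset.card_le_card_of_injOn (fun D => insert u D)
          · intro D hD
            have hD' := (Finset.mem_filter.mp (Finset.mem_coe.mp hD)).2
            exact Finset.mem_coe.mpr (Finset.mem_filter.mpr ⟨Finset.mem_filter.mpr
              ⟨Finset.mem_univ _, (TB_con a hW hWY hKU huK huc h0 h1 hD').1⟩,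
              Finset.mem_insert_self u D⟩)
          · intro D hD D' hD' hE
            have q1 := (TB_con a hW hWY hKU huK huc h0 h1
              (Finset.mem_filter.mp (Finset.mem_coe.mp hD)).2).2
            have q2 := (TB_con a hW hWY hKU huK huc h0 h1
              (Finset.mem_filter.mp (Finset.mem_coe.mp hD')).2).2
            rw [← Finset.erase_insert q1, ← Finset.erase_insert q2]
            exact congrArg (fun X => Finset.erase X u) hE
        have b2 : ((Finset.univ : Finset (Finset ι)).filter
            (fun D => TB F a W (Un \ c) Y (K \ c) D)).card +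
            ((Finset.univ : Finset (Finset ι)).filter
            (fun D => TB F a (insert u W) (Un \ c) (insert u Y) (K \ c) D)).card ≤ T.card := by
          omega
        refine (add_le_add i0 i1).trans ?_
        exact_mod_cast b2
      · rw [be_coloop a hWY hun h1]
        exact Nat.cast_nonneg _

end Tree

end Count

end Pool.Agent.P.MP_17c400_co
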