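import Pool.Agent.P.MP_17c400_co.LogChain

set_option autoImplicit false

namespace Pool.Agent.P.MP_17c400_co

open Finset Pool.Agent.P17c400

/-- Success weight of an element of level `j` when `n` rounds remain. -/
noncomputable def gw : ℕ → ℕ → ℝ
  | 0, _ => 0
  | n + 1, j => (1 - 1 / 2 ^ n / 2) ^ j * if 2 ^ n ≤ j then 1 / 3 else gw n j

theorem gw_bounds (n j : ℕ) : 0 ≤ gw n j ∧ gw n j ≤ 1 := by
  induction n with
  | zero => simp [gw]
  | succ n ih =>
    have h0 := rate_pos n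
    have h1 := rate_le n
    have h2 : (0 : ℝ) ≤ (1 - 1 / 2 ^ n / 2) ^ j := pow_nonneg (by linarith) j
    have h3 : (1 - 1 / 2 ^ n / 2 : ℝ) ^ j ≤ 1 := pow_le_one₀ (by linarith) (by linarith)
    have h4 : (0 : ℝ) ≤ if 2 ^ n ≤ j then 1 / 3 else gw n j := by
      split_ifs
      · norm_num
      · exact ih.1
    have h5 : (if 2 ^ n ≤ j then 1 / 3 else gw n j : ℝ) ≤ 1 := by
      split_ifs
      · norm_num
      · exact ih.2
    exact ⟨mul_nonneg h2 h4, mul_le_one₀ h3 h4 h5⟩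

theorem exp_le_pow (n j : ℕ) : Real.exp (-(j / 2 ^ n)) ≤ (1 - 1 / 2 ^ n / 2 : ℝ) ^ j := by
  have h0 := rate_pos n
  have h1 := rate_le n
  have e : (-(j / 2 ^ n) : ℝ) = j * (-(1 / 2 ^ n)) := by ring
  rw [e, Real.exp_nat_mul]
  apply pow_le_pow_left₀ (Real.exp_pos _).le
  have h2 := Real.add_one_le_exp (1 / 2 ^ n : ℝ)
  rw [Real.exp_neg, inv_le_iff_one_le_mul₀ (Real.exp_pos _)]
  nlinarith

theorem gw_ge_aux (n : ℕ) : ∀ j : ℕ, 1 ≤ j → j ≤ 2 ^ (n + 1) →
    1 / 3 * Real.exp (-(4 - j / 2 ^ n)) ≤ gw (n + 1) j := by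
  have top : ∀ n j : ℕ, 2 ^ n ≤ j → j ≤ 2 ^ (n + 1) →
      1 / 3 * Real.exp (-(4 - j / 2 ^ n)) ≤ gw (n + 1) j := by
    intro n j h1 h2
    have h3 : (j : ℝ) / 2 ^ n ≤ 2 := by
      rw [div_le_iff₀ (by positivity)]
      have : (j : ℝ) ≤ 2 ^ (n + 1) := by exact_mod_cast h2
      rw [pow_succ] at this
      linarith
    have h4 : Real.exp (-(4 - j / 2 ^ n)) ≤ Real.exp (-(j / 2 ^ n)) :=
      Real.exp_le_exp.mpr (by linarith)
    have h5 := exp_le_pow n j
    simp only [gw]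
    rw [if_pos h1]
    linarith
  induction n with
  | zero => intro j h1 h2; exact top 0 j (by simpa using h1) h2
  | succ n ih =>
    intro j h1 h2
    by_cases h : 2 ^ (n + 1) ≤ j
    · exact top _ j h h2
    · have h3 := ih j h1 (not_le.mp h).le
      have h5 := exp_le_pow (n + 1) j
      have e : (-(4 - j / 2 ^ (n + 1)) : ℝ) = -(j / 2 ^ (n + 1)) + -(4 - j / 2 ^ n) := by
        rw [pow_succ]
        field_simp
        ring
      rw [gw, if_neg h, e, Real.exp_add]
      have h6 := mul_le_mul h5 h3 (by positivity) ((Real.exp_pos _).le.trans h5)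
      linarith

theorem gw_ge (n j : ℕ) (h1 : 1 ≤ j) :
    1 / 3 * Real.exp (-4) * Real.exp (-(j / 2 ^ n)) ≤ gw (n + 1) j := by
  have h0 : (0 : ℝ) ≤ j / 2 ^ n := by positivity
  by_cases h : 2 ^ n ≤ j
  · have h5 := exp_le_pow n j
    have h6 : Real.exp (-4) ≤ 1 := Real.exp_le_one_iff.mpr (by norm_num)
    have h7 := Real.exp_pos (-(j / 2 ^ n))
    simp only [gw]
    rw [if_pos h]
    nlinarith
  · refine le_trans ?_ (gw_ge_aux n j h1 (by rw [pow_succ]; omega))
    rw [mul_assoc, ← Real.exp_add]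
    exact mul_le_mul_of_nonneg_left (Real.exp_le_exp.mpr (by linarith)) (by norm_num)

section Game

variable {F : Type*} [Field F] {V : Type*} [AddCommGroup V] [Module F V]
variable {ι : Type*} [DecidableEq ι] (a : ι → V)

theorem mem_of_all {Y D : Finset ι} (hI : Ind F a Y D) {x : V} (hx : x ∈ sp F a (Y ∪ D))
    (X : Finset ι) : X ⊆ D → (∀ d ∈ X, x ∈ sp F a (Y ∪ D.erase d)) →
      x ∈ sp F a (Y ∪ (D \ X)) := by
  induction X using Finset.induction_on with
  | empty => intro _ _; simpa using hx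
  | insert d X hd ih =>
    intro h1 h2
    have hdD := h1 (Finset.mem_insert_self d X)
    have i := ih ((Finset.subset_insert d X).trans h1)
      (fun f hf => h2 f (Finset.mem_insert_of_mem hf))
    rw [Finset.sdiff_insert]
    by_contra hn
    rw [← union_erase_eq (Finset.mem_sdiff.mpr ⟨hdD, hd⟩), Finset.insert_union] at i
    exact hI d hdD (exch a i hn (sp_mono a (Finset.union_subset_union_right
      (Finset.erase_subset_erase d Finset.sdiff_subset))) (h2 d (Finset.mem_insert_self d X)))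

theorem sp_layer_le {Y1 D P Y X : Finset ι} (hP : P ⊆ D) (hY : sp F a Y = sp F a (Y1 ∪ P))
    (hX : X ⊆ D \ P) {u : ι} (hu : u ∈ X) :
    sp F a (Y ∪ X.erase u) ≤ sp F a (Y1 ∪ D.erase u) := by
  rw [sp_union_congr a hY]
  apply sp_mono
  intro x hx
  have h1 := Finset.mem_sdiff.mp (hX hu)
  simp only [Finset.mem_union, Finset.mem_erase] at hx ⊢
  rcases hx with (h | h) | h
  · exact Or.inl h
  · exact Or.inr ⟨fun e => h1.2 (e ▸ h), hP h⟩
  · exact Or.inr ⟨h.1, (Finset.mem_sdiff.mp (hX h.2)).1⟩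

theorem ind_weaken {B Y D : Finset ι} (h : sp F a B ≤ sp F a Y) (hI : Ind F a Y D) :
    Ind F a B D := fun u hu hm => hI u hu (sp_union_le a h _ hm)

variable [Fintype ι]

variable (F) in
/-- Independent sets all of whose members have a cover that is treated later. -/
def DD (B Y D : Finset ι) : Prop :=
  D ⊆ nl F a B ∧ Ind F a Y D ∧ ∀ u ∈ D, ∃ e ∈ (tr F a D B (nl F a B) u).2.1,
    a e ∈ sp F a (Y ∪ D) ∧ a e ∉ sp F a (Y ∪ D.erase u)

theorem exists_signal {B Y D : Finset ι} (hB : sp F a B ≤ sp F a Y) (hD : DD F a B Y D) :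
    ∃ S : ι → Finset ι, ∀ u ∈ D, S u ⊆ (tr F a D B (nl F a B) u).2.1 ∧
      (tr F a D B (nl F a B) u).1.card ≤ (S u).card ∧
      ∀ e ∈ S u, a e ∈ sp F a (Y ∪ D) ∧ a e ∉ sp F a (Y ∪ D.erase u) := by
  have h : ∀ u ∈ D, ∃ S : Finset ι, S ⊆ (tr F a D B (nl F a B) u).2.1 ∧
      (tr F a D B (nl F a B) u).1.card ≤ S.card ∧
      ∀ e ∈ S, a e ∈ sp F a (Y ∪ D) ∧ a e ∉ sp F a (Y ∪ D.erase u) := by
    intro u hu
    obtain ⟨e, he, q1, q2⟩ := hD.2.2 u hu
    obtain ⟨_, _, p3, p4, p5⟩ := tr_one a D u (nl F a B) B (fun e he => (mem_nl a).mp he) (hD.1 hu)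
    have hle : sp F a (tr F a D B (nl F a B) u).2.2 ≤ sp F a (Y ∪ D.erase u) :=
      (sp_mono a p3).trans (sp_union_le a hB _)
    refine ⟨_, fun f hf => ((mem_cl a).mp hf).1, p5 e he, fun f hf => ?_⟩
    obtain ⟨r1, r2⟩ := (mem_cl a).mp hf
    constructor
    · refine (?_ : sp F a (insert e (tr F a D B (nl F a B) u).2.2) ≤ _) r2
      rw [sp_insert]
      exact sup_le (hle.trans (sp_mono a
        (Finset.union_subset_union_right (Finset.erase_subset u D))))
        ((Submodule.span_singleton_le_iff_mem _ _).mpr q1)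
    · exact fun hm => q2 (exch a r2 (p4 f r1) hle hm)
  choose! S hS using h
  exact ⟨S, hS⟩

theorem layer1 {p x : ℝ} (h0 : 0 < p) (h1 : p ≤ 1) (hx : 0 ≤ x) (D B Un : Finset ι)
    {Y X : Finset ι} (hX : X ⊆ nl F a B) (hI : Ind F a Y X) :
    x ^ X.card * Ex p (fun R => om F a D B Un Y ((X ∪ R) ∩ gs F a B (Y ∪ X)) X (sp F a (Y ∪ X))) ≤
      ∑ K, AA F a p x B Y K * om F a D B Un Y K X (sp F a (Y ∪ K)) := by
  have hy : 0 ≤ x / p := div_nonneg hx h0.le
  have e1 : ∀ K : Finset ι, AA F a p x B Y K * om F a D B Un Y K X (sp F a (Y ∪ K)) =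
      Ex p (fun R => (x / p) ^ rr F a Y K * om F a D B Un Y K X (sp F a (Y ∪ K)) *
        if R ∩ gs F a B (Y ∪ K) = K then 1 else 0) := by
    intro K
    rw [Ex_mul]
    unfold AA
    ring
  have e2 : x ^ X.card = (x / p) ^ X.card * p ^ X.card := by
    rw [← mul_pow, div_mul_cancel₀ _ h0.ne']
  simp only [e1]
  rw [← Ex_sum, e2, mul_assoc, ← Ex_cond p X
    (fun R => om F a D B Un Y (R ∩ gs F a B (Y ∪ X)) X (sp F a (Y ∪ X))), ← Ex_mul]
  apply Ex_mono h0.le h1
  intro R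
  have hnn : ∀ K ∈ (Finset.univ : Finset (Finset ι)),
      0 ≤ (x / p) ^ rr F a Y K * om F a D B Un Y K X (sp F a (Y ∪ K)) *
        if R ∩ gs F a B (Y ∪ K) = K then 1 else 0 := fun K _ =>
    mul_nonneg (mul_nonneg (pow_nonneg hy _) (om_nonneg a _ _ _ _ _ _ _))
      (by split_ifs <;> norm_num)
  split_ifs with hXR
  · refine le_trans (le_of_eq ?_)
      (Finset.single_le_sum hnn (Finset.mem_univ (R ∩ gs F a B (Y ∪ X))))
    have e3 : sp F a (Y ∪ R ∩ gs F a B (Y ∪ X)) = sp F a (Y ∪ X) := by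
      apply le_antisymm
      · apply sp_le
        intro v hv
        rcases Finset.mem_union.mp hv with h | h
        · exact mem_sp a (Finset.mem_union_left _ h)
        · exact ((mem_gs a).mp (Finset.mem_inter.mp h).2).2
      · apply sp_mono
        apply Finset.union_subset_union_right
        intro v hv
        exact Finset.mem_inter.mpr ⟨hXR hv, (mem_gs a).mpr
          ⟨(mem_nl a).mp (hX hv), mem_sp a (Finset.mem_union_right _ hv)⟩⟩
    rw [gs_congr a B e3, if_pos rfl, rr_congr a rfl e3, rr_ind a hI, e3, mul_one]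
  · rw [mul_zero]
    exact Finset.sum_nonneg hnn

theorem layer2 {B Y1 D P Y : Finset ι} (hB : sp F a B ≤ sp F a Y1) (hD : DD F a B Y1 D)
    (hP : P ⊆ D) (hY : sp F a Y = sp F a (Y1 ∪ P)) {S : ι → Finset ι}
    (hS : ∀ u ∈ D, S u ⊆ (tr F a D B (nl F a B) u).2.1 ∧
      (tr F a D B (nl F a B) u).1.card ≤ (S u).card ∧
      ∀ e ∈ S u, a e ∈ sp F a (Y1 ∪ D) ∧ a e ∉ sp F a (Y1 ∪ D.erase u))
    (θ : ℕ) (R : Finset ι)
    (hit : ∀ u ∈ (D \ P).filter (fun u => θ ≤ (tr F a D B (nl F a B) u).1.card),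
      (R ∩ S u).Nonempty) :
    ∃ X ⊆ D \ P, (D \ P).filter (fun u => θ ≤ (tr F a D B (nl F a B) u).1.card) ⊆ X ∧
      (1 / 2 : ℝ) ^ (R ∩ (D \ P).biUnion (fun u => (tr F a D B (nl F a B) u).1)).card ≤
        om F a D B (nl F a B) Y ((X ∪ R) ∩ gs F a B (Y ∪ X)) X (sp F a (Y ∪ X)) := by
  classical
  have hW : ∀ e ∈ nl F a B, a e ∉ sp F a B := fun e he => (mem_nl a).mp he
  set Tg := (D \ P).filter (fun u => θ ≤ (tr F a D B (nl F a B) u).1.card) with hTg
  set X := (D \ P).filter (fun d => ∃ u ∈ Tg, ∃ e ∈ R ∩ S u, a e ∉ sp F a (Y1 ∪ D.erase d))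
    with hXdef
  have hX : X ⊆ D \ P := Finset.filter_subset _ _
  have hXD : X ⊆ D := hX.trans Finset.sdiff_subset
  have hTD : ∀ u ∈ Tg, u ∈ D := fun u hu => (Finset.mem_sdiff.mp (Finset.mem_filter.mp hu).1).1
  have hK : ∀ u ∈ Tg, ∀ e ∈ R ∩ S u, e ∈ (X ∪ R) ∩ gs F a B (Y ∪ X) := by
    intro u hu e he
    obtain ⟨he1, he2⟩ := Finset.mem_inter.mp he
    obtain ⟨s1, _, s3⟩ := hS u (hTD u hu)
    refine Finset.mem_inter.mpr ⟨Finset.mem_union_right _ he1, (mem_gs a).mpr
      ⟨hW e ((tr_sub a D u _ B).2.1 (s1 he2)), ?_⟩⟩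
    have h1 := mem_of_all a hD.2.1 (s3 e he2).1 ((D \ P) \ X)
      (Finset.sdiff_subset.trans Finset.sdiff_subset) (fun d hd => by
        obtain ⟨q1, q2⟩ := Finset.mem_sdiff.mp hd
        by_contra hn
        exact q2 (Finset.mem_filter.mpr ⟨q1, u, hu, e, he, hn⟩))
    rw [sp_union_congr a hY]
    refine sp_mono a ?_ h1
    intro v hv
    simp only [Finset.mem_union, Finset.mem_sdiff] at hv ⊢
    tauto
  have hXK : X ⊆ (X ∪ R) ∩ gs F a B (Y ∪ X) := fun d hd =>
    Finset.mem_inter.mpr ⟨Finset.mem_union_left _ hd, (mem_gs a).mpr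
      ⟨hW d (hD.1 (hXD hd)), mem_sp a (Finset.mem_union_right _ hd)⟩⟩
  have hok : okL F a D B (nl F a B) Y ((X ∪ R) ∩ gs F a B (Y ∪ X)) X (sp F a (Y ∪ X)) := by
    refine ⟨hXK, fun u hu hm => hD.2.1 u (hXD hu) (sp_layer_le a hP hY hX hu hm), rfl,
      fun d hd => ?_⟩
    by_cases hdT : d ∈ Tg
    · obtain ⟨e, he⟩ := hit d hdT
      obtain ⟨s1, _, s3⟩ := hS d (hTD d hdT)
      have he2 := (Finset.mem_inter.mp he).2
      exact ⟨e, hK d hdT e he, s1 he2, fun hm => (s3 e he2).2 (sp_layer_le a hP hY hX hd hm)⟩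
    · obtain ⟨q1, u, hu, e, he, q2⟩ := Finset.mem_filter.mp hd
      have l1 : ¬ θ ≤ (tr F a D B (nl F a B) d).1.card := fun h =>
        hdT (Finset.mem_filter.mpr ⟨q1, h⟩)
      have l2 := (Finset.mem_filter.mp hu).2
      have l3 := tr_later (D := D) a hW (hD.1 (hTD u hu)) (hD.1 (hXD hd)) (by omega)
      exact ⟨e, hK u hu e he, l3 ((hS u (hTD u hu)).1 (Finset.mem_inter.mp he).2),
        fun hm => q2 (sp_layer_le a hP hY hX hd hm)⟩
  have hdisj : ∀ u ∈ D, ∀ v ∈ D, u ≠ v →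
      Disjoint (tr F a D B (nl F a B) u).1 (tr F a D B (nl F a B) v).1 :=
    fun u hu v hv huv => tr_disj a hW hD.1 (ind_weaken a hB hD.2.1) hu hv huv
  refine ⟨X, hX, fun u hu => ?_, ?_⟩
  · obtain ⟨e, he⟩ := hit u hu
    exact Finset.mem_filter.mpr ⟨(Finset.mem_filter.mp hu).1, u, hu, e, he,
      ((hS u (hTD u hu)).2.2 e (Finset.mem_inter.mp he).2).2⟩
  · unfold om
    rw [if_pos hok]
    have c1 : ∑ u ∈ X, (R ∩ (tr F a D B (nl F a B) u).1).card ≤
        (R ∩ (D \ P).biUnion (fun u => (tr F a D B (nl F a B) u).1)).card := by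
      rw [← Finset.card_biUnion (fun u hu v hv huv =>
        (hdisj u (hXD hu) v (hXD hv) huv).mono Finset.inter_subset_right
          Finset.inter_subset_right)]
      apply Finset.card_le_card
      intro e he
      obtain ⟨u, hu, he⟩ := Finset.mem_biUnion.mp he
      exact Finset.mem_inter.mpr ⟨(Finset.mem_inter.mp he).1,
        Finset.mem_biUnion.mpr ⟨u, hX hu, (Finset.mem_inter.mp he).2⟩⟩
    refine (pow_le_pow_of_le_one (by norm_num) (by norm_num) c1).trans ?_
    rw [← Finset.prod_pow_eq_pow_sum]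
    apply Finset.prod_le_prod (fun u _ => by positivity)
    intro u hu
    have c2 : ((X ∪ R) ∩ gs F a B (Y ∪ X)) ∩ (tr F a D B (nl F a B) u).1 ⊆
        insert u (R ∩ (tr F a D B (nl F a B) u).1) := by
      intro v hv
      obtain ⟨v1, v2⟩ := Finset.mem_inter.mp hv
      by_cases hvu : v = u
      · rw [hvu]
        exact Finset.mem_insert_self _ _
      rcases Finset.mem_union.mp (Finset.mem_inter.mp v1).1 with h | h
      · exact absurd v2 (Finset.disjoint_left.mp (hdisj v (hXD h) u (hXD hu) hvu)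
          (self_mem_tr a D hW (hD.1 (hXD h))))
      · exact Finset.mem_insert_of_mem (Finset.mem_inter.mpr ⟨h, v2⟩)
    have c3 : (((X ∪ R) ∩ gs F a B (Y ∪ X)) ∩ (tr F a D B (nl F a B) u).1).card ≤
        2 ^ (R ∩ (tr F a D B (nl F a B) u).1).card :=
      (Finset.card_le_card c2).trans ((Finset.card_insert_le _ _).trans Nat.lt_two_pow_self)
    have c4 : 0 < (((X ∪ R) ∩ gs F a B (Y ∪ X)) ∩ (tr F a D B (nl F a B) u).1).card :=
      Finset.card_pos.mpr ⟨u, Finset.mem_inter.mpr ⟨hXK hu, self_mem_tr a D hW (hD.1 (hXD hu))⟩⟩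
    rw [one_div_pow]
    apply one_div_le_one_div_of_le
    · exact_mod_cast c4
    · exact_mod_cast c3

theorem layer {x : ℝ} (hx : 0 ≤ x) {B Y1 D P Y : Finset ι} (hB : sp F a B ≤ sp F a Y1)
    (hD : DD F a B Y1 D) (hP : P ⊆ D) (hY : sp F a Y = sp F a (Y1 ∪ P)) (n : ℕ) :
    x ^ (D \ P).card * ∏ d ∈ D \ P, gw (n + 1) (tr F a D B (nl F a B) d).1.card ≤
      ∑ K, ∑ X, if X ⊆ D \ P then AA F a (1 / 2 ^ n) x B Y K *
        om F a D B (nl F a B) Y K X (sp F a (Y ∪ K)) * (x ^ ((D \ P) \ X).card *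
          ∏ d ∈ (D \ P) \ X, gw n (tr F a D B (nl F a B) d).1.card) else 0 := by
  classical
  obtain ⟨S, hS⟩ := exists_signal a hB hD
  have h0 := rate_pos n
  have h1 := rate_le n
  set j : ι → ℕ := fun d => (tr F a D B (nl F a B) d).1.card with hj
  set Tg := (D \ P).filter (fun u => 2 ^ n ≤ j u) with hTg
  set N := (D \ P).biUnion (fun u => (tr F a D B (nl F a B) u).1) with hN
  set φ : Finset ι → ℝ := fun X => x ^ ((D \ P) \ X).card * ∏ d ∈ (D \ P) \ X, gw n (j d) with hφ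
  have hφ0 : ∀ X, 0 ≤ φ X := fun X =>
    mul_nonneg (pow_nonneg hx _) (Finset.prod_nonneg (fun d _ => (gw_bounds n _).1))
  set c : ℝ := x ^ (D \ P).card * ∏ d ∈ (D \ P) \ Tg, gw n (j d) with hc
  have hc0 : 0 ≤ c :=
    mul_nonneg (pow_nonneg hx _) (Finset.prod_nonneg (fun d _ => (gw_bounds n _).1))
  have hhit := Ex_hit h0.le h1 N Tg S (fun u hu => by
    obtain ⟨q1, q2⟩ := Finset.mem_filter.mp hu
    have q3 : ((2 : ℝ) ^ n) ≤ (S u).card := by
      exact_mod_cast q2.trans (hS u (Finset.mem_sdiff.mp q1).1).2.1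
    rw [one_div, inv_mul_eq_div, one_le_div (by positivity)]
    exact q3)
  calc _ ≤ c * ((1 - 1 / 2 ^ n / 2) ^ N.card * (1 / 3) ^ Tg.card) := by
        have e1 : ∏ d ∈ D \ P, gw (n + 1) (j d) = (1 - 1 / 2 ^ n / 2) ^ (∑ d ∈ D \ P, j d) *
            ((1 / 3) ^ Tg.card * ∏ d ∈ (D \ P) \ Tg, gw n (j d)) := by
          simp only [gw]
          rw [Finset.prod_mul_distrib, Finset.prod_pow_eq_pow_sum, Finset.prod_ite,
            Finset.prod_const, Finset.filter_not]
        have e2 : (1 - 1 / 2 ^ n / 2 : ℝ) ^ (∑ d ∈ D \ P, j d) ≤ (1 - 1 / 2 ^ n / 2) ^ N.card :=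
          pow_le_pow_of_le_one (by linarith) (by linarith) Finset.card_biUnion_le
        rw [e1]
        have e3 := mul_le_mul_of_nonneg_left e2 (mul_nonneg hc0
          (pow_nonneg (by norm_num : (0 : ℝ) ≤ 1 / 3) Tg.card))
        refine le_trans (le_of_eq ?_) (e3.trans (le_of_eq ?_))
        · rw [hc]; ring
        · ring
    _ ≤ Ex (1 / 2 ^ n) (fun R => c * ((1 / 2) ^ (R ∩ N).card *
          if ∀ u ∈ Tg, (R ∩ S u).Nonempty then 1 else 0)) := by
        rw [Ex_mul]
        exact mul_le_mul_of_nonneg_left hhit hc0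
    _ ≤ Ex (1 / 2 ^ n) (fun R => ∑ X ∈ (D \ P).powerset, φ X * x ^ X.card *
          om F a D B (nl F a B) Y ((X ∪ R) ∩ gs F a B (Y ∪ X)) X (sp F a (Y ∪ X))) := by
        apply Ex_mono h0.le h1
        intro R
        have hnn : ∀ X ∈ (D \ P).powerset, 0 ≤ φ X * x ^ X.card *
            om F a D B (nl F a B) Y ((X ∪ R) ∩ gs F a B (Y ∪ X)) X (sp F a (Y ∪ X)) :=
          fun X _ => mul_nonneg (mul_nonneg (hφ0 X) (pow_nonneg hx _)) (om_nonneg a _ _ _ _ _ _ _)
        split_ifs with hh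
        · obtain ⟨X, p1, p2, p3⟩ := layer2 a hB hD hP hY hS (2 ^ n) R hh
          refine le_trans ?_ (Finset.single_le_sum hnn (Finset.mem_powerset.mpr p1))
          rw [mul_one]
          apply mul_le_mul _ p3 (by positivity) (mul_nonneg (hφ0 X) (pow_nonneg hx _))
          have e1 : φ X * x ^ X.card = x ^ (D \ P).card * ∏ d ∈ (D \ P) \ X, gw n (j d) := by
            rw [← Finset.card_sdiff_add_card_eq_card p1, pow_add, hφ]
            ring
          rw [e1, hc]
          apply mul_le_mul_of_nonneg_left _ (pow_nonneg hx _)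
          exact Finset.prod_le_prod_of_subset_of_le_one
            (Finset.sdiff_subset_sdiff (subset_refl _) p2) (fun d _ => (gw_bounds n _).1)
            (fun d _ _ => (gw_bounds n _).2)
        · rw [mul_zero, mul_zero]
          exact Finset.sum_nonneg hnn
    _ ≤ _ := by
        rw [Ex_sum, Finset.sum_comm, ← Finset.univ_inter (D \ P).powerset, ← Finset.sum_ite_mem]
        apply Finset.sum_le_sum
        intro X _
        by_cases hX : X ⊆ D \ P
        · rw [if_pos (Finset.mem_powerset.mpr hX)]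
          simp only [if_pos hX]
          rw [← Finset.sum_mul, Ex_mul, mul_assoc, mul_comm]
          exact mul_le_mul_of_nonneg_right (layer1 a h0 h1 hx D B _
            (hX.trans (Finset.sdiff_subset.trans hD.1))
            (fun u hu hm => hD.2.1 u (Finset.mem_sdiff.mp (hX hu)).1
              (sp_layer_le a hP hY hX hu hm))) (hφ0 X)
        · rw [if_neg (fun h => hX (Finset.mem_powerset.mp h))]
          simp [hX]

open Classical in
theorem win {x : ℝ} (hx : 0 ≤ x) {B Y1 D : Finset ι} (hB : sp F a B ≤ sp F a Y1)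
    (hD : DD F a B Y1 D) (H : Finset ι → ℝ) {h0 : ℝ} (hh0 : 0 ≤ h0)
    (hH : ∀ Z, sp F a Z = sp F a (Y1 ∪ D) → h0 ≤ H Z) (n : ℕ) :
    ∀ P Y : Finset ι, P ⊆ D → sp F a Y = sp F a (Y1 ∪ P) →
    h0 * (x ^ (D \ P).card * ∏ d ∈ D \ P, gw n (tr F a D B (nl F a B) d).1.card) ≤
      ∑ K : Fin n → Finset ι, ∑ X : Fin n → Finset ι, if okD D n P X then
        AP F a x B n Y K * (∏ s, om F a D B (nl F a B) (Ycum n Y K s) (K s) (X s)
          (sp F a (Ycum n Y K s ∪ K s))) * H (Yend n Y K) else 0 := by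
  induction n with
  | zero =>
    intro P Y hP hY
    simp only [Finset.univ_unique, Finset.sum_singleton, okD, AP, Yend, Finset.univ_eq_empty,
      Finset.prod_empty, one_mul]
    by_cases h : P = D
    · rw [if_pos h, h]
      simpa using hH Y (by rw [hY, h])
    · rw [if_neg h]
      obtain ⟨d, hd⟩ : (D \ P).Nonempty :=
        Finset.sdiff_nonempty.mpr (fun h1 => h (Finset.Subset.antisymm hP h1))
      rw [Finset.prod_eq_zero hd (by simp [gw])]
      simp
  | succ n ih =>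
    intro P Y hP hY
    refine (mul_le_mul_of_nonneg_left (layer a hx hB hD hP hY n) hh0).trans ?_
    rw [sum_cons, Finset.mul_sum]
    apply Finset.sum_le_sum
    intro k _
    simp only [sum_cons (n := n)]
    rw [Finset.sum_comm, Finset.mul_sum]
    apply Finset.sum_le_sum
    intro X _
    simp only [okD, AP, Ycum, Yend, Fin.prod_univ_succ, Fin.cons_zero, Fin.cons_succ,
      Fin.tail_cons]
    have hc : 0 ≤ AA F a (1 / 2 ^ n) x B Y k * om F a D B (nl F a B) Y k X (sp F a (Y ∪ k)) :=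
      mul_nonneg (AA_nonneg a (rate_pos n) (rate_le n) hx _ _ _) (om_nonneg a _ _ _ _ _ _ _)
    by_cases hX : X ⊆ D \ P
    · simp only [hX, true_and, if_true]
      have e : ∀ (K Z : Fin n → Finset ι), (if okD D n (P ∪ X) Z then
          AA F a (1 / 2 ^ n) x B Y k * AP F a x B n (Y ∪ k) K *
            (om F a D B (nl F a B) Y k X (sp F a (Y ∪ k)) *
              ∏ s, om F a D B (nl F a B) (Ycum n (Y ∪ k) K s) (K s) (Z s)
                (sp F a (Ycum n (Y ∪ k) K s ∪ K s))) * H (Yend n (Y ∪ k) K) else 0) =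
          AA F a (1 / 2 ^ n) x B Y k * om F a D B (nl F a B) Y k X (sp F a (Y ∪ k)) *
          (if okD D n (P ∪ X) Z then AP F a x B n (Y ∪ k) K *
            (∏ s, om F a D B (nl F a B) (Ycum n (Y ∪ k) K s) (K s) (Z s)
              (sp F a (Ycum n (Y ∪ k) K s ∪ K s))) * H (Yend n (Y ∪ k) K) else 0) := by
        intro K Z
        split_ifs
        · ring
        · ring
      simp only [e, ← Finset.mul_sum]
      rw [mul_left_comm]
      by_cases hok : okL F a D B (nl F a B) Y k X (sp F a (Y ∪ k))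
      · apply mul_le_mul_of_nonneg_left _ hc
        have i := ih (P ∪ X) (Y ∪ k) (Finset.union_subset hP (hX.trans Finset.sdiff_subset))
          (by rw [← hok.2.2.1, sp_union_congr a hY, Finset.union_assoc])
        have e2 : D \ (P ∪ X) = (D \ P) \ X := by
          ext v
          simp only [Finset.mem_sdiff, Finset.mem_union]
          tauto
        rw [e2] at i
        exact i
      · unfold om
        simp only [if_neg hok, mul_zero, zero_mul, le_refl]
    · simp [hX]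

end Game

end Pool.Agent.P.MP_17c400_co
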