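import Pool.Agent.P.MP_17c400_co.LogCount

set_option autoImplicit false

namespace Pool.Agent.P.MP_17c400_co

open Finset Pool.Agent.P17c400

theorem prod_add_ge {σ : Type*} [DecidableEq σ] (s : Finset σ) (b d : σ → ℝ)
    (hb : ∀ i, 0 ≤ b i) (hd : ∀ i, 0 ≤ d i) :
    ∏ i ∈ s, b i + ∑ i ∈ s, d i * ∏ j ∈ s.erase i, b j ≤ ∏ i ∈ s, (b i + d i) := by
  induction s using Finset.induction_on with
  | empty => simp
  | insert x s hx ih =>
    rw [Finset.prod_insert hx, Finset.prod_insert hx, Finset.sum_insert hx,
      Finset.erase_insert hx]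
    have e : ∑ i ∈ s, d i * ∏ j ∈ (insert x s).erase i, b j =
        b x * ∑ i ∈ s, d i * ∏ j ∈ s.erase i, b j := by
      rw [Finset.mul_sum]
      apply Finset.sum_congr rfl
      intro i hi
      have hne : x ≠ i := fun e => hx (e ▸ hi)
      rw [Finset.erase_insert_of_ne hne,
        Finset.prod_insert (fun h => hx (Finset.mem_of_mem_erase h))]
      ring
    have h0 : 0 ≤ ∑ i ∈ s, d i * ∏ j ∈ s.erase i, b j :=
      Finset.sum_nonneg (fun i _ => mul_nonneg (hd i) (Finset.prod_nonneg (fun j _ => hb j)))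
    have h1 := mul_le_mul_of_nonneg_left ih (add_nonneg (hb x) (hd x))
    have h2 := mul_nonneg (hd x) h0
    rw [e]
    nlinarith

section Joint

variable {F : Type*} [Field F] {V : Type*} [AddCommGroup V] [Module F V]
variable {ι : Type*} [DecidableEq ι] (a : ι → V)

open Classical in
variable (F) in
/-- The invariant restricted to sets with a prescribed span. -/
noncomputable def bf (T : Submodule F V) (W Y K : Finset ι) : ℝ :=
  if sp F a (Y ∪ K) = T then be F a W Y K else 0

theorem bf_nonneg (T : Submodule F V) {W Y : Finset ι} (hWY : sp F a W ≤ sp F a Y)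
    (K : Finset ι) : 0 ≤ bf F a T W Y K := by
  unfold bf
  split_ifs
  · exact be_nonneg a K W Y hWY
  · exact le_rfl

theorem bf_insert {T : Submodule F V} {W Y K : Finset ι} (hWY : sp F a W ≤ sp F a Y) {e : ι}
    (h1 : a e ∉ sp F a W) (h2 : a e ∈ T) : bf F a T W Y K ≤ bf F a T W Y (insert e K) := by
  by_cases he : e ∈ K
  · rw [Finset.insert_eq_of_mem he]
  by_cases hT : sp F a (Y ∪ K) = T
  · have h3 : a e ∈ sp F a (Y ∪ K) := by rw [hT]; exact h2
    have hT' : sp F a (Y ∪ insert e K) = T := by
      rw [Finset.union_insert, sp_insert_of_mem a h3, hT]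
    unfold bf
    rw [if_pos hT, if_pos hT']
    by_cases h4 : a e ∈ sp F a Y
    · rw [be_yloop a he h4 h1]
    · rw [be_dc a hWY he h4 h3]
      exact le_add_of_nonneg_right (be_nonneg a K _ _ (sp_insert_le a hWY e))
  · refine le_trans (le_of_eq ?_) (bf_nonneg a T hWY _)
    unfold bf
    rw [if_neg hT]

theorem bf_union {T : Submodule F V} {W Y : Finset ι} (hWY : sp F a W ≤ sp F a Y)
    (K X : Finset ι) (h : ∀ e ∈ X, a e ∉ sp F a W ∧ a e ∈ T) :
    bf F a T W Y K ≤ bf F a T W Y (K ∪ X) := by
  induction X using Finset.induction_on with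
  | empty => rw [Finset.union_empty]
  | insert e X _ ih =>
    rw [Finset.union_insert]
    exact (ih (fun f hf => h f (Finset.mem_insert_of_mem hf))).trans
      (bf_insert a hWY (h e (by simp)).1 (h e (by simp)).2)

theorem bf_dc {T : Submodule F V} {W Y K : Finset ι} (hWY : sp F a W ≤ sp F a Y) {e : ι}
    (he : e ∉ K) (h0 : a e ∉ sp F a Y) (h : a e ∈ sp F a (Y ∪ K)) :
    bf F a T W Y (insert e K) = bf F a T W Y K + bf F a T (insert e W) (insert e Y) K := by
  unfold bf
  rw [Finset.union_insert, Finset.insert_union, sp_insert_of_mem a h]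
  split_ifs
  · exact be_dc a hWY he h0 h
  · ring

variable (F) in
/-- Validity of one layer. -/
def okL (D W Un Y K X : Finset ι) (T : Submodule F V) : Prop :=
  X ⊆ K ∧ Ind F a Y X ∧ sp F a (Y ∪ X) = T ∧
    ∀ u ∈ X, ∃ e ∈ K, e ∈ (tr F a D W Un u).2.1 ∧ a e ∉ sp F a (Y ∪ X.erase u)

open Classical in
variable (F) in
/-- Weight of one layer. -/
noncomputable def om (D W Un Y K X : Finset ι) (T : Submodule F V) : ℝ :=
  if okL F a D W Un Y K X T then ∏ u ∈ X, (1 / ((K ∩ (tr F a D W Un u).1).card : ℝ)) else 0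

theorem om_nonneg (D W Un Y K X : Finset ι) (T : Submodule F V) :
    0 ≤ om F a D W Un Y K X T := by
  unfold om
  split_ifs
  · exact Finset.prod_nonneg (fun u _ => by positivity)
  · exact le_rfl

theorem inter_shift {K C A Z : Finset ι} (h : Z ⊆ A \ C) : K ∩ Z = (K \ C) ∩ Z := by
  ext x
  simp only [Finset.mem_inter, Finset.mem_sdiff]
  exact ⟨fun h1 => ⟨⟨h1.1, (Finset.mem_sdiff.mp (h h1.2)).2⟩, h1.2⟩, fun h1 => ⟨h1.1.1, h1.2⟩⟩

theorem om_shift {D W Un Y K X D' W' C : Finset ι} {T : Submodule F V} (hd : Disjoint X C)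
    (h : ∀ v ∈ X, tr F a D W Un v = tr F a D' W' (Un \ C) v) :
    om F a D W Un Y K X T ≤ om F a D' W' (Un \ C) Y (K \ C) X T := by
  by_cases hok : okL F a D W Un Y K X T
  · have hok' : okL F a D' W' (Un \ C) Y (K \ C) X T := by
      obtain ⟨h1, h2, h3, h4⟩ := hok
      refine ⟨Finset.subset_sdiff.mpr ⟨h1, hd⟩, h2, h3, fun u hu => ?_⟩
      obtain ⟨e, he, p1, p2⟩ := h4 u hu
      rw [h u hu] at p1
      exact ⟨e, Finset.mem_sdiff.mpr ⟨he,
        (Finset.mem_sdiff.mp ((tr_sub a D' u _ W').2.1 p1)).2⟩, p1, p2⟩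
    unfold om
    rw [if_pos hok, if_pos hok']
    apply le_of_eq
    apply Finset.prod_congr rfl
    intro u hu
    rw [h u hu, inter_shift (K := K) (tr_sub a D' u _ W').1]
  · refine le_trans (le_of_eq ?_) (om_nonneg a _ _ _ _ _ _ _)
    unfold om
    rw [if_neg hok]

open Classical in
theorem om_self {D W Un Y K X : Finset ι} {T : Submodule F V} (h : Un.Nonempty) {u : ι}
    (hd : D ∩ c0 F a W Un = {u}) (hXD : X ⊆ D) (hu : u ∈ X) (hT : ∀ e ∈ K, a e ∈ T) :
    om F a D W Un Y K X T ≤
      (if a u ∉ sp F a Y ∧ a u ∈ sp F a (Y ∪ (K \ c0 F a W Un)) then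
        1 / ((K ∩ c0 F a W Un).card : ℝ) else 0) *
      om F a (D.erase u) (insert u W) (Un \ c0 F a W Un) (insert u Y) (K \ c0 F a W Un)
        (X.erase u) T := by
  have huc : u ∈ c0 F a W Un := by
    have : u ∈ D ∩ c0 F a W Un := by rw [hd]; exact Finset.mem_singleton_self u
    exact (Finset.mem_inter.mp this).2
  have hnc : ∀ v ∈ X.erase u, v ∉ c0 F a W Un := by
    intro v hv hc
    obtain ⟨p1, p2⟩ := Finset.mem_erase.mp hv
    have : v ∈ D ∩ c0 F a W Un := Finset.mem_inter.mpr ⟨hXD p2, hc⟩
    rw [hd] at this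
    exact p1 (Finset.mem_singleton.mp this)
  by_cases hok : okL F a D W Un Y K X T
  · obtain ⟨h1, h2, h3, h4⟩ := hok
    have hXK : X.erase u ⊆ K \ c0 F a W Un := fun v hv =>
      Finset.mem_sdiff.mpr ⟨h1 (Finset.mem_of_mem_erase hv), hnc v hv⟩
    have hcond : a u ∉ sp F a Y ∧ a u ∈ sp F a (Y ∪ (K \ c0 F a W Un)) := by
      refine ⟨not_mem_of_ind a hu h2, ?_⟩
      obtain ⟨e, he, p1, p2⟩ := h4 u hu
      rw [tr_pos a D W h huc] at p1
      exact cover_mem a hu (by rw [h3]; exact hT e he) p2 hXK
        (Finset.mem_sdiff.mpr ⟨he, (Finset.mem_sdiff.mp p1).2⟩)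
    have hok' : okL F a (D.erase u) (insert u W) (Un \ c0 F a W Un) (insert u Y)
        (K \ c0 F a W Un) (X.erase u) T := by
      refine ⟨hXK, ind_erase a hu h2, by rw [union_erase_eq hu]; exact h3, fun v hv => ?_⟩
      obtain ⟨q1, q2⟩ := Finset.mem_erase.mp hv
      obtain ⟨e, he, p1, p2⟩ := h4 v q2
      rw [tr_shift1 a h hd (hnc v hv)] at p1
      exact ⟨e, Finset.mem_sdiff.mpr ⟨he,
        (Finset.mem_sdiff.mp ((tr_sub a _ v _ _).2.1 p1)).2⟩, p1,
        by rw [union_erase_erase hu q1]; exact p2⟩
    unfold om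
    rw [if_pos ⟨h1, h2, h3, h4⟩, if_pos hok', if_pos hcond, ← Finset.mul_prod_erase X _ hu,
      tr_pos a D W h huc]
    apply le_of_eq
    congr 1
    apply Finset.prod_congr rfl
    intro v hv
    rw [tr_shift1 a h hd (hnc v hv), inter_shift (K := K) (tr_sub a _ v _ _).1]
  · refine le_trans (le_of_eq ?_) (mul_nonneg ?_ (om_nonneg a _ _ _ _ _ _ _))
    · unfold om
      rw [if_neg hok]
    · split_ifs
      · positivity
      · exact le_rfl

open Classical in
/-- One layer of the averaged recursion. -/
theorem bf_step {T : Submodule F V} {W Y K C : Finset ι} (hWY : sp F a W ≤ sp F a Y)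
    (h : ∀ e ∈ K, a e ∉ sp F a W ∧ a e ∈ T) :
    bf F a T W Y (K \ C) + ∑ u ∈ K ∩ C,
      (if a u ∉ sp F a Y ∧ a u ∈ sp F a (Y ∪ (K \ C)) then 1 / ((K ∩ C).card : ℝ) else 0) *
        bf F a T (insert u W) (insert u Y) (K \ C) ≤ bf F a T W Y K := by
  have h0 : bf F a T W Y (K \ C) ≤ bf F a T W Y K := by
    conv_rhs => rw [← Finset.sdiff_union_inter K C]
    exact bf_union a hWY _ _ (fun e he => h e (Finset.mem_inter.mp he).1)
  rcases (K ∩ C).eq_empty_or_nonempty with hE | hE
  · rw [hE]
    simpa using h0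
  have hn : (0 : ℝ) < (K ∩ C).card := by exact_mod_cast Finset.card_pos.mpr hE
  have h1 : ∀ u ∈ K ∩ C,
      (if a u ∉ sp F a Y ∧ a u ∈ sp F a (Y ∪ (K \ C)) then 1 / ((K ∩ C).card : ℝ) else 0) *
        bf F a T (insert u W) (insert u Y) (K \ C) ≤
      1 / ((K ∩ C).card : ℝ) * (bf F a T W Y K - bf F a T W Y (K \ C)) := by
    intro u hu
    obtain ⟨huK, huC⟩ := Finset.mem_inter.mp hu
    split_ifs with hc
    · apply mul_le_mul_of_nonneg_left _ (by positivity)
      have e2 : K = insert u (K \ C) ∪ (K ∩ C) := by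
        rw [Finset.insert_union, Finset.sdiff_union_inter, Finset.insert_eq_of_mem huK]
      have h2 := bf_union a hWY (insert u (K \ C)) (K ∩ C)
        (fun e he => h e (Finset.mem_inter.mp he).1)
      rw [← e2, bf_dc a hWY (fun hx => (Finset.mem_sdiff.mp hx).2 huC) hc.1 hc.2] at h2
      linarith
    · rw [zero_mul]
      exact mul_nonneg (by positivity) (by linarith)
  have h2 := Finset.sum_le_sum h1
  rw [Finset.sum_const, nsmul_eq_mul, ← mul_assoc, mul_one_div_cancel hn.ne', one_mul] at h2
  linarith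

variable {σ : Type*} [Fintype σ] [DecidableEq σ]

variable (F) in
/-- The layers are disjoint and jointly independent. -/
def good (W : Finset ι) (X : σ → Finset ι) : Prop :=
  Ind F a W (Finset.univ.biUnion X) ∧ ∀ s t, s ≠ t → Disjoint (X s) (X t)

open Classical in
variable (F) in
/-- Joint weight of a family of layers. -/
noncomputable def jw (W Un : Finset ι) (Y K : σ → Finset ι) (T : σ → Submodule F V)
    (X : σ → Finset ι) : ℝ :=
  if good F a W X then ∏ s, om F a (Finset.univ.biUnion X) W Un (Y s) (K s) (X s) (T s) else 0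

omit [DecidableEq σ] in
theorem jw_nonneg (W Un : Finset ι) (Y K : σ → Finset ι) (T : σ → Submodule F V)
    (X : σ → Finset ι) : 0 ≤ jw F a W Un Y K T X := by
  unfold jw
  split_ifs
  · exact Finset.prod_nonneg (fun s _ => om_nonneg a _ _ _ _ _ _ _)
  · exact le_rfl

omit [DecidableEq σ] in
theorem jw_sub {W Un : Finset ι} {Y K : σ → Finset ι} {T : σ → Submodule F V}
    {X : σ → Finset ι} (h : jw F a W Un Y K T X ≠ 0) (s : σ) : X s ⊆ K s := by
  by_contra hn
  apply h
  unfold jw
  split_ifs
  · apply Finset.prod_eq_zero (Finset.mem_univ s)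
    unfold om
    rw [if_neg (fun h1 => hn h1.1)]
  · rfl

omit [DecidableEq σ] in
theorem sub_biUnion (X : σ → Finset ι) (s : σ) : X s ⊆ Finset.univ.biUnion X :=
  Finset.subset_biUnion_of_mem X (Finset.mem_univ s)

omit [DecidableEq σ] in
theorem jw_del {W Un : Finset ι} (h : Un.Nonempty) (Y K : σ → Finset ι) (T : σ → Submodule F V)
    {X : σ → Finset ι} (hd : Disjoint (Finset.univ.biUnion X) (c0 F a W Un)) :
    jw F a W Un Y K T X ≤ jw F a W (Un \ c0 F a W Un) Y (fun s => K s \ c0 F a W Un) T X := by
  unfold jw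
  split_ifs
  · apply Finset.prod_le_prod (fun s _ => om_nonneg a _ _ _ _ _ _ _)
    intro s _
    have hd' := hd.mono_left (sub_biUnion X s)
    exact om_shift a hd' (fun v hv => tr_shift0 a h hd (Finset.disjoint_left.mp hd' hv))
  · exact le_rfl

open Classical in
theorem jw_con {W Un : Finset ι} (hW : ∀ e ∈ Un, a e ∉ sp F a W) (Y K : σ → Finset ι)
    (T : σ → Submodule F V) (hT : ∀ s, ∀ e ∈ K s, a e ∈ T s) {X : σ → Finset ι} {s : σ} {u : ι}
    (hu : u ∈ X s) (huc : u ∈ c0 F a W Un) :
    jw F a W Un Y K T X ≤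
      (if a u ∉ sp F a (Y s) ∧ a u ∈ sp F a (Y s ∪ (K s \ c0 F a W Un)) then
        1 / ((K s ∩ c0 F a W Un).card : ℝ) else 0) *
      jw F a (insert u W) (Un \ c0 F a W Un) (Function.update Y s (insert u (Y s)))
        (fun s => K s \ c0 F a W Un) T (Function.update X s ((X s).erase u)) := by
  have h : Un.Nonempty := ⟨u, c0_sub a W Un huc⟩
  have hκ : 0 ≤ (if a u ∉ sp F a (Y s) ∧ a u ∈ sp F a (Y s ∪ (K s \ c0 F a W Un)) then
      1 / ((K s ∩ c0 F a W Un).card : ℝ) else 0) := by
    split_ifs
    · positivity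
    · exact le_rfl
  by_cases hg : good F a W X
  · have huD : u ∈ Finset.univ.biUnion X := sub_biUnion X s hu
    have hd := inter_c0 a hW hg.1 huD huc
    have hne : ∀ t, t ≠ s → u ∉ X t := fun t ht hx =>
      Finset.disjoint_left.mp (hg.2 t s ht) hx hu
    have hsub : ∀ t, Function.update X s ((X s).erase u) t ⊆ X t := by
      intro t
      by_cases ht : t = s
      · subst ht
        rw [Function.update_self]
        exact Finset.erase_subset u _
      · rw [Function.update_of_ne ht]
    have eD : Finset.univ.biUnion (Function.update X s ((X s).erase u)) =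
        (Finset.univ.biUnion X).erase u := by
      ext x
      simp only [Finset.mem_biUnion, Finset.mem_univ, true_and, Finset.mem_erase]
      constructor
      · rintro ⟨t, ht⟩
        refine ⟨?_, t, hsub t ht⟩
        rintro rfl
        by_cases hts : t = s
        · subst hts
          rw [Function.update_self] at ht
          exact Finset.notMem_erase _ _ ht
        · exact hne t hts (hsub t ht)
      · rintro ⟨h1, t, ht⟩
        refine ⟨t, ?_⟩
        by_cases hts : t = s
        · subst hts
          rw [Function.update_self]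
          exact Finset.mem_erase.mpr ⟨h1, ht⟩
        · rw [Function.update_of_ne hts]
          exact ht
    have hg' : good F a (insert u W) (Function.update X s ((X s).erase u)) :=
      ⟨by rw [eD]; exact ind_erase a huD hg.1,
        fun t t' htt => (hg.2 t t' htt).mono (hsub t) (hsub t')⟩
    unfold jw
    rw [if_pos hg, if_pos hg', eD, ← Finset.mul_prod_erase _ _ (Finset.mem_univ s),
      ← Finset.mul_prod_erase _ _ (Finset.mem_univ s), ← mul_assoc, Function.update_self,
      Function.update_self]
    apply mul_le_mul (om_self a h hd (sub_biUnion X s) hu (hT s)) _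
      (Finset.prod_nonneg (fun s _ => om_nonneg a _ _ _ _ _ _ _))
      (mul_nonneg hκ (om_nonneg a _ _ _ _ _ _ _))
    apply Finset.prod_le_prod (fun s _ => om_nonneg a _ _ _ _ _ _ _)
    intro t ht
    have hts : t ≠ s := (Finset.mem_erase.mp ht).1
    rw [Function.update_of_ne hts, Function.update_of_ne hts]
    have hnc : ∀ v ∈ X t, v ∉ c0 F a W Un := by
      intro v hv hc
      have : v ∈ Finset.univ.biUnion X ∩ c0 F a W Un :=
        Finset.mem_inter.mpr ⟨sub_biUnion X t hv, hc⟩
      rw [hd, Finset.mem_singleton] at this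
      exact hne t hts (this ▸ hv)
    exact om_shift a (Finset.disjoint_left.mpr hnc) (fun v hv => tr_shift1 a h hd (hnc v hv))
  · refine le_trans (le_of_eq ?_) (mul_nonneg hκ (jw_nonneg a _ _ _ _ _ _))
    unfold jw
    rw [if_neg hg]

variable [Fintype ι]

/-- Joint evaluation of all layers along the process. -/
theorem sum_jw_le (T : σ → Submodule F V) (Un : Finset ι) :
    ∀ (W : Finset ι) (Z Y K : σ → Finset ι), (∀ e ∈ Un, a e ∉ sp F a W) →
    (∀ s, sp F a (Z s) ≤ sp F a W) → (∀ s, sp F a (Z s) ≤ sp F a (Y s)) → (∀ s, K s ⊆ Un) →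
    (∀ s, ∀ e ∈ K s, a e ∈ T s) →
    ∑ X : σ → Finset ι, jw F a W Un Y K T X ≤ ∏ s, bf F a (T s) (Z s) (Y s) (K s) := by
  classical
  induction Un using Finset.strongInduction with
  | H Un ih =>
    intro W Z Y K hW hZW hZY hK hT
    rcases Un.eq_empty_or_nonempty with rfl | h
    · have hK0 : ∀ s, K s = ∅ := fun s => Finset.subset_empty.mp (hK s)
      rw [Finset.sum_eq_single (fun _ => ∅)]
      · unfold jw
        split_ifs
        · apply Finset.prod_le_prod (fun s _ => om_nonneg a _ _ _ _ _ _ _)
          intro s _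
          unfold om
          split_ifs with h1
          · unfold bf
            rw [hK0 s, if_pos h1.2.2.1, be_empty]
            simp
          · exact bf_nonneg a _ (hZY s) _
        · exact Finset.prod_nonneg (fun s _ => bf_nonneg a _ (hZY s) _)
      · intro X _ hX
        by_contra h0
        apply hX
        funext s
        exact Finset.subset_empty.mp (by rw [← hK0 s]; exact jw_sub a h0 s)
      · intro h0
        exact absurd (Finset.mem_univ _) h0
    set c := c0 F a W Un with hc
    have hK' : ∀ s, K s \ c ⊆ Un \ c := fun s => Finset.sdiff_subset_sdiff (hK s) (subset_refl _)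
    have hT' : ∀ s, ∀ e ∈ K s \ c, a e ∈ T s := fun s e he => hT s e (Finset.mem_sdiff.mp he).1
    have i0 := ih _ (c0_ssub (F := F) a W h) W Z Y (fun s => K s \ c)
      (fun e he => hW e (Finset.mem_sdiff.mp he).1) hZW hZY hK' hT'
    set κ : σ → ι → ℝ := fun s u =>
      if a u ∉ sp F a (Y s) ∧ a u ∈ sp F a (Y s ∪ (K s \ c)) then
        1 / ((K s ∩ c).card : ℝ) else 0 with hκ
    have hκ0 : ∀ s u, 0 ≤ κ s u := by
      intro s u
      simp only [hκ]
      split_ifs
      · positivity
      · exact le_rfl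
    set b : σ → ℝ := fun s => bf F a (T s) (Z s) (Y s) (K s \ c) with hb
    set b' : σ → ι → ℝ := fun s u =>
      bf F a (T s) (insert u (Z s)) (insert u (Y s)) (K s \ c) with hb'
    have hb0 : ∀ s, 0 ≤ b s := fun s => bf_nonneg a _ (hZY s) _
    have hb'0 : ∀ s u, 0 ≤ b' s u := fun s u => bf_nonneg a _ (sp_insert_le a (hZY s) u) _
    have i1 : ∀ s, ∀ u ∈ K s ∩ c,
        ∑ X ∈ (Finset.univ : Finset (σ → Finset ι)).filter (fun X => u ∈ X s),
          jw F a W Un Y K T X ≤ κ s u * b' s u * ∏ t ∈ Finset.univ.erase s, b t := by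
      intro s u hu
      have huc := (Finset.mem_inter.mp hu).2
      have hW1 : ∀ e ∈ Un \ c, a e ∉ sp F a (insert u W) := by
        intro e he hm
        obtain ⟨q1, q2⟩ := Finset.mem_sdiff.mp he
        apply q2
        rw [hc, c0_eq a hW huc]
        exact (mem_cl a).mpr ⟨q1, hm⟩
      have i2 := ih _ (c0_ssub (F := F) a W h) (insert u W)
        (Function.update Z s (insert u (Z s))) (Function.update Y s (insert u (Y s)))
        (fun s => K s \ c) hW1
        (fun t => by
          by_cases ht : t = s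
          · subst ht
            rw [Function.update_self]
            exact sp_insert_le a (hZW t) u
          · rw [Function.update_of_ne ht]
            exact (hZW t).trans (sp_le_insert a u W))
        (fun t => by
          by_cases ht : t = s
          · subst ht
            rw [Function.update_self, Function.update_self]
            exact sp_insert_le a (hZY t) u
          · rw [Function.update_of_ne ht, Function.update_of_ne ht]
            exact hZY t) hK' hT'
      have e1 : ∏ t, bf F a (T t) (Function.update Z s (insert u (Z s)) t)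
          (Function.update Y s (insert u (Y s)) t) (K t \ c) =
          b' s u * ∏ t ∈ Finset.univ.erase s, b t := by
        rw [← Finset.mul_prod_erase _ _ (Finset.mem_univ s), Function.update_self,
          Function.update_self]
        congr 1
        apply Finset.prod_congr rfl
        intro t ht
        have hts : t ≠ s := (Finset.mem_erase.mp ht).1
        rw [Function.update_of_ne hts, Function.update_of_ne hts]
      rw [e1] at i2
      refine le_trans ?_ (le_of_le_of_eq (mul_le_mul_of_nonneg_left i2 (hκ0 s u))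
        (mul_assoc _ _ _).symm)
      rw [Finset.mul_sum]
      apply sum_le_of_inj _ _ (fun X => Function.update X s ((X s).erase u))
      · intro X _
        exact Finset.mem_univ _
      · intro X hX X' hX' hE
        funext t
        have h1 := congrFun hE t
        by_cases ht : t = s
        · subst ht
          simp only [Function.update_self] at h1
          rw [← Finset.insert_erase (Finset.mem_filter.mp hX).2,
            ← Finset.insert_erase (Finset.mem_filter.mp hX').2, h1]
        · simpa only [Function.update_of_ne ht] using h1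
      · intro X hX
        exact jw_con a hW Y K T hT (Finset.mem_filter.mp hX).2 huc
      · intro X _
        exact mul_nonneg (hκ0 s u) (jw_nonneg a _ _ _ _ _ _)
    have split : ∀ X : σ → Finset ι, jw F a W Un Y K T X ≤
        jw F a W (Un \ c) Y (fun s => K s \ c) T X +
          ∑ s, ∑ u ∈ K s ∩ c, if u ∈ X s then jw F a W Un Y K T X else 0 := by
      intro X
      have hnn : ∀ s, ∀ u ∈ K s ∩ c, 0 ≤ if u ∈ X s then jw F a W Un Y K T X else 0 := by
        intro s u _
        split_ifs
        · exact jw_nonneg a _ _ _ _ _ _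
        · exact le_rfl
      have hnn' : ∀ s ∈ (Finset.univ : Finset σ),
          0 ≤ ∑ u ∈ K s ∩ c, if u ∈ X s then jw F a W Un Y K T X else 0 :=
        fun s _ => Finset.sum_nonneg (hnn s)
      by_cases h0 : jw F a W Un Y K T X = 0
      · rw [h0] at *
        exact add_nonneg (jw_nonneg a _ _ _ _ _ _) (by simp)
      by_cases hd : Disjoint (Finset.univ.biUnion X) c
      · exact le_add_of_le_of_nonneg (jw_del a h Y K T hd) (Finset.sum_nonneg hnn')
      · obtain ⟨u, hu1, hu2⟩ := Finset.not_disjoint_iff.mp hd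
        obtain ⟨s, _, hs⟩ := Finset.mem_biUnion.mp hu1
        refine le_add_of_nonneg_of_le (jw_nonneg a _ _ _ _ _ _) ?_
        refine le_trans ?_ (Finset.single_le_sum hnn' (Finset.mem_univ s))
        refine le_trans ?_ (Finset.single_le_sum (hnn s)
          (Finset.mem_inter.mpr ⟨jw_sub a h0 s hs, hu2⟩))
        rw [if_pos hs]
    calc _ ≤ ∑ X : σ → Finset ι, (jw F a W (Un \ c) Y (fun s => K s \ c) T X +
          ∑ s, ∑ u ∈ K s ∩ c, if u ∈ X s then jw F a W Un Y K T X else 0) :=
          Finset.sum_le_sum (fun X _ => split X)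
      _ ≤ ∏ s, b s + ∑ s, (∑ u ∈ K s ∩ c, κ s u * b' s u) * ∏ t ∈ Finset.univ.erase s, b t := by
          rw [Finset.sum_add_distrib]
          apply add_le_add i0
          rw [Finset.sum_comm]
          apply Finset.sum_le_sum
          intro s _
          rw [Finset.sum_comm, Finset.sum_mul]
          apply Finset.sum_le_sum
          intro u hu
          rw [← Finset.sum_filter]
          exact i1 s u hu
      _ ≤ ∏ s, (b s + ∑ u ∈ K s ∩ c, κ s u * b' s u) :=
          prod_add_ge _ b _ hb0
            (fun s => Finset.sum_nonneg (fun u _ => mul_nonneg (hκ0 s u) (hb'0 s u)))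
      _ ≤ _ := by
          apply Finset.prod_le_prod (fun s _ => add_nonneg (hb0 s)
            (Finset.sum_nonneg (fun u _ => mul_nonneg (hκ0 s u) (hb'0 s u))))
          intro s _
          exact bf_step a (hZY s) (fun e he => ⟨fun hm => hW e (hK s he) (hZW s hm), hT s e he⟩)

end Joint

end Pool.Agent.P.MP_17c400_co
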