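import Pool.Agent.P.MP_17c400_co.Fib

set_option autoImplicit false

namespace Pool.Agent.P17c400

open Finset

theorem exp_two_fifths : Real.exp (2 / 5) < 3 / 2 := by
  have h1 : Real.exp (2 / 5) ^ 5 = Real.exp 1 ^ 2 := by
    rw [← Real.exp_nat_mul, ← Real.exp_nat_mul]
    norm_num
  have h2 := Real.exp_one_lt_d9
  have h3 := Real.exp_pos 1
  have h4 : Real.exp 1 ^ 2 < (3 / 2 : ℝ) ^ 5 := by nlinarith
  rw [← h1] at h4
  exact lt_of_pow_lt_pow_left₀ 5 (by norm_num) h4

section Core

variable {F : Type*} [Field F] [Fintype F] {n : ℕ}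

theorem core {ι : Type*} [Fintype ι] [LinearOrder ι] (a : ι → Fin n → F) (c : ι → F)
    (hcov : ∀ x, ∃ i, a i ⬝ᵥ x = c i) (hirr : ∀ j, ∃ x, ∀ i, i ≠ j → a i ⬝ᵥ x ≠ c i) :
    Fintype.card F * rk F a Finset.univ ^ 2 ≤ 400 * Fintype.card ι ^ 2 := by
  classical
  by_contra hlt
  push Not at hlt
  have hrm : rk F a Finset.univ ≤ Fintype.card ι := by
    have := rk_le_card (F := F) a Finset.univ
    rwa [Finset.card_univ] at this
  have hr0 : 0 < rk F a Finset.univ := by
    rcases Nat.eq_zero_or_pos (rk F a Finset.univ) with h | h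
    · rw [h] at hlt
      simp at hlt
    · exact h
  obtain ⟨r, hr⟩ : ∃ r : ℝ, r = rk F a Finset.univ := ⟨_, rfl⟩
  obtain ⟨m, hm⟩ : ∃ m : ℝ, m = Fintype.card ι := ⟨_, rfl⟩
  obtain ⟨q, hq⟩ : ∃ q : ℝ, q = Fintype.card F := ⟨_, rfl⟩
  have h1 : 400 * m ^ 2 < q * r ^ 2 := by rw [hr, hm, hq]; exact_mod_cast hlt
  have h2 : r ≤ m := by rw [hr, hm]; exact_mod_cast hrm
  have h3 : 0 < r := by rw [hr]; exact_mod_cast hr0
  have h4 : 0 < m := by linarith
  have h5 : r ^ 2 ≤ m ^ 2 := by nlinarith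
  have h6 : 400 < q := by
    by_contra h
    push Not at h
    nlinarith [sq_pos_of_pos h3]
  have ht : 0 ≤ 2 * r / (5 * m) := by positivity
  obtain ⟨B, _, hB⟩ := Finset.exists_min_image (Finset.univ : Finset (Finset ι))
    (fun B => (3 / 2 : ℝ) ^ rk F a B * gI F a (2 * r / (5 * m)) B) Finset.univ_nonempty
  have hmin : ∀ B', (3 / 2 : ℝ) ^ rk F a B * gI F a (2 * r / (5 * m)) B ≤
      (3 / 2 : ℝ) ^ rk F a B' * gI F a (2 * r / (5 * m)) B' := fun B' => hB B' (Finset.mem_univ _)
  have hne : ∃ j, j ∈ gr a B := by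
    by_contra hno
    push Not at hno
    have hle : sp F a Finset.univ ≤ sp F a B := by
      apply sp_le
      intro u _
      by_contra hu
      exact hno u (by simpa [gr] using hu)
    have hrk : rk F a Finset.univ ≤ rk F a B := Submodule.finrank_mono hle
    have e0 : rk F a ∅ = 0 := by
      have := rk_le_card (F := F) a ∅
      simpa using this
    have p1 := hmin ∅
    rw [e0, pow_zero, one_mul] at p1
    have p2 := gI_le (F := F) a ht ∅
    have p3 := one_le_gI (F := F) a ht B
    have p4 : (3 / 2 : ℝ) ^ rk F a Finset.univ ≤ (3 / 2 : ℝ) ^ rk F a B :=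
      pow_le_pow_right₀ (by norm_num) hrk
    have p5 : (1 + 2 * r / (5 * m)) ^ Fintype.card ι ≤ Real.exp (2 / 5) ^ rk F a Finset.univ := by
      calc _ ≤ Real.exp (2 * r / (5 * m)) ^ Fintype.card ι := by
            apply pow_le_pow_left₀ (by linarith)
            have := Real.add_one_le_exp (2 * r / (5 * m))
            linarith
        _ = _ := by
            rw [← Real.exp_nat_mul, ← Real.exp_nat_mul, ← hr, ← hm]
            congr 1
            field_simp
    have p6 : Real.exp (2 / 5) ^ rk F a Finset.univ < (3 / 2 : ℝ) ^ rk F a Finset.univ :=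
      pow_lt_pow_left₀ exp_two_fifths (Real.exp_pos _).le hr0.ne'
    have p7 : (3 / 2 : ℝ) ^ rk F a B ≤ (3 / 2 : ℝ) ^ rk F a B * gI F a (2 * r / (5 * m)) B :=
      le_mul_of_one_le_right (by positivity) p3
    linarith
  obtain ⟨j, hj⟩ := hne
  obtain ⟨x0, hx0⟩ := hirr j
  apply fibre_not_covered a c B x0 (ρ := 4 * r / (45 * m)) ht (by norm_num) hmin
  · rw [← hq]; linarith
  · positivity
  · rw [div_le_one (by positivity)]; linarith
  · rw [← hq, div_pow, div_le_div_iff₀ (by linarith) (by positivity)]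
    nlinarith
  · apply le_of_eq
    field_simp
    ring
  · intro x hx
    obtain ⟨i, hi⟩ := hcov x
    refine ⟨i, ?_, hi⟩
    by_contra hig
    have hm' : a i ∈ sp F a (B ∪ ∅) := by
      by_contra h
      exact hig (by simpa [gr] using h)
    have e := hs_const a c B x0 hx (x0_mem a c B x0) hm'
    exact hx0 i (fun e' => hig (e' ▸ hj)) (e ▸ hi)

/-- Irredundant covers of a finite vector space by affine hyperplanes are large. -/
theorem irredundant {ι : Type*} [Fintype ι] (a : ι → Fin n → F) (c : ι → F)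
    (hcov : ∀ x, ∃ i, a i ⬝ᵥ x = c i) (hirr : ∀ j, ∃ x, ∀ i, i ≠ j → a i ⬝ᵥ x ≠ c i) :
    Fintype.card F * Module.finrank F (Submodule.span F (Set.range a)) ^ 2 ≤
      400 * Fintype.card ι ^ 2 := by
  classical
  let _ : LinearOrder ι := LinearOrder.lift' (Fintype.equivFin ι) (Fintype.equivFin ι).injective
  have h := core a c hcov hirr
  have e : sp F a Finset.univ = Submodule.span F (Set.range a) := by
    simp [sp]
  unfold rk at h
  rwa [e] at h

/-- Several nonsingular matrices, one forbidden value per row. -/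
theorem matrices {k : ℕ} (M : Fin k → Matrix (Fin n) (Fin n) F) (c : Fin k → Fin n → F)
    (hq : 400 * k ^ 2 < Fintype.card F) (hM : ∀ i, IsUnit (M i).det) :
    ∃ x : Fin n → F, ∀ i j, (M i).mulVec x j ≠ c i j := by
  classical
  by_contra hno
  push Not at hno
  have hne : ((Finset.univ : Finset (Finset (Fin k × Fin n))).filter
      (fun T => ∀ x : Fin n → F, ∃ p ∈ T, M p.1 p.2 ⬝ᵥ x = c p.1 p.2)).Nonempty := by
    refine ⟨Finset.univ, Finset.mem_filter.mpr ⟨Finset.mem_univ _, fun x => ?_⟩⟩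
    obtain ⟨i, j, h⟩ := hno x
    exact ⟨(i, j), Finset.mem_univ _, h⟩
  obtain ⟨T, hT, hmin⟩ := Finset.exists_min_image _ Finset.card hne
  have hT' := (Finset.mem_filter.mp hT).2
  have h1 := irredundant (ι := T) (fun p => M p.1.1 p.1.2) (fun p => c p.1.1 p.1.2)
    (fun x => by
      obtain ⟨p, hp, h⟩ := hT' x
      exact ⟨⟨p, hp⟩, h⟩)
    (fun j => by
      by_contra h
      push Not at h
      have := hmin (T.erase j.1) (Finset.mem_filter.mpr ⟨Finset.mem_univ _, fun x => by
        obtain ⟨i, hi1, hi2⟩ := h x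
        exact ⟨i.1, Finset.mem_erase.mpr ⟨fun e => hi1 (Subtype.ext e), i.2⟩, hi2⟩⟩)
      have := Finset.card_erase_lt_of_mem j.2
      omega)
  set r := Module.finrank F (Submodule.span F (Set.range (fun p : T => M p.1.1 p.1.2))) with hr
  have h2 : ∀ i : Fin k, (T.filter (fun p => p.1 = i)).card ≤ r := by
    intro i
    have hli : LinearIndependent F (M i).row :=
      Matrix.linearIndependent_rows_iff_isUnit.mpr ((Matrix.isUnit_iff_isUnit_det _).mpr (hM i))
    have hli2 : LinearIndependent F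
        (fun p : (T.filter (fun p => p.1 = i)) => (M i).row p.1.2) := by
      apply hli.comp (fun p : (T.filter (fun p => p.1 = i)) => p.1.2)
      intro p p' e
      apply Subtype.ext
      apply Prod.ext
      · rw [(Finset.mem_filter.mp p.2).2, (Finset.mem_filter.mp p'.2).2]
      · exact e
    have h3 := finrank_span_eq_card hli2
    rw [Fintype.card_coe] at h3
    rw [← h3]
    apply Submodule.finrank_mono
    apply Submodule.span_mono
    rintro _ ⟨p, rfl⟩
    refine ⟨⟨p.1, (Finset.mem_filter.mp p.2).1⟩, ?_⟩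
    simp only
    rw [(Finset.mem_filter.mp p.2).2]
    rfl
  have h3 : T.card ≤ k * r := by
    rw [Finset.card_eq_sum_card_fiberwise (f := fun p : Fin k × Fin n => p.1) (t := Finset.univ)
      (fun x _ => Finset.mem_coe.mpr (Finset.mem_univ _))]
    calc _ ≤ ∑ _i : Fin k, r := Finset.sum_le_sum (fun i _ => h2 i)
      _ = _ := by simp
  have h4 : 0 < T.card := by
    obtain ⟨p, hp, _⟩ := hT' 0
    exact Finset.card_pos.mpr ⟨p, hp⟩
  rw [Fintype.card_coe] at h1
  have h5 : 0 < r := by
    rcases Nat.eq_zero_or_pos r with h | h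
    · rw [h] at h3
      omega
    · exact h
  have h6 : T.card ^ 2 ≤ (k * r) ^ 2 := Nat.pow_le_pow_left h3 2
  have h7 : 400 * k ^ 2 * r ^ 2 < Fintype.card F * r ^ 2 :=
    Nat.mul_lt_mul_of_pos_right hq (pow_pos h5 2)
  nlinarith

/-- Several nonsingular matrices, at most `s` forbidden values per row. -/
theorem matrices_sets {k s : ℕ} (M : Fin k → Matrix (Fin n) (Fin n) F)
    (S : Fin k → Fin n → Finset F) (hS : ∀ i j, (S i j).card ≤ s)
    (hq : 400 * (k * s) ^ 2 < Fintype.card F) (hM : ∀ i, IsUnit (M i).det) :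
    ∃ x : Fin n → F, ∀ i j, (M i).mulVec x j ∉ S i j := by
  classical
  have h1 : ∀ i j, ∃ f : Fin s → F, ∀ y ∈ S i j, ∃ l, f l = y := by
    intro i j
    have hc : Fintype.card (S i j) ≤ Fintype.card (Fin s) := by
      rw [Fintype.card_coe, Fintype.card_fin]
      exact hS i j
    obtain ⟨g⟩ := Function.Embedding.nonempty_of_card_le hc
    refine ⟨fun l => if h : ∃ y, g y = l then (h.choose : F) else 0, fun y hy => ⟨g ⟨y, hy⟩, ?_⟩⟩
    have h : ∃ y', g y' = g ⟨y, hy⟩ := ⟨_, rfl⟩
    simp only [dif_pos h]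
    rw [g.injective h.choose_spec]
  choose f hf using h1
  obtain ⟨x, hx⟩ := matrices (k := k * s) (fun p => M (finProdFinEquiv.symm p).1)
    (fun p j => f (finProdFinEquiv.symm p).1 j (finProdFinEquiv.symm p).2) hq (fun p => hM _)
  refine ⟨x, fun i j hm => ?_⟩
  obtain ⟨l, hl⟩ := hf i j _ hm
  apply hx (finProdFinEquiv (i, l)) j
  simp only [Equiv.symm_apply_apply]
  exact hl.symm

end Core

end Pool.Agent.P17c400
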