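import Pool.Agent.P.MP_17c400_co.LogSum
import Pool.Agent.P.MP_17c400_co.Main

set_option autoImplicit false

namespace Pool.Agent.P.MP_17c400_co

open Finset Pool.Agent.P17c400

section Fib

variable {F : Type*} [Field F] [Fintype F] {n : ℕ}
variable {ι : Type*} [Fintype ι] [LinearOrder ι]
variable (a : ι → Fin n → F) (c : ι → F)

theorem hs_nonempty {B J : Finset ι} (x0 : Fin n → F) (h : Ind F a B J) :
    (hs a c B x0 J).Nonempty := by
  have h1 := card_ind a c B x0 h
  have h2 := Finset.card_pos.mpr ⟨x0, x0_mem a c B x0⟩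
  rw [← Finset.card_pos]
  rcases Nat.eq_zero_or_pos (hs a c B x0 J).card with h3 | h3
  · rw [h3, mul_zero] at h1
    omega
  · exact h3

omit [Fintype F] [LinearOrder ι] in
theorem gr_eq (B : Finset ι) : gr a B = nl F a B := by
  ext e
  simp [gr, mem_nl]

open Classical in
/-- Hyperplanes of the flat spanned by `Y` and `D` through the points tight on `D`. -/
noncomputable def Zt (B Y : Finset ι) (x1 : Fin n → F) (D : Finset ι) : Finset ι :=
  Finset.univ.filter (fun e => a e ∉ sp F a B ∧ a e ∈ sp F a (Y ∪ D) ∧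
    ∀ x ∈ hs a c Y x1 D, a e ⬝ᵥ x = c e)

theorem mem_Zt {B Y D : Finset ι} {x1 : Fin n → F} {e : ι} : e ∈ Zt a c B Y x1 D ↔
    a e ∉ sp F a B ∧ a e ∈ sp F a (Y ∪ D) ∧ ∀ x ∈ hs a c Y x1 D, a e ⬝ᵥ x = c e := by
  simp [Zt]

omit [Fintype F] [Fintype ι] in
theorem sp_eq_of_span {Y Z D : Finset ι} (h1 : D ⊆ Z) (h2 : ∀ e ∈ Z, a e ∈ sp F a (Y ∪ D)) :
    sp F a (Y ∪ Z) = sp F a (Y ∪ D) := by
  apply le_antisymm
  · apply sp_le
    intro v hv
    rcases Finset.mem_union.mp hv with h | h
    · exact mem_sp a (Finset.mem_union_left _ h)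
    · exact h2 v h
  · exact sp_mono a (Finset.union_subset_union_right h1)

theorem Zt_eq {B Y D D' : Finset ι} {x1 : Fin n → F} (hI : Ind F a Y D)
    (h0 : D ⊆ Zt a c B Y x1 D) (h1 : D' ⊆ Zt a c B Y x1 D)
    (h2 : ∀ e ∈ Zt a c B Y x1 D, a e ∈ sp F a (Y ∪ D')) :
    Zt a c B Y x1 D' = Zt a c B Y x1 D := by
  have e1 : sp F a (Y ∪ D') = sp F a (Y ∪ D) := by
    rw [← sp_eq_of_span a h1 h2, sp_eq_of_span a h0 (fun e he => ((mem_Zt a c).mp he).2.1)]
  have hsub : ∀ x ∈ hs a c Y x1 D, x ∈ hs a c Y x1 D' := by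
    intro x hx
    exact (mem_hs a c Y x1).mpr ⟨((mem_hs a c Y x1).mp hx).1,
      fun u hu => ((mem_Zt a c).mp (h1 hu)).2.2 x hx⟩
  obtain ⟨y, hy⟩ := hs_nonempty a c x1 hI
  ext e
  rw [mem_Zt, mem_Zt, e1]
  constructor
  · rintro ⟨p1, p2, p3⟩
    exact ⟨p1, p2, fun x hx => p3 x (hsub x hx)⟩
  · rintro ⟨p1, p2, p3⟩
    refine ⟨p1, p2, fun x hx => ?_⟩
    rw [hs_const a c Y x1 hx (hsub y hy) (by rw [e1]; exact p2), p3 y hy]

open Classical in
/-- Passing from tight covers to covers along the process. -/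
theorem sum_SB_le {t : ℝ} (ht : 0 ≤ t) {B Y : Finset ι} (hB : sp F a B ≤ sp F a Y)
    (x1 : Fin n → F) :
    ∑ D ∈ (Finset.univ : Finset (Finset ι)).filter (fun D => SB F a B Y (Zt a c B Y x1 D) D),
      t ^ D.card ≤
    ∑ D ∈ (Finset.univ : Finset (Finset ι)).filter (fun D => DD F a B Y D), t ^ D.card := by
  rw [← Finset.sum_fiberwise _ (fun D => Zt a c B Y x1 D),
    ← Finset.sum_fiberwise ((Finset.univ : Finset (Finset ι)).filter (fun D => DD F a B Y D))
      (fun D => Zt a c B Y x1 D)]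
  apply Finset.sum_le_sum
  intro Z _
  rcases (((Finset.univ : Finset (Finset ι)).filter
    (fun D => SB F a B Y (Zt a c B Y x1 D) D)).filter
      (fun D => Zt a c B Y x1 D = Z)).eq_empty_or_nonempty with h | ⟨D0, hD0⟩
  · rw [h, Finset.sum_empty]
    exact Finset.sum_nonneg (fun D _ => pow_nonneg ht _)
  obtain ⟨q1, rfl⟩ := Finset.mem_filter.mp hD0
  have q2 := (Finset.mem_filter.mp q1).2
  set Z := Zt a c B Y x1 D0 with hZ
  have hcard : ∀ D, D ⊆ Z → Ind F a Y D → (∀ e ∈ Z, a e ∈ sp F a (Y ∪ D)) →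
      D.card = rr F a Y Z := by
    intro D h1 h2 h3
    rw [rr_congr a rfl (sp_eq_of_span a h1 h3), rr_ind a h2]
  have hZG : Z ⊆ nl F a B := fun e he => (mem_nl a).mpr ((mem_Zt a c).mp he).1
  have b1 := card_SB_le a Z B Y hB
  have b2 := be_le_card_TB a (nl F a B) B Y Z (fun e he => (mem_nl a).mp he) hB hZG
  calc _ ≤ ∑ D ∈ (Finset.univ : Finset (Finset ι)).filter (fun D => SB F a B Y Z D),
          t ^ rr F a Y Z := by
        apply sum_le_of_inj _ _ id
        · intro D hD
          obtain ⟨r1, r2⟩ := Finset.mem_filter.mp hD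
          refine Finset.mem_filter.mpr ⟨Finset.mem_univ _, ?_⟩
          have := (Finset.mem_filter.mp r1).2
          rwa [r2] at this
        · intro D _ D' _ h
          exact h
        · intro D hD
          obtain ⟨r1, r2⟩ := Finset.mem_filter.mp hD
          have := (Finset.mem_filter.mp r1).2
          rw [r2] at this
          rw [hcard D this.1 this.2.1 this.2.2.1]
        · intro D _
          exact pow_nonneg ht _
    _ ≤ ∑ D ∈ (Finset.univ : Finset (Finset ι)).filter (fun D => TB F a B (nl F a B) Y Z D),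
          t ^ rr F a Y Z := by
        rw [Finset.sum_const, Finset.sum_const, nsmul_eq_mul, nsmul_eq_mul]
        exact mul_le_mul_of_nonneg_right (b1.trans b2) (pow_nonneg ht _)
    _ ≤ _ := by
        apply sum_le_of_inj _ _ id
        · intro D hD
          obtain ⟨r1, r2, r3, r4⟩ := (Finset.mem_filter.mp hD).2
          refine Finset.mem_filter.mpr ⟨Finset.mem_filter.mpr ⟨Finset.mem_univ _,
            r1.trans hZG, r2, fun u hu => ?_⟩, Zt_eq a c q2.2.1 q2.1 r1 r3⟩
          obtain ⟨e, he, p1, p2⟩ := r4 u hu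
          exact ⟨e, p1, r3 e he, p2⟩
        · intro D _ D' _ h
          exact h
        · intro D hD
          obtain ⟨r1, r2, r3, _⟩ := (Finset.mem_filter.mp hD).2
          rw [id, hcard D r1 r2 r3]
        · intro D _
          exact pow_nonneg ht _

variable (B : Finset ι) (x0 : Fin n → F)

open Classical in
/-- A point of the fibre on the hyperplanes with index in `J`, if there is one. -/
noncomputable def pt (J : Finset ι) : Fin n → F :=
  if h : (hs a c B x0 J).Nonempty then h.choose else x0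

theorem pt_mem {J : Finset ι} (h : (hs a c B x0 J).Nonempty) : pt a c B x0 J ∈ hs a c B x0 J := by
  unfold pt
  rw [dif_pos h]
  exact h.choose_spec

theorem pt_base (J : Finset ι) : ∀ v ∈ B, a v ⬝ᵥ pt a c B x0 J = a v ⬝ᵥ x0 := by
  by_cases h : (hs a c B x0 J).Nonempty
  · exact ((mem_hs a c B x0).mp (pt_mem a c B x0 h)).1
  · unfold pt
    rw [dif_neg h]
    exact fun _ _ => rfl

open Classical in
/-- Indicator of the link of `E`. -/
noncomputable def g0 (E J : Finset ι) : ℝ := if NN a c B x0 (J ∪ E) then 1 else 0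

/-- Structure of the sets with nonzero coefficient. -/
theorem mob_struct {E D : Finset ι} (hE : E ⊆ gr a B) (hD : D ⊆ gr a B) (hN : NN a c B x0 D)
    (h : mob (g0 a c B x0 E) D ≠ 0) :
    ∃ C ⊆ D, IAtt F a B E C ∧ ∃ J ⊆ C, SB F a B (B ∪ E ∪ C)
      (Zt a c B (B ∪ E ∪ C) (pt a c B x0 (J ∪ E)) (D \ C)) (D \ C) := by
  classical
  set C := D.filter (fun u => a u ∈ sp F a (B ∪ E ∪ D.erase u)) with hC
  have hCD : C ⊆ D := Finset.filter_subset _ _
  have hA : ∀ u ∈ D \ C, a u ∉ sp F a (B ∪ E ∪ D.erase u) := by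
    intro u hu hm
    obtain ⟨p1, p2⟩ := Finset.mem_sdiff.mp hu
    exact p2 (Finset.mem_filter.mpr ⟨p1, hm⟩)
  have hle : ∀ u ∈ D \ C, sp F a (B ∪ E ∪ C ∪ (D \ C).erase u) ≤ sp F a (B ∪ E ∪ D.erase u) := by
    intro u hu
    apply sp_mono
    intro x hx
    have p2 := (Finset.mem_sdiff.mp hu).2
    simp only [Finset.mem_union, Finset.mem_erase, Finset.mem_sdiff] at hx ⊢
    rcases hx with (h1 | h1) | h1
    · exact Or.inl h1
    · exact Or.inr ⟨fun e => p2 (e ▸ h1), hCD h1⟩
    · exact Or.inr ⟨h1.1, h1.2.1⟩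
  have hI : Ind F a (B ∪ E ∪ C) (D \ C) := fun u hu hm => hA u hu (hle u hu hm)
  have hG : ∀ e, e ∈ gr a B ↔ a e ∉ sp F a B := fun e => by rw [gr_eq, mem_nl]
  have hJ : ∃ J ⊆ C, mob (fun T => g0 a c B x0 E (J ∪ T)) (D \ C) ≠ 0 := by
    by_contra hno
    push Not at hno
    apply h
    rw [← Finset.union_sdiff_of_subset hCD]
    exact mob_union_zero _ _ _ Finset.disjoint_sdiff hno
  obtain ⟨J, hJC, hJ⟩ := hJ
  set x1 := pt a c B x0 (J ∪ E) with hx1
  have hbase : ∀ x ∈ hs a c (B ∪ E ∪ C) x1 (D \ C), ∀ v ∈ B, a v ⬝ᵥ x = a v ⬝ᵥ x0 := by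
    intro x hx v hv
    rw [((mem_hs a c _ x1).mp hx).1 v (Finset.mem_union_left _ (Finset.mem_union_left _ hv))]
    exact pt_base a c B x0 _ v hv
  obtain ⟨y, hy⟩ := hs_nonempty a c x1 hI
  refine ⟨C, hCD, ⟨Ind.mono a (NN_ind a c B x0 hD hN) hCD, fun u hu => ?_⟩, J, hJC, ?_, hI,
    fun e he => ((mem_Zt a c).mp he).2.1, ?_, ?_⟩
  · apply mem_of_ind a hI (C := sp F a (B ∪ E ∪ C.erase u))
    · exact sp_mono a (Finset.union_subset_union_right (Finset.erase_subset u C))
    · exact mem_sp a (Finset.mem_union_right _ hu)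
    · rw [← sp_union]
      refine sp_mono a ?_ (Finset.mem_filter.mp hu).2
      intro x hx
      simp only [Finset.mem_union, Finset.mem_erase, Finset.mem_sdiff] at hx ⊢
      tauto
  · intro u hu
    exact (mem_Zt a c).mpr ⟨(hG u).mp (hD (Finset.mem_sdiff.mp hu).1),
      mem_sp a (Finset.mem_union_right _ hu), fun x hx => ((mem_hs a c _ x1).mp hx).2 u hu⟩
  · intro e he _ hm
    obtain ⟨p1, _, p3⟩ := (mem_Zt a c).mp he
    have hy' : y ∈ hs a c B x0 (D \ C) :=
      (mem_hs a c B x0).mpr ⟨hbase y hy, ((mem_hs a c _ x1).mp hy).2⟩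
    exact hN _ ((Finset.filter_subset _ _).trans Finset.sdiff_subset)
      (forb_of_mem a c B x0 ((hG e).mpr p1) (fun b hb => (Finset.mem_filter.mp hb).2)
        (Finset.filter_subset _ _) hy' (p3 y hy) hm)
  · intro u hu
    have hT : ∃ T ⊆ (D \ C).erase u,
        g0 a c B x0 E (J ∪ insert u T) ≠ g0 a c B x0 E (J ∪ T) := by
      by_contra hno
      push Not at hno
      exact hJ (mob_eq_zero _ hu hno)
    obtain ⟨T, hT, hne⟩ := hT
    have eQ : J ∪ insert u T ∪ E = insert u (J ∪ T ∪ E) := by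
      rw [Finset.union_insert, Finset.insert_union]
    have hQ : NN a c B x0 (J ∪ T ∪ E) ∧ ¬ NN a c B x0 (insert u (J ∪ T ∪ E)) := by
      unfold g0 at hne
      rw [eQ] at hne
      by_cases h1 : NN a c B x0 (insert u (J ∪ T ∪ E))
      · rw [if_pos h1, if_pos (NN_down a c B x0 _ _ (Finset.subset_insert _ _) h1)] at hne
        exact absurd rfl hne
      · refine ⟨?_, h1⟩
        by_contra h2
        rw [if_neg h1, if_neg h2] at hne
        exact hne rfl
    have hTD : T ⊆ D \ C := hT.trans (Finset.erase_subset _ _)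
    have hQG : J ∪ T ∪ E ⊆ gr a B := Finset.union_subset (Finset.union_subset
      (hJC.trans (hCD.trans hD)) (hTD.trans (Finset.sdiff_subset.trans hD))) hE
    have hQY : B ∪ (J ∪ T ∪ E) ⊆ B ∪ E ∪ C ∪ (D \ C).erase u := by
      intro x hx
      simp only [Finset.mem_union] at hx ⊢
      rcases hx with h1 | (h1 | h1) | h1
      · exact Or.inl (Or.inl (Or.inl h1))
      · exact Or.inl (Or.inr (hJC h1))
      · exact Or.inr (hT h1)
      · exact Or.inl (Or.inl (Or.inr h1))
    have hQI := NN_ind a c B x0 hQG hQ.1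
    have hQu : Ind F a B (insert u (J ∪ T ∪ E)) :=
      ind_insert a B hQI (fun hm => hI u hu (sp_mono a hQY hm))
    have hx1m : x1 ∈ hs a c B x0 (J ∪ E) := pt_mem a c B x0 (hs_nonempty a c x0
      (Ind.mono a hQI (Finset.union_subset_union_left Finset.subset_union_left)))
    obtain ⟨X, hX, hF⟩ : ∃ X ⊆ insert u (J ∪ T ∪ E), Forb a c B x0 X := by
      by_contra hno
      push Not at hno
      exact hQ.2 hno
    have huX : u ∈ X := by
      by_contra hn
      exact hQ.1 X ((Finset.subset_insert_iff_of_notMem hn).mp hX) hF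
    have hXQ : X.erase u ⊆ J ∪ T ∪ E := Finset.subset_insert_iff.mp hX
    have hmem : ∀ x ∈ hs a c (B ∪ E ∪ C) x1 (D \ C), x ∈ hs a c B x0 X := by
      intro x hx
      refine (mem_hs a c B x0).mpr ⟨hbase x hx, fun v hv => ?_⟩
      obtain ⟨r1, r2⟩ := (mem_hs a c _ x1).mp hx
      have r3 := ((mem_hs a c B x0).mp hx1m).2
      rcases Finset.mem_insert.mp (hX hv) with r | r
      · rw [r]; exact r2 u hu
      rcases Finset.mem_union.mp r with r | r
      · rcases Finset.mem_union.mp r with r | r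
        · rw [r1 v (Finset.mem_union_right _ (hJC r))]
          exact r3 v (Finset.mem_union_left _ r)
        · exact r2 v (hTD r)
      · rw [r1 v (Finset.mem_union_left _ (Finset.mem_union_right _ r))]
        exact r3 v (Finset.mem_union_right _ r)
    rcases hF with h1 | ⟨e, he, hlt, hc⟩
    · have := hmem y hy
      rw [h1] at this
      exact absurd this (Finset.notMem_empty _)
    have hm : a e ∈ sp F a (B ∪ X) := by
      by_contra hm
      obtain ⟨x, hx, hne⟩ := exists_off a c B x0 (hmem y hy) hm (c e)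
      exact hne (hc x hx)
    have hnm : a e ∉ sp F a (B ∪ X.erase u) := fun hm' =>
      hQ.1 _ hXQ (forb_of_mem a c B x0 he (fun b hb => hlt b (Finset.mem_of_mem_erase hb))
        (Finset.erase_subset u X) (hmem y hy) (hc y (hmem y hy)) hm')
    have hXY : B ∪ X.erase u ⊆ B ∪ E ∪ C ∪ (D \ C).erase u :=
      (Finset.union_subset_union_right hXQ).trans hQY
    rw [← union_erase_eq huX, Finset.insert_union] at hm
    refine ⟨e, (mem_Zt a c).mpr ⟨(hG e).mp he, ?_, fun x hx => hc x (hmem x hx)⟩, hlt u huX,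
      fun hm' => hI u hu (exch a hm hnm (sp_mono a hXY) hm')⟩
    rw [← union_erase_eq hu, Finset.insert_union]
    exact sp_mono a (Finset.insert_subset_insert u hXY) hm

open Classical in
/-- Modified indicator whose coefficients vanish outside the family. -/
noncomputable def g1 (E J : Finset ι) : ℝ :=
  ∑ X ∈ J.powerset, if NN a c B x0 X then mob (g0 a c B x0 E) X else 0

open Classical in
theorem sum_mob_g1 {θ : ℝ} (hθ : 0 ≤ θ)
    (h1 : ∀ E : Finset ι, ∑ D ∈ (Finset.univ : Finset (Finset ι)).filter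
      (fun D => IAtt F a B E D), (8 * θ) ^ D.card ≤ 2 ^ E.card)
    (h2 : ∀ Y : Finset ι, sp F a B ≤ sp F a Y → 2 ^ rk F a B *
      ∑ D ∈ (Finset.univ : Finset (Finset ι)).filter (fun D => DD F a B Y D),
        (2 * θ) ^ D.card ≤ 2 ^ rk F a Y)
    {E : Finset ι} (hE : E ⊆ gr a B) :
    ∑ D ∈ (gr a B \ E).powerset, |mob (g1 a c B x0 E) D| * θ ^ D.card ≤ 4 ^ E.card := by
  have hθ2 : 0 ≤ 2 * θ := by linarith
  have e1 : ∀ D, mob (g1 a c B x0 E) D = if NN a c B x0 D then mob (g0 a c B x0 E) D else 0 :=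
    fun D => mob_sum (fun X => if NN a c B x0 X then mob (g0 a c B x0 E) X else 0) D
  have h3 : ∀ (C : Finset ι) (x1 : Fin n → F), ∑ D ∈ (Finset.univ : Finset (Finset ι)).filter
      (fun D => SB F a B (B ∪ E ∪ C) (Zt a c B (B ∪ E ∪ C) x1 D) D), (2 * θ) ^ D.card ≤
      2 ^ E.card * 2 ^ C.card := by
    intro C x1
    have hB : sp F a B ≤ sp F a (B ∪ E ∪ C) :=
      sp_mono a (Finset.subset_union_left.trans Finset.subset_union_left)
    refine (sum_SB_le a c hθ2 hB x1).trans ?_
    have hr : rk F a (B ∪ E ∪ C) ≤ rk F a B + (E.card + C.card) := by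
      have := rk_union_le (F := F) a (B ∪ E) C
      have := rk_union_le (F := F) a B E
      omega
    have p1 := (h2 _ hB).trans (pow_le_pow_right₀ (by norm_num) hr)
    rw [pow_add, pow_add] at p1
    exact le_of_mul_le_mul_left p1 (by positivity)
  choose! cc hcc hatt jj hjj hsb using fun D (h : D ⊆ gr a B ∧ NN a c B x0 D ∧
    mob (g0 a c B x0 E) D ≠ 0) => mob_struct a c B x0 hE h.1 h.2.1 h.2.2
  calc _ = ∑ D ∈ (gr a B \ E).powerset.filter (fun D => D ⊆ gr a B ∧ NN a c B x0 D ∧
          mob (g0 a c B x0 E) D ≠ 0), |mob (g0 a c B x0 E) D| * θ ^ D.card := by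
        rw [Finset.sum_filter]
        apply Finset.sum_congr rfl
        intro D hD
        have hDG : D ⊆ gr a B := (Finset.mem_powerset.mp hD).trans Finset.sdiff_subset
        rw [e1]
        by_cases p1 : NN a c B x0 D
        · by_cases p2 : mob (g0 a c B x0 E) D = 0
          · simp [p2]
          · rw [if_pos p1, if_pos ⟨hDG, p1, p2⟩]
        · simp [p1]
    _ ≤ ∑ C ∈ (Finset.univ : Finset (Finset ι)).filter (fun D => IAtt F a B E D),
          ∑ J ∈ C.powerset, ∑ D ∈ (Finset.univ : Finset (Finset ι)).filter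
            (fun D => SB F a B (B ∪ E ∪ C) (Zt a c B (B ∪ E ∪ C) (pt a c B x0 (J ∪ E)) D) D),
            (2 * θ) ^ C.card * (2 * θ) ^ D.card := by
        simp only [Finset.sum_sigma']
        apply sum_le_of_inj _ _ (fun D => ⟨cc D, jj D, D \ cc D⟩)
        · intro D hD
          have p := (Finset.mem_filter.mp hD).2
          simp only [Finset.mem_sigma, Finset.mem_filter, Finset.mem_univ, true_and,
            Finset.mem_powerset]
          exact ⟨hatt D p, hjj D p, hsb D p⟩
        · intro D hD D' hD' he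
          have p := (Finset.mem_filter.mp hD).2
          have p' := (Finset.mem_filter.mp hD').2
          simp only [Sigma.mk.injEq, heq_eq_eq] at he
          rw [← Finset.union_sdiff_of_subset (hcc D p), ← Finset.union_sdiff_of_subset (hcc D' p'),
            he.2.2, he.1]
        · intro D hD
          have p := (Finset.mem_filter.mp hD).2
          simp only
          rw [← pow_add, add_comm, Finset.card_sdiff_add_card_eq_card (hcc D p), mul_pow]
          refine mul_le_mul_of_nonneg_right (abs_mob_le _ (fun X => ?_) D) (pow_nonneg hθ _)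
          unfold g0
          split_ifs <;> simp
        · intro p _
          exact mul_nonneg (pow_nonneg hθ2 _) (pow_nonneg hθ2 _)
    _ ≤ ∑ C ∈ (Finset.univ : Finset (Finset ι)).filter (fun D => IAtt F a B E D),
          2 ^ E.card * (8 * θ) ^ C.card := by
        apply Finset.sum_le_sum
        intro C _
        refine (Finset.sum_le_sum (g := fun _ => (2 * θ) ^ C.card * (2 ^ E.card * 2 ^ C.card))
          (fun J _ => ?_)).trans (le_of_eq ?_)
        · rw [← Finset.mul_sum]
          exact mul_le_mul_of_nonneg_left (h3 C _) (pow_nonneg hθ2 _)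
        · rw [Finset.sum_const, Finset.card_powerset, nsmul_eq_mul,
            show 8 * θ = 2 * (2 * θ) * 2 by ring]
          generalize 2 * θ = τ
          rw [mul_pow, mul_pow]
          push_cast
          ring
    _ ≤ _ := by
        rw [← Finset.mul_sum, show (4 : ℝ) = 2 * 2 by norm_num, mul_pow]
        exact mul_le_mul_of_nonneg_left (h1 E) (by positivity)

open Classical in
theorem fibre_free (hq : (4 : ℝ) < Fintype.card F)
    (h1 : ∀ E : Finset ι, ∑ D ∈ (Finset.univ : Finset (Finset ι)).filter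
      (fun D => IAtt F a B E D), (8 * (4 / ((Fintype.card F : ℝ) - 4))) ^ D.card ≤ 2 ^ E.card)
    (h2 : ∀ Y : Finset ι, sp F a B ≤ sp F a Y → 2 ^ rk F a B *
      ∑ D ∈ (Finset.univ : Finset (Finset ι)).filter (fun D => DD F a B Y D),
        (2 * (4 / ((Fintype.card F : ℝ) - 4))) ^ D.card ≤ 2 ^ rk F a Y) :
    ¬ ∀ x ∈ hs a c B x0 ∅, ∃ u ∈ gr a B, a u ⬝ᵥ x = c u := by
  intro hcov
  have h0 := zz_eq_zero a c B x0 hcov
  have hq0 : (0 : ℝ) < Fintype.card F := by linarith
  have habs : |(-1 / (Fintype.card F : ℝ))| = 1 / Fintype.card F := by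
    rw [abs_div, abs_neg, abs_one, abs_of_pos hq0]
  have hη1 : 4 / (Fintype.card F : ℝ) < 1 := (div_lt_one hq0).mpr hq
  have hθ : |(-1 / (Fintype.card F : ℝ))| * 4 / (1 - 4 / Fintype.card F) =
      4 / (Fintype.card F - 4) := by
    rw [habs]
    have : (Fintype.card F : ℝ) - 4 ≠ 0 := by linarith
    field_simp
  have := (zz_pos (gr a B) (NN a c B x0) (NN_down a c B x0) (NN_empty a c B x0)
    (z := -1 / (Fintype.card F : ℝ)) (L := 4) (η := 4 / Fintype.card F) (by norm_num)
    (by rw [habs]; apply le_of_eq; ring) hη1 (g1 a c B x0)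
    (fun E _ _ J _ _ hN => by
      unfold g1
      rw [Finset.sum_congr rfl (fun X hX => if_pos
        (NN_down a c B x0 X J (Finset.mem_powerset.mp hX) hN)), sum_mob]
      rfl)
    (fun E hE _ => by
      rw [hθ]
      exact sum_mob_g1 a c B x0 (div_nonneg (by norm_num) (by linarith)) h1 h2 hE)
    (gr a B) (subset_refl _)).1
  rw [h0] at this
  exact lt_irrefl _ this

end Fib

theorem exp_five_lt : Real.exp 5 < 149 := by
  have h1 : Real.exp 5 = Real.exp 1 ^ 5 := by
    rw [← Real.exp_nat_mul]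
    norm_num
  have h2 : Real.exp 1 ^ 5 ≤ (2.7182818286 : ℝ) ^ 5 :=
    pow_le_pow_left₀ (Real.exp_pos 1).le Real.exp_one_lt_d9.le 5
  rw [h1]
  exact lt_of_le_of_lt h2 (by norm_num)

section Core

variable {F : Type*} [Field F] [Fintype F] {n : ℕ}

theorem core_log {ι : Type*} [Fintype ι] [LinearOrder ι] (a : ι → Fin n → F) (c : ι → F)
    (hcov : ∀ x, ∃ i, a i ⬝ᵥ x = c i) (hirr : ∀ j, ∃ x, ∀ i, i ≠ j → a i ⬝ᵥ x ≠ c i) (k : ℕ)
    (hr0 : 0 < rk F a Finset.univ) (hk : Fintype.card ι ≤ k * rk F a Finset.univ) :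
    Fintype.card F < 18000 * k * (Nat.log 2 k + 5) := by
  classical
  by_contra hlt
  push Not at hlt
  have hrm : rk F a Finset.univ ≤ Fintype.card ι := by
    have := rk_le_card (F := F) a Finset.univ
    rwa [Finset.card_univ] at this
  have hk0 : 1 ≤ k := by
    rcases Nat.eq_zero_or_pos k with h | h
    · rw [h] at hk
      omega
    · exact h
  obtain ⟨q, hq⟩ : ∃ q : ℝ, q = Fintype.card F := ⟨_, rfl⟩
  set L := Nat.log 2 k + 3 with hL
  have hqk : 18000 * (k : ℝ) * (L + 2) ≤ q := by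
    rw [hq, hL]
    have : ((18000 * k * (Nat.log 2 k + 5) : ℕ) : ℝ) ≤ Fintype.card F := by exact_mod_cast hlt
    push_cast at this ⊢
    linarith
  have hk1 : (1 : ℝ) ≤ k := by exact_mod_cast hk0
  have hL3 : (3 : ℝ) ≤ L := by
    rw [hL]
    push_cast
    linarith [Nat.cast_nonneg (α := ℝ) (Nat.log 2 k)]
  have hq9 : 90000 ≤ q := by nlinarith
  have hkL : 4 * (k : ℝ) ≤ 2 ^ L := by
    have h1 := Nat.lt_pow_succ_log_self (b := 2) (by norm_num) k
    have h2 : 4 * k ≤ 2 ^ L := by
      rw [hL, pow_add]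
      rw [pow_succ] at h1
      omega
    exact_mod_cast h2
  obtain ⟨x, hx⟩ : ∃ x : ℝ, x = 7200 / q := ⟨_, rfl⟩
  have hx0 : 0 ≤ x := by rw [hx]; positivity
  obtain ⟨ϑ, hϑ⟩ : ∃ ϑ : ℝ, ϑ = 1 + 1 / 2 ^ L := ⟨_, rfl⟩
  have hϑ1 : 1 < ϑ := by rw [hϑ]; linarith [rate_pos L]
  have hϑ2 : 2 ≤ ϑ ^ (2 ^ L) := by
    have := one_add_mul_le_pow (a := (1 : ℝ) / 2 ^ L) (by linarith [rate_pos L]) (2 ^ L)
    rw [← hϑ] at this
    refine le_trans (le_of_eq ?_) this
    push_cast
    field_simp
    norm_num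
  obtain ⟨B, _, hB⟩ := Finset.exists_min_image (Finset.univ : Finset (Finset ι))
    (fun Z => (2 : ℝ) ^ rk F a Z * gI F a x Z * TT F a (L + 1) x Z * ϑ ^ (nl F a Z).card)
    Finset.univ_nonempty
  have hg : ∀ Z, 1 ≤ gI F a x Z := fun Z => one_le_gI a hx0 Z
  have hT : ∀ Z, 1 ≤ TT F a (L + 1) x Z := fun Z => one_le_TT a _ hx0 Z
  have hcard : ∀ Z, sp F a B ≤ sp F a Z →
      (nl F a B).card = (gs F a B Z).card + (nl F a Z).card := by
    intro Z h
    refine (Finset.card_sdiff_add_card_eq_card ?_).symm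
    intro e he
    exact (mem_nl a).mpr (fun hm => (mem_nl a).mp he (h hm))
  have key : ∀ Z, sp F a B ≤ sp F a Z →
      2 ^ rk F a B * gI F a x B * TT F a (L + 1) x B * ϑ ^ (gs F a B Z).card ≤
        2 ^ rk F a Z * gI F a x Z * TT F a (L + 1) x Z := by
    intro Z h
    have h1 := hB Z (Finset.mem_univ _)
    rw [hcard Z h, pow_add, ← mul_assoc] at h1
    exact le_of_mul_le_mul_right h1 (by positivity)
  have m1 : ∀ Z, sp F a B ≤ sp F a Z →
      2 ^ rk F a B * TT F a (L + 1) x B ≤ 2 ^ rk F a Z * TT F a (L + 1) x Z := by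
    intro Z h
    have h1 := key Z h
    have h2 := gI_anti a hx0 h
    have h3 : 1 ≤ ϑ ^ (gs F a B Z).card := one_le_pow₀ hϑ1.le
    have h4 := hg B
    have h5 := hT B
    have h6 := hT Z
    apply le_of_mul_le_mul_left _ (show 0 < gI F a x B by linarith)
    calc _ = 2 ^ rk F a B * gI F a x B * TT F a (L + 1) x B * 1 := by ring
      _ ≤ _ := mul_le_mul_of_nonneg_left h3 (by positivity)
      _ ≤ _ := h1
      _ ≤ 2 ^ rk F a Z * gI F a x B * TT F a (L + 1) x Z := by gcongr
      _ = _ := by ring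
  have m2 : ∀ Z, sp F a B ≤ sp F a Z → 2 ^ rk F a B * gI F a x B ≤ 2 ^ rk F a Z * gI F a x Z := by
    intro Z h
    have h1 := key Z h
    have h2 := TT_anti a (L + 1) hx0 h
    have h3 : 1 ≤ ϑ ^ (gs F a B Z).card := one_le_pow₀ hϑ1.le
    have h4 := hg B
    have h5 := hT B
    have h6 := hg Z
    apply le_of_mul_le_mul_right _ (show 0 < TT F a (L + 1) x B by linarith)
    calc _ = 2 ^ rk F a B * gI F a x B * TT F a (L + 1) x B * 1 := by ring
      _ ≤ _ := mul_le_mul_of_nonneg_left h3 (by positivity)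
      _ ≤ _ := h1
      _ ≤ _ := by gcongr
  have m3 : ∀ D, (gs F a B (B ∪ D)).card ≤ 2 ^ L * D.card := by
    intro D
    have h : sp F a B ≤ sp F a (B ∪ D) := sp_mono a Finset.subset_union_left
    have h1 := key _ h
    have h2 := TT_anti a (L + 1) hx0 h
    have h3 := gI_anti a hx0 h
    have h4 := hg B
    have h5 := hT B
    have h6 := hg (B ∪ D)
    have h7 := hT (B ∪ D)
    have h8 : (2 : ℝ) ^ rk F a (B ∪ D) ≤ 2 ^ rk F a B * 2 ^ D.card := by
      rw [← pow_add]
      exact pow_le_pow_right₀ (by norm_num) (rk_union_le a B D)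
    have h9 : ϑ ^ (gs F a B (B ∪ D)).card ≤ 2 ^ D.card := by
      apply le_of_mul_le_mul_left _
        (show 0 < 2 ^ rk F a B * gI F a x B * TT F a (L + 1) x B by positivity)
      calc _ ≤ _ := h1
        _ ≤ 2 ^ rk F a B * 2 ^ D.card * gI F a x B * TT F a (L + 1) x B := by gcongr
        _ = _ := by ring
    have h10 : (2 : ℝ) ^ D.card ≤ ϑ ^ (2 ^ L * D.card) := by
      rw [pow_mul]
      exact pow_le_pow_left₀ (by norm_num) hϑ2 _
    exact (pow_le_pow_iff_right₀ hϑ1).mp (h9.trans h10)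
  have hne : ∃ j, j ∈ gr a B := by
    by_contra hno
    push Not at hno
    have hle : sp F a Finset.univ ≤ sp F a B := by
      apply sp_le
      intro u _
      by_contra hu
      exact hno u (by simpa [gr] using hu)
    have e0 : rk F a ∅ = 0 := by
      have := rk_le_card (F := F) a ∅
      simpa using this
    obtain ⟨r, hr⟩ : ∃ r : ℕ, r = rk F a Finset.univ := ⟨_, rfl⟩
    obtain ⟨m, hm⟩ : ∃ m : ℕ, m = Fintype.card ι := ⟨_, rfl⟩
    have hmr : (m : ℝ) ≤ k * r := by rw [hm, hr]; exact_mod_cast hk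
    have hr1 : (1 : ℝ) ≤ r := by rw [hr]; exact_mod_cast hr0
    have p1 := hB ∅ (Finset.mem_univ _)
    rw [e0, pow_zero, one_mul] at p1
    have p2 : (2 : ℝ) ^ r ≤
        2 ^ rk F a B * gI F a x B * TT F a (L + 1) x B * ϑ ^ (nl F a B).card := by
      have h1 : (2 : ℝ) ^ r ≤ 2 ^ rk F a B :=
        pow_le_pow_right₀ (by norm_num) (by rw [hr]; exact rk_mono a hle)
      have h2 : 1 ≤ ϑ ^ (nl F a B).card := one_le_pow₀ hϑ1.le
      have h4 := hg B
      have h5 := hT B
      calc _ = (2 : ℝ) ^ r * 1 * 1 * 1 := by ring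
        _ ≤ _ := by gcongr
    have hx1 : (1 + x) ^ m ≤ Real.exp (m * x) := by
      rw [Real.exp_nat_mul]
      exact pow_le_pow_left₀ (by linarith) (by linarith [Real.add_one_le_exp x]) m
    have p3 : gI F a x ∅ ≤ Real.exp (m * x) := (gI_le a hx0 ∅).trans (by rw [← hm]; exact hx1)
    have p4 : TT F a (L + 1) x ∅ ≤ Real.exp (((L + 1 : ℕ) : ℝ) * (m * x)) := by
      refine (TT_le a _ hx0 ∅).trans ?_
      rw [← hm, Real.exp_nat_mul]
      exact pow_le_pow_left₀ (by positivity) hx1 _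
    have p5 : ϑ ^ (nl F a ∅).card ≤ Real.exp (m * (1 / 2 ^ L)) := by
      refine (pow_le_pow_right₀ hϑ1.le (Finset.card_le_univ _)).trans ?_
      rw [← hm, Real.exp_nat_mul]
      exact pow_le_pow_left₀ (by linarith)
        (by rw [hϑ]; linarith [Real.add_one_le_exp ((1 : ℝ) / 2 ^ L)]) m
    have p6 : gI F a x ∅ * TT F a (L + 1) x ∅ * ϑ ^ (nl F a ∅).card ≤
        Real.exp (m * x + ((L + 1 : ℕ) : ℝ) * (m * x) + m * (1 / 2 ^ L)) := by
      rw [Real.exp_add, Real.exp_add]
      have := hT ∅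
      have := hg ∅
      gcongr
    have p7 : (k : ℝ) * (L + 2) * x ≤ 2 / 5 := by
      rw [hx, ← mul_div_assoc, div_le_iff₀ (by linarith)]
      linarith
    have p8 : (k : ℝ) * (1 / 2 ^ L) ≤ 1 / 4 := by
      rw [mul_one_div, div_le_iff₀ (by positivity)]
      linarith
    have p9 : m * x + ((L + 1 : ℕ) : ℝ) * (m * x) + m * (1 / 2 ^ L) < r * Real.log 2 := by
      have h1 : (m : ℝ) * ((L + 2) * x) ≤ k * r * ((L + 2) * x) :=
        mul_le_mul_of_nonneg_right hmr (by positivity)
      have h2 : (m : ℝ) * (1 / 2 ^ L) ≤ k * r * (1 / 2 ^ L) :=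
        mul_le_mul_of_nonneg_right hmr (rate_pos L).le
      have h3 := mul_le_mul_of_nonneg_left p7 (show (0 : ℝ) ≤ r by linarith)
      have h4 := mul_le_mul_of_nonneg_left p8 (show (0 : ℝ) ≤ r by linarith)
      have h5 := Real.log_two_gt_d9
      push_cast
      nlinarith
    have p10 := Real.exp_lt_exp.mpr p9
    rw [Real.exp_nat_mul, Real.exp_log (by norm_num)] at p10
    linarith
  obtain ⟨j, hj⟩ := hne
  obtain ⟨x0, hx0'⟩ := hirr j
  have he5 := exp_five_lt
  have he0 := Real.exp_pos 5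
  apply fibre_free a c B x0 (by rw [← hq]; linarith)
  · intro E
    refine le_trans (Finset.sum_le_sum (fun D _ => ?_)) (sum_IAtt_le' a hx0 m2 E)
    rw [← hq]
    apply pow_le_pow_left₀ (mul_nonneg (by norm_num) (div_nonneg (by norm_num) (by linarith)))
    rw [hx, ← mul_div_assoc, div_div, div_le_div_iff₀ (by linarith) (by linarith)]
    linarith
  · intro Y hY
    refine le_trans (mul_le_mul_of_nonneg_left (Finset.sum_le_sum (fun D _ => ?_))
      (by positivity)) (sum_DD_le a hx0 hY L m1 m3)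
    rw [← hq]
    apply pow_le_pow_left₀ (mul_nonneg (by norm_num) (div_nonneg (by norm_num) (by linarith)))
    rw [hx, ← mul_div_assoc, div_div, div_le_div_iff₀ (by linarith) (by positivity)]
    nlinarith
  · intro y hy
    obtain ⟨i, hi⟩ := hcov y
    refine ⟨i, ?_, hi⟩
    by_contra hig
    have hm' : a i ∈ sp F a (B ∪ ∅) := by
      by_contra h
      exact hig (by simpa [gr] using h)
    have e := hs_const a c B x0 hy (x0_mem a c B x0) hm'
    exact hx0' i (fun e' => hig (e' ▸ hj)) (e ▸ hi)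

theorem irredundant_log {ι : Type*} [Fintype ι] (a : ι → Fin n → F) (c : ι → F)
    (hcov : ∀ x, ∃ i, a i ⬝ᵥ x = c i) (hirr : ∀ j, ∃ x, ∀ i, i ≠ j → a i ⬝ᵥ x ≠ c i) (k : ℕ)
    (hr0 : 0 < Module.finrank F (Submodule.span F (Set.range a)))
    (hk : Fintype.card ι ≤ k * Module.finrank F (Submodule.span F (Set.range a))) :
    Fintype.card F < 18000 * k * (Nat.log 2 k + 5) := by
  classical
  let _ : LinearOrder ι := LinearOrder.lift' (Fintype.equivFin ι) (Fintype.equivFin ι).injective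
  have e : sp F a Finset.univ = Submodule.span F (Set.range a) := by
    simp [sp]
  apply core_log a c hcov hirr k
  · unfold rk
    rwa [e]
  · unfold rk
    rwa [e]

/-- Irredundant covers by affine hyperplanes have almost `q` members per dimension. -/
theorem irredundant_size {ι : Type*} [Fintype ι] (a : ι → Fin n → F) (c : ι → F)
    (hcov : ∀ x, ∃ i, a i ⬝ᵥ x = c i) (hirr : ∀ j, ∃ x, ∀ i, i ≠ j → a i ⬝ᵥ x ≠ c i) :
    Fintype.card F * Module.finrank F (Submodule.span F (Set.range a)) ≤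
      36000 * (Nat.log 2 (Fintype.card F) + 5) * Fintype.card ι := by
  set r := Module.finrank F (Submodule.span F (Set.range a)) with hr
  rcases Nat.eq_zero_or_pos r with h0 | h0
  · rw [h0]
    simp
  have hrm : r ≤ Fintype.card ι := finrank_range_le_card a
  set k := Fintype.card ι / r + 1 with hk
  have h1 : Fintype.card ι ≤ k * r := by
    rw [hk, mul_comm]
    exact (Nat.lt_mul_div_succ _ h0).le
  have h2 : k * r ≤ 2 * Fintype.card ι := by
    have := Nat.div_mul_le_self (Fintype.card ι) r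
    rw [hk, add_mul]
    omega
  have h3 := irredundant_log a c hcov hirr k h0 h1
  by_cases h4 : k ≤ Fintype.card F
  · have h5 := Nat.log_mono_right (b := 2) h4
    calc _ ≤ 18000 * k * (Nat.log 2 (Fintype.card F) + 5) * r :=
          Nat.mul_le_mul_right _ (h3.le.trans (Nat.mul_le_mul_left _ (by omega)))
      _ = 18000 * (Nat.log 2 (Fintype.card F) + 5) * (k * r) := by ring
      _ ≤ 18000 * (Nat.log 2 (Fintype.card F) + 5) * (2 * Fintype.card ι) :=
          Nat.mul_le_mul_left _ h2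
      _ = _ := by ring
  · calc _ ≤ k * r := Nat.mul_le_mul_right _ (not_le.mp h4).le
      _ ≤ 2 * Fintype.card ι := h2
      _ ≤ _ := Nat.mul_le_mul_right _ (by omega)

theorem matrices_log {k : ℕ} (M : Fin k → Matrix (Fin n) (Fin n) F) (c : Fin k → Fin n → F)
    (hq : 18000 * k * (Nat.log 2 k + 5) ≤ Fintype.card F) (hM : ∀ i, IsUnit (M i).det) :
    ∃ x : Fin n → F, ∀ i j, (M i).mulVec x j ≠ c i j := by
  classical
  by_contra hno
  push Not at hno
  have hne : ((Finset.univ : Finset (Finset (Fin k × Fin n))).filter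
      (fun T => ∀ x : Fin n → F, ∃ p ∈ T, M p.1 p.2 ⬝ᵥ x = c p.1 p.2)).Nonempty := by
    refine ⟨Finset.univ, Finset.mem_filter.mpr ⟨Finset.mem_univ _, fun x => ?_⟩⟩
    obtain ⟨i, j, h⟩ := hno x
    exact ⟨(i, j), Finset.mem_univ _, h⟩
  obtain ⟨T, hT, hmin⟩ := Finset.exists_min_image _ Finset.card hne
  have hT' := (Finset.mem_filter.mp hT).2
  have h1 := irredundant_log (ι := T) (fun p => M p.1.1 p.1.2) (fun p => c p.1.1 p.1.2)
    (fun x => by
      obtain ⟨p, hp, h⟩ := hT' x
      exact ⟨⟨p, hp⟩, h⟩)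
    (fun j => by
      by_contra h
      push Not at h
      have := hmin (T.erase j.1) (Finset.mem_filter.mpr ⟨Finset.mem_univ _, fun x => by
        obtain ⟨i, hi1, hi2⟩ := h x
        exact ⟨i.1, Finset.mem_erase.mpr ⟨fun e => hi1 (Subtype.ext e), i.2⟩, hi2⟩⟩)
      have := Finset.card_erase_lt_of_mem j.2
      omega) k
  set r := Module.finrank F (Submodule.span F (Set.range (fun p : T => M p.1.1 p.1.2))) with hr
  have h2 : ∀ i : Fin k, (T.filter (fun p => p.1 = i)).card ≤ r := by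
    intro i
    have hli : LinearIndependent F (M i).row :=
      Matrix.linearIndependent_rows_iff_isUnit.mpr ((Matrix.isUnit_iff_isUnit_det _).mpr (hM i))
    have hli2 : LinearIndependent F
        (fun p : (T.filter (fun p => p.1 = i)) => (M i).row p.1.2) := by
      apply hli.comp (fun p : (T.filter (fun p => p.1 = i)) => p.1.2)
      intro p p' e
      apply Subtype.ext
      apply Prod.ext
      · rw [(Finset.mem_filter.mp p.2).2, (Finset.mem_filter.mp p'.2).2]
      · exact e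
    have h3 := finrank_span_eq_card hli2
    rw [Fintype.card_coe] at h3
    rw [← h3]
    apply Submodule.finrank_mono
    apply Submodule.span_mono
    rintro _ ⟨p, rfl⟩
    refine ⟨⟨p.1, (Finset.mem_filter.mp p.2).1⟩, ?_⟩
    simp only
    rw [(Finset.mem_filter.mp p.2).2]
    rfl
  have h3 : T.card ≤ k * r := by
    rw [Finset.card_eq_sum_card_fiberwise (f := fun p : Fin k × Fin n => p.1) (t := Finset.univ)
      (fun x _ => Finset.mem_coe.mpr (Finset.mem_univ _))]
    calc _ ≤ ∑ _i : Fin k, r := Finset.sum_le_sum (fun i _ => h2 i)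
      _ = _ := by simp
  have h4 : 0 < T.card := by
    obtain ⟨p, hp, _⟩ := hT' 0
    exact Finset.card_pos.mpr ⟨p, hp⟩
  have h5 : 0 < r := by
    rcases Nat.eq_zero_or_pos r with h | h
    · rw [h] at h3
      omega
    · exact h
  have h6 := h1 h5 (by rw [Fintype.card_coe]; exact h3)
  omega

theorem matrices_sets_log {k s : ℕ} (M : Fin k → Matrix (Fin n) (Fin n) F)
    (S : Fin k → Fin n → Finset F) (hS : ∀ i j, (S i j).card ≤ s)
    (hq : 18000 * (k * s) * (Nat.log 2 (k * s) + 5) ≤ Fintype.card F)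
    (hM : ∀ i, IsUnit (M i).det) :
    ∃ x : Fin n → F, ∀ i j, (M i).mulVec x j ∉ S i j := by
  classical
  have h1 : ∀ i j, ∃ f : Fin s → F, ∀ y ∈ S i j, ∃ l, f l = y := by
    intro i j
    have hc : Fintype.card (S i j) ≤ Fintype.card (Fin s) := by
      rw [Fintype.card_coe, Fintype.card_fin]
      exact hS i j
    obtain ⟨g⟩ := Function.Embedding.nonempty_of_card_le hc
    refine ⟨fun l => if h : ∃ y, g y = l then (h.choose : F) else 0, fun y hy => ⟨g ⟨y, hy⟩, ?_⟩⟩
    have h : ∃ y', g y' = g ⟨y, hy⟩ := ⟨_, rfl⟩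
    simp only [dif_pos h]
    rw [g.injective h.choose_spec]
  choose f hf using h1
  obtain ⟨x, hx⟩ := matrices_log (k := k * s) (fun p => M (finProdFinEquiv.symm p).1)
    (fun p j => f (finProdFinEquiv.symm p).1 j (finProdFinEquiv.symm p).2) hq (fun p => hM _)
  refine ⟨x, fun i j hm => ?_⟩
  obtain ⟨l, hl⟩ := hf i j _ hm
  apply hx (finProdFinEquiv (i, l)) j
  simp only [Equiv.symm_apply_apply]
  exact hl.symm

end Core

end Pool.Agent.P.MP_17c400_co
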