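import Pool.Agent.P.MP_17c400_co.LogGame
import Pool.Agent.P.MP_17c400_co.Mob

set_option autoImplicit false

namespace Pool.Agent.P.MP_17c400_co

open Finset Pool.Agent.P17c400

section Sum

variable {F : Type*} [Field F] {V : Type*} [AddCommGroup V] [Module F V]
variable {ι : Type*} [DecidableEq ι] [Fintype ι] (a : ι → V)

theorem prod_gw_ge {B Y D : Finset ι} (hB : sp F a B ≤ sp F a Y) (hD : DD F a B Y D) (L : ℕ)
    (hden : (gs F a B (B ∪ D)).card ≤ 2 ^ L * D.card) :
    (1 / (3 * Real.exp 5)) ^ D.card ≤ ∏ d ∈ D, gw (L + 1) (tr F a D B (nl F a B) d).1.card := by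
  have hW : ∀ e ∈ nl F a B, a e ∉ sp F a B := fun e he => (mem_nl a).mp he
  have c1 : ∑ d ∈ D, (tr F a D B (nl F a B) d).1.card ≤ 2 ^ L * D.card := by
    rw [← Finset.card_biUnion (fun u hu v hv huv =>
      tr_disj a hW hD.1 (ind_weaken a hB hD.2.1) hu hv huv)]
    refine (Finset.card_le_card ?_).trans hden
    intro e he
    obtain ⟨u, hu, he⟩ := Finset.mem_biUnion.mp he
    obtain ⟨_, p2, p3, _, _⟩ := tr_one a D u (nl F a B) B hW (hD.1 hu)
    refine (mem_gs a).mpr ⟨hW e ((tr_sub a D u _ B).1 he), sp_mono a ?_ (p2 e he)⟩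
    exact Finset.insert_subset (Finset.mem_union_right _ hu)
      (p3.trans (Finset.union_subset_union_right (Finset.erase_subset u D)))
  have c2 : ∑ d ∈ D, (-(((tr F a D B (nl F a B) d).1.card : ℝ) / 2 ^ L)) ≥ D.card * (-1) := by
    have c3 : ((∑ d ∈ D, (tr F a D B (nl F a B) d).1.card : ℕ) : ℝ) ≤ 2 ^ L * D.card := by
      exact_mod_cast c1
    rw [Finset.sum_neg_distrib, ← Finset.sum_div, ← Nat.cast_sum]
    have : ((∑ d ∈ D, (tr F a D B (nl F a B) d).1.card : ℕ) : ℝ) / 2 ^ L ≤ D.card := by
      rw [div_le_iff₀ (by positivity)]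
      linarith
    linarith
  refine le_trans ?_ (Finset.prod_le_prod (fun d _ => by positivity) (fun d hd => gw_ge L _
    (Finset.card_pos.mpr ⟨d, self_mem_tr a D hW (hD.1 hd)⟩)))
  rw [Finset.prod_mul_distrib, Finset.prod_const, ← Real.exp_sum]
  have e : (1 / (3 * Real.exp 5)) = 1 / 3 * Real.exp (-4) * Real.exp (-1) := by
    rw [mul_assoc, ← Real.exp_add, show (-4 + -1 : ℝ) = -5 by norm_num, Real.exp_neg]
    field_simp
  rw [e, mul_pow, ← Real.exp_nat_mul]
  exact mul_le_mul_of_nonneg_left (Real.exp_le_exp.mpr c2) (by positivity)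

open Classical in
/-- Count of the covered independent sets at a minimiser of the potential. -/
theorem sum_DD_le {x : ℝ} (hx : 0 ≤ x) {B Y : Finset ι} (hB : sp F a B ≤ sp F a Y) (L : ℕ)
    (hmin : ∀ Z, sp F a B ≤ sp F a Z →
      2 ^ rk F a B * TT F a (L + 1) x B ≤ 2 ^ rk F a Z * TT F a (L + 1) x Z)
    (hden : ∀ D, (gs F a B (B ∪ D)).card ≤ 2 ^ L * D.card) :
    2 ^ rk F a B * ∑ D ∈ (Finset.univ : Finset (Finset ι)).filter (fun D => DD F a B Y D),
      (x / (6 * Real.exp 5)) ^ D.card ≤ 2 ^ rk F a Y := by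
  have hT : 0 < TT F a (L + 1) x B := lt_of_lt_of_le one_pos (one_le_TT a _ hx B)
  have hT0 : ∀ Z, 0 ≤ TT F a (L + 1) x Z := fun Z => zero_le_one.trans (one_le_TT a _ hx Z)
  set w : Finset ι → (Fin (L + 1) → Finset ι) → (Fin (L + 1) → Finset ι) → ℝ := fun D K X =>
    if okD D (L + 1) ∅ X then AP F a x B (L + 1) Y K *
      (∏ s, om F a D B (nl F a B) (Ycum (L + 1) Y K s) (K s) (X s)
        (sp F a (Ycum (L + 1) Y K s ∪ K s))) * TT F a (L + 1) x (Yend (L + 1) Y K) else 0 with hw
  have s1 : ∀ D ∈ (Finset.univ : Finset (Finset ι)).filter (fun D => DD F a B Y D),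
      2 ^ rk F a B * TT F a (L + 1) x B / 2 ^ rk F a Y * (x / (6 * Real.exp 5)) ^ D.card ≤
        ∑ K, ∑ X, w D K X := by
    intro D hD
    have hD' := (Finset.mem_filter.mp hD).2
    have i := win a hx hB hD' (TT F a (L + 1) x)
      (h0 := 2 ^ rk F a B * TT F a (L + 1) x B / 2 ^ (rk F a Y + D.card)) (by positivity)
      (fun Z hZ => by
        have h1 := hmin Z (by rw [hZ]; exact hB.trans (sp_mono a Finset.subset_union_left))
        have h2 : (2 : ℝ) ^ rk F a Z ≤ 2 ^ (rk F a Y + D.card) := by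
          apply pow_le_pow_right₀ (by norm_num)
          rw [rk_congr a hZ]
          exact rk_union_le a Y D
        rw [div_le_iff₀ (by positivity)]
        have h3 := mul_le_mul_of_nonneg_right h2 (hT0 Z)
        linarith) (L + 1) ∅ Y (Finset.empty_subset D) (by rw [Finset.union_empty])
    rw [Finset.sdiff_empty] at i
    refine le_trans ?_ i
    have h4 := mul_le_mul_of_nonneg_left (mul_le_mul_of_nonneg_left
      (prod_gw_ge a hB hD' L (hden D)) (pow_nonneg hx D.card))
      (show (0 : ℝ) ≤ 2 ^ rk F a B * TT F a (L + 1) x B / 2 ^ (rk F a Y + D.card) by positivity)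
    refine le_trans (le_of_eq ?_) h4
    have e : x / (6 * Real.exp 5) = x * (1 / (3 * Real.exp 5)) / 2 := by
      field_simp
      ring
    rw [e, div_pow, mul_pow, pow_add]
    field_simp
  have s2 : ∀ K X : Fin (L + 1) → Finset ι,
      ∑ D ∈ (Finset.univ : Finset (Finset ι)).filter (fun D => DD F a B Y D), w D K X ≤
      AP F a x B (L + 1) Y K * jw F a B (nl F a B) (Ycum (L + 1) Y K) K
        (fun s => sp F a (Ycum (L + 1) Y K s ∪ K s)) X * TT F a (L + 1) x (Yend (L + 1) Y K) := by
    intro K X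
    have hnn : 0 ≤ AP F a x B (L + 1) Y K * jw F a B (nl F a B) (Ycum (L + 1) Y K) K
        (fun s => sp F a (Ycum (L + 1) Y K s ∪ K s)) X * TT F a (L + 1) x (Yend (L + 1) Y K) :=
      mul_nonneg (mul_nonneg (AP_nonneg a hx B _ _ _) (jw_nonneg a _ _ _ _ _ _)) (hT0 _)
    refine le_trans (Finset.sum_le_sum (g := fun D => if D = Finset.univ.biUnion X then
      AP F a x B (L + 1) Y K * jw F a B (nl F a B) (Ycum (L + 1) Y K) K
        (fun s => sp F a (Ycum (L + 1) Y K s ∪ K s)) X * TT F a (L + 1) x (Yend (L + 1) Y K)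
        else 0) ?_) ?_
    · intro D hD
      simp only [hw]
      by_cases hok : okD D (L + 1) ∅ X
      · obtain ⟨p1, _, p3⟩ := okD_spec D _ _ _ hok
        rw [Finset.empty_union] at p1
        have hg : good F a B X :=
          ⟨by rw [p1]; exact ind_weaken a hB (Finset.mem_filter.mp hD).2.2.1, p3⟩
        rw [if_pos hok, if_pos p1.symm]
        unfold jw
        rw [if_pos hg, p1]
      · rw [if_neg hok]
        split_ifs
        · exact hnn
        · exact le_rfl
    · rw [Finset.sum_ite_eq']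
      split_ifs
      · exact le_rfl
      · exact hnn
  have s3 := Finset.sum_le_sum s1
  rw [← Finset.mul_sum, Finset.sum_comm] at s3
  have s4 := s3.trans ((Finset.sum_le_sum (fun K _ => (le_of_eq Finset.sum_comm).trans
    (Finset.sum_le_sum (fun X _ => s2 K X)))).trans (chain_jw_le a hx B (L + 1) Y hB))
  rw [div_mul_eq_mul_div, div_le_iff₀ (by positivity)] at s4
  apply le_of_mul_le_mul_left _ hT
  linarith

theorem gI_anti {t : ℝ} (ht : 0 ≤ t) {B Z : Finset ι} (h : sp F a B ≤ sp F a Z) :
    gI F a t Z ≤ gI F a t B := by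
  classical
  unfold gI
  apply Finset.sum_le_sum_of_subset_of_nonneg
  · intro I hI
    exact Finset.mem_filter.mpr ⟨Finset.mem_univ _, ind_weaken a h (Finset.mem_filter.mp hI).2⟩
  · intro I _ _
    exact pow_nonneg ht _

open Classical in
theorem sum_IAtt_le' {t : ℝ} (ht : 0 ≤ t) {B : Finset ι}
    (hmin : ∀ Z, sp F a B ≤ sp F a Z → 2 ^ rk F a B * gI F a t B ≤ 2 ^ rk F a Z * gI F a t Z)
    (E : Finset ι) :
    ∑ D ∈ (Finset.univ : Finset (Finset ι)).filter (fun D => IAtt F a B E D),
      (t / 2) ^ D.card ≤ 2 ^ E.card := by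
  have hg : 0 < gI F a t B := lt_of_lt_of_le one_pos (one_le_gI a ht B)
  have h1 : ∀ D : Finset ι, gI F a t B ≤ 2 ^ E.card * 2 ^ D.card * gI F a t (B ∪ E ∪ D) := by
    intro D
    have h := hmin (B ∪ E ∪ D)
      (sp_mono a (Finset.subset_union_left.trans Finset.subset_union_left))
    have hr : rk F a (B ∪ E ∪ D) ≤ rk F a B + (E.card + D.card) := by
      have := rk_union_le (F := F) a (B ∪ E) D
      have := rk_union_le (F := F) a B E
      omega
    have h2 : (2 : ℝ) ^ rk F a (B ∪ E ∪ D) ≤ 2 ^ rk F a B * (2 ^ E.card * 2 ^ D.card) := by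
      rw [← pow_add, ← pow_add]
      exact pow_le_pow_right₀ (by norm_num) hr
    have hg' : 0 ≤ gI F a t (B ∪ E ∪ D) := le_trans zero_le_one (one_le_gI a ht _)
    have h3 := h.trans (mul_le_mul_of_nonneg_right h2 hg')
    rw [mul_assoc] at h3
    exact le_of_mul_le_mul_left h3 (by positivity)
  have h2 : ∑ D ∈ (Finset.univ : Finset (Finset ι)).filter (fun D => IAtt F a B E D),
      t ^ D.card * gI F a t (B ∪ E ∪ D) ≤ gI F a t B := by
    unfold gI
    simp_rw [Finset.mul_sum]
    rw [Finset.sum_sigma']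
    apply sum_le_of_inj _ _ (fun p => p.1 ∪ p.2)
    · intro p hp
      simp only [Finset.mem_sigma, Finset.mem_filter, Finset.mem_univ, true_and] at hp ⊢
      exact ind_union a hp.1.1 hp.2
    · rintro ⟨D, I⟩ hp ⟨D', I'⟩ hp' he
      simp only [Finset.mem_sigma, Finset.mem_filter, Finset.mem_univ, true_and] at hp hp' he
      have e1 : D = D' := by
        ext u
        rw [recover a hp.1 hp.2 u, recover a hp'.1 hp'.2 u, he]
      subst e1
      have d1 : Disjoint D I := (Ind.disjoint a hp.2).mono_left Finset.subset_union_right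
      have d2 : Disjoint D I' := (Ind.disjoint a hp'.2).mono_left Finset.subset_union_right
      have e2 : I = I' := by
        rw [← Finset.union_sdiff_cancel_left d1, he, Finset.union_sdiff_cancel_left d2]
      subst e2
      rfl
    · intro p hp
      simp only [Finset.mem_sigma, Finset.mem_filter, Finset.mem_univ, true_and] at hp
      have d1 : Disjoint p.1 p.2 := (Ind.disjoint a hp.2).mono_left Finset.subset_union_right
      rw [Finset.card_union_of_disjoint d1, pow_add]
    · intro I _
      exact pow_nonneg ht _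
  apply le_of_mul_le_mul_right _ hg
  rw [Finset.sum_mul]
  refine le_trans ?_ (mul_le_mul_of_nonneg_left h2 (by positivity))
  rw [Finset.mul_sum]
  apply Finset.sum_le_sum
  intro D _
  refine (mul_le_mul_of_nonneg_left (h1 D) (by positivity)).trans (le_of_eq ?_)
  rw [div_pow]
  field_simp

end Sum

section Mob

variable {ι : Type*} [DecidableEq ι]

theorem mob_union_zero (Z X : Finset ι) : ∀ g : Finset ι → ℝ, Disjoint X Z →
    (∀ J ⊆ X, mob (fun T => g (J ∪ T)) Z = 0) → mob g (X ∪ Z) = 0 := by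
  induction X using Finset.induction_on with
  | empty =>
    intro g _ h
    simpa using h ∅ (subset_refl _)
  | insert u X hu ih =>
    intro g hd h
    rw [Finset.disjoint_insert_left] at hd
    rw [Finset.insert_union, mob_insert g (by simp [hu, hd.1]),
      ih g hd.2 (fun J hJ => h J (hJ.trans (Finset.subset_insert u X))),
      ih (fun T => g (insert u T)) hd.2 (fun J hJ => by
        simpa only [Finset.insert_union] using h (insert u J) (Finset.insert_subset_insert u hJ)),
      sub_self]

theorem mob_sum (h : Finset ι → ℝ) (D : Finset ι) :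
    mob (fun J => ∑ X ∈ J.powerset, h X) D = h D := by
  induction D using Finset.strongInduction with
  | H D ih =>
    have e := sum_mob D (fun J => ∑ X ∈ J.powerset, h X)
    rw [← Finset.add_sum_erase _ _ (Finset.mem_powerset_self D),
      ← Finset.add_sum_erase _ h (Finset.mem_powerset_self D),
      Finset.sum_congr rfl (fun X hX => ih X (lt_of_le_of_ne
        (Finset.mem_powerset.mp (Finset.mem_of_mem_erase hX)) (Finset.mem_erase.mp hX).1))] at e
    exact add_right_cancel e

end Mob

end Pool.Agent.P.MP_17c400_co
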