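import Pool.Agent.P.MP_17c400_co.LogBeta

set_option autoImplicit false

namespace Pool.Agent.P.MP_17c400_co

open Finset Pool.Agent.P17c400

section Tr

variable {F : Type*} [Field F] {V : Type*} [AddCommGroup V] [Module F V]
variable {ι : Type*} [DecidableEq ι] (a : ι → V)

open Classical in
variable (F) in
/-- Parallel class of `e` modulo `W` inside `Un`. -/
noncomputable def cl (W Un : Finset ι) (e : ι) : Finset ι :=
  Un.filter (fun f => a f ∈ sp F a (insert e W))

theorem mem_cl {W Un : Finset ι} {e f : ι} :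
    f ∈ cl F a W Un e ↔ f ∈ Un ∧ a f ∈ sp F a (insert e W) := by
  simp [cl]

variable (F) in
/-- A smallest parallel class. -/
noncomputable def c0 (W Un : Finset ι) : Finset ι :=
  if h : Un.Nonempty then
    cl F a W Un (Finset.exists_min_image Un (fun e => (cl F a W Un e).card) h).choose
  else ∅

theorem c0_spec (W : Finset ι) {Un : Finset ι} (h : Un.Nonempty) :
    ∃ e ∈ Un, c0 F a W Un = cl F a W Un e ∧
      ∀ f ∈ Un, (cl F a W Un e).card ≤ (cl F a W Un f).card := by
  have := (Finset.exists_min_image Un (fun e => (cl F a W Un e).card) h).choose_spec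
  exact ⟨_, this.1, by unfold c0; rw [dif_pos h], this.2⟩

theorem c0_ssub (W : Finset ι) {Un : Finset ι} (h : Un.Nonempty) : Un \ c0 F a W Un ⊂ Un := by
  obtain ⟨e, he, h1, _⟩ := c0_spec (F := F) a W h
  refine Finset.sdiff_ssubset ?_ ⟨e, ?_⟩
  · rw [h1]
    intro f hf
    exact ((mem_cl a).mp hf).1
  · rw [h1]
    exact (mem_cl a).mpr ⟨he, mem_sp_insert_self a e W⟩

variable (F) in
/-- The process: class, later elements and contracted set at the time `u` is treated. -/
noncomputable def tr (D W Un : Finset ι) (u : ι) : Finset ι × Finset ι × Finset ι :=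
  if h : Un.Nonempty then
    if u ∈ c0 F a W Un then (c0 F a W Un, Un \ c0 F a W Un, W)
    else tr D (W ∪ (D ∩ c0 F a W Un)) (Un \ c0 F a W Un) u
  else (∅, ∅, W)
termination_by Un.card
decreasing_by exact Finset.card_lt_card (c0_ssub a W h)

theorem tr_pos (D W : Finset ι) {Un : Finset ι} (h : Un.Nonempty) {u : ι}
    (hu : u ∈ c0 F a W Un) : tr F a D W Un u = (c0 F a W Un, Un \ c0 F a W Un, W) := by
  rw [tr, dif_pos h, if_pos hu]

theorem tr_neg (D W : Finset ι) {Un : Finset ι} (h : Un.Nonempty) {u : ι}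
    (hu : u ∉ c0 F a W Un) :
    tr F a D W Un u = tr F a D (W ∪ (D ∩ c0 F a W Un)) (Un \ c0 F a W Un) u := by
  rw [tr, dif_pos h, if_neg hu]

theorem tr_empty (D W : Finset ι) (u : ι) : tr F a D W ∅ u = (∅, ∅, W) := by
  rw [tr, dif_neg (by simp)]

theorem c0_sub (W Un : Finset ι) : c0 F a W Un ⊆ Un := by
  rcases Un.eq_empty_or_nonempty with rfl | h
  · unfold c0
    rw [dif_neg (by simp)]
  · obtain ⟨e, _, h1, _⟩ := c0_spec (F := F) a W h
    rw [h1]
    intro f hf
    exact ((mem_cl a).mp hf).1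

theorem tr_sub (D : Finset ι) (u : ι) (Un : Finset ι) : ∀ W : Finset ι,
    (tr F a D W Un u).1 ⊆ Un ∧ (tr F a D W Un u).2.1 ⊆ Un ∧
      Disjoint (tr F a D W Un u).1 (tr F a D W Un u).2.1 := by
  induction Un using Finset.strongInduction with
  | H Un ih =>
    intro W
    rcases Un.eq_empty_or_nonempty with rfl | h
    · rw [tr_empty]; simp
    by_cases hu : u ∈ c0 F a W Un
    · rw [tr_pos a D W h hu]
      exact ⟨c0_sub a W Un, Finset.sdiff_subset, Finset.disjoint_sdiff⟩
    · rw [tr_neg a D W h hu]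
      obtain ⟨p1, p2, p3⟩ := ih _ (c0_ssub (F := F) a W h) (W ∪ (D ∩ c0 F a W Un))
      exact ⟨p1.trans Finset.sdiff_subset, p2.trans Finset.sdiff_subset, p3⟩

theorem tr_congr {D D' : Finset ι} (u : ι) (Un : Finset ι) : ∀ W : Finset ι,
    (∀ x ∈ Un, x ∈ D ↔ x ∈ D') → tr F a D W Un u = tr F a D' W Un u := by
  induction Un using Finset.strongInduction with
  | H Un ih =>
    intro W hD
    rcases Un.eq_empty_or_nonempty with rfl | h
    · rw [tr_empty, tr_empty]
    by_cases hu : u ∈ c0 F a W Un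
    · rw [tr_pos a D W h hu, tr_pos a D' W h hu]
    · rw [tr_neg a D W h hu, tr_neg a D' W h hu]
      have e : D ∩ c0 F a W Un = D' ∩ c0 F a W Un := by
        ext x
        simp only [Finset.mem_inter]
        constructor
        · rintro ⟨h1, h2⟩
          exact ⟨(hD x (c0_sub a W Un h2)).mp h1, h2⟩
        · rintro ⟨h1, h2⟩
          exact ⟨(hD x (c0_sub a W Un h2)).mpr h1, h2⟩
      rw [e]
      exact ih _ (c0_ssub a W h) _ (fun x hx => hD x (Finset.mem_sdiff.mp hx).1)

/-- Members of one class span the same line modulo `W`. -/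
theorem sp_cl {W : Finset ι} {e f : ι} (h1 : a f ∈ sp F a (insert e W)) (h2 : a f ∉ sp F a W) :
    sp F a (insert f W) = sp F a (insert e W) := by
  apply le_antisymm
  · rw [sp_insert a f]
    exact sup_le (sp_le_insert a e W) ((Submodule.span_singleton_le_iff_mem _ _).mpr h1)
  · rw [sp_insert a e]
    exact sup_le (sp_le_insert a f W) ((Submodule.span_singleton_le_iff_mem _ _).mpr
      (exch a h1 h2 (sp_le_insert a f W) (mem_sp_insert_self a f W)))

theorem c0_eq {W Un : Finset ι} (hW : ∀ e ∈ Un, a e ∉ sp F a W) {u : ι}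
    (hu : u ∈ c0 F a W Un) : c0 F a W Un = cl F a W Un u := by
  have huU := c0_sub a W Un hu
  obtain ⟨e, _, h1, _⟩ := c0_spec (F := F) a W ⟨u, huU⟩
  rw [h1] at hu ⊢
  unfold cl
  rw [sp_cl a ((mem_cl a).mp hu).2 (hW u huU)]

theorem c0_next {W Un : Finset ι} (D : Finset ι) :
    ∀ f ∈ Un \ c0 F a W Un, a f ∉ sp F a (W ∪ (D ∩ c0 F a W Un)) := by
  intro f hf hm
  obtain ⟨hf1, hf2⟩ := Finset.mem_sdiff.mp hf
  obtain ⟨e, _, h1, _⟩ := c0_spec (F := F) a W ⟨f, hf1⟩
  apply hf2
  rw [h1] at hm ⊢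
  refine (mem_cl a).mpr ⟨hf1, ?_⟩
  refine sp_le a ?_ hm
  intro v hv
  rcases Finset.mem_union.mp hv with h | h
  · exact mem_sp a (Finset.mem_insert_of_mem h)
  · exact ((mem_cl a).mp (Finset.mem_inter.mp h).2).2

theorem cl_sub_next {W Un : Finset ι} (hW : ∀ e ∈ Un, a e ∉ sp F a W) {u : ι} (huU : u ∈ Un)
    (hu : u ∉ c0 F a W Un) : cl F a W Un u ⊆ Un \ c0 F a W Un := by
  intro f hf
  obtain ⟨h1, h2⟩ := (mem_cl a).mp hf
  refine Finset.mem_sdiff.mpr ⟨h1, fun h3 => hu ?_⟩
  rw [c0_eq a hW h3]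
  refine (mem_cl a).mpr ⟨huU, ?_⟩
  rw [sp_cl a h2 (hW f h1)]
  exact mem_sp_insert_self a u W

theorem c0_card_le {W Un : Finset ι} {f : ι} (hf : f ∈ Un) :
    (c0 F a W Un).card ≤ (cl F a W Un f).card := by
  obtain ⟨e, _, h1, h2⟩ := c0_spec (F := F) a W ⟨f, hf⟩
  rw [h1]
  exact h2 f hf

/-- Properties of the data attached to one element. -/
theorem tr_one (D : Finset ι) (u : ι) (Un : Finset ι) : ∀ W : Finset ι,
    (∀ e ∈ Un, a e ∉ sp F a W) → u ∈ Un →
    cl F a W Un u ⊆ (tr F a D W Un u).1 ∧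
    (∀ f ∈ (tr F a D W Un u).1, a f ∈ sp F a (insert u (tr F a D W Un u).2.2)) ∧
    (tr F a D W Un u).2.2 ⊆ W ∪ D.erase u ∧
    (∀ f ∈ (tr F a D W Un u).2.1, a f ∉ sp F a (tr F a D W Un u).2.2) ∧
    ∀ e ∈ (tr F a D W Un u).2.1, (tr F a D W Un u).1.card ≤
      (cl F a (tr F a D W Un u).2.2 (tr F a D W Un u).2.1 e).card := by
  induction Un using Finset.strongInduction with
  | H Un ih =>
    intro W hW huU
    have h : Un.Nonempty := ⟨u, huU⟩
    by_cases hu : u ∈ c0 F a W Un
    · rw [tr_pos a D W h hu]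
      refine ⟨(c0_eq a hW hu).ge, ?_, Finset.subset_union_left,
        fun f hf => hW f (Finset.mem_sdiff.mp hf).1, ?_⟩
      · intro f hf
        simp only at hf ⊢
        rw [c0_eq a hW hu] at hf
        exact ((mem_cl a).mp hf).2
      · intro e he
        simp only at he ⊢
        obtain ⟨he1, he2⟩ := Finset.mem_sdiff.mp he
        refine (c0_card_le a he1).trans (Finset.card_le_card ?_)
        intro f hf
        exact (mem_cl a).mpr ⟨cl_sub_next a hW he1 he2 hf, ((mem_cl a).mp hf).2⟩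
    · rw [tr_neg a D W h hu]
      obtain ⟨p1, p2, p3, p4, p5⟩ := ih _ (c0_ssub a W h) (W ∪ (D ∩ c0 F a W Un))
        (c0_next a D) (Finset.mem_sdiff.mpr ⟨huU, hu⟩)
      refine ⟨?_, p2, p3.trans ?_, p4, p5⟩
      · refine subset_trans ?_ p1
        intro f hf
        refine (mem_cl a).mpr ⟨cl_sub_next a hW huU hu hf, ?_⟩
        exact sp_mono a (Finset.insert_subset_insert u Finset.subset_union_left)
          ((mem_cl a).mp hf).2
      · intro x hx
        simp only [Finset.mem_union, Finset.mem_inter, Finset.mem_erase] at hx ⊢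
        rcases hx with (h1 | h1) | h1
        · exact Or.inl h1
        · exact Or.inr ⟨fun e => hu (e ▸ h1.2), h1.1⟩
        · exact Or.inr h1

theorem self_mem_tr (D : Finset ι) {u : ι} {Un W : Finset ι} (hW : ∀ e ∈ Un, a e ∉ sp F a W)
    (hu : u ∈ Un) : u ∈ (tr F a D W Un u).1 :=
  (tr_one a D u Un W hW hu).1 ((mem_cl a).mpr ⟨hu, mem_sp_insert_self a u W⟩)

/-- Comparison of the data attached to two elements. -/
theorem tr_two (D : Finset ι) (u v : ι) (Un : Finset ι) : ∀ W : Finset ι,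
    (∀ e ∈ Un, a e ∉ sp F a W) → u ∈ Un → v ∈ Un →
    tr F a D W Un u = tr F a D W Un v ∨
    ((tr F a D W Un v).1 ⊆ (tr F a D W Un u).2.1 ∧
      (tr F a D W Un v).2.1 ⊆ (tr F a D W Un u).2.1 ∧
      (tr F a D W Un u).1.card ≤ (tr F a D W Un v).1.card) ∨
    ((tr F a D W Un u).1 ⊆ (tr F a D W Un v).2.1 ∧
      (tr F a D W Un u).2.1 ⊆ (tr F a D W Un v).2.1 ∧
      (tr F a D W Un v).1.card ≤ (tr F a D W Un u).1.card) := by
  induction Un using Finset.strongInduction with
  | H Un ih =>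
    intro W hW huU hvU
    have h : Un.Nonempty := ⟨u, huU⟩
    have key : ∀ x y : ι, y ∈ Un → x ∈ c0 F a W Un → y ∉ c0 F a W Un →
        (tr F a D W Un y).1 ⊆ (tr F a D W Un x).2.1 ∧
        (tr F a D W Un y).2.1 ⊆ (tr F a D W Un x).2.1 ∧
        (tr F a D W Un x).1.card ≤ (tr F a D W Un y).1.card := by
      intro x y hy hx hy'
      have q := (tr_one a D y Un W hW hy).1
      rw [tr_pos a D W h hx]
      refine ⟨?_, ?_, (c0_card_le a hy).trans (Finset.card_le_card q)⟩
      · rw [tr_neg a D W h hy']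
        exact (tr_sub a D y _ _).1
      · rw [tr_neg a D W h hy']
        exact (tr_sub a D y _ _).2.1
    by_cases hu : u ∈ c0 F a W Un
    · by_cases hv : v ∈ c0 F a W Un
      · left
        rw [tr_pos a D W h hu, tr_pos a D W h hv]
      · exact Or.inr (Or.inl (key u v hvU hu hv))
    · by_cases hv : v ∈ c0 F a W Un
      · exact Or.inr (Or.inr (key v u huU hv hu))
      · rw [tr_neg a D W h hu, tr_neg a D W h hv]
        exact ih _ (c0_ssub a W h) _ (c0_next a D) (Finset.mem_sdiff.mpr ⟨huU, hu⟩)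
          (Finset.mem_sdiff.mpr ⟨hvU, hv⟩)

theorem tr_disj {D Un W : Finset ι} (hW : ∀ e ∈ Un, a e ∉ sp F a W) (hD : D ⊆ Un)
    (hI : Ind F a W D) {u v : ι} (hu : u ∈ D) (hv : v ∈ D) (huv : u ≠ v) :
    Disjoint (tr F a D W Un u).1 (tr F a D W Un v).1 := by
  rcases tr_two a D u v Un W hW (hD hu) (hD hv) with h | h | h
  · exfalso
    obtain ⟨_, p2, _, _, _⟩ := tr_one a D u Un W hW (hD hu)
    obtain ⟨_, _, q3, _, _⟩ := tr_one a D v Un W hW (hD hv)
    have h1 := p2 v (by rw [h]; exact self_mem_tr a D hW (hD hv))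
    rw [h] at h1
    refine hI v hv (sp_mono a ?_ h1)
    intro x hx
    rcases Finset.mem_insert.mp hx with rfl | hx
    · exact Finset.mem_union_right _ (Finset.mem_erase.mpr ⟨huv, hu⟩)
    · exact q3 hx
  · exact (tr_sub a D u Un W).2.2.mono_right h.1
  · exact ((tr_sub a D v Un W).2.2.mono_right h.1).symm

theorem tr_later {D Un W : Finset ι} (hW : ∀ e ∈ Un, a e ∉ sp F a W) {u v : ι} (hu : u ∈ Un)
    (hv : v ∈ Un) (h : (tr F a D W Un v).1.card < (tr F a D W Un u).1.card) :
    (tr F a D W Un u).2.1 ⊆ (tr F a D W Un v).2.1 := by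
  rcases tr_two a D u v Un W hW hu hv with h1 | h1 | h1
  · rw [h1]
  · omega
  · exact h1.2.1

/-- An independent set meets the smallest class at most once. -/
theorem inter_c0 {D Un W : Finset ι} (hW : ∀ e ∈ Un, a e ∉ sp F a W) (hI : Ind F a W D) {u : ι}
    (hu : u ∈ D) (huc : u ∈ c0 F a W Un) : D ∩ c0 F a W Un = {u} := by
  ext v
  simp only [Finset.mem_inter, Finset.mem_singleton]
  constructor
  · rintro ⟨h1, h2⟩
    by_contra hne
    rw [c0_eq a hW huc] at h2
    refine hI v h1 (sp_mono a ?_ ((mem_cl a).mp h2).2)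
    intro x hx
    rcases Finset.mem_insert.mp hx with rfl | hx
    · exact Finset.mem_union_right _ (Finset.mem_erase.mpr ⟨fun e => hne e.symm, hu⟩)
    · exact Finset.mem_union_left _ hx
  · rintro rfl
    exact ⟨hu, huc⟩

theorem tr_shift0 {D Un W : Finset ι} (h : Un.Nonempty) (hd : Disjoint D (c0 F a W Un)) {v : ι}
    (hv : v ∉ c0 F a W Un) : tr F a D W Un v = tr F a D W (Un \ c0 F a W Un) v := by
  rw [tr_neg a D W h hv, Finset.disjoint_iff_inter_eq_empty.mp hd, Finset.union_empty]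

theorem tr_shift1 {D Un W : Finset ι} (h : Un.Nonempty) {u : ι}
    (hd : D ∩ c0 F a W Un = {u}) {v : ι} (hv : v ∉ c0 F a W Un) :
    tr F a D W Un v = tr F a (D.erase u) (insert u W) (Un \ c0 F a W Un) v := by
  have hu : u ∈ c0 F a W Un := by
    have : u ∈ D ∩ c0 F a W Un := by rw [hd]; exact Finset.mem_singleton_self u
    exact (Finset.mem_inter.mp this).2
  have e : W ∪ {u} = insert u W := by ext x; simp
  rw [tr_neg a D W h hv, hd, e]
  apply tr_congr
  intro x hx
  rw [Finset.mem_erase]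
  exact ⟨fun h1 => ⟨fun e1 => (Finset.mem_sdiff.mp hx).2 (e1 ▸ hu), h1⟩, fun h1 => h1.2⟩

end Tr

end Pool.Agent.P.MP_17c400_co
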