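import Pool.Agent.P.MP_17c400_co.Main

set_option autoImplicit false

namespace Pool.Agent.P17c400

open Finset

section Mob2

variable {ι : Type*} [DecidableEq ι]

omit [DecidableEq ι] in
theorem mob_congr {g g' : Finset ι → ℝ} {D : Finset ι} (h : ∀ X ⊆ D, g X = g' X) :
    mob g D = mob g' D := by
  unfold mob
  congr 1
  apply Finset.sum_congr rfl
  intro X hX
  rw [h X (Finset.mem_powerset.mp hX)]

omit [DecidableEq ι] in
theorem mob_add (g g' : Finset ι → ℝ) (D : Finset ι) :
    mob (fun X => g X + g' X) D = mob g D + mob g' D := by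
  unfold mob
  rw [← mul_add, ← Finset.sum_add_distrib]
  congr 1
  apply Finset.sum_congr rfl
  intro X _
  ring

theorem mob_sum (D : Finset ι) :
    ∀ f : Finset ι → ℝ, mob (fun J => ∑ X ∈ J.powerset, f X) D = f D := by
  induction D using Finset.induction_on with
  | empty => intro f; simp [mob]
  | insert u D hu ih =>
    intro f
    rw [mob_insert _ hu, ih f]
    have e : mob (fun X => ∑ Y ∈ (insert u X).powerset, f Y) D =
        mob (fun X => ∑ Y ∈ X.powerset, f Y + ∑ Y ∈ X.powerset, f (insert u Y)) D := by
      apply mob_congr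
      intro X hX
      exact Finset.sum_powerset_insert (fun h => hu (hX h)) f
    rw [e, mob_add, ih f, ih (fun Y => f (insert u Y))]
    ring

theorem mob_union_eq_zero (A C : Finset ι) (hd : Disjoint A C) :
    ∀ g : Finset ι → ℝ, (∀ J ⊆ C, mob (fun X => g (X ∪ J)) A = 0) → mob g (A ∪ C) = 0 := by
  induction C using Finset.induction_on with
  | empty =>
    intro g h
    simpa using h ∅ (subset_refl _)
  | insert u C hu ih =>
    intro g h
    have hd' : Disjoint A C := hd.mono_right (Finset.subset_insert u C)
    have huA : u ∉ A := fun h' => Finset.disjoint_left.mp hd h' (Finset.mem_insert_self u C)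
    have hu' : u ∉ A ∪ C := by
      rw [Finset.mem_union]
      tauto
    rw [Finset.union_insert, mob_insert _ hu',
      ih hd' g (fun J hJ => h J (hJ.trans (Finset.subset_insert u C))),
      ih hd' (fun X => g (insert u X)) (fun J hJ => by
        have := h (insert u J) (Finset.insert_subset_insert u hJ)
        simpa only [Finset.union_insert] using this)]
    ring

open Classical in
/-- Moebius coefficients of the link of `E`. -/
noncomputable def psi (N : Finset ι → Prop) (E D : Finset ι) : ℝ :=
  mob (fun J => if N (J ∪ E) then 1 else 0) D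

open Classical in
/-- Layer recursion, with the sum restricted to members of the family. -/
theorem zz_pos' (G : Finset ι) (N : Finset ι → Prop) (hdown : ∀ X Y, X ⊆ Y → N Y → N X)
    (hN0 : N ∅) {z L η : ℝ} (hL : 1 ≤ L) (hη : |z| * L ≤ η) (hη1 : η < 1)
    (hsum : ∀ E ⊆ G, N E → ∑ D ∈ (G \ E).powerset.filter N,
      |psi N E D| * (|z| * L / (1 - η)) ^ D.card ≤ L ^ E.card) : 0 < zz N z ∅ G := by
  refine (zz_pos G N hdown hN0 hL hη hη1
    (fun E J => ∑ X ∈ J.powerset, if N X then psi N E X else 0) ?_ ?_ G (subset_refl _)).1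
  · intro E _ _ J _ _ hJ
    rw [← sum_mob J (fun J => if N (J ∪ E) then 1 else 0)]
    apply Finset.sum_congr rfl
    intro X hX
    rw [if_pos (hdown _ _ (Finset.mem_powerset.mp hX) hJ)]
    rfl
  · intro E hE hNE
    refine le_trans (le_of_eq ?_) (hsum E hE hNE)
    rw [Finset.sum_filter]
    apply Finset.sum_congr rfl
    intro D _
    rw [mob_sum D (fun X => if N X then psi N E X else 0)]
    split_ifs
    · rfl
    · simp

theorem abs_psi_le (N : Finset ι → Prop) (E D : Finset ι) : |psi N E D| ≤ 2 ^ D.card := by
  classical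
  apply abs_mob_le
  intro X
  split_ifs <;> simp

/-- Structure of a nonzero coefficient along a splitting of `D`. -/
theorem psi_split (N : Finset ι → Prop) (hdown : ∀ X Y, X ⊆ Y → N Y → N X) {E A C : Finset ι}
    (hd : Disjoint A C) (h : psi N E (A ∪ C) ≠ 0) :
    ∃ J ⊆ C, N (J ∪ E) ∧ ∀ u ∈ A, ∃ X ⊆ A.erase u,
      N (X ∪ J ∪ E) ∧ ¬ N (insert u X ∪ J ∪ E) := by
  classical
  have h1 : ∃ J ⊆ C, mob (fun X => if N (X ∪ J ∪ E) then (1 : ℝ) else 0) A ≠ 0 := by
    by_contra hno
    push Not at hno
    exact h (mob_union_eq_zero A C hd _ hno)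
  obtain ⟨J, hJ, h2⟩ := h1
  refine ⟨J, hJ, ?_, ?_⟩
  · by_contra hN
    apply h2
    have e : mob (fun X => if N (X ∪ J ∪ E) then (1 : ℝ) else 0) A = mob (fun _ => 0) A := by
      apply mob_congr
      intro X _
      rw [if_neg]
      intro hX
      refine hN (hdown _ _ ?_ hX)
      rw [Finset.union_assoc]
      exact Finset.subset_union_right
    rw [e]
    simp [mob]
  · intro u hu
    by_contra hno
    push Not at hno
    apply h2
    apply mob_eq_zero _ hu
    intro X hX
    by_cases hN : N (X ∪ J ∪ E)
    · rw [if_pos hN, if_pos (hno X hX hN)]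
    · rw [if_neg hN, if_neg]
      intro h'
      exact hN (hdown _ _ (Finset.union_subset_union_left
        (Finset.union_subset_union_left (Finset.subset_insert u X))) h')

end Mob2

section Lin2

variable {F : Type*} [Field F] {V : Type*} [AddCommGroup V] [Module F V]
variable {ι : Type*} [DecidableEq ι] (a : ι → V)

/-- Splitting of an independent set into the part attached to `E` and the rest. -/
theorem Ind.split {B E I : Finset ι} (hI : Ind F a B I) :
    ∃ D ⊆ I, IAtt F a B E D ∧ Ind F a (B ∪ E ∪ D) (I \ D) := by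
  classical
  set D := I.filter (fun u => a u ∈ sp F a (B ∪ E ∪ I.erase u)) with hDdef
  have hDI : D ⊆ I := Finset.filter_subset _ _
  have hJ : Ind F a (B ∪ E ∪ D) (I \ D) := by
    intro v hv hm
    obtain ⟨hv1, hv2⟩ := Finset.mem_sdiff.mp hv
    apply hv2
    refine Finset.mem_filter.mpr ⟨hv1, sp_mono a ?_ hm⟩
    intro x hx
    simp only [Finset.mem_union, Finset.mem_erase, Finset.mem_sdiff] at hx ⊢
    rcases hx with ((hx | hx) | hx) | hx
    · tauto
    · tauto
    · right
      exact ⟨fun e => hv2 (e ▸ hx), hDI hx⟩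
    · tauto
  refine ⟨D, hDI, ⟨Ind.mono a hI hDI, ?_⟩, hJ⟩
  intro u hu
  have hm := (Finset.mem_filter.mp hu).2
  apply mem_of_ind a hJ (C := sp F a (B ∪ E ∪ D.erase u))
  · exact sp_mono a (Finset.union_subset_union_right (Finset.erase_subset u D))
  · exact mem_sp a (Finset.mem_union_right _ hu)
  · rw [← sp_union]
    refine sp_mono a ?_ hm
    intro x hx
    simp only [Finset.mem_union, Finset.mem_erase, Finset.mem_sdiff] at hx ⊢
    tauto

theorem rk_ind {B J : Finset ι} (h : Ind F a B J) : rk F a (B ∪ J) = rk F a B + J.card := by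
  induction J using Finset.induction_on with
  | empty => simp
  | insert v J hv ih =>
    have h1 := ih (Ind.mono a h (Finset.subset_insert v J))
    have h2 : a v ∉ sp F a (B ∪ J) := by
      have := h v (Finset.mem_insert_self v J)
      rwa [Finset.erase_insert hv] at this
    have e : B ∪ insert v J = B ∪ J ∪ {v} := by ext x; simp
    have h3 := rk_union_le (F := F) a (B ∪ J) {v}
    have := fin_sp (F := F) a (B ∪ J ∪ {v})
    have h4 : rk F a (B ∪ J) < rk F a (B ∪ J ∪ {v}) := by
      apply Submodule.finrank_lt_finrank_of_lt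
      refine lt_of_le_of_ne (sp_mono a Finset.subset_union_left) (fun h' => h2 ?_)
      rw [h']
      exact mem_sp a (Finset.mem_union_right _ (Finset.mem_singleton_self v))
    rw [e, Finset.card_insert_of_notMem hv]
    rw [Finset.card_singleton] at h3
    omega

/-- Two bases of the same set modulo `Y` have the same size. -/
theorem card_eq_of_bases {Y D D' : Finset ι} (h : Ind F a Y D) (h' : Ind F a Y D')
    (h1 : ∀ u ∈ D, a u ∈ sp F a (Y ∪ D')) (h2 : ∀ u ∈ D', a u ∈ sp F a (Y ∪ D)) :
    D.card = D'.card := by
  have e : sp F a (Y ∪ D) = sp F a (Y ∪ D') := by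
    apply le_antisymm
    · apply sp_le
      intro u hu
      rcases Finset.mem_union.mp hu with p | p
      · exact mem_sp a (Finset.mem_union_left _ p)
      · exact h1 u p
    · apply sp_le
      intro u hu
      rcases Finset.mem_union.mp hu with p | p
      · exact mem_sp a (Finset.mem_union_left _ p)
      · exact h2 u p
  have p1 := rk_ind a h
  have p2 := rk_ind a h'
  unfold rk at p1 p2
  rw [e] at p1
  omega

variable [Fintype ι]

open Classical in
/-- Count of independent attached sets at a minimiser of the potential. -/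
theorem sum_IAtt_le' {t L : ℝ} (ht : 0 ≤ t) (hL : 1 ≤ L) {B : Finset ι}
    (hmin : ∀ B', B ⊆ B' → L ^ rk F a B * gI F a t B ≤ L ^ rk F a B' * gI F a t B')
    (E : Finset ι) :
    ∑ D ∈ (Finset.univ : Finset (Finset ι)).filter (fun D => IAtt F a B E D),
      (t / L) ^ D.card ≤ L ^ E.card := by
  have hL0 : 0 < L := by linarith
  have hg : 0 < gI F a t B := lt_of_lt_of_le one_pos (one_le_gI a ht B)
  have h1 : ∀ D : Finset ι, gI F a t B ≤ L ^ E.card * L ^ D.card * gI F a t (B ∪ E ∪ D) := by
    intro D
    have h := hmin (B ∪ E ∪ D) (Finset.subset_union_left.trans Finset.subset_union_left)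
    have hr : rk F a (B ∪ E ∪ D) ≤ rk F a B + (E.card + D.card) := by
      have := rk_union_le (F := F) a (B ∪ E) D
      have := rk_union_le (F := F) a B E
      omega
    have h2 : L ^ rk F a (B ∪ E ∪ D) ≤ L ^ rk F a B * (L ^ E.card * L ^ D.card) := by
      rw [← pow_add, ← pow_add]
      exact pow_le_pow_right₀ hL hr
    have hg' : 0 ≤ gI F a t (B ∪ E ∪ D) := le_trans zero_le_one (one_le_gI a ht _)
    have h3 : L ^ rk F a B * gI F a t B ≤
        L ^ rk F a B * (L ^ E.card * L ^ D.card * gI F a t (B ∪ E ∪ D)) := by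
      calc _ ≤ _ := h
        _ ≤ L ^ rk F a B * (L ^ E.card * L ^ D.card) * gI F a t (B ∪ E ∪ D) :=
            mul_le_mul_of_nonneg_right h2 hg'
        _ = _ := by ring
    exact le_of_mul_le_mul_left h3 (pow_pos hL0 _)
  have h2 : ∑ D ∈ (Finset.univ : Finset (Finset ι)).filter (fun D => IAtt F a B E D),
      t ^ D.card * gI F a t (B ∪ E ∪ D) ≤ gI F a t B := by
    unfold gI
    simp_rw [Finset.mul_sum]
    rw [Finset.sum_sigma']
    apply sum_le_of_inj _ _ (fun p => p.1 ∪ p.2)
    · intro p hp
      simp only [Finset.mem_sigma, Finset.mem_filter, Finset.mem_univ, true_and] at hp ⊢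
      exact ind_union a hp.1.1 hp.2
    · rintro ⟨D, I⟩ hp ⟨D', I'⟩ hp' he
      simp only [Finset.mem_sigma, Finset.mem_filter, Finset.mem_univ, true_and] at hp hp' he
      have e1 : D = D' := by
        ext u
        rw [recover a hp.1 hp.2 u, recover a hp'.1 hp'.2 u, he]
      subst e1
      have d1 : Disjoint D I := (Ind.disjoint a hp.2).mono_left Finset.subset_union_right
      have d2 : Disjoint D I' := (Ind.disjoint a hp'.2).mono_left Finset.subset_union_right
      have e2 : I = I' := by
        rw [← Finset.union_sdiff_cancel_left d1, he, Finset.union_sdiff_cancel_left d2]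
      subst e2
      rfl
    · intro p hp
      simp only [Finset.mem_sigma, Finset.mem_filter, Finset.mem_univ, true_and] at hp
      have d1 : Disjoint p.1 p.2 := (Ind.disjoint a hp.2).mono_left Finset.subset_union_right
      rw [Finset.card_union_of_disjoint d1, pow_add]
    · intro I _
      exact pow_nonneg ht _
  have h3 : (∑ D ∈ (Finset.univ : Finset (Finset ι)).filter (fun D => IAtt F a B E D),
      (t / L) ^ D.card) * gI F a t B ≤ L ^ E.card * gI F a t B := by
    rw [Finset.sum_mul]
    calc _ ≤ ∑ D ∈ (Finset.univ : Finset (Finset ι)).filter (fun D => IAtt F a B E D),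
          L ^ E.card * (t ^ D.card * gI F a t (B ∪ E ∪ D)) := by
          apply Finset.sum_le_sum
          intro D _
          calc (t / L) ^ D.card * gI F a t B
              ≤ (t / L) ^ D.card * (L ^ E.card * L ^ D.card * gI F a t (B ∪ E ∪ D)) :=
                mul_le_mul_of_nonneg_left (h1 D) (pow_nonneg (div_nonneg ht hL0.le) _)
            _ = _ := by
                rw [div_pow]
                field_simp
      _ ≤ _ := by
          rw [← Finset.mul_sum]
          exact mul_le_mul_of_nonneg_left h2 (pow_nonneg hL0.le _)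
  exact le_of_mul_le_mul_right h3 hg

end Lin2

end Pool.Agent.P17c400
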