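import Pool.Agent.P.MP_17c400_co.StA1

set_option autoImplicit false

namespace Pool.Agent.P17c400

open Finset

section Leaf

variable {F : Type*} [Field F] {V : Type*} [AddCommGroup V] [Module F V]
variable {ι : Type*} [LinearOrder ι] (a : ι → V)

variable (F) in
/-- `D` is a leaf of the deletion-contraction tree of `Z` in decreasing order. -/
def Leaf (B Y Z D : Finset ι) : Prop :=
  D ⊆ Z ∧ Ind F a Y D ∧ (∀ e ∈ Z, a e ∈ sp F a (Y ∪ D)) ∧
    (∀ u ∈ D, ∃ e ∈ Z, e < u ∧ a e ∉ sp F a (Y ∪ D.erase u)) ∧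
    ∀ e ∈ Z, a e ∉ sp F a (B ∪ D.filter (fun v => e < v))

omit [LinearOrder ι] in
theorem sp_exch [DecidableEq ι] {K : Finset ι} {u e : ι} (h1 : a e ∈ sp F a (K ∪ {u}))
    (h2 : a e ∉ sp F a K) : a u ∈ sp F a (K ∪ {e}) := by
  rw [sp_union, sp_singleton] at h1
  obtain ⟨s, hs, j, hj, hsj⟩ := Submodule.mem_sup.mp h1
  obtain ⟨r, rfl⟩ := Submodule.mem_span_singleton.mp hj
  have hr : r ≠ 0 := by
    rintro rfl
    apply h2
    rw [← hsj]
    simpa using hs
  have e1 : a u = r⁻¹ • (a e - s) := by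
    rw [← hsj, add_sub_cancel_left, smul_smul, inv_mul_cancel₀ hr, one_smul]
  rw [e1]
  apply Submodule.smul_mem
  apply Submodule.sub_mem
  · exact mem_sp a (Finset.mem_union_right _ (Finset.mem_singleton_self e))
  · exact sp_mono a Finset.subset_union_left hs

theorem Leaf.del {B Y Z D : Finset ι} {e : ι} (hlt : ∀ x ∈ Z, x < e)
    (h : Leaf F a B Y (insert e Z) D) (he : e ∉ D) :
    Leaf F a B Y Z D ∧ a e ∉ sp F a B ∧ a e ∈ sp F a (Y ∪ Z) := by
  obtain ⟨h1, h2, h3, h4, h5⟩ := h
  have hD : D ⊆ Z := (Finset.subset_insert_iff_of_notMem he).mp h1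
  refine ⟨⟨hD, h2, fun x hx => h3 x (Finset.mem_insert_of_mem hx), ?_,
    fun x hx => h5 x (Finset.mem_insert_of_mem hx)⟩, ?_, ?_⟩
  · intro u hu
    obtain ⟨x, p1, p2, p3⟩ := h4 u hu
    rcases Finset.mem_insert.mp p1 with rfl | p1
    · exact absurd (hlt u (hD hu)) (not_lt.mpr p2.le)
    · exact ⟨x, p1, p2, p3⟩
  · intro hm
    exact h5 e (Finset.mem_insert_self e Z) (sp_mono a Finset.subset_union_left hm)
  · exact sp_mono a (Finset.union_subset_union_right hD) (h3 e (Finset.mem_insert_self e Z))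

theorem Leaf.con {B Y Z D : Finset ι} {e : ι} (hlt : ∀ x ∈ Z, x < e)
    (h : Leaf F a B Y (insert e Z) D) (he : e ∈ D) :
    Leaf F a (insert e B) (insert e Y) Z (D.erase e) ∧ a e ∉ sp F a Y ∧
      a e ∈ sp F a (Y ∪ Z) := by
  obtain ⟨h1, h2, h3, h4, h5⟩ := h
  have hD : D.erase e ⊆ Z := Finset.subset_insert_iff.mp h1
  have e1 : insert e Y ∪ D.erase e = Y ∪ D := by
    ext x
    simp only [Finset.mem_union, Finset.mem_insert, Finset.mem_erase]
    by_cases hx : x = e
    · subst hx; tauto
    · tauto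
  have e2 : ∀ u ∈ D.erase e, insert e Y ∪ (D.erase e).erase u = Y ∪ D.erase u := by
    intro u hu
    have hue := (Finset.mem_erase.mp hu).1
    ext x
    simp only [Finset.mem_union, Finset.mem_insert, Finset.mem_erase]
    by_cases hx : x = e
    · subst hx
      have : x ≠ u := fun h => hue h.symm
      tauto
    · tauto
  refine ⟨⟨hD, ?_, ?_, ?_, ?_⟩, ?_, ?_⟩
  · intro u hu
    rw [e2 u hu]
    exact h2 u (Finset.mem_of_mem_erase hu)
  · intro x hx
    rw [e1]
    exact h3 x (Finset.mem_insert_of_mem hx)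
  · intro u hu
    obtain ⟨x, p1, p2, p3⟩ := h4 u (Finset.mem_of_mem_erase hu)
    rcases Finset.mem_insert.mp p1 with rfl | p1
    · exact absurd (hlt u (hD hu)) (not_lt.mpr p2.le)
    · exact ⟨x, p1, p2, by rw [e2 u hu]; exact p3⟩
  · intro x hx hm
    apply h5 x (Finset.mem_insert_of_mem hx)
    refine sp_mono a ?_ hm
    intro y hy
    simp only [Finset.mem_union, Finset.mem_insert, Finset.mem_erase, Finset.mem_filter] at hy ⊢
    rcases hy with (rfl | hy) | hy
    · exact Or.inr ⟨he, hlt x hx⟩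
    · exact Or.inl hy
    · exact Or.inr ⟨hy.1.2, hy.2⟩
  · intro hm
    exact h2 e he (sp_mono a Finset.subset_union_left hm)
  · obtain ⟨x, p1, p2, p3⟩ := h4 e he
    have p4 : x ∈ Z := by
      rcases Finset.mem_insert.mp p1 with rfl | p1
      · exact absurd p2 (lt_irrefl _)
      · exact p1
    have p5 : a x ∈ sp F a (Y ∪ D.erase e ∪ {e}) := by
      refine sp_mono a ?_ (h3 x p1)
      intro y hy
      simp only [Finset.mem_union, Finset.mem_erase, Finset.mem_singleton] at hy ⊢
      tauto
    refine sp_mono a ?_ (sp_exch a p5 p3)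
    intro y hy
    simp only [Finset.mem_union, Finset.mem_singleton] at hy ⊢
    rcases hy with (hy | hy) | hy
    · exact Or.inl hy
    · exact Or.inr (hD hy)
    · exact Or.inr (hy ▸ p4)

open Classical in
/-- The number of leaves is at most any function with the deletion-contraction inequalities. -/
theorem card_leaf_le (β : Finset ι → Finset ι → Finset ι → ℝ)
    (h0 : ∀ B Y, B ⊆ Y → 1 ≤ β ∅ B Y) (hnn : ∀ Z B Y, B ⊆ Y → 0 ≤ β Z B Y)
    (hdel : ∀ Z B Y e, B ⊆ Y → e ∉ Z → a e ∉ sp F a B → a e ∈ sp F a Y →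
      β Z B Y ≤ β (insert e Z) B Y)
    (hdc : ∀ Z B Y e, B ⊆ Y → e ∉ Z → a e ∉ sp F a Y → a e ∈ sp F a (Y ∪ Z) →
      β Z B Y + β Z (insert e B) (insert e Y) ≤ β (insert e Z) B Y) (Z : Finset ι) :
    ∀ B Y, B ⊆ Y → ((Z.powerset.filter (fun D => Leaf F a B Y Z D)).card : ℝ) ≤ β Z B Y := by
  induction Z using Finset.induction_on_max with
  | empty =>
    intro B Y hBY
    refine le_trans ?_ (h0 B Y hBY)
    have : ((∅ : Finset ι).powerset.filter (fun D => Leaf F a B Y ∅ D)).card ≤ 1 :=
      le_trans (Finset.card_filter_le _ _) (by simp)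
    exact_mod_cast this
  | insert e Z hlt ih =>
    intro B Y hBY
    have heZ : e ∉ Z := fun h => lt_irrefl e (hlt e h)
    set T := (insert e Z).powerset.filter (fun D => Leaf F a B Y (insert e Z) D) with hT
    have hsplit : (T.card : ℝ) =
        (T.filter (fun D => e ∉ D)).card + (T.filter (fun D => ¬ e ∉ D)).card := by
      exact_mod_cast (Finset.card_filter_add_card_filter_not (s := T) (fun D => e ∉ D)).symm
    have c1 : ((T.filter (fun D => e ∉ D)).card : ℝ) ≤ β Z B Y := by
      refine le_trans ?_ (ih B Y hBY)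
      have : (T.filter (fun D => e ∉ D)).card ≤
          (Z.powerset.filter (fun D => Leaf F a B Y Z D)).card := by
        apply Finset.card_le_card
        intro D hD
        obtain ⟨p1, p2⟩ := Finset.mem_filter.mp hD
        have p3 := (Leaf.del a hlt (Finset.mem_filter.mp p1).2 p2).1
        exact Finset.mem_filter.mpr ⟨Finset.mem_powerset.mpr p3.1, p3⟩
      exact_mod_cast this
    have c2 : ((T.filter (fun D => ¬ e ∉ D)).card : ℝ) ≤ β Z (insert e B) (insert e Y) := by
      refine le_trans ?_ (ih _ _ (Finset.insert_subset_insert e hBY))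
      have : (T.filter (fun D => ¬ e ∉ D)).card ≤
          (Z.powerset.filter (fun D => Leaf F a (insert e B) (insert e Y) Z D)).card := by
        apply Finset.card_le_card_of_injOn (fun D => D.erase e)
        · intro D hD
          obtain ⟨p1, p2⟩ := Finset.mem_filter.mp (Finset.mem_coe.mp hD)
          have p3 := (Leaf.con a hlt (Finset.mem_filter.mp p1).2 (not_not.mp p2)).1
          exact Finset.mem_coe.mpr (Finset.mem_filter.mpr ⟨Finset.mem_powerset.mpr p3.1, p3⟩)
        · intro D hD D' hD' h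
          have p2 := not_not.mp (Finset.mem_filter.mp (Finset.mem_coe.mp hD)).2
          have p2' := not_not.mp (Finset.mem_filter.mp (Finset.mem_coe.mp hD')).2
          simp only at h
          rw [← Finset.insert_erase p2, h, Finset.insert_erase p2']
      exact_mod_cast this
    rcases T.eq_empty_or_nonempty with hTe | ⟨D0, hD0⟩
    · rw [hTe]
      simpa using hnn _ B Y hBY
    have hL0 := (Finset.mem_filter.mp hD0).2
    have hsp : a e ∈ sp F a (Y ∪ Z) := by
      by_cases h : e ∈ D0
      · exact (Leaf.con a hlt hL0 h).2.2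
      · exact (Leaf.del a hlt hL0 h).2.2
    by_cases hY : a e ∈ sp F a Y
    · have z2 : T.filter (fun D => ¬ e ∉ D) = ∅ := by
        apply Finset.filter_eq_empty_iff.mpr
        intro D hD h
        exact (Leaf.con a hlt (Finset.mem_filter.mp hD).2 (not_not.mp h)).2.1 hY
      have hB : a e ∉ sp F a B := by
        by_cases h : e ∈ D0
        · exact absurd hY (Leaf.con a hlt hL0 h).2.1
        · exact (Leaf.del a hlt hL0 h).2.1
      rw [hsplit, z2]
      have := hdel Z B Y e hBY heZ hB hY
      simp only [Finset.card_empty, Nat.cast_zero]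
      linarith
    · have := hdc Z B Y e hBY heZ hY hsp
      linarith

end Leaf

end Pool.Agent.P17c400
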