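import Pool.Agent.P.MP_17c400_co.StA2

set_option autoImplicit false

namespace Pool.Agent.P17c400

open Finset

section Fib2

variable {F : Type*} [Field F] [Fintype F] {n : ℕ}
variable {ι : Type*} [Fintype ι] [LinearOrder ι]
variable (a : ι → Fin n → F) (c : ι → F) (B : Finset ι) (x0 : Fin n → F)

open Classical in
/-- Indices whose hyperplane contains the flat cut out by `D` on the fibre of `Y` through `x1`. -/
noncomputable def tc (Y : Finset ι) (x1 : Fin n → F) (D : Finset ι) : Finset ι :=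
  (gr a B).filter (fun e => ∀ x ∈ hs a c Y x1 D, a e ⬝ᵥ x = c e)

theorem mem_tc {Y : Finset ι} {x1 : Fin n → F} {D : Finset ι} {e : ι} :
    e ∈ tc a c B Y x1 D ↔ e ∈ gr a B ∧ ∀ x ∈ hs a c Y x1 D, a e ⬝ᵥ x = c e := by
  simp [tc]

theorem hs_nonempty {J : Finset ι} (hJ : Ind F a B J) : (hs a c B x0 J).Nonempty := by
  have h2 := card_ind a c B x0 hJ
  have h3 := Finset.card_pos.mpr ⟨x0, x0_mem a c B x0⟩
  rw [← Finset.card_pos]
  rcases Nat.eq_zero_or_pos (hs a c B x0 J).card with h | h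
  · rw [h, mul_zero] at h2
    omega
  · exact h

theorem sp_of_tight {J : Finset ι} {e : ι} (hne : (hs a c B x0 J).Nonempty)
    (h : ∀ x ∈ hs a c B x0 J, a e ⬝ᵥ x = c e) : a e ∈ sp F a (B ∪ J) := by
  obtain ⟨x1, hx1⟩ := hne
  by_contra hm
  obtain ⟨x, hx, hne⟩ := exists_off a c B x0 hx1 hm (c e)
  exact hne (h x hx)

/-- A basis of the tight set has the same tight set. -/
theorem tc_eq {Y : Finset ι} {x1 : Fin n → F} {D D' : Finset ι} (hD : Ind F a Y D)
    (h1 : D' ⊆ tc a c B Y x1 D) (h2 : ∀ u ∈ D, a u ∈ sp F a (Y ∪ D')) :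
    tc a c B Y x1 D' = tc a c B Y x1 D := by
  have s1 : hs a c Y x1 D ⊆ hs a c Y x1 D' := by
    intro x hx
    exact (mem_hs a c Y x1).mpr ⟨((mem_hs a c Y x1).mp hx).1,
      fun u hu => ((mem_tc a c B).mp (h1 hu)).2 x hx⟩
  obtain ⟨y, hy⟩ := hs_nonempty a c Y x1 hD
  have s2 : hs a c Y x1 D' ⊆ hs a c Y x1 D := by
    intro x hx
    refine (mem_hs a c Y x1).mpr ⟨((mem_hs a c Y x1).mp hx).1, fun u hu => ?_⟩
    rw [hs_const a c Y x1 hx (s1 hy) (h2 u hu)]
    exact ((mem_hs a c Y x1).mp hy).2 u hu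
  unfold tc
  rw [Finset.Subset.antisymm s2 s1]

/-- Step A: the coloop part of a set with nonzero coefficient is a leaf. -/
theorem leaf_of_split {E C J A : Finset ι} {x1 : Fin n → F} (hA : A ⊆ gr a B)
    (hNA : NN a c B x0 A) (hJ : J ⊆ C) (hx1 : x1 ∈ hs a c B x0 (J ∪ E))
    (hI : Ind F a (B ∪ E ∪ C) A)
    (h : ∀ u ∈ A, ∃ X ⊆ A.erase u,
      NN a c B x0 (X ∪ J ∪ E) ∧ ¬ NN a c B x0 (insert u X ∪ J ∪ E)) :
    Leaf F a B (B ∪ E ∪ C) (tc a c B (B ∪ E ∪ C) x1 A) A := by
  have hne := hs_nonempty a c (B ∪ E ∪ C) x1 hI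
  have hsub : hs a c (B ∪ E ∪ C) x1 A ⊆ hs a c B x0 (A ∪ J ∪ E) := by
    intro x hx
    rw [mem_hs] at hx hx1 ⊢
    refine ⟨fun v hv => ?_, fun u hu => ?_⟩
    · rw [hx.1 v (by simp [hv]), hx1.1 v hv]
    · simp only [Finset.mem_union] at hu
      rcases hu with (p | p) | p
      · exact hx.2 u p
      · rw [hx.1 u (by simp [hJ p]), hx1.2 u (by simp [p])]
      · rw [hx.1 u (by simp [p]), hx1.2 u (by simp [p])]
  obtain ⟨y, hy⟩ := hne
  refine ⟨?_, hI, ?_, ?_, ?_⟩
  · intro u hu
    exact (mem_tc a c B).mpr ⟨hA hu, fun x hx => ((mem_hs a c _ x1).mp hx).2 u hu⟩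
  · intro e he
    exact sp_of_tight a c _ x1 ⟨y, hy⟩ ((mem_tc a c B).mp he).2
  · intro u hu
    obtain ⟨X, hX, p1, p2⟩ := h u hu
    have p3 : ∃ M ⊆ insert u X ∪ J ∪ E, Forb a c B x0 M := by
      by_contra hno
      push Not at hno
      exact p2 hno
    obtain ⟨M, hM, hF⟩ := p3
    have hMe : M.erase u ⊆ X ∪ J ∪ E := by
      intro x hx
      obtain ⟨q1, q2⟩ := Finset.mem_erase.mp hx
      have := hM q2
      simp only [Finset.mem_union, Finset.mem_insert] at this ⊢
      tauto
    have huM : u ∈ M := by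
      by_contra h'
      rw [Finset.erase_eq_of_notMem h'] at hMe
      exact p1 M hMe hF
    have hMA : M ⊆ A ∪ J ∪ E := by
      refine hM.trans (Finset.union_subset_union_left (Finset.union_subset_union_left ?_))
      exact Finset.insert_subset hu (hX.trans (Finset.erase_subset u A))
    have hyM : y ∈ hs a c B x0 M := hs_anti a c B x0 hMA (hsub hy)
    rcases hF with hF | ⟨e, he, hlt, hc⟩
    · rw [hF] at hyM
      exact absurd hyM (Finset.notMem_empty _)
    refine ⟨e, (mem_tc a c B).mpr ⟨he, fun x hx => hc x (hs_anti a c B x0 hMA (hsub hx))⟩,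
      hlt u huM, fun hm => ?_⟩
    have q1 : a e ∈ sp F a (B ∪ M.erase u ∪ {u}) := by
      refine sp_mono a ?_ (sp_of_tight a c B x0 ⟨y, hyM⟩ hc)
      intro x hx
      simp only [Finset.mem_union, Finset.mem_erase, Finset.mem_singleton] at hx ⊢
      tauto
    have q2 : a e ∉ sp F a (B ∪ M.erase u) := fun hm' =>
      p1 _ hMe (forb_of_mem a c B x0 he (fun b hb => hlt b (Finset.mem_of_mem_erase hb))
        (Finset.erase_subset u M) hyM (hc y hyM) hm')
    apply hI u hu
    refine sp_le a ?_ (sp_exch a q1 q2)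
    intro x hx
    rcases Finset.mem_union.mp hx with hx | hx
    · apply mem_sp
      rcases Finset.mem_union.mp hx with hx | hx
      · simp [hx]
      · have := hMe hx
        simp only [Finset.mem_union] at this ⊢
        rcases this with (p | p) | p
        · exact Or.inr (hX p)
        · exact Or.inl (Or.inr (hJ p))
        · exact Or.inl (Or.inl (Or.inr p))
    · rw [Finset.mem_singleton.mp hx]
      exact hm
  · intro e he hm
    obtain ⟨q1, q2⟩ := (mem_tc a c B).mp he
    have hyA : y ∈ hs a c B x0 A :=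
      hs_anti a c B x0 (Finset.subset_union_left.trans Finset.subset_union_left) (hsub hy)
    exact hNA _ (Finset.filter_subset _ A) (forb_of_mem a c B x0 q1
      (fun b hb => (Finset.mem_filter.mp hb).2) (Finset.filter_subset _ A) hyA (q2 y hy) hm)

open Classical in
/-- Tightness can be dropped: only a linear family has to be counted. -/
theorem leaf_sum_le {Y : Finset ι} (x1 : Fin n → F) {ρ : ℝ} (hρ : 0 ≤ ρ) (Q : Finset ι → Prop)
    (hQ : ∀ Z ⊆ gr a B, (Z.powerset.filter (fun D => Leaf F a B Y Z D)).card ≤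
      (Z.powerset.filter (fun D => Ind F a Y D ∧ (∀ e ∈ Z, a e ∈ sp F a (Y ∪ D)) ∧ Q D)).card) :
    ∑ D ∈ (Finset.univ : Finset (Finset ι)).filter
        (fun D => Leaf F a B Y (tc a c B Y x1 D) D), ρ ^ D.card ≤
      ∑ D ∈ (gr a B).powerset.filter (fun D => Ind F a Y D ∧ Q D), ρ ^ D.card := by
  set T := (Finset.univ : Finset (Finset ι)).filter
    (fun D => Leaf F a B Y (tc a c B Y x1 D) D) with hT
  set U := (gr a B).powerset.filter (fun D => Ind F a Y D ∧ Q D) with hU
  rw [← Finset.sum_fiberwise_of_maps_to (s := T) (t := Finset.univ) (g := tc a c B Y x1)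
      (fun _ _ => Finset.mem_univ _),
    ← Finset.sum_fiberwise_of_maps_to (s := U) (t := Finset.univ) (g := tc a c B Y x1)
      (fun _ _ => Finset.mem_univ _)]
  apply Finset.sum_le_sum
  intro Z _
  rcases (T.filter (fun D => tc a c B Y x1 D = Z)).eq_empty_or_nonempty with h0 | ⟨D0, hD0⟩
  · rw [h0, Finset.sum_empty]
    exact Finset.sum_nonneg (fun D _ => pow_nonneg hρ _)
  obtain ⟨p1, p2⟩ := Finset.mem_filter.mp hD0
  have hL0 : Leaf F a B Y Z D0 := p2 ▸ (Finset.mem_filter.mp p1).2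
  have hZ : Z ⊆ gr a B := by
    rw [← p2]
    exact Finset.filter_subset _ _
  set S := Z.powerset.filter
    (fun D => Ind F a Y D ∧ (∀ e ∈ Z, a e ∈ sp F a (Y ∪ D)) ∧ Q D) with hS
  have hcard : ∀ D ⊆ Z, Ind F a Y D → (∀ e ∈ Z, a e ∈ sp F a (Y ∪ D)) → D.card = D0.card :=
    fun D q1 q2 q3 => card_eq_of_bases a q2 hL0.2.1 (fun u hu => hL0.2.2.1 u (q1 hu))
      (fun u hu => q3 u (hL0.1 hu))
  calc ∑ D ∈ T.filter (fun D => tc a c B Y x1 D = Z), ρ ^ D.card
      ≤ ∑ D ∈ Z.powerset.filter (fun D => Leaf F a B Y Z D), ρ ^ D.card := by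
        apply Finset.sum_le_sum_of_subset_of_nonneg
        · intro D hD
          obtain ⟨q1, q2⟩ := Finset.mem_filter.mp hD
          have q3 : Leaf F a B Y Z D := q2 ▸ (Finset.mem_filter.mp q1).2
          exact Finset.mem_filter.mpr ⟨Finset.mem_powerset.mpr q3.1, q3⟩
        · exact fun D _ _ => pow_nonneg hρ _
    _ = (Z.powerset.filter (fun D => Leaf F a B Y Z D)).card * ρ ^ D0.card := by
        rw [← nsmul_eq_mul, ← Finset.sum_const]
        apply Finset.sum_congr rfl
        intro D hD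
        have q3 := (Finset.mem_filter.mp hD).2
        rw [hcard D q3.1 q3.2.1 q3.2.2.1]
    _ ≤ S.card * ρ ^ D0.card := by
        apply mul_le_mul_of_nonneg_right _ (pow_nonneg hρ _)
        exact_mod_cast hQ Z hZ
    _ = ∑ D ∈ S, ρ ^ D.card := by
        rw [← nsmul_eq_mul, ← Finset.sum_const]
        apply Finset.sum_congr rfl
        intro D hD
        obtain ⟨q1, q2, q3, _⟩ := Finset.mem_filter.mp hD
        rw [hcard D (Finset.mem_powerset.mp q1) q2 q3]
    _ ≤ _ := by
        apply Finset.sum_le_sum_of_subset_of_nonneg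
        · intro D hD
          obtain ⟨q1, q2, q3, q4⟩ := Finset.mem_filter.mp hD
          have q5 := Finset.mem_powerset.mp q1
          refine Finset.mem_filter.mpr ⟨Finset.mem_filter.mpr
            ⟨Finset.mem_powerset.mpr (q5.trans hZ), q2, q4⟩, ?_⟩
          rw [← p2]
          exact tc_eq a c B hL0.2.1 (p2 ▸ q5) (fun u hu => q3 u (hL0.1 hu))
        · exact fun D _ _ => pow_nonneg hρ _

open Classical in
theorem sum_psi_le {t θ : ℝ} (ht : 0 ≤ t)
    (hmin : ∀ B', B ⊆ B' → (2 : ℝ) ^ rk F a B * gI F a t B ≤ 2 ^ rk F a B' * gI F a t B')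
    (hθ : 0 ≤ θ) (h1 : 8 * θ ≤ t / 2)
    (hlin : ∀ Y x1, B ⊆ Y → (2 : ℝ) ^ rk F a B * ∑ D ∈ (Finset.univ : Finset (Finset ι)).filter
      (fun D => Leaf F a B Y (tc a c B Y x1 D) D), (2 * θ) ^ D.card ≤ 2 ^ rk F a Y)
    (E : Finset ι) :
    ∑ D ∈ (gr a B \ E).powerset.filter (NN a c B x0),
      |psi (NN a c B x0) E D| * θ ^ D.card ≤ 4 ^ E.card := by
  have hθ2 : 0 ≤ 2 * θ := by linarith
  have hpt : ∀ J : Finset ι, ∃ x1 : Fin n → F,
      NN a c B x0 (J ∪ E) → x1 ∈ hs a c B x0 (J ∪ E) := by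
    intro J
    by_cases h : NN a c B x0 (J ∪ E)
    · obtain ⟨x, hx⟩ := Finset.nonempty_iff_ne_empty.mpr
        (fun h' => h _ (subset_refl _) (Or.inl h'))
      exact ⟨x, fun _ => hx⟩
    · exact ⟨0, fun h' => absurd h' h⟩
  choose pt hpt using hpt
  set S := ((gr a B \ E).powerset.filter (NN a c B x0)).filter
    (fun D => psi (NN a c B x0) E D ≠ 0) with hS
  have key : ∀ D ∈ S, ∃ p : Finset ι × Finset ι, p.1 ⊆ D ∧ IAtt F a B E p.1 ∧ p.2 ⊆ p.1 ∧
      Leaf F a B (B ∪ E ∪ p.1) (tc a c B (B ∪ E ∪ p.1) (pt p.2) (D \ p.1)) (D \ p.1) := by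
    intro D hD
    obtain ⟨p1, p2⟩ := Finset.mem_filter.mp hD
    obtain ⟨p3, p4⟩ := Finset.mem_filter.mp p1
    have p5 : D ⊆ gr a B := (Finset.mem_powerset.mp p3).trans Finset.sdiff_subset
    obtain ⟨C, q1, q2, q3⟩ := Ind.split a (E := E) (NN_ind a c B x0 p5 p4)
    rw [← Finset.sdiff_union_of_subset q1] at p2
    obtain ⟨J, r1, r2, r3⟩ := psi_split _ (NN_down a c B x0) Finset.sdiff_disjoint p2
    exact ⟨(C, J), q1, q2, r1, leaf_of_split a c B x0 (Finset.sdiff_subset.trans p5)
      (NN_down a c B x0 _ _ Finset.sdiff_subset p4) r1 (hpt J r2) q3 r3⟩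
  choose! sl hsl using key
  have h2 : (0 : ℝ) < 2 ^ rk F a B := by positivity
  calc _ = ∑ D ∈ S, |psi (NN a c B x0) E D| * θ ^ D.card := by
        symm
        apply Finset.sum_filter_of_ne
        intro D _ h h'
        apply h
        rw [h']
        simp
    _ ≤ ∑ C ∈ (Finset.univ : Finset (Finset ι)).filter (fun C => IAtt F a B E C),
          ∑ J ∈ C.powerset, ∑ A ∈ (Finset.univ : Finset (Finset ι)).filter
            (fun A => Leaf F a B (B ∪ E ∪ C) (tc a c B (B ∪ E ∪ C) (pt J) A) A),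
            (2 * θ) ^ C.card * (2 * θ) ^ A.card := by
        simp_rw [Finset.sum_sigma']
        apply sum_le_of_inj _ _ (fun D => ⟨(sl D).1, ⟨(sl D).2, D \ (sl D).1⟩⟩)
        · intro D hD
          obtain ⟨p1, p2, p3, p4⟩ := hsl D hD
          simp only [Finset.mem_sigma, Finset.mem_filter, Finset.mem_univ, true_and,
            Finset.mem_powerset]
          exact ⟨p2, p3, p4⟩
        · intro D hD D' hD' he
          simp only [Sigma.mk.injEq, heq_eq_eq] at he
          rw [← Finset.union_sdiff_of_subset (hsl D hD).1,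
            ← Finset.union_sdiff_of_subset (hsl D' hD').1, he.2.2, he.1]
        · intro D hD
          simp only
          rw [← pow_add, add_comm, Finset.card_sdiff_add_card_eq_card (hsl D hD).1, mul_pow]
          exact mul_le_mul_of_nonneg_right (abs_psi_le _ E D) (pow_nonneg hθ _)
        · intro p _
          exact mul_nonneg (pow_nonneg hθ2 _) (pow_nonneg hθ2 _)
    _ ≤ ∑ C ∈ (Finset.univ : Finset (Finset ι)).filter (fun C => IAtt F a B E C),
          2 ^ E.card * (t / 2) ^ C.card := by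
        apply Finset.sum_le_sum
        intro C _
        have hb : ∀ J ∈ C.powerset, ∑ A ∈ (Finset.univ : Finset (Finset ι)).filter
            (fun A => Leaf F a B (B ∪ E ∪ C) (tc a c B (B ∪ E ∪ C) (pt J) A) A),
            (2 * θ) ^ C.card * (2 * θ) ^ A.card ≤ (2 * θ) ^ C.card * 2 ^ (E.card + C.card) := by
          intro J _
          rw [← Finset.mul_sum]
          apply mul_le_mul_of_nonneg_left _ (pow_nonneg hθ2 _)
          have p1 := hlin (B ∪ E ∪ C) (pt J)
            (Finset.subset_union_left.trans Finset.subset_union_left)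
          have hr : rk F a (B ∪ E ∪ C) ≤ rk F a B + (E.card + C.card) := by
            have := rk_union_le (F := F) a (B ∪ E) C
            have := rk_union_le (F := F) a B E
            omega
          have p2 : (2 : ℝ) ^ rk F a (B ∪ E ∪ C) ≤ 2 ^ rk F a B * 2 ^ (E.card + C.card) := by
            rw [← pow_add]
            exact pow_le_pow_right₀ (by norm_num) hr
          exact le_of_mul_le_mul_left (p1.trans p2) h2
        refine le_trans (Finset.sum_le_sum hb) ?_
        rw [Finset.sum_const, Finset.card_powerset, nsmul_eq_mul]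
        have p3 : (8 * θ) ^ C.card ≤ (t / 2) ^ C.card := pow_le_pow_left₀ (by linarith) h1 _
        calc _ = 2 ^ E.card * (2 * (2 * θ) * 2) ^ C.card := by
              push_cast
              rw [pow_add, mul_pow, mul_pow, mul_pow]
              ring
          _ ≤ _ := by
              apply mul_le_mul_of_nonneg_left _ (by positivity)
              rw [show 2 * (2 * θ) * 2 = 8 * θ by ring]
              exact p3
    _ ≤ 2 ^ E.card * 2 ^ E.card := by
        rw [← Finset.mul_sum]
        exact mul_le_mul_of_nonneg_left (sum_IAtt_le' a ht (by norm_num) hmin E) (by positivity)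
    _ = _ := by rw [← mul_pow]; norm_num

open Classical in
/-- No fibre is covered once the leaves are counted. -/
theorem fibre_not_covered' {t ρ : ℝ} (ht : 0 ≤ t)
    (hmin : ∀ B', B ⊆ B' → (2 : ℝ) ^ rk F a B * gI F a t B ≤ 2 ^ rk F a B' * gI F a t B')
    (hq : (4 : ℝ) < Fintype.card F) (h1 : 64 / ((Fintype.card F : ℝ) - 4) ≤ t)
    (h2 : 8 / ((Fintype.card F : ℝ) - 4) ≤ ρ)
    (hlin : ∀ Y x1, B ⊆ Y → (2 : ℝ) ^ rk F a B * ∑ D ∈ (Finset.univ : Finset (Finset ι)).filter
      (fun D => Leaf F a B Y (tc a c B Y x1 D) D), ρ ^ D.card ≤ 2 ^ rk F a Y) :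
    ¬ ∀ x ∈ hs a c B x0 ∅, ∃ u ∈ gr a B, a u ⬝ᵥ x = c u := by
  intro hcov
  have h0 := zz_eq_zero a c B x0 hcov
  have hq0 : (0 : ℝ) < Fintype.card F := by linarith
  have hq4 : (0 : ℝ) < Fintype.card F - 4 := by linarith
  have habs : |(-1 / (Fintype.card F : ℝ))| = 1 / Fintype.card F := by
    rw [abs_div, abs_neg, abs_one, abs_of_pos hq0]
  have hη1 : 4 / (Fintype.card F : ℝ) < 1 := (div_lt_one hq0).mpr hq
  have hθ : |(-1 / (Fintype.card F : ℝ))| * 4 / (1 - 4 / Fintype.card F) =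
      4 / (Fintype.card F - 4) := by
    rw [habs]
    field_simp
  have hθ0 : 0 ≤ 4 / ((Fintype.card F : ℝ) - 4) := by positivity
  have := zz_pos' (gr a B) (NN a c B x0) (NN_down a c B x0) (NN_empty a c B x0)
    (z := -1 / (Fintype.card F : ℝ)) (L := 4) (η := 4 / Fintype.card F) (by norm_num)
    (by rw [habs]; apply le_of_eq; ring) hη1
    (fun E _ _ => by
      rw [hθ]
      refine sum_psi_le a c B x0 ht hmin hθ0 ?_ (fun Y x1 hY => le_trans ?_ (hlin Y x1 hY)) E
      · have e : 8 * (4 / ((Fintype.card F : ℝ) - 4)) = 64 / ((Fintype.card F : ℝ) - 4) / 2 := by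
          ring
        rw [e]
        linarith
      · apply mul_le_mul_of_nonneg_left _ (by positivity)
        apply Finset.sum_le_sum
        intro D _
        apply pow_le_pow_left₀ (by positivity)
        have e : 2 * (4 / ((Fintype.card F : ℝ) - 4)) = 8 / ((Fintype.card F : ℝ) - 4) := by ring
        rw [e]
        exact h2)
  rw [h0] at this
  exact lt_irrefl _ this

end Fib2

end Pool.Agent.P17c400
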