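import Pool.Agent.P.MP_17c400_co.StA2

set_option autoImplicit false

namespace Pool.Agent.P17c400

open Finset

section Beta

variable {F : Type*} [Field F] {V : Type*} [AddCommGroup V] [Module F V]
variable {ι : Type*} [DecidableEq ι] (a : ι → V)

omit [DecidableEq ι] in
theorem rk_congr {A B : Finset ι} (h : sp F a A = sp F a B) : rk F a A = rk F a B := by
  unfold rk
  rw [h]

omit [DecidableEq ι] in
theorem rk_mono {A B : Finset ι} (h : sp F a A ≤ sp F a B) : rk F a A ≤ rk F a B := by
  have := fin_sp (F := F) a B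
  exact Submodule.finrank_mono h

theorem sp_union_le {A B C D : Finset ι} (h1 : sp F a A ≤ sp F a C) (h2 : sp F a B ≤ sp F a D) :
    sp F a (A ∪ B) ≤ sp F a (C ∪ D) := by
  rw [sp_union, sp_union]
  exact sup_le_sup h1 h2

theorem sp_insert_of_mem {B : Finset ι} {e : ι} (h : a e ∈ sp F a B) :
    sp F a (insert e B) = sp F a B := by
  apply le_antisymm
  · apply sp_le
    intro u hu
    rcases Finset.mem_insert.mp hu with rfl | hu
    · exact h
    · exact mem_sp a hu
  · exact sp_mono a (Finset.subset_insert e B)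

theorem sp_insert_le {B Y : Finset ι} (e : ι) (h : sp F a B ≤ sp F a Y) :
    sp F a (insert e B) ≤ sp F a (insert e Y) := by
  rw [Finset.insert_eq, Finset.insert_eq]
  exact sp_union_le a le_rfl h

theorem rk_insert_of_mem {B : Finset ι} {e : ι} (h : a e ∈ sp F a B) :
    rk F a (insert e B) = rk F a B := rk_congr a (sp_insert_of_mem a h)

theorem rk_insert_of_notMem {B : Finset ι} {e : ι} (h : a e ∉ sp F a B) :
    rk F a (insert e B) = rk F a B + 1 := by
  have h1 : Ind F a B {e} := by
    intro u hu
    rw [Finset.mem_singleton.mp hu]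
    simpa using h
  have := rk_ind a h1
  rwa [Finset.union_singleton, Finset.card_singleton] at this

theorem rk_submod {C Y : Finset ι} (A : Finset ι) (h : sp F a C ≤ sp F a Y) :
    rk F a (Y ∪ A) + rk F a C ≤ rk F a (C ∪ A) + rk F a Y := by
  have := fin_sp (F := F) a Y
  have := fin_sp (F := F) a (C ∪ A)
  have h1 := Submodule.finrank_sup_add_finrank_inf_eq (sp F a (C ∪ A)) (sp F a Y)
  have h2 : rk F a (Y ∪ A) = Module.finrank F ↥(sp F a (C ∪ A) ⊔ sp F a Y) := by
    unfold rk
    rw [sp_union, sp_union, sup_comm (sp F a C), sup_assoc, sup_eq_right.mpr h, sup_comm]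
  have h3 : rk F a C ≤ Module.finrank F ↥(sp F a (C ∪ A) ⊓ sp F a Y) := by
    have : Module.Finite F ↥(sp F a (C ∪ A) ⊓ sp F a Y) :=
      Module.Finite.of_injective (Submodule.inclusion inf_le_right) (Submodule.inclusion_injective _)
    exact Submodule.finrank_mono (le_inf (sp_mono a Finset.subset_union_left) h)
  unfold rk at *
  omega

variable (F) in
/-- Signed count of the subsets of `S` skew to `Y` modulo `B`. -/
noncomputable def bsum (S B Y : Finset ι) : ℝ :=
  ∑ A ∈ S.powerset,
    if rk F a (B ∪ A) + rk F a Y = rk F a (Y ∪ A) + rk F a B then (-1) ^ A.card else 0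

variable (F) in
/-- The invariant with its sign. -/
noncomputable def bet (S B Y : Finset ι) : ℝ :=
  (-1) ^ (rk F a (Y ∪ S) + rk F a Y) * bsum F a S B Y

theorem bsum_insert {S : Finset ι} {e : ι} (he : e ∉ S) (B Y : Finset ι) :
    bsum F a (insert e S) B Y = bsum F a S B Y - ∑ A ∈ S.powerset,
      if rk F a (insert e (B ∪ A)) + rk F a Y = rk F a (insert e (Y ∪ A)) + rk F a B
      then (-1) ^ A.card else 0 := by
  unfold bsum
  rw [Finset.sum_powerset_insert he, sub_eq_add_neg, ← Finset.sum_neg_distrib]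
  congr 1
  apply Finset.sum_congr rfl
  intro A hA
  have : e ∉ A := fun h => he (Finset.mem_powerset.mp hA h)
  rw [Finset.card_insert_of_notMem this, Finset.union_insert, Finset.union_insert]
  split_ifs
  · ring
  · ring

theorem bet_empty (B Y : Finset ι) : bet F a ∅ B Y = 1 := by
  simp [bet, bsum, add_comm, ← two_mul]

theorem bet_congr (S : Finset ι) {B B' Y Y' : Finset ι} (h1 : sp F a B = sp F a B')
    (h2 : sp F a Y = sp F a Y') : bet F a S B Y = bet F a S B' Y' := by
  have e1 : ∀ A, rk F a (B ∪ A) = rk F a (B' ∪ A) := fun A =>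
    rk_congr a (by rw [sp_union, sp_union, h1])
  have e2 : ∀ A, rk F a (Y ∪ A) = rk F a (Y' ∪ A) := fun A =>
    rk_congr a (by rw [sp_union, sp_union, h2])
  unfold bet bsum
  simp only [e1, e2, rk_congr a h1, rk_congr a h2]

theorem bet_loop {S B Y : Finset ι} {e : ι} (he : e ∉ S) (hBY : sp F a B ≤ sp F a Y)
    (h : a e ∈ sp F a B) : bet F a (insert e S) B Y = 0 := by
  unfold bet
  rw [bsum_insert a he]
  have e1 : ∀ A, rk F a (insert e (B ∪ A)) = rk F a (B ∪ A) := fun A =>
    rk_insert_of_mem a (sp_mono a Finset.subset_union_left h)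
  have e2 : ∀ A, rk F a (insert e (Y ∪ A)) = rk F a (Y ∪ A) := fun A =>
    rk_insert_of_mem a (sp_mono a Finset.subset_union_left (hBY h))
  simp only [e1, e2]
  unfold bsum
  rw [sub_self, mul_zero]

theorem bet_mem {S B Y : Finset ι} {e : ι} (he : e ∉ S) (hBY : sp F a B ≤ sp F a Y)
    (h : a e ∉ sp F a B) (h' : a e ∈ sp F a Y) : bet F a (insert e S) B Y = bet F a S B Y := by
  unfold bet
  have e2 : ∀ A, rk F a (insert e (Y ∪ A)) = rk F a (Y ∪ A) := fun A =>
    rk_insert_of_mem a (sp_mono a Finset.subset_union_left h')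
  rw [bsum_insert a he, Finset.union_insert, e2, Finset.sum_eq_zero, sub_zero]
  intro A _
  have h1 := rk_submod a A (C := insert e B) (Y := Y)
    ((sp_insert_le a e hBY).trans (sp_insert_of_mem a h').le)
  rw [rk_insert_of_notMem a h, Finset.insert_union] at h1
  rw [e2, if_neg (by omega)]

theorem bsum_dc {S B Y : Finset ι} {e : ι} (he : e ∉ S) (hBY : sp F a B ≤ sp F a Y)
    (h : a e ∉ sp F a Y) :
    bsum F a (insert e S) B Y = bsum F a S B Y - bsum F a S (insert e B) (insert e Y) := by
  rw [bsum_insert a he]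
  congr 1
  unfold bsum
  apply Finset.sum_congr rfl
  intro A _
  rw [rk_insert_of_notMem a h, rk_insert_of_notMem a (fun h' => h (hBY h')), Finset.insert_union,
    Finset.insert_union]
  exact if_congr (by omega) rfl rfl

theorem bsum_skew {S B Y : Finset ι} {e : ι} (hBY : sp F a B ≤ sp F a Y)
    (h : a e ∉ sp F a (Y ∪ S)) : bsum F a S (insert e B) (insert e Y) = bsum F a S B Y := by
  unfold bsum
  apply Finset.sum_congr rfl
  intro A hA
  have h1 : a e ∉ sp F a (Y ∪ A) := fun h' =>
    h (sp_mono a (Finset.union_subset_union_right (Finset.mem_powerset.mp hA)) h')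
  have h2 : a e ∉ sp F a (B ∪ A) := fun h' => h1 (sp_union_le a hBY le_rfl h')
  have h3 : a e ∉ sp F a Y := fun h' => h1 (sp_mono a Finset.subset_union_left h')
  rw [Finset.insert_union, Finset.insert_union, rk_insert_of_notMem a h1, rk_insert_of_notMem a h2,
    rk_insert_of_notMem a h3, rk_insert_of_notMem a (fun h' => h3 (hBY h'))]
  exact if_congr (by omega) rfl rfl

theorem bet_skew {S B Y : Finset ι} {e : ι} (hBY : sp F a B ≤ sp F a Y)
    (h : a e ∉ sp F a (Y ∪ S)) : bet F a S (insert e B) (insert e Y) = bet F a S B Y := by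
  unfold bet
  rw [bsum_skew a hBY h, Finset.insert_union, rk_insert_of_notMem a h,
    rk_insert_of_notMem a (fun h' => h (sp_mono a Finset.subset_union_left h'))]
  ring

theorem bet_col {S B Y : Finset ι} {e : ι} (he : e ∉ S) (hBY : sp F a B ≤ sp F a Y)
    (h : a e ∉ sp F a (Y ∪ S)) : bet F a (insert e S) B Y = 0 := by
  unfold bet
  rw [bsum_dc a he hBY (fun h' => h (sp_mono a Finset.subset_union_left h')), bsum_skew a hBY h,
    sub_self, mul_zero]

theorem bet_dc {S B Y : Finset ι} {e : ι} (he : e ∉ S) (hBY : sp F a B ≤ sp F a Y)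
    (h : a e ∉ sp F a Y) (h' : a e ∈ sp F a (Y ∪ S)) :
    bet F a (insert e S) B Y = bet F a S B Y + bet F a S (insert e B) (insert e Y) := by
  unfold bet
  rw [bsum_dc a he hBY h, Finset.union_insert, Finset.insert_union, rk_insert_of_mem a h',
    rk_insert_of_notMem a h]
  ring

theorem bet_nonneg (S : Finset ι) : ∀ B Y : Finset ι, sp F a B ≤ sp F a Y → 0 ≤ bet F a S B Y := by
  induction S using Finset.induction_on with
  | empty => intro B Y _; rw [bet_empty]; norm_num
  | insert e S he ih =>
    intro B Y hBY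
    by_cases h1 : a e ∈ sp F a B
    · rw [bet_loop a he hBY h1]
    by_cases h2 : a e ∈ sp F a Y
    · rw [bet_mem a he hBY h1 h2]
      exact ih B Y hBY
    by_cases h3 : a e ∈ sp F a (Y ∪ S)
    · rw [bet_dc a he hBY h2 h3]
      exact add_nonneg (ih B Y hBY) (ih _ _ (sp_insert_le a e hBY))
    · rw [bet_col a he hBY h3]

theorem bet_anti (S : Finset ι) : ∀ B B' Y : Finset ι, sp F a B ≤ sp F a B' →
    sp F a B' ≤ sp F a Y → bet F a S B' Y ≤ bet F a S B Y := by
  induction S using Finset.induction_on with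
  | empty => intro B B' Y _ _; rw [bet_empty, bet_empty]
  | insert e S he ih =>
    intro B B' Y h hBY
    by_cases h1 : a e ∈ sp F a B'
    · rw [bet_loop a he hBY h1]
      exact bet_nonneg a _ _ _ (h.trans hBY)
    by_cases h2 : a e ∈ sp F a Y
    · rw [bet_mem a he hBY h1 h2, bet_mem a he (h.trans hBY) (fun h' => h1 (h h')) h2]
      exact ih B B' Y h hBY
    by_cases h3 : a e ∈ sp F a (Y ∪ S)
    · rw [bet_dc a he hBY h2 h3, bet_dc a he (h.trans hBY) h2 h3]
      exact add_le_add (ih B B' Y h hBY) (ih _ _ _ (sp_insert_le a e h) (sp_insert_le a e hBY))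
    · rw [bet_col a he hBY h3, bet_col a he (h.trans hBY) h3]

variable (F) in
/-- Broken circuit polynomial. -/
noncomputable def pol (y : ℝ) (B S : Finset ι) : ℝ :=
  ∑ A ∈ S.powerset, (-1) ^ A.card * (-y) ^ (rk F a (B ∪ A) - rk F a B)

theorem pol_empty (y : ℝ) (B : Finset ι) : pol F a y B ∅ = 1 := by
  simp [pol]

theorem pol_congr (y : ℝ) {B B' : Finset ι} (h : sp F a B = sp F a B') (S : Finset ι) :
    pol F a y B S = pol F a y B' S := by
  have e1 : ∀ A, rk F a (B ∪ A) = rk F a (B' ∪ A) := fun A =>
    rk_congr a (by rw [sp_union, sp_union, h])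
  unfold pol
  simp only [e1, rk_congr a h]

theorem pol_loop (y : ℝ) {B S : Finset ι} {e : ι} (he : e ∉ S) (h : a e ∈ sp F a B) :
    pol F a y B (insert e S) = 0 := by
  unfold pol
  rw [Finset.sum_powerset_insert he, ← Finset.sum_add_distrib]
  apply Finset.sum_eq_zero
  intro A hA
  have : e ∉ A := fun h => he (Finset.mem_powerset.mp hA h)
  rw [Finset.card_insert_of_notMem this, Finset.union_insert,
    rk_insert_of_mem a (sp_mono a Finset.subset_union_left h)]
  ring

theorem pol_dc (y : ℝ) {B S : Finset ι} {e : ι} (he : e ∉ S) (h : a e ∉ sp F a B) :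
    pol F a y B (insert e S) = pol F a y B S + y * pol F a y (insert e B) S := by
  unfold pol
  rw [Finset.sum_powerset_insert he, Finset.mul_sum]
  congr 1
  apply Finset.sum_congr rfl
  intro A hA
  have h0 : e ∉ A := fun h => he (Finset.mem_powerset.mp hA h)
  have h1 : rk F a (insert e B) ≤ rk F a (insert e B ∪ A) :=
    rk_mono a (sp_mono a Finset.subset_union_left)
  have h2 := rk_insert_of_notMem a h
  have h3 : rk F a (insert e B ∪ A) - rk F a B =
      rk F a (insert e B ∪ A) - rk F a (insert e B) + 1 := by omega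
  rw [Finset.card_insert_of_notMem h0, Finset.union_insert, ← Finset.insert_union, h3]
  ring

theorem pol_bounds {y : ℝ} (hy : 0 ≤ y) (S : Finset ι) : ∀ B : Finset ι,
    0 ≤ pol F a y B S ∧ pol F a y B S ≤ (1 + y) ^ S.card ∧
      ((∀ e ∈ S, a e ∉ sp F a B) → 1 ≤ pol F a y B S) := by
  induction S using Finset.induction_on with
  | empty => intro B; simp [pol_empty]
  | insert e S he ih =>
    intro B
    by_cases h : a e ∈ sp F a B
    · rw [pol_loop a y he h]
      exact ⟨le_rfl, by positivity, fun h' => absurd h (h' e (Finset.mem_insert_self e S))⟩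
    · obtain ⟨p1, p2, p3⟩ := ih B
      obtain ⟨q1, q2, _⟩ := ih (insert e B)
      have q3 := mul_nonneg hy q1
      have q4 := mul_le_mul_of_nonneg_left q2 hy
      rw [pol_dc a y he h, Finset.card_insert_of_notMem he, pow_succ]
      refine ⟨by linarith, by linarith, fun h' => ?_⟩
      have := p3 (fun x hx => h' x (Finset.mem_insert_of_mem hx))
      linarith

/-- The splitting inequality. -/
theorem pol_split {y : ℝ} (hy : 0 ≤ y) (S : Finset ι) : ∀ B Y : Finset ι, sp F a B ≤ sp F a Y →
    ∑ K ∈ S.powerset, y ^ (rk F a (Y ∪ K) - rk F a Y) * bet F a K B Y *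
      pol F a y (Y ∪ K) (S \ K) ≤ pol F a y B S := by
  induction S using Finset.induction_on with
  | empty => intro B Y _; simp [pol_empty, bet_empty]
  | insert e S he ih =>
    intro B Y hBY
    rw [Finset.sum_powerset_insert he, ← Finset.sum_add_distrib]
    have hK : ∀ K ∈ S.powerset, e ∉ K := fun K hK h => he (Finset.mem_powerset.mp hK h)
    have hK2 : ∀ K : Finset ι, e ∉ S \ K := fun K h => he (Finset.mem_sdiff.mp h).1
    have e1 : ∀ K ∈ S.powerset, insert e S \ K = insert e (S \ K) := fun K h =>
      Finset.insert_sdiff_of_notMem _ (hK K h)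
    have e2 : ∀ K : Finset ι, insert e S \ insert e K = S \ K := fun K => by
      rw [Finset.insert_sdiff_insert, Finset.sdiff_insert_of_notMem he]
    by_cases h1 : a e ∈ sp F a B
    · rw [pol_loop a y he h1]
      apply le_of_eq
      apply Finset.sum_eq_zero
      intro K h
      rw [e1 K h, pol_loop a y (hK2 K) (sp_mono a Finset.subset_union_left (hBY h1)),
        bet_loop a (hK K h) hBY h1]
      ring
    rw [pol_dc a y he h1]
    by_cases h2 : a e ∈ sp F a Y
    · have h3 := mul_nonneg hy (pol_bounds (F := F) a hy S (insert e B)).1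
      refine le_trans (le_of_eq ?_) ((ih B Y hBY).trans (by linarith))
      apply Finset.sum_congr rfl
      intro K h
      have h4 : a e ∈ sp F a (Y ∪ K) := sp_mono a Finset.subset_union_left h2
      rw [e1 K h, e2, pol_loop a y (hK2 K) h4, bet_mem a (hK K h) hBY h1 h2, Finset.union_insert,
        rk_insert_of_mem a h4, pol_congr a y (sp_insert_of_mem a h4)]
      ring
    · refine le_trans (le_of_eq ?_) (add_le_add (ih B Y hBY)
        (mul_le_mul_of_nonneg_left (ih _ _ (sp_insert_le a e hBY)) hy))
      rw [Finset.mul_sum, ← Finset.sum_add_distrib]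
      apply Finset.sum_congr rfl
      intro K h
      have h5 := rk_insert_of_notMem a h2
      rw [e1 K h, e2, Finset.union_insert, Finset.insert_union, h5]
      by_cases h4 : a e ∈ sp F a (Y ∪ K)
      · have h6 : rk F a (insert e Y) ≤ rk F a (Y ∪ K) :=
          rk_mono a ((sp_insert_le a e (sp_mono a Finset.subset_union_left)).trans
            (sp_insert_of_mem a h4).le)
        have h7 : rk F a (Y ∪ K) - rk F a Y = rk F a (Y ∪ K) - (rk F a Y + 1) + 1 := by omega
        rw [pol_loop a y (hK2 K) h4, bet_dc a (hK K h) hBY h2 h4, rk_insert_of_mem a h4,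
          pol_congr a y (sp_insert_of_mem a h4), h7]
        ring
      · rw [pol_dc a y (hK2 K) h4, bet_col a (hK K h) hBY h4, bet_skew a hBY h4,
          rk_insert_of_notMem a h4, Nat.add_sub_add_right]
        ring

end Beta

end Pool.Agent.P17c400
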