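import Mathlib

set_option autoImplicit false

namespace Pool.Agent.P17c400

open Finset

section Ex

variable {ι : Type*} [DecidableEq ι]

/-- Expectation over a random subset of `G` with independent inclusion probabilities. -/
noncomputable def Ex (q : ι → ℝ) (G : Finset ι) (f : Finset ι → ℝ) : ℝ :=
  ∑ R ∈ G.powerset, ((∏ i ∈ R, q i) * ∏ i ∈ G \ R, (1 - q i)) * f R

theorem Ex_empty (q : ι → ℝ) (f : Finset ι → ℝ) : Ex q ∅ f = f ∅ := by
  simp [Ex]

theorem Ex_insert (q : ι → ℝ) {G : Finset ι} {v : ι} (hv : v ∉ G) (f : Finset ι → ℝ) :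
    Ex q (insert v G) f = (1 - q v) * Ex q G f + q v * Ex q G (fun R => f (insert v R)) := by
  unfold Ex
  rw [Finset.sum_powerset_insert hv, Finset.mul_sum, Finset.mul_sum]
  congr 1
  · apply Finset.sum_congr rfl
    intro R hR
    have hvR : v ∉ R := fun h => hv (Finset.mem_powerset.mp hR h)
    rw [Finset.insert_sdiff_of_notMem _ hvR,
      Finset.prod_insert (fun h => hv (Finset.mem_sdiff.mp h).1)]
    ring
  · apply Finset.sum_congr rfl
    intro R hR
    have hvR : v ∉ R := fun h => hv (Finset.mem_powerset.mp hR h)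
    rw [Finset.insert_sdiff_insert, Finset.sdiff_insert_of_notMem hv, Finset.prod_insert hvR]
    ring

theorem Ex_congr (q : ι → ℝ) {G : Finset ι} {f g : Finset ι → ℝ} (h : ∀ R ⊆ G, f R = g R) :
    Ex q G f = Ex q G g :=
  Finset.sum_congr rfl (fun R hR => by rw [h R (Finset.mem_powerset.mp hR)])

theorem Ex_w_nonneg {q : ι → ℝ} (h0 : ∀ i, 0 ≤ q i) (h1 : ∀ i, q i ≤ 1) (G R : Finset ι) :
    0 ≤ (∏ i ∈ R, q i) * ∏ i ∈ G \ R, (1 - q i) :=
  mul_nonneg (Finset.prod_nonneg (fun i _ => h0 i))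
    (Finset.prod_nonneg (fun i _ => sub_nonneg.mpr (h1 i)))

theorem Ex_mono {q : ι → ℝ} (h0 : ∀ i, 0 ≤ q i) (h1 : ∀ i, q i ≤ 1) {G : Finset ι}
    {f g : Finset ι → ℝ} (h : ∀ R ⊆ G, f R ≤ g R) : Ex q G f ≤ Ex q G g :=
  Finset.sum_le_sum (fun R hR =>
    mul_le_mul_of_nonneg_left (h R (Finset.mem_powerset.mp hR)) (Ex_w_nonneg h0 h1 G R))

theorem Ex_nonneg {q : ι → ℝ} (h0 : ∀ i, 0 ≤ q i) (h1 : ∀ i, q i ≤ 1) {G : Finset ι}
    {f : Finset ι → ℝ} (h : ∀ R ⊆ G, 0 ≤ f R) : 0 ≤ Ex q G f :=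
  Finset.sum_nonneg (fun R hR =>
    mul_nonneg (Ex_w_nonneg h0 h1 G R) (h R (Finset.mem_powerset.mp hR)))

theorem Ex_const_mul (q : ι → ℝ) (G : Finset ι) (r : ℝ) (f : Finset ι → ℝ) :
    Ex q G (fun R => r * f R) = r * Ex q G f := by
  unfold Ex
  rw [Finset.mul_sum]
  apply Finset.sum_congr rfl
  intro R _
  ring

theorem Ex_sum {κ : Type*} (q : ι → ℝ) (G : Finset ι) (s : Finset κ) (f : κ → Finset ι → ℝ) :
    Ex q G (fun R => ∑ k ∈ s, f k R) = ∑ k ∈ s, Ex q G (f k) := by
  unfold Ex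
  simp_rw [Finset.mul_sum]
  exact Finset.sum_comm

theorem Ex_prod (q z : ι → ℝ) (G : Finset ι) :
    Ex q G (fun R => ∏ i ∈ R, z i) = ∏ i ∈ G, (q i * z i + (1 - q i)) := by
  rw [Finset.prod_add]
  unfold Ex
  apply Finset.sum_congr rfl
  intro R _
  rw [Finset.prod_mul_distrib]
  ring

theorem Ex_const (q : ι → ℝ) (G : Finset ι) (r : ℝ) : Ex q G (fun _ => r) = r := by
  have h := Ex_prod q (fun _ => 1) G
  have h2 := Ex_const_mul q G r (fun _ => 1)
  simp only [Finset.prod_const_one, mul_one, add_sub_cancel] at h h2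
  rw [h2, h, mul_one]

theorem Ex_cond (q : ι → ℝ) (G : Finset ι) : ∀ (A : Finset ι) (f : Finset ι → ℝ), A ⊆ G →
    Ex q G (fun R => if A ⊆ R then f R else 0) =
      (∏ i ∈ A, q i) * Ex q G (fun R => f (R ∪ A)) := by
  induction G using Finset.induction_on with
  | empty =>
    intro A f hA
    rw [Finset.subset_empty.mp hA]
    simp [Ex_empty]
  | insert v G hv ih =>
    intro A f hA
    rw [Ex_insert q hv, Ex_insert q hv]
    by_cases hvA : v ∈ A
    · have e1 : Ex q G (fun R => if A ⊆ R then f R else 0) = 0 := by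
        rw [Ex_congr q (g := fun _ => 0), Ex_const]
        intro R hR
        rw [if_neg (fun h => hv (hR (h hvA)))]
      have e2 : Ex q G (fun R => if A ⊆ insert v R then f (insert v R) else 0) =
          (∏ i ∈ A.erase v, q i) * Ex q G (fun R => f (R ∪ A)) := by
        simp_rw [Finset.subset_insert_iff]
        rw [ih (A.erase v) (fun R => f (insert v R)) (Finset.subset_insert_iff.mp hA)]
        congr 1
        apply Ex_congr
        intro R _
        rw [← Finset.union_insert, Finset.insert_erase hvA]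
      have e3 : Ex q G (fun R => f (insert v R ∪ A)) = Ex q G (fun R => f (R ∪ A)) := by
        apply Ex_congr
        intro R _
        rw [Finset.insert_union, ← Finset.union_insert, Finset.insert_eq_of_mem hvA]
      rw [e1, e2, e3, ← Finset.mul_prod_erase A q hvA]
      ring
    · have hA' : A ⊆ G := (Finset.subset_insert_iff_of_notMem hvA).mp hA
      simp_rw [Finset.subset_insert_iff_of_notMem hvA]
      rw [ih A f hA', ih A (fun R => f (insert v R)) hA']
      simp_rw [Finset.insert_union]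
      ring

theorem Ex_split (q : ι → ℝ) (T G : Finset ι) : ∀ f g : Finset ι → ℝ,
    Ex q G (fun R => f (R ∩ T) * g (R \ T)) = Ex q G (fun R => f (R ∩ T)) * Ex q (G \ T) g := by
  induction G using Finset.induction_on with
  | empty =>
    intro f g
    simp [Ex_empty]
  | insert v G hv ih =>
    intro f g
    rw [Ex_insert q hv, Ex_insert q hv, ih f g]
    by_cases hvT : v ∈ T
    · simp_rw [Finset.insert_inter_of_mem hvT, Finset.insert_sdiff_of_mem _ hvT]
      rw [ih (fun R => f (insert v R)) g]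
      ring
    · simp_rw [Finset.insert_inter_of_notMem hvT, Finset.insert_sdiff_of_notMem _ hvT]
      rw [ih f (fun R => g (insert v R)), Ex_insert q (fun h => hv (Finset.mem_sdiff.mp h).1)]
      ring

/-- Harris inequality. -/
theorem Ex_harris {q : ι → ℝ} (h0 : ∀ i, 0 ≤ q i) (h1 : ∀ i, q i ≤ 1) (G : Finset ι) :
    ∀ f g : Finset ι → ℝ, (∀ X Y, X ⊆ Y → f X ≤ f Y) → (∀ X Y, X ⊆ Y → g X ≤ g Y) →
      Ex q G f * Ex q G g ≤ Ex q G (fun R => f R * g R) := by
  induction G using Finset.induction_on with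
  | empty =>
    intro f g _ _
    simp [Ex_empty]
  | insert v G hv ih =>
    intro f g hf hg
    rw [Ex_insert q hv, Ex_insert q hv, Ex_insert q hv]
    have p0 := ih f g hf hg
    have p1 := ih (fun R => f (insert v R)) (fun R => g (insert v R))
      (fun X Y h => hf _ _ (Finset.insert_subset_insert v h))
      (fun X Y h => hg _ _ (Finset.insert_subset_insert v h))
    have p2 : Ex q G f ≤ Ex q G (fun R => f (insert v R)) :=
      Ex_mono h0 h1 (fun R _ => hf _ _ (Finset.subset_insert v R))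
    have p3 : Ex q G g ≤ Ex q G (fun R => g (insert v R)) :=
      Ex_mono h0 h1 (fun R _ => hg _ _ (Finset.subset_insert v R))
    have p4 := mul_nonneg (mul_nonneg (h0 v) (sub_nonneg.mpr (h1 v)))
      (mul_nonneg (sub_nonneg.mpr p2) (sub_nonneg.mpr p3))
    have p5 := mul_le_mul_of_nonneg_left p0 (sub_nonneg.mpr (h1 v))
    have p6 := mul_le_mul_of_nonneg_left p1 (h0 v)
    nlinarith

theorem Ex_harris_prod {κ : Type*} {q : ι → ℝ} (h0 : ∀ i, 0 ≤ q i) (h1 : ∀ i, q i ≤ 1)
    (G : Finset ι) (f : κ → Finset ι → ℝ) (hf : ∀ k X Y, X ⊆ Y → f k X ≤ f k Y)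
    (hf0 : ∀ k X, 0 ≤ f k X) (s : Finset κ) :
    ∏ k ∈ s, Ex q G (f k) ≤ Ex q G (fun R => ∏ k ∈ s, f k R) := by
  classical
  induction s using Finset.induction_on with
  | empty => simp [Ex_const]
  | insert k s hk ih =>
    simp_rw [Finset.prod_insert hk]
    refine le_trans (mul_le_mul_of_nonneg_left ih (Ex_nonneg h0 h1 (fun R _ => hf0 k R))) ?_
    exact Ex_harris h0 h1 G _ _ (hf k) (fun X Y h =>
      Finset.prod_le_prod (fun k _ => hf0 k X) (fun k _ => hf k X Y h))

/-- Tilting. -/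
theorem Ex_tilt (q z : ι → ℝ) (hz : ∀ i, q i * z i + (1 - q i) ≠ 0) (G : Finset ι)
    (f : Finset ι → ℝ) :
    Ex q G (fun R => (∏ i ∈ R, z i) * f R) = (∏ i ∈ G, (q i * z i + (1 - q i))) *
      Ex (fun i => q i * z i / (q i * z i + (1 - q i))) G f := by
  unfold Ex
  rw [Finset.mul_sum]
  apply Finset.sum_congr rfl
  intro R hR
  rw [← Finset.prod_sdiff (Finset.mem_powerset.mp hR)]
  have e1 : (∏ i ∈ R, (q i * z i + (1 - q i))) * ∏ i ∈ R, (q i * z i / (q i * z i + (1 - q i))) =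
      (∏ i ∈ R, q i) * ∏ i ∈ R, z i := by
    rw [← Finset.prod_mul_distrib, ← Finset.prod_mul_distrib]
    apply Finset.prod_congr rfl
    intro i _
    field_simp [hz i]
  have e2 : (∏ i ∈ G \ R, (q i * z i + (1 - q i))) *
      ∏ i ∈ G \ R, (1 - q i * z i / (q i * z i + (1 - q i))) = ∏ i ∈ G \ R, (1 - q i) := by
    rw [← Finset.prod_mul_distrib]
    apply Finset.prod_congr rfl
    intro i _
    field_simp [hz i]
    ring
  rw [← e2]
  calc _ = ((∏ i ∈ R, q i) * ∏ i ∈ R, z i) * ((∏ i ∈ G \ R, (q i * z i + (1 - q i))) *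
        ∏ i ∈ G \ R, (1 - q i * z i / (q i * z i + (1 - q i)))) * f R := by ring
    _ = _ := by
        rw [← e1]
        ring

theorem prod_ite_inter (R S : Finset ι) (r : ℝ) :
    ∏ i ∈ R, (if i ∈ S then r else 1) = r ^ (R ∩ S).card := by
  rw [Finset.prod_ite_mem, Finset.prod_const]

/-- Probability of hitting a set. -/
theorem Ex_hit {q : ι → ℝ} (h1 : ∀ i, q i ≤ 1) {r : ℝ} (hr : ∀ i, 1 - q i ≤ r)
    {G S : Finset ι} (hS : S ⊆ G) :
    1 - r ^ S.card ≤ Ex q G (fun R => if (R ∩ S).Nonempty then 1 else 0) := by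
  have e : Ex q G (fun R => if (R ∩ S).Nonempty then 1 else 0) =
      1 - Ex q G (fun R => ∏ i ∈ R, (if i ∈ S then (0 : ℝ) else 1)) := by
    rw [eq_sub_iff_add_eq]
    refine Eq.trans ?_ (Ex_const q G 1)
    unfold Ex
    rw [← Finset.sum_add_distrib]
    apply Finset.sum_congr rfl
    intro R _
    simp only
    rw [← mul_add, prod_ite_inter]
    congr 1
    split_ifs with h
    · rw [zero_pow (Finset.card_pos.mpr h).ne', add_zero]
    · rw [Finset.not_nonempty_iff_eq_empty.mp h]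
      simp
  rw [e, Ex_prod]
  have e2 : ∏ i ∈ G, (q i * (if i ∈ S then (0 : ℝ) else 1) + (1 - q i)) = ∏ i ∈ S, (1 - q i) := by
    rw [← Finset.inter_eq_right.mpr hS, ← Finset.prod_ite_mem]
    apply Finset.prod_congr rfl
    intro i hi
    simp only [Finset.mem_inter, hi, true_and]
    split_ifs <;> ring
  rw [e2]
  have : ∏ i ∈ S, (1 - q i) ≤ r ^ S.card := by
    rw [← Finset.prod_const]
    exact Finset.prod_le_prod (fun i _ => sub_nonneg.mpr (h1 i)) (fun i _ => hr i)
  linarith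

/-- Hitting all targets while paying one half for each point of `N`. -/
theorem Ex_round {κ : Type*} {p : ℝ} (hp0 : 0 ≤ p) (hp1 : p ≤ 1) (G N : Finset ι) (T : Finset κ)
    (S : κ → Finset ι) (hS : ∀ u ∈ T, S u ⊆ G) :
    (1 - p / 2) ^ N.card * ∏ u ∈ T, (1 - (1 - p / 2) ^ (S u).card) ≤
      Ex (fun _ => p) G (fun R => (1 / 2) ^ (R ∩ N).card *
        ∏ u ∈ T, if (R ∩ S u).Nonempty then 1 else 0) := by
  simp_rw [← prod_ite_inter]
  have hz : ∀ i : ι, 0 < p * (if i ∈ N then (1 / 2 : ℝ) else 1) + (1 - p) := by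
    intro i
    split_ifs <;> linarith
  rw [Ex_tilt (fun _ => p) (fun i => if i ∈ N then 1 / 2 else 1) (fun i => (hz i).ne')]
  have h0 : ∀ i : ι, 0 ≤ p * (if i ∈ N then (1 / 2 : ℝ) else 1) /
      (p * (if i ∈ N then (1 / 2 : ℝ) else 1) + (1 - p)) := by
    intro i
    apply div_nonneg _ (hz i).le
    split_ifs <;> linarith
  have h1 : ∀ i : ι, p * (if i ∈ N then (1 / 2 : ℝ) else 1) /
      (p * (if i ∈ N then (1 / 2 : ℝ) else 1) + (1 - p)) ≤ 1 := by
    intro i
    rw [div_le_one (hz i)]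
    linarith
  have h2 : ∀ i : ι, 1 - p * (if i ∈ N then (1 / 2 : ℝ) else 1) /
      (p * (if i ∈ N then (1 / 2 : ℝ) else 1) + (1 - p)) ≤ 1 - p / 2 := by
    intro i
    have := hz i
    rw [sub_le_sub_iff_left, le_div_iff₀ this]
    split_ifs <;> nlinarith
  have hr0 : 0 ≤ 1 - p / 2 := by linarith
  have hr1 : 1 - p / 2 ≤ 1 := by linarith
  apply mul_le_mul
  · have e : ∏ i ∈ G, (p * (if i ∈ N then (1 / 2 : ℝ) else 1) + (1 - p)) =
        (1 - p / 2) ^ (G ∩ N).card := by
      rw [← prod_ite_inter]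
      apply Finset.prod_congr rfl
      intro i _
      split_ifs <;> ring
    rw [e]
    apply pow_le_pow_of_le_one hr0 hr1
    exact Finset.card_le_card Finset.inter_subset_right
  · refine le_trans ?_ (Ex_harris_prod h0 h1 G
      (fun u R => if (R ∩ S u).Nonempty then 1 else 0) ?_ ?_ T)
    · apply Finset.prod_le_prod
      · intro u _
        exact sub_nonneg.mpr (pow_le_one₀ hr0 hr1)
      · intro u hu
        exact Ex_hit h1 h2 (hS u hu)
    · intro u X Y h
      by_cases hX : (X ∩ S u).Nonempty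
      · rw [if_pos hX, if_pos (hX.mono (Finset.inter_subset_inter_right h))]
      · rw [if_neg hX]
        split_ifs <;> norm_num
    · intro u X
      split_ifs <;> norm_num
  · apply Finset.prod_nonneg
    intro u _
    exact sub_nonneg.mpr (pow_le_one₀ hr0 hr1)
  · exact Finset.prod_nonneg (fun i _ => (hz i).le)

end Ex

end Pool.Agent.P17c400
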