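import Pool.Agent.P.MP_17c400_co.StEx

set_option autoImplicit false

namespace Pool.Agent.P17c400

open Finset

theorem sum_cons {α : Type*} [Fintype α] (m : ℕ) (f : (Fin (m + 1) → α) → ℝ) :
    ∑ D : Fin (m + 1) → α, f D = ∑ x : α, ∑ D : Fin m → α, f (Fin.cons x D) := by
  rw [← (Fin.consEquiv (fun _ => α)).sum_comp f, Fintype.sum_prod_type]
  rfl

section Game

variable {ι : Type*} [DecidableEq ι]

/-- Union of the layers before `s`. -/
def pre {m : ℕ} (D : Fin m → Finset ι) (s : Fin m) : Finset ι :=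
  (Finset.univ.filter (fun t => t < s)).biUnion D

theorem mem_pre {m : ℕ} {D : Fin m → Finset ι} {s : Fin m} {x : ι} :
    x ∈ pre D s ↔ ∃ t, t < s ∧ x ∈ D t := by
  simp [pre]

theorem pre_cons_zero {m : ℕ} (A : Finset ι) (D : Fin m → Finset ι) :
    pre (Fin.cons A D : Fin (m + 1) → Finset ι) 0 = ∅ := by
  ext x
  simp [mem_pre]

theorem pre_cons_succ {m : ℕ} (A : Finset ι) (D : Fin m → Finset ι) (s : Fin m) :
    pre (Fin.cons A D : Fin (m + 1) → Finset ι) s.succ = A ∪ pre D s := by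
  ext x
  simp only [mem_pre, Finset.mem_union, Fin.exists_fin_succ, Fin.cons_zero, Fin.cons_succ,
    Fin.succ_pos, true_and, Fin.succ_lt_succ_iff]

/-- `D` is an ordered partition of `X`. -/
def Part {m : ℕ} (X : Finset ι) (D : Fin m → Finset ι) : Prop :=
  (∀ s t, s ≠ t → Disjoint (D s) (D t)) ∧ Finset.univ.biUnion D = X

theorem Part.sub {m : ℕ} {X : Finset ι} {D : Fin m → Finset ι} (h : Part X D) (s : Fin m) :
    D s ⊆ X := by
  rw [← h.2]
  exact Finset.subset_biUnion_of_mem D (Finset.mem_univ s)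

theorem Part.cons {m : ℕ} {X A : Finset ι} {D : Fin m → Finset ι} (hA : A ⊆ X)
    (h : Part (X \ A) D) : Part X (Fin.cons A D : Fin (m + 1) → Finset ι) := by
  constructor
  · intro s t hst
    rcases Fin.eq_zero_or_eq_succ s with rfl | ⟨s, rfl⟩ <;>
      rcases Fin.eq_zero_or_eq_succ t with rfl | ⟨t, rfl⟩
    · exact absurd rfl hst
    · exact Finset.disjoint_sdiff.mono_right (h.sub t)
    · exact Finset.sdiff_disjoint.mono_left (h.sub s)
    · exact h.1 s t (fun e => hst (by rw [e]))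
  · ext x
    have := Finset.ext_iff.mp h.2 x
    simp only [Finset.mem_biUnion, Finset.mem_univ, true_and, Finset.mem_sdiff,
      Fin.exists_fin_succ, Fin.cons_zero, Fin.cons_succ] at this ⊢
    rw [this]
    have := @hA x
    tauto

/-- Sampling rates. -/
noncomputable def pp (m : ℕ) (s : Fin m) : ℝ := (1 / 2) ^ (m - 1 - s.val)

theorem pp_zero (m : ℕ) : pp (m + 1) 0 = (1 / 2) ^ m := by
  simp [pp]

theorem pp_succ (m : ℕ) (s : Fin m) : pp (m + 1) s.succ = pp m s := by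
  unfold pp
  congr 1
  simp only [Fin.val_succ]
  omega

theorem pp_pos (m : ℕ) (s : Fin m) : 0 < pp m s := by
  unfold pp
  positivity

theorem pp_le (m : ℕ) (s : Fin m) : pp m s ≤ 1 :=
  pow_le_one₀ (by norm_num) (by norm_num)

/-- Value of an element with class size `j` when `m` rounds remain. -/
noncomputable def phi (m j : ℕ) : ℝ :=
  if m = 0 then 0 else (1 / 6) * Real.exp (-max (2 * (j : ℝ) / 2 ^ m) (4 - 2 * (j : ℝ) / 2 ^ m))

theorem phi_nonneg (m j : ℕ) : 0 ≤ phi m j := by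
  unfold phi
  split_ifs
  · exact le_rfl
  · positivity

theorem phi_le (m j : ℕ) : phi m j ≤ 1 / 2 := by
  unfold phi
  split_ifs
  · norm_num
  · have : Real.exp (-max (2 * (j : ℝ) / 2 ^ m) (4 - 2 * j / 2 ^ m)) ≤ 1 := by
      rw [Real.exp_le_one_iff, neg_nonpos]
      exact le_max_of_le_left (by positivity)
    linarith

theorem phi_small {m j : ℕ} (h1 : 1 ≤ j) (h2 : j < 2 ^ m) :
    phi (m + 1) j ≤ Real.exp (-(j * (1 / 2) ^ m)) * phi m j := by
  have hm : m ≠ 0 := by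
    rintro rfl
    omega
  unfold phi
  rw [if_neg (Nat.succ_ne_zero m), if_neg hm, mul_left_comm, ← Real.exp_add]
  apply mul_le_mul_of_nonneg_left _ (by norm_num)
  rw [Real.exp_le_exp]
  have hp : (0 : ℝ) < 2 ^ m := by positivity
  have e1 : 2 * (j : ℝ) / 2 ^ (m + 1) = j / 2 ^ m := by
    rw [pow_succ]
    field_simp
  have e2 : (j : ℝ) * (1 / 2) ^ m = j / 2 ^ m := by
    rw [one_div, inv_pow]
    rfl
  have e3 : 2 * (j : ℝ) / 2 ^ m = 2 * (j / 2 ^ m) := by ring
  have h3 : (j : ℝ) / 2 ^ m ≤ 1 := by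
    rw [div_le_one hp]
    exact_mod_cast h2.le
  rw [e1, e2, e3, max_eq_right (by linarith : 2 * ((j : ℝ) / 2 ^ m) ≤ 4 - 2 * (j / 2 ^ m))]
  have := le_max_right ((j : ℝ) / 2 ^ m) (4 - j / 2 ^ m)
  linarith

theorem phi_big {m j s : ℕ} (h2 : 2 ^ m ≤ s) :
    phi (m + 1) j ≤ Real.exp (-(j * (1 / 2) ^ m)) *
      (1 / 2 * (1 - (1 - (1 / 2) ^ m / 2) ^ s)) := by
  unfold phi
  rw [if_neg (Nat.succ_ne_zero m)]
  have hp : (0 : ℝ) < 2 ^ m := by positivity
  have e1 : 2 * (j : ℝ) / 2 ^ (m + 1) = j / 2 ^ m := by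
    rw [pow_succ]
    field_simp
  have e2 : (j : ℝ) * (1 / 2) ^ m = j / 2 ^ m := by
    rw [one_div, inv_pow]
    rfl
  have h1 : Real.exp (-max ((j : ℝ) / 2 ^ m) (4 - j / 2 ^ m)) ≤ Real.exp (-(j / 2 ^ m)) := by
    rw [Real.exp_le_exp, neg_le_neg_iff]
    exact le_max_left _ _
  have hq : (1 / 2 : ℝ) ^ m ≤ 1 := pow_le_one₀ (by norm_num) (by norm_num)
  have hq0 : (0 : ℝ) < (1 / 2) ^ m := by positivity
  have h3 : (1 - (1 / 2 : ℝ) ^ m / 2) ^ s ≤ 2 / 3 := by
    calc _ ≤ (1 - (1 / 2 : ℝ) ^ m / 2) ^ (2 ^ m) :=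
          pow_le_pow_of_le_one (by linarith) (by linarith) h2
      _ ≤ Real.exp (-((1 / 2 : ℝ) ^ m / 2)) ^ (2 ^ m) := by
          apply pow_le_pow_left₀ (by linarith)
          have := Real.add_one_le_exp (-((1 / 2 : ℝ) ^ m / 2))
          linarith
      _ = Real.exp (-(1 / 2)) := by
          rw [← Real.exp_nat_mul]
          congr 1
          push_cast
          rw [one_div, inv_pow]
          field_simp
      _ ≤ 2 / 3 := by
          rw [Real.exp_neg, inv_le_comm₀ (Real.exp_pos _) (by norm_num)]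
          have := Real.add_one_le_exp (1 / 2)
          linarith
  rw [e1, e2]
  have h4 := Real.exp_pos (-((j : ℝ) / 2 ^ m))
  nlinarith

theorem exp_le_one_sub {p : ℝ} (hp0 : 0 ≤ p) (hp1 : p ≤ 1) : Real.exp (-p) ≤ 1 - p / 2 := by
  rw [Real.exp_neg, inv_le_comm₀ (Real.exp_pos _) (by linarith)]
  refine le_trans ?_ (Real.add_one_le_exp p)
  rw [inv_le_iff_one_le_mul₀ (by linarith)]
  nlinarith

variable (G D0 : Finset ι) (c Af : ι → Finset ι) (cov : ι → ι → Prop)

/-- The sample `R` pays for the layer `A`. -/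
def Ok (R Dn A : Finset ι) : Prop :=
  ∀ u ∈ A, ∃ e ∈ R, e ∈ Af u ∧ cov e u ∧ ∀ v ∈ D0, cov e v → v ∈ Dn ∪ A

open Classical in
/-- Value of one round. -/
noncomputable def HH (p : ℝ) (Dn A : Finset ι) : ℝ :=
  Ex (fun _ => p) G (fun R =>
    if Ok D0 Af cov R Dn A then ∏ u ∈ A, (1 / 2) ^ ((R ∩ c u).card + 1) else 0)

theorem HH_nonneg {p : ℝ} (hp0 : 0 ≤ p) (hp1 : p ≤ 1) (Dn A : Finset ι) :
    0 ≤ HH G D0 c Af cov p Dn A := by
  apply Ex_nonneg (fun _ => hp0) (fun _ => hp1)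
  intro R _
  split_ifs
  · positivity
  · exact le_rfl

theorem round (hc1 : ∀ u ∈ D0, u ∈ c u)
    (hc2 : ∀ u ∈ D0, ∀ v ∈ D0, u ≠ v → Disjoint (c u) (c v))
    (hS : ∀ u ∈ D0, ∃ S ⊆ G, S ⊆ Af u ∧ (c u).card ≤ S.card ∧ ∀ e ∈ S, cov e u)
    (hmono : ∀ u ∈ D0, ∀ v ∈ D0, (c u).card < (c v).card → Af v ⊆ Af u) (m : ℕ)
    {Dn Rem : Finset ι} (h1 : Rem ⊆ D0) (h2 : D0 ⊆ Dn ∪ Rem) :
    ∏ u ∈ Rem, phi (m + 1) (c u).card ≤
      ∑ A ∈ Rem.powerset, HH G D0 c Af cov ((1 / 2) ^ m) Dn A *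
        ∏ u ∈ Rem \ A, phi m (c u).card := by
  classical
  choose! S hS1 hS2 hS3 hS4 using hS
  set p : ℝ := (1 / 2) ^ m with hp
  have hp0 : 0 ≤ p := by positivity
  have hp1 : p ≤ 1 := pow_le_one₀ (by norm_num) (by norm_num)
  set T := Rem.filter (fun u => 2 ^ m ≤ (c u).card) with hT
  have hTR : T ⊆ Rem := Finset.filter_subset _ _
  set N := Rem.biUnion c with hN
  set γ : ℝ := (1 / 2) ^ T.card * ∏ u ∈ Rem \ T, phi m (c u).card with hγ
  have hγ0 : 0 ≤ γ := mul_nonneg (by positivity) (Finset.prod_nonneg (fun u _ => phi_nonneg _ _))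
  have key : ∀ R ⊆ G, γ * ((1 / 2) ^ (R ∩ N).card *
      ∏ u ∈ T, if (R ∩ S u).Nonempty then (1 : ℝ) else 0) ≤
      ∑ A ∈ Rem.powerset, (∏ u ∈ Rem \ A, phi m (c u).card) *
        (if Ok D0 Af cov R Dn A then ∏ u ∈ A, (1 / 2) ^ ((R ∩ c u).card + 1) else 0) := by
    intro R _
    have hnn : ∀ A ∈ Rem.powerset, 0 ≤ (∏ u ∈ Rem \ A, phi m (c u).card) *
        (if Ok D0 Af cov R Dn A then ∏ u ∈ A, (1 / 2 : ℝ) ^ ((R ∩ c u).card + 1) else 0) := by
      intro A _
      apply mul_nonneg (Finset.prod_nonneg (fun u _ => phi_nonneg _ _))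
      split_ifs
      · positivity
      · exact le_rfl
    by_cases hhit : ∀ u ∈ T, (R ∩ S u).Nonempty
    · choose! hit hh using hhit
      set A := Rem.filter (fun v => ∃ u ∈ T, cov (hit u) v) with hA
      have hAR : A ⊆ Rem := Finset.filter_subset _ _
      have hTA : T ⊆ A := fun u hu => Finset.mem_filter.mpr
        ⟨hTR hu, u, hu, hS4 u (h1 (hTR hu)) _ (Finset.mem_inter.mp (hh u hu)).2⟩
      have hok : Ok D0 Af cov R Dn A := by
        have hsupp : ∀ u ∈ T, ∀ v ∈ D0, cov (hit u) v → v ∈ Dn ∪ A := by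
          intro u hu v hv hc
          rcases Finset.mem_union.mp (h2 hv) with h | h
          · exact Finset.mem_union_left _ h
          · exact Finset.mem_union_right _ (Finset.mem_filter.mpr ⟨h, u, hu, hc⟩)
        intro v hv
        by_cases hvT : v ∈ T
        · obtain ⟨q1, q2⟩ := Finset.mem_inter.mp (hh v hvT)
          exact ⟨hit v, q1, hS2 v (h1 (hTR hvT)) q2, hS4 v (h1 (hTR hvT)) _ q2, hsupp v hvT⟩
        · obtain ⟨q0, u, hu, hc⟩ := Finset.mem_filter.mp hv
          obtain ⟨q1, q2⟩ := Finset.mem_inter.mp (hh u hu)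
          refine ⟨hit u, q1, hmono v (h1 q0) u (h1 (hTR hu)) ?_ (hS2 u (h1 (hTR hu)) q2), hc,
            hsupp u hu⟩
          have q3 : ¬ 2 ^ m ≤ (c v).card := fun h => hvT (Finset.mem_filter.mpr ⟨q0, h⟩)
          have q4 := (Finset.mem_filter.mp hu).2
          omega
      refine le_trans ?_ (Finset.single_le_sum hnn (Finset.mem_powerset.mpr hAR))
      rw [if_pos hok, Finset.prod_congr rfl (fun u hu => if_pos ⟨_, hh u hu⟩),
        Finset.prod_const_one, mul_one]
      simp_rw [pow_succ]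
      rw [Finset.prod_mul_distrib, Finset.prod_const, Finset.prod_pow_eq_pow_sum]
      have q1 : ∑ u ∈ A, (R ∩ c u).card ≤ (R ∩ N).card := by
        rw [← Finset.card_biUnion]
        · apply Finset.card_le_card
          intro x hx
          obtain ⟨u, hu, hx⟩ := Finset.mem_biUnion.mp hx
          exact Finset.mem_inter.mpr ⟨(Finset.mem_inter.mp hx).1,
            Finset.mem_biUnion.mpr ⟨u, hAR hu, (Finset.mem_inter.mp hx).2⟩⟩
        · intro u hu v hv huv
          exact (hc2 u (h1 (hAR hu)) v (h1 (hAR hv)) huv).mono Finset.inter_subset_right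
            Finset.inter_subset_right
      have q2 : (1 / 2 : ℝ) ^ (R ∩ N).card ≤ (1 / 2) ^ ∑ u ∈ A, (R ∩ c u).card :=
        pow_le_pow_of_le_one (by norm_num) (by norm_num) q1
      have q3 : γ ≤ (∏ u ∈ Rem \ A, phi m (c u).card) * (1 / 2) ^ A.card := by
        have e : Rem \ T = Rem \ A ∪ A \ T := by
          ext x
          have := @hTA x
          have := @hAR x
          simp only [Finset.mem_sdiff, Finset.mem_union]
          tauto
        have hd : Disjoint (Rem \ A) (A \ T) := Finset.sdiff_disjoint.mono_right Finset.sdiff_subset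
        have q4 : ∏ u ∈ A \ T, phi m (c u).card ≤ (1 / 2) ^ (A \ T).card := by
          rw [← Finset.prod_const]
          exact Finset.prod_le_prod (fun u _ => phi_nonneg _ _) (fun u _ => phi_le _ _)
        rw [hγ, e, Finset.prod_union hd, ← Finset.card_sdiff_add_card_eq_card hTA, pow_add]
        have q5 : 0 ≤ ∏ u ∈ Rem \ A, phi m (c u).card :=
          Finset.prod_nonneg (fun u _ => phi_nonneg _ _)
        calc _ = (∏ u ∈ Rem \ A, phi m (c u).card) *
              ((∏ u ∈ A \ T, phi m (c u).card) * (1 / 2) ^ T.card) := by ring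
          _ ≤ _ := mul_le_mul_of_nonneg_left (mul_le_mul_of_nonneg_right q4 (by positivity)) q5
      calc _ ≤ ((∏ u ∈ Rem \ A, phi m (c u).card) * (1 / 2) ^ A.card) *
            (1 / 2) ^ ∑ u ∈ A, (R ∩ c u).card :=
            mul_le_mul q3 q2 (by positivity) (le_trans hγ0 q3)
        _ = _ := by ring
    · push Not at hhit
      obtain ⟨u, hu, h0⟩ := hhit
      rw [Finset.prod_eq_zero hu (by rw [h0]; simp), mul_zero, mul_zero]
      exact Finset.sum_nonneg hnn
  have main := Ex_mono (q := fun _ => p) (fun _ => hp0) (fun _ => hp1) key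
  rw [Ex_const_mul, Ex_sum] at main
  have e1 : ∑ A ∈ Rem.powerset, HH G D0 c Af cov p Dn A * ∏ u ∈ Rem \ A, phi m (c u).card =
      ∑ A ∈ Rem.powerset, Ex (fun _ => p) G (fun R => (∏ u ∈ Rem \ A, phi m (c u).card) *
        (if Ok D0 Af cov R Dn A then ∏ u ∈ A, (1 / 2) ^ ((R ∩ c u).card + 1) else 0)) := by
    apply Finset.sum_congr rfl
    intro A _
    rw [Ex_const_mul, mul_comm]
    rfl
  rw [e1]
  refine le_trans ?_ main
  refine le_trans ?_ (mul_le_mul_of_nonneg_left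
    (Ex_round hp0 hp1 G N T S (fun u hu => hS1 u (h1 (hTR hu)))) hγ0)
  have hr0 : 0 ≤ 1 - p / 2 := by linarith
  have hr1 : 1 - p / 2 ≤ 1 := by linarith
  have q1 : ∏ u ∈ Rem, Real.exp (-((c u).card * p)) ≤ (1 - p / 2) ^ N.card := by
    calc _ ≤ ∏ u ∈ Rem, (1 - p / 2) ^ (c u).card := by
          apply Finset.prod_le_prod (fun u _ => (Real.exp_pos _).le)
          intro u _
          rw [← mul_neg, Real.exp_nat_mul]
          exact pow_le_pow_left₀ (Real.exp_pos _).le (exp_le_one_sub hp0 hp1) _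
      _ ≤ _ := by
          rw [Finset.prod_pow_eq_pow_sum]
          exact pow_le_pow_of_le_one hr0 hr1 Finset.card_biUnion_le
  have q2 : 0 ≤ ∏ u ∈ T, (1 - (1 - p / 2) ^ (S u).card) :=
    Finset.prod_nonneg (fun u _ => sub_nonneg.mpr (pow_le_one₀ hr0 hr1))
  calc ∏ u ∈ Rem, phi (m + 1) (c u).card
      = (∏ u ∈ Rem \ T, phi (m + 1) (c u).card) * ∏ u ∈ T, phi (m + 1) (c u).card :=
        (Finset.prod_sdiff hTR).symm
    _ ≤ (∏ u ∈ Rem \ T, Real.exp (-((c u).card * p)) * phi m (c u).card) *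
          ∏ u ∈ T, Real.exp (-((c u).card * p)) * (1 / 2 * (1 - (1 - p / 2) ^ (S u).card)) := by
        apply mul_le_mul
        · apply Finset.prod_le_prod (fun u _ => phi_nonneg _ _)
          intro u hu
          obtain ⟨r1, r2⟩ := Finset.mem_sdiff.mp hu
          exact phi_small (Finset.card_pos.mpr ⟨u, hc1 u (h1 r1)⟩)
            (not_le.mp (fun h => r2 (Finset.mem_filter.mpr ⟨r1, h⟩)))
        · apply Finset.prod_le_prod (fun u _ => phi_nonneg _ _)
          intro u hu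
          exact phi_big (le_trans (Finset.mem_filter.mp hu).2 (hS3 u (h1 (hTR hu))))
        · exact Finset.prod_nonneg (fun u _ => phi_nonneg _ _)
        · exact Finset.prod_nonneg (fun u _ => mul_nonneg (Real.exp_pos _).le (phi_nonneg _ _))
    _ = γ * ((∏ u ∈ Rem, Real.exp (-((c u).card * p))) *
          ∏ u ∈ T, (1 - (1 - p / 2) ^ (S u).card)) := by
        rw [← Finset.prod_sdiff hTR, hγ]
        simp only [Finset.prod_mul_distrib, Finset.prod_const]
        ring
    _ ≤ _ := mul_le_mul_of_nonneg_left (mul_le_mul_of_nonneg_right q1 q2) hγ0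

open Classical in
theorem game [Fintype ι] (hc1 : ∀ u ∈ D0, u ∈ c u)
    (hc2 : ∀ u ∈ D0, ∀ v ∈ D0, u ≠ v → Disjoint (c u) (c v))
    (hS : ∀ u ∈ D0, ∃ S ⊆ G, S ⊆ Af u ∧ (c u).card ≤ S.card ∧ ∀ e ∈ S, cov e u)
    (hmono : ∀ u ∈ D0, ∀ v ∈ D0, (c u).card < (c v).card → Af v ⊆ Af u) (m : ℕ) :
    ∀ Dn Rem : Finset ι, Rem ⊆ D0 → D0 ⊆ Dn ∪ Rem →
      ∏ u ∈ Rem, phi m (c u).card ≤ ∑ D : Fin m → Finset ι,
        if Part Rem D then ∏ s, HH G D0 c Af cov (pp m s) (Dn ∪ pre D s) (D s) else 0 := by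
  induction m with
  | zero =>
    intro Dn Rem _ _
    rcases Rem.eq_empty_or_nonempty with rfl | ⟨u, hu⟩
    · simp [Part]
    · rw [Finset.prod_eq_zero hu (by simp [phi])]
      apply Finset.sum_nonneg
      intro D _
      split_ifs <;> simp
  | succ m ih =>
    intro Dn Rem h1 h2
    have hnn : ∀ D : Fin (m + 1) → Finset ι, 0 ≤ if Part Rem D then
        ∏ s, HH G D0 c Af cov (pp (m + 1) s) (Dn ∪ pre D s) (D s) else 0 := by
      intro D
      split_ifs
      · exact Finset.prod_nonneg (fun s _ => HH_nonneg G D0 c Af cov (pp_pos _ s).le (pp_le _ s) _ _)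
      · exact le_rfl
    refine le_trans (round G D0 c Af cov hc1 hc2 hS hmono m h1 h2) ?_
    rw [sum_cons]
    refine le_trans (Finset.sum_le_sum ?_) (Finset.sum_le_sum_of_subset_of_nonneg
      (Finset.subset_univ Rem.powerset) (fun A _ _ => Finset.sum_nonneg (fun D _ => hnn _)))
    intro A hA
    have hA' := Finset.mem_powerset.mp hA
    have h0 : 0 ≤ HH G D0 c Af cov ((1 / 2) ^ m) Dn A :=
      HH_nonneg G D0 c Af cov (by positivity) (pow_le_one₀ (by norm_num) (by norm_num)) _ _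
    have h3 : D0 ⊆ Dn ∪ A ∪ Rem \ A := by
      rw [Finset.union_assoc, Finset.union_sdiff_of_subset hA']
      exact h2
    refine le_trans (mul_le_mul_of_nonneg_left
      (ih (Dn ∪ A) (Rem \ A) (Finset.sdiff_subset.trans h1) h3) h0) ?_
    rw [Finset.mul_sum]
    apply Finset.sum_le_sum
    intro D _
    by_cases hP : Part (Rem \ A) D
    · rw [if_pos hP, if_pos (Part.cons hA' hP), Fin.prod_univ_succ, pp_zero, pre_cons_zero,
        Finset.union_empty]
      simp only [pp_succ, pre_cons_succ, Fin.cons_zero, Fin.cons_succ, Finset.union_assoc]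
      exact le_rfl
    · rw [if_neg hP, mul_zero]
      exact hnn _

omit [DecidableEq ι] in
/-- Value of the whole game. -/
theorem phi_prod {L : ℕ} (D0 : Finset ι) (j : ι → ℕ) (h : ∑ u ∈ D0, j u ≤ 2 ^ L * D0.card) :
    (Real.exp (-5) / 6) ^ D0.card ≤ ∏ u ∈ D0, phi (L + 1) (j u) := by
  have hp : (0 : ℝ) < 2 ^ L := by positivity
  have h1 : ∏ u ∈ D0, (1 / 6 * Real.exp (-(j u / 2 ^ L + 4))) ≤ ∏ u ∈ D0, phi (L + 1) (j u) := by
    apply Finset.prod_le_prod (fun u _ => by positivity)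
    intro u _
    unfold phi
    rw [if_neg (Nat.succ_ne_zero L)]
    apply mul_le_mul_of_nonneg_left _ (by norm_num)
    have e1 : 2 * (j u : ℝ) / 2 ^ (L + 1) = j u / 2 ^ L := by
      rw [pow_succ]
      field_simp
    have : (0 : ℝ) ≤ j u / 2 ^ L := by positivity
    rw [Real.exp_le_exp, neg_le_neg_iff, e1, max_le_iff]
    constructor <;> linarith
  refine le_trans ?_ h1
  rw [Finset.prod_mul_distrib, Finset.prod_const, ← Real.exp_sum, div_eq_mul_one_div, mul_pow,
    mul_comm, ← Real.exp_nat_mul]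
  apply mul_le_mul_of_nonneg_left _ (by positivity)
  rw [Real.exp_le_exp, Finset.sum_neg_distrib, Finset.sum_add_distrib, ← Finset.sum_div,
    Finset.sum_const, nsmul_eq_mul]
  have h2 : (∑ u ∈ D0, (j u : ℝ)) / 2 ^ L ≤ D0.card := by
    rw [div_le_iff₀ hp, mul_comm]
    exact_mod_cast h
  linarith

end Game

end Pool.Agent.P17c400
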