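import Pool.Agent.P.MP_17c400_co.StA3

set_option autoImplicit false

namespace Pool.Agent.P17c400

open Finset

section Top

variable {F : Type*} [Field F] [Fintype F] {n : ℕ}

/-- An irredundant cover covers some fibre by the hyperplanes that are not constant on it. -/
theorem core' {ι : Type*} [Fintype ι] [LinearOrder ι] (a : ι → Fin n → F) (c : ι → F)
    (hcov : ∀ x, ∃ i, a i ⬝ᵥ x = c i) (hirr : ∀ j, ∃ x, ∀ i, i ≠ j → a i ⬝ᵥ x ≠ c i)
    (B : Finset ι) (hr : rk F a B < rk F a Finset.univ)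
    (hfib : ∀ x0, ¬ ∀ x ∈ hs a c B x0 ∅, ∃ u ∈ gr a B, a u ⬝ᵥ x = c u) : False := by
  classical
  have hne : ∃ j, j ∈ gr a B := by
    by_contra hno
    push Not at hno
    have hle : sp F a Finset.univ ≤ sp F a B := by
      apply sp_le
      intro u _
      by_contra hu
      exact hno u (by simpa [gr] using hu)
    have hrk : rk F a Finset.univ ≤ rk F a B := Submodule.finrank_mono hle
    omega
  obtain ⟨j, hj⟩ := hne
  obtain ⟨x0, hx0⟩ := hirr j
  apply hfib x0
  intro x hx
  obtain ⟨i, hi⟩ := hcov x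
  refine ⟨i, ?_, hi⟩
  by_contra hig
  have hm' : a i ∈ sp F a (B ∪ ∅) := by
    by_contra h
    exact hig (by simpa [gr] using h)
  have e := hs_const a c B x0 hx (x0_mem a c B x0) hm'
  exact hx0 i (fun e' => hig (e' ▸ hj)) (e ▸ hi)

omit [Fintype F] in
theorem rk_univ {ι : Type*} [Fintype ι] (a : ι → Fin n → F) :
    rk F a Finset.univ = Module.finrank F (Submodule.span F (Set.range a)) := by
  have e : sp F a Finset.univ = Submodule.span F (Set.range a) := by
    simp [sp]
  unfold rk
  rw [e]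

omit [Fintype F] in
/-- Several nonsingular matrices, one forbidden value per row. -/
theorem matrices_of {k : ℕ} (M : Fin k → Matrix (Fin n) (Fin n) F) (c : Fin k → Fin n → F)
    (H : ∀ (ι : Type) [Fintype ι] (a : ι → Fin n → F) (c : ι → F),
      (∀ x, ∃ i, a i ⬝ᵥ x = c i) → (∀ j, ∃ x, ∀ i, i ≠ j → a i ⬝ᵥ x ≠ c i) →
      k * Module.finrank F (Submodule.span F (Set.range a)) < Fintype.card ι)
    (hM : ∀ i, IsUnit (M i).det) :
    ∃ x : Fin n → F, ∀ i j, (M i).mulVec x j ≠ c i j := by
  classical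
  by_contra hno
  push Not at hno
  have hne : ((Finset.univ : Finset (Finset (Fin k × Fin n))).filter
      (fun T => ∀ x : Fin n → F, ∃ p ∈ T, M p.1 p.2 ⬝ᵥ x = c p.1 p.2)).Nonempty := by
    refine ⟨Finset.univ, Finset.mem_filter.mpr ⟨Finset.mem_univ _, fun x => ?_⟩⟩
    obtain ⟨i, j, h⟩ := hno x
    exact ⟨(i, j), Finset.mem_univ _, h⟩
  obtain ⟨T, hT, hmin⟩ := Finset.exists_min_image _ Finset.card hne
  have hT' := (Finset.mem_filter.mp hT).2
  have h1 := H T (fun p => M p.1.1 p.1.2) (fun p => c p.1.1 p.1.2)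
    (fun x => by
      obtain ⟨p, hp, h⟩ := hT' x
      exact ⟨⟨p, hp⟩, h⟩)
    (fun j => by
      by_contra h
      push Not at h
      have := hmin (T.erase j.1) (Finset.mem_filter.mpr ⟨Finset.mem_univ _, fun x => by
        obtain ⟨i, hi1, hi2⟩ := h x
        exact ⟨i.1, Finset.mem_erase.mpr ⟨fun e => hi1 (Subtype.ext e), i.2⟩, hi2⟩⟩)
      have := Finset.card_erase_lt_of_mem j.2
      omega)
  set r := Module.finrank F (Submodule.span F (Set.range (fun p : T => M p.1.1 p.1.2))) with hr
  have h2 : ∀ i : Fin k, (T.filter (fun p => p.1 = i)).card ≤ r := by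
    intro i
    have hli : LinearIndependent F (M i).row :=
      Matrix.linearIndependent_rows_iff_isUnit.mpr ((Matrix.isUnit_iff_isUnit_det _).mpr (hM i))
    have hli2 : LinearIndependent F
        (fun p : (T.filter (fun p => p.1 = i)) => (M i).row p.1.2) := by
      apply hli.comp (fun p : (T.filter (fun p => p.1 = i)) => p.1.2)
      intro p p' e
      apply Subtype.ext
      apply Prod.ext
      · rw [(Finset.mem_filter.mp p.2).2, (Finset.mem_filter.mp p'.2).2]
      · exact e
    have h3 := finrank_span_eq_card hli2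
    rw [Fintype.card_coe] at h3
    rw [← h3]
    apply Submodule.finrank_mono
    apply Submodule.span_mono
    rintro _ ⟨p, rfl⟩
    refine ⟨⟨p.1, (Finset.mem_filter.mp p.2).1⟩, ?_⟩
    simp only
    rw [(Finset.mem_filter.mp p.2).2]
    rfl
  have h3 : T.card ≤ k * r := by
    rw [Finset.card_eq_sum_card_fiberwise (f := fun p : Fin k × Fin n => p.1) (t := Finset.univ)
      (fun x _ => Finset.mem_coe.mpr (Finset.mem_univ _))]
    calc _ ≤ ∑ _i : Fin k, r := Finset.sum_le_sum (fun i _ => h2 i)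
      _ = _ := by simp
  rw [Fintype.card_coe] at h1
  omega

omit [Fintype F] in
/-- Several nonsingular matrices, at most `s` forbidden values per row. -/
theorem matrices_sets_of {k s : ℕ} (M : Fin k → Matrix (Fin n) (Fin n) F)
    (S : Fin k → Fin n → Finset F) (hS : ∀ i j, (S i j).card ≤ s)
    (H : ∀ (ι : Type) [Fintype ι] (a : ι → Fin n → F) (c : ι → F),
      (∀ x, ∃ i, a i ⬝ᵥ x = c i) → (∀ j, ∃ x, ∀ i, i ≠ j → a i ⬝ᵥ x ≠ c i) →
      k * s * Module.finrank F (Submodule.span F (Set.range a)) < Fintype.card ι)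
    (hM : ∀ i, IsUnit (M i).det) :
    ∃ x : Fin n → F, ∀ i j, (M i).mulVec x j ∉ S i j := by
  classical
  have h1 : ∀ i j, ∃ f : Fin s → F, ∀ y ∈ S i j, ∃ l, f l = y := by
    intro i j
    have hc : Fintype.card (S i j) ≤ Fintype.card (Fin s) := by
      rw [Fintype.card_coe, Fintype.card_fin]
      exact hS i j
    obtain ⟨g⟩ := Function.Embedding.nonempty_of_card_le hc
    refine ⟨fun l => if h : ∃ y, g y = l then (h.choose : F) else 0, fun y hy => ⟨g ⟨y, hy⟩, ?_⟩⟩
    have h : ∃ y', g y' = g ⟨y, hy⟩ := ⟨_, rfl⟩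
    simp only [dif_pos h]
    rw [g.injective h.choose_spec]
  choose f hf using h1
  obtain ⟨x, hx⟩ := matrices_of (k := k * s) (fun p => M (finProdFinEquiv.symm p).1)
    (fun p j => f (finProdFinEquiv.symm p).1 j (finProdFinEquiv.symm p).2) H (fun p => hM _)
  refine ⟨x, fun i j hm => ?_⟩
  obtain ⟨l, hl⟩ := hf i j _ hm
  apply hx (finProdFinEquiv (i, l)) j
  simp only [Equiv.symm_apply_apply]
  exact hl.symm

end Top

end Pool.Agent.P17c400
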